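import Pool.Agent.P.MP_177f55_an.Stmt

/-! Charts of a Riemannian surface are locally bi-Lipschitz. -/

open MeasureTheory Set Filter Topology Bundle
open scoped ContDiff Manifold NNReal ENNReal

noncomputable section

namespace Pool.Agent.P.MP_177f55_an

section General

open Manifold Metric

variable {E : Type*} [NormedAddCommGroup E] [NormedSpace ℝ E]
  {H : Type*} [TopologicalSpace H] (I : ModelWithCorners ℝ E H)
  {M : Type*} [TopologicalSpace M] [ChartedSpace H M]
  [RiemannianBundle fun x : M => TangentSpace I x]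
  [IsManifold I 1 M] [IsContinuousRiemannianBundle E fun x : M => TangentSpace I x]

attribute [local instance] normedAddCommGroupTangentSpaceVectorSpace
  normedSpaceTangentSpaceVectorSpace

set_option backward.isDefEq.respectTransparency false in
/-- the inverse chart is Lipschitz on a small ball -/
theorem bilip_symm (x : M) : ∃ C : ℝ≥0, ∃ r > (0 : ℝ),
    ball (extChartAt I x x) r ∩ range I ⊆ (extChartAt I x).target ∧
    ∀ a ∈ ball (extChartAt I x x) r ∩ range I, ∀ b ∈ ball (extChartAt I x x) r ∩ range I,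
      riemannianEDist I ((extChartAt I x).symm a) ((extChartAt I x).symm b) ≤ C * edist a b := by
  rcases eventually_enorm_mfderivWithin_symm_extChartAt_lt I x with ⟨C, C_pos, hC⟩
  obtain ⟨r, r_pos, hr⟩ : ∃ r > 0,
      ball (extChartAt I x x) r ∩ range I ⊆ (extChartAt I x).target ∩
        {y | ‖mfderivWithin 𝓘(ℝ, E) I (extChartAt I x).symm (range I) y‖ₑ < C} :=
    mem_nhdsWithin_iff.1 (inter_mem (extChartAt_target_mem_nhdsWithin x) hC)
  refine ⟨C, r, r_pos, hr.trans inter_subset_left, fun a ha b hb => ?_⟩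
  let η := ContinuousAffineMap.lineMap (R := ℝ) a b
  set γ := (extChartAt I x).symm ∘ η
  have hη : Icc 0 1 ⊆ ⇑η ⁻¹' ((extChartAt I x).target ∩
        {y | ‖mfderivWithin 𝓘(ℝ, E) I (extChartAt I x).symm (range I) y‖ₑ < C}) := by
    simp only [← image_subset_iff, ContinuousAffineMap.coe_lineMap_eq,
     ← segment_eq_image_lineMap, η]
    apply Subset.trans _ hr
    exact ((convex_ball _ _).inter I.convex_range).segment_subset ha hb
  simp only [preimage_inter, subset_inter_iff] at hη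
  have η_smooth : ContMDiffOn 𝓘(ℝ, ℝ) 𝓘(ℝ, E) 1 η (Icc 0 1) := by
    apply ContMDiff.contMDiffOn
    rw [contMDiff_iff_contDiff]
    exact ContinuousAffineMap.contDiff _
  have : riemannianEDist I ((extChartAt I x).symm a) ((extChartAt I x).symm b) ≤
      pathELength I γ 0 1 := by
    apply riemannianEDist_le_pathELength _ _ _ zero_le_one
    · exact (contMDiffOn_extChartAt_symm x).comp η_smooth hη.1
    · simp [γ, η, ContinuousAffineMap.coe_lineMap_eq]
    · simp [γ, η, ContinuousAffineMap.coe_lineMap_eq]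
  apply this.trans
  rw [← lintegral_fderiv_lineMap_eq_edist, pathELength_eq_lintegral_mfderivWithin_Icc,
    ← lintegral_const_mul' _ _ ENNReal.coe_ne_top]
  apply setLIntegral_mono' measurableSet_Icc (fun t ht ↦ ?_)
  have : mfderivWithin 𝓘(ℝ, ℝ) I γ (Icc 0 1) t =
      (mfderivWithin 𝓘(ℝ, E) I (extChartAt I x).symm (range I) (η t)) ∘L
        (mfderivWithin 𝓘(ℝ, ℝ) 𝓘(ℝ, E) η (Icc 0 1) t) := by
    apply mfderivWithin_comp
    · exact mdifferentiableWithinAt_extChartAt_symm (hη.1 ht)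
    · exact η_smooth.mdifferentiableOn one_ne_zero t ht
    · exact hη.1.trans (preimage_mono (extChartAt_target_subset_range x))
    · rw [uniqueMDiffWithinAt_iff_uniqueDiffWithinAt]
      exact uniqueDiffOn_Icc zero_lt_one t ht
  have : mfderivWithin 𝓘(ℝ, ℝ) I γ (Icc 0 1) t (1 : ℝ) =
      (mfderivWithin 𝓘(ℝ, E) I (extChartAt I x).symm (range I) (η t))
        (mfderivWithin 𝓘(ℝ, ℝ) 𝓘(ℝ, E) η (Icc 0 1) t (1 : ℝ)) := congr($this (1 : ℝ))
  rw [this]
  apply (ContinuousLinearMap.le_opENorm _ _).trans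
  gcongr
  · exact (hη.2 ht).le
  · simp only [mfderivWithin_eq_fderivWithin]
    exact le_of_eq rfl

set_option backward.isDefEq.respectTransparency false in
/-- the chart does not expand lengths of paths near the base point by more than a constant -/
theorem bilip_path (x : M) : ∃ C : ℝ≥0, ∃ u ∈ 𝓝 x, u ⊆ (chartAt H x).source ∧
    ∀ γ : ℝ → M, ContMDiffOn 𝓘(ℝ, ℝ) I 1 γ (Icc 0 1) → (∀ t ∈ Icc (0 : ℝ) 1, γ t ∈ u) →
      edist (extChartAt I x (γ 0)) (extChartAt I x (γ 1)) ≤ C * pathELength I γ 0 1 := by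
  rcases eventually_enorm_mfderiv_extChartAt_lt I x with ⟨C, C_pos, hC⟩
  refine ⟨C, _, inter_mem (chart_source_mem_nhds H x) hC, inter_subset_left,
    fun γ γ_smooth hγ => ?_⟩
  let γ' := extChartAt I x ∘ γ
  have hC : ContMDiffOn 𝓘(ℝ, ℝ) 𝓘(ℝ, E) 1 γ' (Icc 0 1) :=
    contMDiffOn_extChartAt.comp (I' := I) (t := (chartAt H x).source)
      γ_smooth (fun t' ht' ↦ (hγ t' ht').1)
  rw [edist_comm, edist_eq_enorm_sub]
  calc
      ‖γ' 1 - γ' 0‖ₑ
    _ ≤ ∫⁻ t' in Icc 0 1, ‖derivWithin γ' (Icc 0 1) t'‖ₑ := by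
      apply enorm_sub_le_lintegral_derivWithin_Icc_of_contDiffOn_Icc _ zero_le_one
      rwa [← contMDiffOn_iff_contDiffOn]
    _ = ∫⁻ t' in Icc 0 1, ‖mfderivWithin 𝓘(ℝ, ℝ) 𝓘(ℝ, E) γ' (Icc 0 1) t' (1 : ℝ)‖ₑ := by
      simp_rw [← fderivWithin_derivWithin, mfderivWithin_eq_fderivWithin]
      rfl
    _ ≤ ∫⁻ t' in Icc 0 1, C * ‖mfderivWithin 𝓘(ℝ, ℝ) I γ (Icc 0 1) t' (1 : ℝ)‖ₑ := by
      apply setLIntegral_mono' measurableSet_Icc (fun t' ht' ↦ ?_)
      have : mfderivWithin 𝓘(ℝ, ℝ) 𝓘(ℝ, E) γ' (Icc 0 1) t' =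
          (mfderiv I 𝓘(ℝ, E) (extChartAt I x) (γ t')) ∘L
            (mfderivWithin 𝓘(ℝ, ℝ) I γ (Icc 0 1) t') := by
        apply mfderiv_comp_mfderivWithin
        · exact mdifferentiableAt_extChartAt (hγ t' ht').1
        · exact γ_smooth.mdifferentiableOn one_ne_zero _ ht'
        · rw [uniqueMDiffWithinAt_iff_uniqueDiffWithinAt]
          exact uniqueDiffOn_Icc zero_lt_one _ ht'
      have : mfderivWithin 𝓘(ℝ, ℝ) 𝓘(ℝ, E) γ' (Icc 0 1) t' (1 : ℝ) =
          (mfderiv I 𝓘(ℝ, E) (extChartAt I x) (γ t'))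
            (mfderivWithin 𝓘(ℝ, ℝ) I γ (Icc 0 1) t' (1 : ℝ)) :=
        congr($this (1 : ℝ))
      rw [this]
      apply (ContinuousLinearMap.le_opENorm _ _).trans
      gcongr
      exact le_of_lt (hγ t' ht').2
    _ = C * pathELength I γ 0 1 := by
      rw [lintegral_const_mul' _ _ ENNReal.coe_ne_top,
          pathELength_eq_lintegral_mfderivWithin_Icc]

end General

section Metric

open Manifold

variable {E : Type*} [NormedAddCommGroup E] [NormedSpace ℝ E]
  {H : Type*} [TopologicalSpace H] (I : ModelWithCorners ℝ E H)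
  {M : Type*} [PseudoEMetricSpace M] [ChartedSpace H M]
  [RiemannianBundle fun x : M => TangentSpace I x]
  [IsManifold I 1 M] [IsContinuousRiemannianBundle E fun x : M => TangentSpace I x]
  [IsRiemannianManifold I M]

/-- the chart is Lipschitz near the base point -/
theorem bilip_chart (x : M) : ∃ C : ℝ≥0, ∃ v ∈ 𝓝 x, v ⊆ (chartAt H x).source ∧
    LipschitzOnWith C (extChartAt I x) v := by
  obtain ⟨C, u, hu, hus, hC⟩ := bilip_path I x
  obtain ⟨ε, ε_pos, hε⟩ := EMetric.mem_nhds_iff.1 hu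
  obtain ⟨δ, δ_pos, hδ⟩ : ∃ δ : ℝ≥0, 0 < δ ∧ (δ : ℝ≥0∞) + (δ + δ) ≤ ε := by
    obtain ⟨c, c_pos, hc⟩ := ENNReal.lt_iff_exists_nnreal_btwn.1 ε_pos
    refine ⟨c / 3, by have : 0 < c := by exact_mod_cast c_pos
                      positivity, le_trans (le_of_eq ?_) hc.le⟩
    rw [← ENNReal.coe_add, ← ENNReal.coe_add]
    congr 1
    ring
  have δ_pos' : (0 : ℝ≥0∞) < δ := by exact_mod_cast δ_pos
  refine ⟨C + 1, Metric.eball x δ, Metric.eball_mem_nhds x δ_pos', ?_, ?_⟩
  · refine Subset.trans (Subset.trans (Metric.eball_subset_eball ?_) hε) hus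
    exact le_trans le_self_add hδ
  · intro y hy z hz
    have hy' : edist y x < δ := hy
    have hz' : edist z x < δ := hz
    have hyz : edist y z < δ + δ := by
      calc edist y z ≤ edist y x + edist z x := edist_triangle_right _ _ _
        _ < δ + δ := ENNReal.add_lt_add hy' hz'
    have key : ∀ r : ℝ≥0∞, edist y z < r → r ≤ δ + δ →
        edist (extChartAt I x y) (extChartAt I x z) ≤ ((C + 1 : ℝ≥0) : ℝ≥0∞) * r := by
      intro r h1 h2
      rw [IsRiemannianManifold.out (I := I)] at h1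
      obtain ⟨γ, h0, h1', hγ, hl⟩ := exists_lt_of_riemannianEDist_lt h1
      have hin : ∀ t ∈ Icc (0 : ℝ) 1, γ t ∈ u := by
        intro t ht
        apply hε
        have a1 : edist y (γ t) ≤ pathELength I γ 0 t := by
          rw [IsRiemannianManifold.out (I := I)]
          exact riemannianEDist_le_pathELength (hγ.mono (Icc_subset_Icc_right ht.2)) h0 rfl ht.1
        have a2 : pathELength I γ 0 t ≤ pathELength I γ 0 1 := pathELength_mono le_rfl ht.2
        have a3 : edist y (γ t) < δ + δ := (a1.trans a2).trans_lt (hl.trans_le h2)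
        calc edist (γ t) x ≤ edist y x + edist y (γ t) := by
              rw [add_comm]; exact edist_triangle_left _ _ _
          _ < δ + (δ + δ) := ENNReal.add_lt_add hy' a3
          _ ≤ ε := hδ
      have := hC γ hγ hin
      rw [h0, h1'] at this
      refine this.trans ?_
      gcongr
      exact_mod_cast le_self_add
    have hC0 : ((C + 1 : ℝ≥0) : ℝ≥0∞) ≠ 0 := by
      have : (0 : ℝ≥0) < C + 1 := by positivity
      exact_mod_cast this.ne'
    rw [mul_comm, ← ENNReal.div_le_iff hC0 ENNReal.coe_ne_top]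
    refine le_of_forall_gt_imp_ge_of_dense fun r hr => ?_
    rw [ENNReal.div_le_iff hC0 ENNReal.coe_ne_top, mul_comm]
    refine (key (min r (δ + δ)) (lt_min hr hyz) (min_le_right _ _)).trans ?_
    gcongr
    exact min_le_left _ _

end Metric

theorem exists_biLip {M : Type*} [EMetricSpace M] [ChartedSpace E2 M] [IsManifold (𝓡 2) ∞ M]
    [RiemannianBundle fun x : M => TangentSpace (𝓡 2) x]
    [IsContMDiffRiemannianBundle (𝓡 2) ∞ E2 fun x : M => TangentSpace (𝓡 2) x]
    [IsRiemannianManifold (𝓡 2) M] (x : M) :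
    ∃ U : Set M, IsOpen U ∧ x ∈ U ∧ U ⊆ (chartAt E2 x).source ∧ ∃ C : ℝ≥0,
      LipschitzOnWith C (chartAt E2 x) U ∧
        LipschitzOnWith C (chartAt E2 x).symm (chartAt E2 x '' U) := by
  have : IsContinuousRiemannianBundle E2 fun x : M => TangentSpace (𝓡 2) x := by
    obtain ⟨g, hg, h⟩ := IsContMDiffRiemannianBundle.exists_contMDiff (IB := 𝓡 2) (n := ∞)
      (F := E2) (E := fun x : M => TangentSpace (𝓡 2) x)
    exact ⟨g, hg.continuous, h⟩
  obtain ⟨C₁, v, hv, hvs, h₁⟩ := bilip_chart (𝓡 2) x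
  obtain ⟨C₂, r, r_pos, -, h₂⟩ := bilip_symm (𝓡 2) x
  have e1 : (extChartAt (𝓡 2) x : M → E2) = chartAt E2 x := by
    ext y; simp
  have e2 : ((extChartAt (𝓡 2) x).symm : E2 → M) = (chartAt E2 x).symm := by
    ext y; simp
  rw [e1] at h₁
  rw [e1, e2] at h₂
  have hw : chartAt E2 x ⁻¹' Metric.ball (chartAt E2 x x) r ∈ 𝓝 x :=
    ((chartAt E2 x).continuousAt (mem_chart_source E2 x)).preimage_mem_nhds
      (Metric.ball_mem_nhds _ r_pos)
  obtain ⟨U, hU, Uo, xU⟩ := mem_nhds_iff.1 (inter_mem hv hw)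
  refine ⟨U, Uo, xU, (hU.trans inter_subset_left).trans hvs, max C₁ C₂,
    (h₁.mono (hU.trans inter_subset_left)).weaken (le_max_left _ _), ?_⟩
  refine LipschitzOnWith.weaken ?_ (le_max_right C₁ C₂)
  rintro _ ⟨y, hy, rfl⟩ _ ⟨z, hz, rfl⟩
  rw [IsRiemannianManifold.out (I := 𝓡 2)]
  exact h₂ _ ⟨(hU hy).2, by simp⟩ _ ⟨(hU hz).2, by simp⟩

end Pool.Agent.P.MP_177f55_an
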