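import Mathlib

/-! The Laplace-Beltrami operator of a Riemannian surface, in local coordinates. -/

open Bundle
open scoped Manifold

noncomputable section

namespace Pool.Agent.P.MP_177f55_an

/-- the coordinate plane -/
abbrev E2 := EuclideanSpace ℝ (Fin 2)

/-- the derivative of `u` in the `i`-th coordinate direction -/
def pd (i : Fin 2) (u : E2 → ℝ) (y : E2) : ℝ := fderiv ℝ u y (EuclideanSpace.single i 1)

variable {M : Type*} [TopologicalSpace M] [ChartedSpace E2 M]
  [RiemannianBundle fun x : M => TangentSpace (𝓡 2) x]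

/-- the `i`-th coordinate vector field of the chart at `x₀`, at the point with coordinates `y` -/
def coordVec (x₀ : M) (i : Fin 2) (y : E2) : TangentSpace (𝓡 2) ((chartAt E2 x₀).symm y) :=
  mfderiv (𝓡 2) (𝓡 2) (chartAt E2 x₀).symm y (EuclideanSpace.single i 1 : E2)

/-- the matrix `g_ij` of the Riemannian metric in the chart at `x₀` -/
def gMat (x₀ : M) (y : E2) : Matrix (Fin 2) (Fin 2) ℝ :=
  Matrix.of fun i j => inner ℝ (coordVec x₀ i y) (coordVec x₀ j y)

/-- `(det g)^(-1/2) ∑_i ∂_i ((det g)^(1/2) ∑_j g^ij ∂_j φ)` in the chart at `x₀` -/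
def lapChart (x₀ : M) (φ : M → ℝ) (y : E2) : ℝ :=
  (√(gMat x₀ y).det)⁻¹ * ∑ i, pd i (fun w => √(gMat x₀ w).det *
    ∑ j, (gMat x₀ w)⁻¹ i j * pd j (fun v => φ ((chartAt E2 x₀).symm v)) w) y

/-- the Laplace-Beltrami operator, evaluated at `x` in the chart at `x` -/
def laplaceBeltrami (φ : M → ℝ) (x : M) : ℝ := lapChart x φ (chartAt E2 x x)

end Pool.Agent.P.MP_177f55_an
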