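import Pool.Agent.P.MP_177f55_an.Piola
import Pool.Agent.P.MP_177f55_an.Stmt

/-! The metric and the Laplacian in the charts of a Riemannian surface. -/

open MeasureTheory Set Filter Topology Bundle
open scoped ContDiff Manifold NNReal ENNReal

noncomputable section

namespace Pool.Agent.P.MP_177f55_an

/-- the identification of the two models of the plane -/
def TT : Pl ≃L[ℝ] E2 :=
  (ContinuousLinearEquiv.finTwoArrow ℝ ℝ).symm.trans (EuclideanSpace.equiv (Fin 2) ℝ).symm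

lemma TT_zero (z : Pl) : TT z 0 = z.1 := rfl
lemma TT_one (z : Pl) : TT z 1 = z.2 := rfl

lemma chart_TT_eq (a : Pl) :
    TT a = a.1 • (EuclideanSpace.single 0 1 : E2) + a.2 • (EuclideanSpace.single 1 1 : E2) := by
  ext i
  fin_cases i
  · simp [TT_zero]
  · simp [TT_one]

lemma chart_TT_10 : TT (1, 0) = (EuclideanSpace.single 0 1 : E2) := by
  rw [chart_TT_eq]; simp

lemma chart_TT_01 : TT (0, 1) = (EuclideanSpace.single 1 1 : E2) := by
  rw [chart_TT_eq]; simp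

lemma chart_pd_zero (A : E2 → ℝ) (z : Pl) : pd 0 A (TT z) = rx (fun w => A (TT w)) z := by
  unfold pd rx
  have h := TT.comp_right_fderiv (f := A) (x := z)
  have h' : (fun w => A (TT w)) = A ∘ TT := rfl
  rw [h', h]
  simp [chart_TT_10]

lemma chart_pd_one (A : E2 → ℝ) (z : Pl) : pd 1 A (TT z) = ry (fun w => A (TT w)) z := by
  unfold pd ry
  have h := TT.comp_right_fderiv (f := A) (x := z)
  have h' : (fun w => A (TT w)) = A ∘ TT := rfl
  rw [h', h]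
  simp [chart_TT_01]

section

variable {M : Type*} [TopologicalSpace M] [ChartedSpace E2 M]

/-- the inverse chart at `x₀` -/
def sx (x₀ : M) (z : Pl) : M := (chartAt E2 x₀).symm (TT z)
/-- the chart at `x₀` -/
def ex (x₀ : M) (x : M) : Pl := TT.symm (chartAt E2 x₀ x)
/-- the target of the chart at `x₀` -/
def Ux (x₀ : M) : Set Pl := TT ⁻¹' (chartAt E2 x₀).target

lemma isOpen_Ux (x₀ : M) : IsOpen (Ux x₀) :=
  (chartAt E2 x₀).open_target.preimage TT.continuous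
lemma ex_mem {x₀ x : M} (hx : x ∈ (chartAt E2 x₀).source) : ex x₀ x ∈ Ux x₀ := by
  simp only [Ux, ex, mem_preimage, ContinuousLinearEquiv.apply_symm_apply]
  exact (chartAt E2 x₀).map_source hx
lemma sx_mem {x₀ : M} {z : Pl} (hz : z ∈ Ux x₀) : sx x₀ z ∈ (chartAt E2 x₀).source :=
  (chartAt E2 x₀).map_target hz
lemma sx_ex {x₀ x : M} (hx : x ∈ (chartAt E2 x₀).source) : sx x₀ (ex x₀ x) = x := by
  simp only [sx, ex, ContinuousLinearEquiv.apply_symm_apply]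
  exact (chartAt E2 x₀).left_inv hx
lemma ex_sx {x₀ : M} {z : Pl} (hz : z ∈ Ux x₀) : ex x₀ (sx x₀ z) = z := by
  simp only [sx, ex]
  rw [(chartAt E2 x₀).right_inv hz]
  simp
lemma continuousOn_sx (x₀ : M) : ContinuousOn (sx x₀) (Ux x₀) :=
  (chartAt E2 x₀).continuousOn_symm.comp TT.continuous.continuousOn (fun _ hz => hz)
lemma continuousOn_ex (x₀ : M) : ContinuousOn (ex x₀) (chartAt E2 x₀).source :=
  TT.symm.continuous.comp_continuousOn (chartAt E2 x₀).continuousOn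

lemma chart_TT_ex (x₀ x : M) : TT (ex x₀ x) = chartAt E2 x₀ x := by
  simp [ex]

lemma chart_continuousAt_sx {x₀ : M} {z : Pl} (hz : z ∈ Ux x₀) : ContinuousAt (sx x₀) z :=
  (continuousOn_sx x₀).continuousAt ((isOpen_Ux x₀).mem_nhds hz)

lemma chart_eventually {x₀ x₁ : M} {z : Pl} (hz : z ∈ Ux x₀)
    (h1 : sx x₀ z ∈ (chartAt E2 x₁).source) :
    ∀ᶠ w in 𝓝 z, w ∈ Ux x₀ ∧ sx x₀ w ∈ (chartAt E2 x₁).source :=
  ((isOpen_Ux x₀).eventually_mem hz).and
    ((chart_continuousAt_sx hz).eventually ((chartAt E2 x₁).open_source.mem_nhds h1))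

variable [IsManifold (𝓡 2) ∞ M]

lemma chart_symm_smooth {x₀ : M} {y : E2} (hy : y ∈ (chartAt E2 x₀).target) :
    ContMDiffAt (𝓡 2) (𝓡 2) ∞ (chartAt E2 x₀).symm y :=
  (contMDiffOn_chart_symm (I := 𝓡 2) (n := ∞) (x := x₀)).contMDiffAt
    ((chartAt E2 x₀).open_target.mem_nhds hy)

lemma chart_smooth {x₀ x : M} (hx : x ∈ (chartAt E2 x₀).source) :
    ContMDiffAt (𝓡 2) (𝓡 2) ∞ (chartAt E2 x₀) x :=
  (contMDiffOn_chart (I := 𝓡 2) (n := ∞) (x := x₀)).contMDiffAt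
    ((chartAt E2 x₀).open_source.mem_nhds hx)

lemma smAt_comp_sx {φ : M → ℝ} {x₀ : M} {z : Pl} (hz : z ∈ Ux x₀)
    (hφ : ContMDiffAt (𝓡 2) 𝓘(ℝ, ℝ) ∞ φ (sx x₀ z)) :
    ContDiffAt ℝ ∞ (fun w => φ (sx x₀ w)) z := by
  have h : ContMDiffAt (𝓡 2) 𝓘(ℝ, ℝ) ∞ (φ ∘ (chartAt E2 x₀).symm) (TT z) :=
    hφ.comp (TT z) (chart_symm_smooth hz)
  have h2 : ContDiffAt ℝ ∞ (φ ∘ (chartAt E2 x₀).symm) (TT z) := contMDiffAt_iff_contDiffAt.1 h
  exact h2.comp z TT.contDiff.contDiffAt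

lemma chart_trans_smooth {x₀ x₁ : M} {z : Pl} (hz : z ∈ Ux x₀)
    (h1 : sx x₀ z ∈ (chartAt E2 x₁).source) :
    ContDiffAt ℝ ∞ (chartAt E2 x₁ ∘ (chartAt E2 x₀).symm) (TT z) := by
  have h : ContMDiffAt (𝓡 2) (𝓡 2) ∞ (chartAt E2 x₁ ∘ (chartAt E2 x₀).symm) (TT z) :=
    (chart_smooth h1).comp (TT z) (chart_symm_smooth hz)
  exact contMDiffAt_iff_contDiffAt.1 h

lemma smAt_trans {x₀ x₁ : M} {z : Pl} (hz : z ∈ Ux x₀) (h1 : sx x₀ z ∈ (chartAt E2 x₁).source) :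
    ContDiffAt ℝ ∞ (fun w => ex x₁ (sx x₀ w)) z :=
  TT.symm.contDiff.contDiffAt.comp z ((chart_trans_smooth hz h1).comp z TT.contDiff.contDiffAt)

variable [RiemannianBundle fun x : M => TangentSpace (𝓡 2) x]

def gE (x₀ : M) (z : Pl) : ℝ := gMat x₀ (TT z) 0 0
def gF (x₀ : M) (z : Pl) : ℝ := gMat x₀ (TT z) 0 1
def gG (x₀ : M) (z : Pl) : ℝ := gMat x₀ (TT z) 1 1

/-- the differential of the inverse chart -/
def chartL (x₀ : M) (y : E2) (v : E2) : TangentSpace (𝓡 2) ((chartAt E2 x₀).symm y) :=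
  mfderiv (𝓡 2) (𝓡 2) (chartAt E2 x₀).symm y v

omit [IsManifold (𝓡 2) ∞ M] [RiemannianBundle fun x : M => TangentSpace (𝓡 2) x] in
lemma chartL_TT (x₀ : M) (y : E2) (a : Pl) :
    chartL x₀ y (TT a) = a.1 • coordVec x₀ 0 y + a.2 • coordVec x₀ 1 y := by
  unfold chartL coordVec
  rw [chart_TT_eq]
  exact ((mfderiv (𝓡 2) (𝓡 2) (chartAt E2 x₀).symm y).map_add _ _).trans
    (congrArg₂ (· + ·) ((mfderiv (𝓡 2) (𝓡 2) (chartAt E2 x₀).symm y).map_smul _ _)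
      ((mfderiv (𝓡 2) (𝓡 2) (chartAt E2 x₀).symm y).map_smul _ _))

omit [IsManifold (𝓡 2) ∞ M] in
lemma chart_inner (x₀ : M) (z a b : Pl) :
    inner ℝ (chartL x₀ (TT z) (TT a)) (chartL x₀ (TT z) (TT b)) =
      gE x₀ z * a.1 * b.1 + gF x₀ z * (a.1 * b.2 + a.2 * b.1) + gG x₀ z * a.2 * b.2 := by
  rw [chartL_TT, chartL_TT]
  simp only [gE, gF, gG, gMat, Matrix.of_apply, inner_add_left, inner_add_right, inner_smul_left,
    inner_smul_right, conj_trivial]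
  rw [real_inner_comm (coordVec x₀ 0 (TT z)) (coordVec x₀ 1 (TT z))]
  ring

lemma chart_inner_pos {x₀ : M} {z : Pl} (hz : z ∈ Ux x₀) {a : Pl} (ha : a ≠ 0) :
    0 < inner ℝ (chartL x₀ (TT z) (TT a)) (chartL x₀ (TT z) (TT a)) := by
  rw [real_inner_self_pos]
  intro h
  have hinj := (mdifferentiable_chart (I := 𝓡 2) x₀).symm.mfderiv_injective (x := TT z) hz
  have h0 : TT a = 0 := by
    apply hinj
    exact h.trans (ContinuousLinearMap.map_zero _).symm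
  exact ha (by simpa using h0)

omit [IsManifold (𝓡 2) ∞ M] in
lemma chart_inner_congr {p q : M} (h : p = q) (u v : E2) :
    @inner ℝ (TangentSpace (𝓡 2) p) _ u v = @inner ℝ (TangentSpace (𝓡 2) q) _ u v := by
  subst h; rfl

lemma g_pos {x₀ : M} {z : Pl} (hz : z ∈ Ux x₀) :
    0 < gE x₀ z ∧ 0 < gE x₀ z * gG x₀ z - gF x₀ z ^ 2 := by
  have h1 := chart_inner_pos hz (a := (1, 0)) (by simp)
  rw [chart_inner] at h1
  have hE : 0 < gE x₀ z := by simpa using h1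
  refine ⟨hE, ?_⟩
  have h2 := chart_inner_pos hz (a := (-gF x₀ z, gE x₀ z)) (by
    intro h
    have := congrArg Prod.snd h
    simp at this
    exact hE.ne' this)
  rw [chart_inner] at h2
  have h3 : 0 < gE x₀ z * (gE x₀ z * gG x₀ z - gF x₀ z ^ 2) := by
    simp only at h2
    nlinarith [h2]
  exact (mul_pos_iff_of_pos_left hE).1 h3

omit [RiemannianBundle fun x : M => TangentSpace (𝓡 2) x] in
lemma chartL_trans {x₀ x₁ : M} {z : Pl} (hz : z ∈ Ux x₀)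
    (h1 : sx x₀ z ∈ (chartAt E2 x₁).source) (a : Pl) :
    (chartL x₁ (TT (ex x₁ (sx x₀ z))) (TT (fderiv ℝ (fun w => ex x₁ (sx x₀ w)) z a)) : E2) =
      chartL x₀ (TT z) (TT a) := by
  set T : E2 → E2 := chartAt E2 x₁ ∘ (chartAt E2 x₀).symm with hT
  have hTs : ContDiffAt ℝ ∞ T (TT z) := chart_trans_smooth hz h1
  have hTd : DifferentiableAt ℝ T (TT z) := hTs.differentiableAt (by simp)
  have hfd : TT (fderiv ℝ (fun w => ex x₁ (sx x₀ w)) z a) = fderiv ℝ T (TT z) (TT a) := by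
    have e1 : (fun w => ex x₁ (sx x₀ w)) = TT.symm ∘ (T ∘ TT) := rfl
    rw [e1, TT.symm.comp_fderiv, TT.comp_right_fderiv]
    simp
  have hTz : TT (ex x₁ (sx x₀ z)) = T (TT z) := chart_TT_ex _ _
  have htar : T (TT z) ∈ (chartAt E2 x₁).target := (chartAt E2 x₁).map_source h1
  have hev : (chartAt E2 x₀).symm =ᶠ[𝓝 (TT z)] (chartAt E2 x₁).symm ∘ T := by
    have hc : ContinuousAt (chartAt E2 x₀).symm (TT z) := (chart_symm_smooth hz).continuousAt
    filter_upwards [hc.eventually ((chartAt E2 x₁).open_source.mem_nhds h1)] with y hy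
    exact ((chartAt E2 x₁).left_inv hy).symm
  have hcomp := mfderiv_comp (I := 𝓡 2) (I' := 𝓡 2) (I'' := 𝓡 2) (TT z)
    ((chart_symm_smooth htar).mdifferentiableAt (by simp))
    (mdifferentiableAt_iff_differentiableAt.2 hTd)
  unfold chartL
  rw [hfd, hev.mfderiv_eq, hcomp, mfderiv_eq_fderiv, hTz]
  rfl

lemma pullback_trans {x₀ x₁ : M} {z : Pl} (hz : z ∈ Ux x₀)
    (h1 : sx x₀ z ∈ (chartAt E2 x₁).source) :
    Pullback (fun w => ex x₁ (sx x₀ w)) (gE x₀) (gF x₀) (gG x₀) (gE x₁) (gF x₁) (gG x₁) z := by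
  intro a b
  rw [← chart_inner x₀ z a b, ← chart_inner x₁ (ex x₁ (sx x₀ z))]
  have hp : (chartAt E2 x₀).symm (TT z) = (chartAt E2 x₁).symm (TT (ex x₁ (sx x₀ z))) :=
    (sx_ex h1).symm
  have := chart_inner_congr hp (chartL x₀ (TT z) (TT a)) (chartL x₀ (TT z) (TT b))
  rw [this]
  congr 1
  · exact (chartL_trans hz h1 a).symm
  · exact (chartL_trans hz h1 b).symm

variable [IsContMDiffRiemannianBundle (𝓡 2) ∞ E2 fun x : M => TangentSpace (𝓡 2) x]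

omit [RiemannianBundle fun x : M => TangentSpace (𝓡 2) x]
  [IsContMDiffRiemannianBundle (𝓡 2) ∞ E2 fun x : M => TangentSpace (𝓡 2) x] in
lemma chart_coordVec_smooth {x₀ : M} {y : E2} (hy : y ∈ (chartAt E2 x₀).target) (i : Fin 2) :
    ContMDiffAt (𝓡 2) ((𝓡 2).prod 𝓘(ℝ, E2)) ∞
      (fun w => (coordVec x₀ i w : TotalSpace E2 (fun x : M => TangentSpace (𝓡 2) x))) y := by
  have hf := chart_symm_smooth hy
  have hA := hf.mfderiv_const (m := ∞) (by simp)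
  have hv : ContMDiffAt (𝓡 2) ((𝓡 2).prod 𝓘(ℝ, E2)) ∞
      (fun w : E2 => (⟨w, (EuclideanSpace.single i 1 : E2)⟩ :
        TotalSpace E2 (fun x : E2 => TangentSpace (𝓡 2) x))) y := by
    rw [contMDiffAt_totalSpace]
    refine ⟨contMDiffAt_id, ?_⟩
    simp only [trivializationAt_model_space_apply]
    exact contMDiffAt_const
  exact ContMDiffAt.clm_apply_of_inCoordinates (b₁ := fun w : E2 => w)
    (b₂ := (chartAt E2 x₀).symm) hA hv hf

lemma chart_gMat_smooth {x₀ : M} {z : Pl} (hz : z ∈ Ux x₀) (i j : Fin 2) :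
    ContDiffAt ℝ ∞ (fun w => gMat x₀ (TT w) i j) z := by
  have h := (chart_coordVec_smooth hz i).inner_bundle (chart_coordVec_smooth hz j)
  have h2 : ContDiffAt ℝ ∞ (fun y => gMat x₀ y i j) (TT z) := contMDiffAt_iff_contDiffAt.1 h
  exact h2.comp z TT.contDiff.contDiffAt

lemma smAt_g {x₀ : M} {z : Pl} (hz : z ∈ Ux x₀) :
    ContDiffAt ℝ ∞ (gE x₀) z ∧ ContDiffAt ℝ ∞ (gF x₀) z ∧ ContDiffAt ℝ ∞ (gG x₀) z :=
  ⟨chart_gMat_smooth hz 0 0, chart_gMat_smooth hz 0 1, chart_gMat_smooth hz 1 1⟩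

lemma chart_matrix (A : Matrix (Fin 2) (Fin 2) ℝ) (hA : A 1 0 = A 0 1) (s t : ℝ) :
    √A.det * (A⁻¹ 0 0 * s + A⁻¹ 0 1 * t) =
        (A 1 1 * s - A 0 1 * t) / √(A 0 0 * A 1 1 - A 0 1 ^ 2) ∧
      √A.det * (A⁻¹ 1 0 * s + A⁻¹ 1 1 * t) =
        (A 0 0 * t - A 0 1 * s) / √(A 0 0 * A 1 1 - A 0 1 ^ 2) := by
  have hd : A.det = A 0 0 * A 1 1 - A 0 1 ^ 2 := by
    rw [Matrix.det_fin_two, hA]; ring
  rw [← hd]
  rcases le_or_gt A.det 0 with h | h
  · simp [Real.sqrt_eq_zero'.2 h]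
  · have hs : 0 < √A.det := Real.sqrt_pos.2 h
    have hsq : √A.det * √A.det = A.det := Real.mul_self_sqrt h.le
    rw [Matrix.inv_def, Matrix.adjugate_fin_two]
    simp only [Ring.inverse_eq_inv', Matrix.smul_apply, Matrix.of_apply, Matrix.cons_val',
      Matrix.cons_val_zero, Matrix.cons_val_one, Matrix.cons_val_fin_one, smul_eq_mul, hA]
    generalize √A.det = r at hs hsq
    rw [← hsq]
    constructor
    · field_simp
      ring
    · field_simp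
      ring

omit [IsManifold (𝓡 2) ∞ M]
  [IsContMDiffRiemannianBundle (𝓡 2) ∞ E2 fun x : M => TangentSpace (𝓡 2) x] in
lemma chart_gMat_symm (x₀ : M) (y : E2) : gMat x₀ y 1 0 = gMat x₀ y 0 1 := by
  simp only [gMat, Matrix.of_apply]
  exact real_inner_comm _ _

lemma lapChart_eq {φ : M → ℝ} (hφ : ContMDiff (𝓡 2) 𝓘(ℝ, ℝ) ∞ φ) {x₀ : M} {z : Pl}
    (hz : z ∈ Ux x₀) :
    lapChart x₀ φ (TT z) = lapC (gE x₀) (gF x₀) (gG x₀) (fun w => φ (sx x₀ w)) z := by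
  unfold lapChart lapC
  have hd : (gMat x₀ (TT z)).det = gE x₀ z * gG x₀ z - gF x₀ z ^ 2 := by
    rw [Matrix.det_fin_two, chart_gMat_symm]; simp only [gE, gF, gG]; ring
  rw [Fin.sum_univ_two, chart_pd_zero, chart_pd_one, hd, div_eq_inv_mul]
  congr 2
  · congr 1
    funext w
    rw [Fin.sum_univ_two, chart_pd_zero, chart_pd_one]
    exact (chart_matrix _ (chart_gMat_symm x₀ (TT w)) _ _).1
  · congr 1
    funext w
    rw [Fin.sum_univ_two, chart_pd_zero, chart_pd_one]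
    exact (chart_matrix _ (chart_gMat_symm x₀ (TT w)) _ _).2

/-- the coordinate Laplacians of two charts agree -/
lemma lapC_trans {x₀ x₁ x : M} (h0 : x ∈ (chartAt E2 x₀).source)
    (h1 : x ∈ (chartAt E2 x₁).source) {u u' : Pl → ℝ} (hu' : ContDiffAt ℝ ∞ u' (ex x₁ x))
    (hu : u =ᶠ[𝓝 (ex x₀ x)] fun w => u' (ex x₁ (sx x₀ w))) :
    lapC (gE x₀) (gF x₀) (gG x₀) u (ex x₀ x) = lapC (gE x₁) (gF x₁) (gG x₁) u' (ex x₁ x) := by
  have hz := ex_mem h0
  have hs : sx x₀ (ex x₀ x) = x := sx_ex h0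
  have h1' : sx x₀ (ex x₀ x) ∈ (chartAt E2 x₁).source := by rw [hs]; exact h1
  have hz1 : ex x₁ (sx x₀ (ex x₀ x)) ∈ Ux x₁ := ex_mem h1'
  have hg := smAt_g hz1
  have key := piola (Φ := fun w => ex x₁ (sx x₀ w)) (E := gE x₀) (F := gF x₀) (G := gG x₀)
    (u := u) (E' := gE x₁) (F' := gF x₁) (G' := gG x₁) (u' := u') (z := ex x₀ x)
    (smAt_trans hz h1') hg.1 hg.2.1 hg.2.2 (by simpa only [hs] using hu') (g_pos hz).2
    (g_pos hz1).2 ((chart_eventually hz h1').mono fun w hw => pullback_trans hw.1 hw.2) hu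
  simpa only [hs] using key

lemma laplaceBeltrami_eq {φ : M → ℝ} (hφ : ContMDiff (𝓡 2) 𝓘(ℝ, ℝ) ∞ φ) {x₀ : M} {z : Pl}
    (hz : z ∈ Ux x₀) :
    laplaceBeltrami φ (sx x₀ z) = lapC (gE x₀) (gF x₀) (gG x₀) (fun w => φ (sx x₀ w)) z := by
  set x := sx x₀ z with hx
  have h0 : x ∈ (chartAt E2 x₀).source := sx_mem hz
  have h1 : x ∈ (chartAt E2 x).source := mem_chart_source E2 x
  have hez : ex x₀ x = z := ex_sx hz
  unfold laplaceBeltrami
  rw [← chart_TT_ex x x, lapChart_eq hφ (ex_mem h1)]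
  have key := lapC_trans h0 h1 (u := fun w => φ (sx x₀ w)) (u' := fun w => φ (sx x w))
    (smAt_comp_sx (ex_mem h1) hφ.contMDiffAt) (by
      rw [hez]
      filter_upwards [chart_eventually hz h1] with w hw
      rw [sx_ex hw.2])
  rw [← key, hez]

/-- change of variables between two charts -/
lemma integral_trans {x₀ x₁ : M} {O : Set M} (hO : IsOpen O) (h0 : O ⊆ (chartAt E2 x₀).source)
    (h1 : O ⊆ (chartAt E2 x₁).source) (H : M → ℝ) :
    ∫ z in ex x₀ '' O, H (sx x₀ z) * √(gE x₀ z * gG x₀ z - gF x₀ z ^ 2) =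
      ∫ z in ex x₁ '' O, H (sx x₁ z) * √(gE x₁ z * gG x₁ z - gF x₁ z ^ 2) := by
  set Φ : Pl → Pl := fun w => ex x₁ (sx x₀ w) with hΦ
  have hopen : IsOpen (ex x₀ '' O) := by
    have e1 : ex x₀ '' O = TT.symm '' (chartAt E2 x₀ '' O) := by
      rw [image_image]; rfl
    rw [e1]
    exact TT.symm.toHomeomorph.isOpenMap _
      ((chartAt E2 x₀).isOpen_image_of_subset_source hO h0)
  have hmem : ∀ z ∈ ex x₀ '' O, z ∈ Ux x₀ ∧ sx x₀ z ∈ O := by
    rintro _ ⟨x, hx, rfl⟩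
    exact ⟨ex_mem (h0 hx), by rw [sx_ex (h0 hx)]; exact hx⟩
  have himg : ex x₁ '' O = Φ '' (ex x₀ '' O) := by
    rw [image_image]
    apply image_congr
    intro x hx
    simp only [hΦ]
    rw [sx_ex (h0 hx)]
  have hder : ∀ z ∈ ex x₀ '' O, HasFDerivWithinAt Φ (fderiv ℝ Φ z) (ex x₀ '' O) z := fun z hz =>
    ((smAt_trans (hmem z hz).1 (h1 (hmem z hz).2)).differentiableAt
      (by simp)).hasFDerivAt.hasFDerivWithinAt
  have hinj : InjOn Φ (ex x₀ '' O) := by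
    intro z hz w hw hzw
    have e1 := congrArg (sx x₁) hzw
    simp only [hΦ] at e1
    rw [sx_ex (h1 (hmem z hz).2), sx_ex (h1 (hmem w hw).2)] at e1
    rw [← ex_sx (hmem z hz).1, e1, ex_sx (hmem w hw).1]
  rw [himg, integral_image_eq_integral_abs_det_fderiv_smul volume hopen.measurableSet hder hinj]
  refine setIntegral_congr_fun hopen.measurableSet fun z hz => ?_
  have hp := (pullback_trans (hmem z hz).1 (h1 (hmem z hz).2)).sqrt_det
  simp only [smul_eq_mul]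
  rw [hp]
  simp only [hΦ]
  rw [sx_ex (h1 (hmem z hz).2)]
  ring

end

end Pool.Agent.P.MP_177f55_an
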