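import Pool.Agent.P.MP_177f55_an.BiLip
import Pool.Agent.P.MP_177f55_an.Chart

/-! Construction of the atlas of a closed Riemannian surface. -/

open MeasureTheory Set Filter Topology Bundle
open scoped ContDiff Manifold NNReal ENNReal

noncomputable section

namespace Pool.Agent.P.MP_177f55_an

lemma build_mul {θ g : Pl → ℝ} {W : Set Pl} (hθ : ContDiff ℝ ∞ θ) (hW : tsupport θ ⊆ W)
    (hg : ∀ z ∈ W, ContDiffAt ℝ ∞ g z) : ContDiff ℝ ∞ fun z => θ z * g z := by
  rw [contDiff_iff_contDiffAt]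
  intro z
  by_cases hz : z ∈ tsupport θ
  · exact hθ.contDiffAt.mul (hg z (hW hz))
  · refine (contDiffAt_const (c := (0 : ℝ))).congr_of_eventuallyEq ?_
    filter_upwards [notMem_tsupport_iff_eventuallyEq.1 hz] with w hw
    simp [hw]

lemma build_bump {K W : Set Pl} (hK : IsCompact K) (hW : IsOpen W) (h : K ⊆ W) :
    ∃ (θ : Pl → ℝ) (V : Set Pl), ContDiff ℝ ∞ θ ∧ tsupport θ ⊆ W ∧ (∀ z, 0 ≤ θ z ∧ θ z ≤ 1) ∧
      IsOpen V ∧ K ⊆ V ∧ V ⊆ W ∧ ∀ z ∈ V, θ z = 1 := by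
  obtain ⟨L, hL, h1, h2⟩ := exists_compact_between hK hW h
  obtain ⟨f, f1, f0, f2⟩ := exists_contMDiffMap_one_nhds_of_subset_interior (n := ⊤)
    𝓘(ℝ, Pl) hK.isClosed h1
  have hs : tsupport f ⊆ L := closure_minimal (fun z hz => by
    by_contra hn
    exact hz (f0 z hn)) hL.isClosed
  refine ⟨f, interior {z | f z = 1}, f.contMDiff.contDiff, hs.trans h2, fun z => f2 z,
    isOpen_interior, subset_interior_iff_mem_nhdsSet.2 f1, fun z hz => ?_,
    fun z hz => interior_subset (s := {z | f z = 1}) hz⟩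
  refine h2 (hs (subset_tsupport _ ?_))
  have : f z = 1 := interior_subset (s := {z | f z = 1}) hz
  simp [this]

lemma build_frame {E F G θ : Pl → ℝ} {V W : Set Pl} (hθ : ContDiff ℝ ∞ θ) (hW : tsupport θ ⊆ W)
    (h01 : ∀ z, 0 ≤ θ z ∧ θ z ≤ 1) (hV : IsOpen V) (h1 : ∀ z ∈ V, θ z = 1)
    (hs : ∀ z ∈ W, ContDiffAt ℝ ∞ E z ∧ ContDiffAt ℝ ∞ F z ∧ ContDiffAt ℝ ∞ G z)
    (hp : ∀ z ∈ W, 0 < E z ∧ 0 < E z * G z - F z ^ 2) :
    ∃ Φ : Frame, ∀ z ∈ V, Φ.rho z = √(E z * G z - F z ^ 2) ∧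
      ∀ u : Pl → ℝ, ContDiffAt ℝ ∞ u z → Φ.lap u z = lapC E F G u z := by
  have key : ∀ z, 0 < θ z * E z + (1 - θ z) ∧
      0 < (θ z * E z + (1 - θ z)) * (θ z * G z + (1 - θ z)) - (θ z * F z) ^ 2 := by
    intro z
    obtain ⟨a0, a1⟩ := h01 z
    rcases a0.eq_or_lt with h | h
    · simp [← h]
    · obtain ⟨b1, b2⟩ := hp z (hW (subset_tsupport _ h.ne'))
      have b3 : 0 < G z := by
        by_contra hn
        nlinarith [sq_nonneg (F z), mul_nonneg b1.le (neg_nonneg.2 (not_lt.1 hn))]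
      have b4 : 0 ≤ 1 - θ z := by linarith
      refine ⟨by nlinarith [mul_pos h b1], ?_⟩
      have e : (θ z * E z + (1 - θ z)) * (θ z * G z + (1 - θ z)) - (θ z * F z) ^ 2 =
          θ z ^ 2 * (E z * G z - F z ^ 2) + θ z * (1 - θ z) * (E z + G z) + (1 - θ z) ^ 2 := by
        ring
      rw [e]
      positivity
  obtain ⟨Φ, r1, r2⟩ := exists_frame (E := fun z => θ z * E z + (1 - θ z))
    (F := fun z => θ z * F z) (G := fun z => θ z * G z + (1 - θ z))
    ((build_mul hθ hW fun z hz => (hs z hz).1).add (contDiff_const.sub hθ))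
    (build_mul hθ hW fun z hz => (hs z hz).2.1)
    ((build_mul hθ hW fun z hz => (hs z hz).2.2).add (contDiff_const.sub hθ))
    (fun z => (key z).1) (fun z => (key z).2)
  refine ⟨Φ, fun z hz => ⟨by rw [r1 z, h1 z hz]; simp, fun u hu => ?_⟩⟩
  rw [r2 u z hu]
  refine lapC_congr ?_ ?_ ?_ EventuallyEq.rfl <;>
    filter_upwards [hV.mem_nhds hz] with w hw <;> simp [h1 w hw]

lemma build_vol {M : Type*} [EMetricSpace M] [MeasurableSpace M] [BorelSpace M]
    [ChartedSpace E2 M] {x₀ : M} {U : Set M} {C : ℝ≥0} (hC : LipschitzOnWith C (chartAt E2 x₀) U)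
    (hC' : LipschitzOnWith C (chartAt E2 x₀).symm (chartAt E2 x₀ '' U)) :
    ∃ D : ℝ≥0, ∀ B ⊆ Ux x₀ ∩ sx x₀ ⁻¹' U,
      volume B ≤ D * μH[2] (sx x₀ '' B) ∧ μH[2] (sx x₀ '' B) ≤ D * volume B := by
  obtain ⟨L1, h1⟩ : ∃ L, LipschitzWith L TT := ⟨_, TT.lipschitz⟩
  obtain ⟨L2, h2⟩ : ∃ L, LipschitzWith L TT.symm := ⟨_, TT.symm.lipschitz⟩
  have hpow : ∀ K : ℝ≥0, (K : ℝ≥0∞) ^ (2 : ℝ) = ((K ^ 2 : ℝ≥0) : ℝ≥0∞) := fun K => by
    rw [ENNReal.coe_pow, ← ENNReal.rpow_natCast]; norm_num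
  refine ⟨(L2 * C) ^ 2 + (C * L1) ^ 2, fun B hB => ⟨?_, ?_⟩⟩
  · have a1 : LipschitzOnWith (L2 * C) (ex x₀) (sx x₀ '' B) :=
      (h2.comp_lipschitzOnWith hC).mono (image_subset_iff.2 fun z hz => (hB hz).2)
    have a2 := a1.hausdorffMeasure_image_le (d := 2) zero_le_two
    have a3 : ex x₀ '' (sx x₀ '' B) = B := by
      rw [image_image]
      exact (image_congr fun z hz => ex_sx (hB hz).1).trans (image_id' B)
    rw [a3, hausdorffMeasure_prod_real, hpow] at a2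
    refine a2.trans ?_
    gcongr
    exact le_self_add
  · have a0 : MapsTo TT B (chartAt E2 x₀ '' U) := fun z hz =>
      ⟨sx x₀ z, (hB hz).2, (chartAt E2 x₀).right_inv (hB hz).1⟩
    have a1 : LipschitzOnWith (C * L1) (sx x₀) B := hC'.comp h1.lipschitzOnWith a0
    have a2 := a1.hausdorffMeasure_image_le (d := 2) zero_le_two
    rw [hausdorffMeasure_prod_real, hpow] at a2
    refine a2.trans ?_
    gcongr
    exact le_add_self

theorem exists_atlas (M : Type*) [EMetricSpace M] [MeasurableSpace M] [BorelSpace M]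
    [ChartedSpace E2 M] [IsManifold (𝓡 2) ∞ M] [CompactSpace M]
    [RiemannianBundle fun x : M => TangentSpace (𝓡 2) x]
    [IsContMDiffRiemannianBundle (𝓡 2) ∞ E2 fun x : M => TangentSpace (𝓡 2) x]
    [IsRiemannianManifold (𝓡 2) M] :
    ∃ 𝒜 : Atlas M μH[2], ∀ (lam : ℝ) (φ : M → ℝ), ContMDiff (𝓡 2) 𝓘(ℝ, ℝ) ∞ φ →
      (∀ x, laplaceBeltrami φ x + lam * φ x = 0) → ∃ ψ, 𝒜.IsEig lam φ ψ := by
  classical
  choose U0 oU0 mU0 sU0 C0 hC0 hC0' using exists_biLip (M := M)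
  obtain ⟨t, -, ht⟩ := isCompact_univ.elim_nhds_subcover U0 fun x _ => (oU0 x).mem_nhds (mU0 x)
  obtain ⟨n, x, hx⟩ : ∃ (n : ℕ) (x : Fin n → M), univ ⊆ ⋃ i, U0 (x i) := by
    refine ⟨t.card, fun i => (t.equivFin.symm i : M), fun y hy => ?_⟩
    obtain ⟨a, ha, hy'⟩ := mem_iUnion₂.1 (ht hy)
    exact mem_iUnion.2 ⟨t.equivFin ⟨a, ha⟩, by simpa using hy'⟩
  obtain ⟨χ, hχ⟩ := SmoothPartitionOfUnity.exists_isSubordinate (𝓡 2) isClosed_univ
    (fun i => U0 (x i)) (fun i => oU0 _) hx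
  have hχs : ∀ i, ContMDiff (𝓡 2) 𝓘(ℝ, ℝ) ∞ (χ i) := fun i => (χ i).contMDiff
  set W : Fin n → Set Pl := fun i => Ux (x i) ∩ sx (x i) ⁻¹' U0 (x i) with hWdef
  have oW : ∀ i, IsOpen (W i) := fun i =>
    (continuousOn_sx (x i)).isOpen_inter_preimage (isOpen_Ux _) (oU0 _)
  have cK : ∀ i, IsCompact (ex (x i) '' tsupport (χ i)) := fun i =>
    (isClosed_tsupport _).isCompact.image_of_continuousOn
      ((continuousOn_ex (x i)).mono ((hχ i).trans (sU0 _)))
  have KW : ∀ i, ex (x i) '' tsupport (χ i) ⊆ W i := by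
    rintro i _ ⟨y, hy, rfl⟩
    have h1 := hχ i hy
    exact ⟨ex_mem (sU0 _ h1), by rwa [mem_preimage, sx_ex (sU0 _ h1)]⟩
  choose θ V sθ tθ bθ oV KV VW θ1 using fun i => build_bump (cK i) (oW i) (KW i)
  choose F hF using fun i => build_frame (E := gE (x i)) (F := gF (x i)) (G := gG (x i))
    (sθ i) (tθ i) (bθ i) (oV i) (θ1 i) (fun z hz => smAt_g hz.1) (fun z hz => g_pos hz.1)
  choose D hD using fun i => build_vol (hC0 (x i)) (hC0' (x i))
  set dom : Fin n → Set M := fun i => U0 (x i) ∩ ex (x i) ⁻¹' V i with hdom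
  have odom : ∀ i, IsOpen (dom i) := fun i =>
    ((continuousOn_ex (x i)).mono (sU0 _)).isOpen_inter_preimage (oU0 _) (oV i)
  have dsrc : ∀ i, dom i ⊆ (chartAt E2 (x i)).source := fun i y hy => sU0 _ hy.1
  have smem : ∀ i, ∀ z ∈ V i, sx (x i) z ∈ dom i := fun i z hz =>
    ⟨(VW i hz).2, by rwa [mem_preimage, ex_sx (VW i hz).1]⟩
  have tdom : ∀ i, tsupport (χ i) ⊆ dom i := fun i y hy => ⟨hχ i hy, KV i ⟨y, hy, rfl⟩⟩
  have csx : ∀ i, ∀ z ∈ V i, ContinuousAt (sx (x i)) z := fun i z hz =>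
    (continuousOn_sx (x i)).continuousAt ((isOpen_Ux _).mem_nhds (VW i hz).1)
  have tP : ∀ i, tsupport (fun z => θ i z * χ i (sx (x i) z)) ⊆ ex (x i) '' tsupport (χ i) :=
    fun i => closure_minimal (fun z hz => by
      have h1 := mul_ne_zero_iff.1 hz
      exact ⟨sx (x i) z, subset_tsupport _ h1.2, ex_sx (tθ i (subset_tsupport _ h1.1)).1⟩)
      (cK i).isClosed
  have hsum : ∀ i, D i ≤ ∑ j, D j := fun i =>
    Finset.single_le_sum (fun j _ => zero_le) (Finset.mem_univ i)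
  have htr : ∀ (i : Fin n) (O : Set M) (H : M → ℝ), O ⊆ dom i → (∀ y, H y ≠ 0 → y ∈ O) →
      ∫ z in V i, H (sx (x i) z) * (F i).rho z = ∫ z in ex (x i) '' O,
        H (sx (x i) z) * √(gE (x i) z * gG (x i) z - gF (x i) z ^ 2) := by
    intro i O H hO hH
    rw [setIntegral_congr_fun (oV i).measurableSet
      (g := fun z => H (sx (x i) z) * √(gE (x i) z * gG (x i) z - gF (x i) z ^ 2))
      fun z hz => by simp only [(hF i z hz).1]]
    refine setIntegral_eq_of_subset_of_forall_sdiff_eq_zero (oV i).measurableSet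
      (image_subset_iff.2 fun y hy => (hO hy).2) fun z hz => ?_
    have : H (sx (x i) z) = 0 := by
      by_contra hn
      exact hz.2 ⟨_, hH _ hn, ex_sx (VW i hz.1).1⟩
    rw [this, zero_mul]
  refine ⟨{
    n := n
    V := V
    dom := dom
    e := fun i => ex (x i)
    s := fun i => sx (x i)
    F := F
    chi := fun i => χ i
    chiP := fun i z => θ i z * χ i (sx (x i) z)
    Cm := ∑ j, D j
    oV := oV
    e_mem := fun i y hy => hy.2
    s_mem := smem
    s_e := fun i y hy => sx_ex (dsrc i hy)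
    e_s := fun i z hz => ex_sx (VW i hz).1
    cut := fun i => ⟨build_mul (sθ i) (tθ i) fun z hz => smAt_comp_sx hz.1 (hχs i _),
      fun z => mul_nonneg (bθ i z).1 (χ.nonneg i _),
      fun z => mul_le_one₀ (bθ i z).2 (χ.nonneg i _) (χ.le_one i _),
      (cK i).of_isClosed_subset (isClosed_tsupport _) (tP i), (tP i).trans (KV i)⟩
    chi_s := fun i z hz => by rw [θ1 i z hz, one_mul]
    chi_zero := fun i y hy => image_eq_zero_of_notMem_tsupport fun h => hy (tdom i h)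
    chi_sum := fun y => by rw [← finsum_eq_sum_of_fintype]; exact χ.sum_eq_one (mem_univ y)
    chi_sm := fun i j z hz => (smAt_comp_sx (VW j hz).1 (hχs i _)).contDiffWithinAt
    chi_nhds := fun i j z hz h =>
      (csx j z hz).eventually (notMem_tsupport_iff_eventuallyEq.1 fun h' => h (tdom i h'))
    lap_compat := ?_
    transfer := ?_
    vol_le := fun i B hB => ((hD i B (hB.trans ((tP i).trans (KW i)))).1).trans (by
      gcongr; exact hsum i)
    le_vol := fun i B hB => ((hD i B (hB.trans ((tP i).trans (KW i)))).2).trans (by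
      gcongr; exact hsum i) }, ?_⟩
  · intro i j u u' hu hu' h y hi hj
    have a1 := hu.contDiffAt ((oV i).mem_nhds hi.2)
    have a2 := hu'.contDiffAt ((oV j).mem_nhds hj.2)
    rw [(hF i _ hi.2).2 u a1, (hF j _ hj.2).2 u' a2]
    refine lapC_trans (dsrc i hi) (dsrc j hj) a2 ?_
    have a3 : dom j ∈ 𝓝 (sx (x i) (ex (x i) y)) := by
      rw [sx_ex (dsrc i hi)]
      exact (odom j).mem_nhds hj
    filter_upwards [(oV i).mem_nhds hi.2, (csx i _ hi.2).eventually a3] with w w1 w2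
    rw [← h _ (smem i w w1) w2, ex_sx (VW i w1).1]
  · intro i j H hH
    rw [htr i (dom i ∩ dom j) H inter_subset_left hH,
      htr j (dom i ∩ dom j) H inter_subset_right hH]
    exact integral_trans ((odom i).inter (odom j)) (inter_subset_left.trans (dsrc i))
      (inter_subset_right.trans (dsrc j)) H
  · intro lam φ hφ he
    refine ⟨fun i z => θ i z * φ (sx (x i) z), fun i => ?_⟩
    have a1 : ContDiff ℝ ∞ fun z => θ i z * φ (sx (x i) z) :=
      build_mul (sθ i) (tθ i) fun z hz => smAt_comp_sx hz.1 (hφ _)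
    have a2 : ∀ z ∈ V i, θ i z * φ (sx (x i) z) = φ (sx (x i) z) := fun z hz => by
      rw [θ1 i z hz, one_mul]
    refine ⟨⟨oV i, a1, fun z hz => ?_⟩, a2⟩
    change (F i).lap (fun z => θ i z * φ (sx (x i) z)) z = -lam * (θ i z * φ (sx (x i) z))
    rw [(hF i z hz).2 _ a1.contDiffAt, a2 z hz, lapC_congr (u' := fun w => φ (sx (x i) w))
      EventuallyEq.rfl EventuallyEq.rfl EventuallyEq.rfl
      (by filter_upwards [(oV i).mem_nhds hz] with w hw using a2 w hw),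
      ← laplaceBeltrami_eq hφ (VW i hz).1]
    linarith [he (sx (x i) z)]

end Pool.Agent.P.MP_177f55_an
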