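import Pool.Agent.P.MP_177f55_an.Defs

/-! First and second order calculus for the operators of a frame. -/

open MeasureTheory Set Filter Topology
open scoped ContDiff ComplexConjugate NNReal ENNReal

noncomputable section

namespace Pool.Agent.P.MP_177f55_an

lemma calc_comm {X : Type*} [NormedAddCommGroup X] [NormedSpace ℝ X] {g : Pl → X} {z : Pl}
    (hg : ContDiffAt ℝ ∞ g z) (s t : Pl) :
    fderiv ℝ (fun w => fderiv ℝ g w t) z s = fderiv ℝ (fun w => fderiv ℝ g w s) z t := by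
  have hd : DifferentiableAt ℝ (fderiv ℝ g) z :=
    (hg.fderiv_right (m := ∞) (by simp)).differentiableAt (by simp)
  have e : ∀ s t : Pl, fderiv ℝ (fun w => fderiv ℝ g w t) z s = fderiv ℝ (fderiv ℝ g) z s t :=
    fun s t => by
      rw [fderiv_clm_apply hd (differentiableAt_const t)]
      simp
  rw [e, e, (hg.isSymmSndFDerivAt (by
    simp only [minSmoothness_of_isRCLikeNormedField]; exact WithTop.coe_le_coe.2 le_top)).eq]

lemma calc_mul {G H : Pl → ℂ} {z : Pl} (hG : DifferentiableAt ℝ G z)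
    (hH : DifferentiableAt ℝ H z) (s : Pl) :
    fderiv ℝ (fun w => G w * H w) z s = fderiv ℝ G z s * H z + G z * fderiv ℝ H z s := by
  rw [fderiv_fun_mul hG hH]
  simp only [add_apply, smul_apply, smul_eq_mul]
  ring

lemma calc_conj {G : Pl → ℂ} {z : Pl} (hG : DifferentiableAt ℝ G z) (s : Pl) :
    fderiv ℝ (fun w => conj (G w)) z s = conj (fderiv ℝ G z s) := by
  have h : fderiv ℝ (fun w => conj (G w)) z = _ :=
    (Complex.conjCLE.hasFDerivAt.comp z hG.hasFDerivAt).fderiv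
  simp [h]

lemma calc_ev_diff {X : Type*} [NormedAddCommGroup X] [NormedSpace ℝ X] {g : Pl → X} {z : Pl}
    (hg : ContDiffAt ℝ ∞ g z) : ∀ᶠ w in 𝓝 z, DifferentiableAt ℝ g w :=
  ((hg.of_le (m := 1) (by simp)).eventually (by simp)).mono fun _ h =>
    h.differentiableAt one_ne_zero

lemma smAt_div {G H : Pl → ℂ} {z : Pl} (hG : ContDiffAt ℝ ∞ G z) (hH : ContDiffAt ℝ ∞ H z)
    (h0 : H z ≠ 0) : ContDiffAt ℝ ∞ (fun w => G w / H w) z := by
  simp only [div_eq_mul_inv]
  exact hG.mul (hH.inv h0)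

lemma diffAt_div {G H : Pl → ℂ} {z : Pl} (hG : DifferentiableAt ℝ G z)
    (hH : DifferentiableAt ℝ H z) (h0 : H z ≠ 0) :
    DifferentiableAt ℝ (fun w => G w / H w) z := by
  simpa only [div_eq_mul_inv] using hG.fun_mul (hH.fun_inv h0)

section basic

variable {G H : Pl → ℂ} {u v : Pl → ℝ} {z : Pl}

lemma sm_cx (hu : ContDiff ℝ ∞ u) : ContDiff ℝ ∞ (cx u) :=
  Complex.ofRealCLM.contDiff.comp hu

lemma smAt_cx (hu : ContDiffAt ℝ ∞ u z) : ContDiffAt ℝ ∞ (cx u) z :=
  Complex.ofRealCLM.contDiff.contDiffAt.comp z hu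

lemma diffAt_cx (hu : DifferentiableAt ℝ u z) : DifferentiableAt ℝ (cx u) z :=
  Complex.ofRealCLM.differentiableAt.comp z hu

lemma smAt_conj (hG : ContDiffAt ℝ ∞ G z) : ContDiffAt ℝ ∞ (fun w => conj (G w)) z :=
  Complex.conjCLE.contDiff.contDiffAt.comp z hG

lemma diffAt_conj (hG : DifferentiableAt ℝ G z) :
    DifferentiableAt ℝ (fun w => conj (G w)) z :=
  Complex.conjCLE.differentiableAt.comp z hG

lemma smAt_normSq (hG : ContDiffAt ℝ ∞ G z) : ContDiffAt ℝ ∞ (fun w => ‖G w‖ ^ 2) z :=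
  hG.norm_sq ℝ

lemma sm_normSq (hG : ContDiff ℝ ∞ G) : ContDiff ℝ ∞ (fun w => ‖G w‖ ^ 2) :=
  hG.norm_sq ℝ

lemma cx_normSq (G : Pl → ℂ) : cx (fun w => ‖G w‖ ^ 2) = fun w => G w * conj (G w) := by
  funext w
  simp [cx, Complex.mul_conj, Complex.normSq_eq_norm_sq]

lemma px_cx (hu : DifferentiableAt ℝ u z) : px (cx u) z = (rx u z : ℂ) := by
  have h : fderiv ℝ (cx u) z = _ := (Complex.ofRealCLM.hasFDerivAt.comp z hu.hasFDerivAt).fderiv
  simp [px, rx, h]

lemma py_cx (hu : DifferentiableAt ℝ u z) : py (cx u) z = (ry u z : ℂ) := by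
  have h : fderiv ℝ (cx u) z = _ := (Complex.ofRealCLM.hasFDerivAt.comp z hu.hasFDerivAt).fderiv
  simp [py, ry, h]

lemma smAt_px (hG : ContDiffAt ℝ ∞ G z) : ContDiffAt ℝ ∞ (px G) z :=
  (hG.fderiv_right (m := ∞) (by simp)).clm_apply contDiffAt_const

lemma smAt_py (hG : ContDiffAt ℝ ∞ G z) : ContDiffAt ℝ ∞ (py G) z :=
  (hG.fderiv_right (m := ∞) (by simp)).clm_apply contDiffAt_const

lemma smAt_rx (hu : ContDiffAt ℝ ∞ u z) : ContDiffAt ℝ ∞ (rx u) z :=
  (hu.fderiv_right (m := ∞) (by simp)).clm_apply contDiffAt_const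

lemma smAt_ry (hu : ContDiffAt ℝ ∞ u z) : ContDiffAt ℝ ∞ (ry u) z :=
  (hu.fderiv_right (m := ∞) (by simp)).clm_apply contDiffAt_const

lemma px_py_comm (hG : ContDiffAt ℝ ∞ G z) : px (py G) z = py (px G) z :=
  calc_comm hG _ _

lemma rx_ry_comm (hu : ContDiffAt ℝ ∞ u z) : rx (ry u) z = ry (rx u) z :=
  calc_comm hu _ _


end basic

namespace Frame

variable (F : Frame) {G H : Pl → ℂ} {u v : Pl → ℝ} {z : Pl}

lemma smAt_D (hG : ContDiffAt ℝ ∞ G z) : ContDiffAt ℝ ∞ (F.D G) z :=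
  (F.sa.contDiffAt.mul (smAt_px hG)).add (F.sb.contDiffAt.mul (smAt_py hG))

lemma smAt_Db (hG : ContDiffAt ℝ ∞ G z) : ContDiffAt ℝ ∞ (F.Db G) z :=
  ((smAt_conj F.sa.contDiffAt).mul (smAt_px hG)).add
    ((smAt_conj F.sb.contDiffAt).mul (smAt_py hG))

lemma sm_tau : ContDiff ℝ ∞ F.tau :=
  contDiff_iff_contDiffAt.2 fun z =>
  smAt_div ((smAt_px ((sm_cx F.srho).mul F.sa).contDiffAt).add
    (smAt_py ((sm_cx F.srho).mul F.sb).contDiffAt)) (sm_cx F.srho).contDiffAt
      (Complex.ofReal_ne_zero.2 (F.rho_pos z).ne')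

lemma sm_kap : ContDiff ℝ ∞ F.kap :=
  contDiff_iff_contDiffAt.2 fun z =>
  (contDiffAt_const.mul (Complex.reCLM.contDiff.contDiffAt.comp z
    (F.smAt_Db F.sm_tau.contDiffAt))).sub
      (contDiffAt_const.mul (smAt_normSq F.sm_tau.contDiffAt))

lemma smAt_eth (k : ℝ) (hG : ContDiffAt ℝ ∞ G z) : ContDiffAt ℝ ∞ (F.eth k G) z :=
  (F.smAt_D hG).sub ((contDiffAt_const.mul F.sm_tau.contDiffAt).mul hG)

lemma smAt_ethb (k : ℝ) (hG : ContDiffAt ℝ ∞ G z) : ContDiffAt ℝ ∞ (F.ethb k G) z :=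
  (F.smAt_Db hG).add ((contDiffAt_const.mul (smAt_conj F.sm_tau.contDiffAt)).mul hG)

lemma smAt_lap (hu : ContDiffAt ℝ ∞ u z) : ContDiffAt ℝ ∞ (F.lap u) z :=
  contDiffAt_const.mul (Complex.reCLM.contDiff.contDiffAt.comp z
    (F.smAt_ethb 1 (F.smAt_D (smAt_cx hu))))

lemma sm_D (hG : ContDiff ℝ ∞ G) : ContDiff ℝ ∞ (F.D G) :=
  contDiff_iff_contDiffAt.2 fun _ => F.smAt_D hG.contDiffAt

lemma sm_Db (hG : ContDiff ℝ ∞ G) : ContDiff ℝ ∞ (F.Db G) :=
  contDiff_iff_contDiffAt.2 fun _ => F.smAt_Db hG.contDiffAt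

lemma sm_eth (k : ℝ) (hG : ContDiff ℝ ∞ G) : ContDiff ℝ ∞ (F.eth k G) :=
  contDiff_iff_contDiffAt.2 fun _ => F.smAt_eth k hG.contDiffAt

lemma sm_ethb (k : ℝ) (hG : ContDiff ℝ ∞ G) : ContDiff ℝ ∞ (F.ethb k G) :=
  contDiff_iff_contDiffAt.2 fun _ => F.smAt_ethb k hG.contDiffAt

lemma sm_lap (hu : ContDiff ℝ ∞ u) : ContDiff ℝ ∞ (F.lap u) :=
  contDiff_iff_contDiffAt.2 fun _ => F.smAt_lap hu.contDiffAt


lemma D_evEq (h : G =ᶠ[𝓝 z] H) : F.D G =ᶠ[𝓝 z] F.D H := by
  filter_upwards [h.fderiv (𝕜 := ℝ)] with w hw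
  simp only [D, px, py, hw]

lemma Db_evEq (h : G =ᶠ[𝓝 z] H) : F.Db G =ᶠ[𝓝 z] F.Db H := by
  filter_upwards [h.fderiv (𝕜 := ℝ)] with w hw
  simp only [Db, px, py, hw]

lemma eth_evEq (k : ℝ) (h : G =ᶠ[𝓝 z] H) : F.eth k G =ᶠ[𝓝 z] F.eth k H := by
  filter_upwards [F.D_evEq h, h] with w hw hw'
  simp only [eth, hw, hw']

lemma ethb_evEq (k : ℝ) (h : G =ᶠ[𝓝 z] H) : F.ethb k G =ᶠ[𝓝 z] F.ethb k H := by
  filter_upwards [F.Db_evEq h, h] with w hw hw'
  simp only [ethb, hw, hw']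

lemma lap_evEq (h : u =ᶠ[𝓝 z] v) : F.lap u =ᶠ[𝓝 z] F.lap v := by
  have h1 : cx u =ᶠ[𝓝 z] cx v := h.mono fun w hw => by simp only [cx, hw]
  filter_upwards [F.ethb_evEq 1 (F.D_evEq h1)] with w hw
  simp only [lap, hw]


lemma D_const (c : ℂ) : F.D (fun _ => c) z = 0 := by simp [D, px, py]

lemma Db_const (c : ℂ) : F.Db (fun _ => c) z = 0 := by simp [Db, px, py]

lemma D_add (hG : DifferentiableAt ℝ G z) (hH : DifferentiableAt ℝ H z) :
    F.D (fun w => G w + H w) z = F.D G z + F.D H z := by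
  simp only [D, px, py, fderiv_fun_add hG hH, add_apply]
  ring

lemma Db_add (hG : DifferentiableAt ℝ G z) (hH : DifferentiableAt ℝ H z) :
    F.Db (fun w => G w + H w) z = F.Db G z + F.Db H z := by
  simp only [Db, px, py, fderiv_fun_add hG hH, add_apply]
  ring

lemma D_sub (hG : DifferentiableAt ℝ G z) (hH : DifferentiableAt ℝ H z) :
    F.D (fun w => G w - H w) z = F.D G z - F.D H z := by
  simp only [D, px, py, fderiv_fun_sub hG hH, sub_apply]
  ring

lemma Db_sub (hG : DifferentiableAt ℝ G z) (hH : DifferentiableAt ℝ H z) :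
    F.Db (fun w => G w - H w) z = F.Db G z - F.Db H z := by
  simp only [Db, px, py, fderiv_fun_sub hG hH, sub_apply]
  ring

lemma D_mul (hG : DifferentiableAt ℝ G z) (hH : DifferentiableAt ℝ H z) :
    F.D (fun w => G w * H w) z = F.D G z * H z + G z * F.D H z := by
  simp only [D, px, py, calc_mul hG hH]
  ring

lemma Db_mul (hG : DifferentiableAt ℝ G z) (hH : DifferentiableAt ℝ H z) :
    F.Db (fun w => G w * H w) z = F.Db G z * H z + G z * F.Db H z := by
  simp only [Db, px, py, calc_mul hG hH]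
  ring

lemma D_const_mul (c : ℂ) (hG : DifferentiableAt ℝ G z) :
    F.D (fun w => c * G w) z = c * F.D G z := by
  rw [F.D_mul (differentiableAt_const c) hG, F.D_const]
  ring

lemma Db_const_mul (c : ℂ) (hG : DifferentiableAt ℝ G z) :
    F.Db (fun w => c * G w) z = c * F.Db G z := by
  rw [F.Db_mul (differentiableAt_const c) hG, F.Db_const]
  ring

lemma D_div (hG : DifferentiableAt ℝ G z) (hH : DifferentiableAt ℝ H z) (h0 : H z ≠ 0) :
    F.D (fun w => G w / H w) z = (F.D G z * H z - G z * F.D H z) / H z ^ 2 := by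
  have h1 : (fun w => G w / H w * H w) =ᶠ[𝓝 z] G :=
    (hH.continuousAt.eventually_ne h0).mono fun w hw => div_mul_cancel₀ _ hw
  have h2 := (F.D_evEq h1).eq_of_nhds
  rw [F.D_mul (diffAt_div hG hH h0) hH] at h2
  rw [← h2]
  field_simp
  ring

lemma Db_div (hG : DifferentiableAt ℝ G z) (hH : DifferentiableAt ℝ H z) (h0 : H z ≠ 0) :
    F.Db (fun w => G w / H w) z = (F.Db G z * H z - G z * F.Db H z) / H z ^ 2 := by
  have h1 : (fun w => G w / H w * H w) =ᶠ[𝓝 z] G :=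
    (hH.continuousAt.eventually_ne h0).mono fun w hw => div_mul_cancel₀ _ hw
  have h2 := (F.Db_evEq h1).eq_of_nhds
  rw [F.Db_mul (diffAt_div hG hH h0) hH] at h2
  rw [← h2]
  field_simp
  ring

lemma D_conj (hG : DifferentiableAt ℝ G z) :
    F.D (fun w => conj (G w)) z = conj (F.Db G z) := by simp [D, Db, px, py, calc_conj hG]

lemma Db_conj (hG : DifferentiableAt ℝ G z) :
    F.Db (fun w => conj (G w)) z = conj (F.D G z) := by simp [D, Db, px, py, calc_conj hG]

lemma Db_cx (hu : DifferentiableAt ℝ u z) : F.Db (cx u) z = conj (F.D (cx u) z) := by simp [D, Db, px_cx hu, py_cx hu]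

lemma D_cx (hu : DifferentiableAt ℝ u z) :
    F.D (cx u) z = F.a z * (rx u z : ℂ) + F.b z * (ry u z : ℂ) := by simp only [D, px_cx hu, py_cx hu]

lemma D_cx_comp {h : ℝ → ℝ} {h' : ℝ} (hh : HasDerivAt h h' (u z))
    (hu : DifferentiableAt ℝ u z) :
    F.D (cx fun w => h (u w)) z = (h' : ℂ) * F.D (cx u) z := by
  have h1 := hh.comp_hasFDerivAt z hu.hasFDerivAt
  have h2 : fderiv ℝ (fun w => h (u w)) z = h' • fderiv ℝ u z := h1.fderiv
  rw [F.D_cx (u := fun w => h (u w)) h1.differentiableAt, F.D_cx hu]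
  simp only [rx, ry, h2, smul_apply, smul_eq_mul]
  push_cast
  ring


lemma eth_mul (k l : ℝ) (hG : DifferentiableAt ℝ G z) (hH : DifferentiableAt ℝ H z) :
    F.eth (k + l) (fun w => G w * H w) z = F.eth k G z * H z + G z * F.eth l H z := by
  simp only [eth, F.D_mul hG hH]
  push_cast
  ring

lemma ethb_mul (k l : ℝ) (hG : DifferentiableAt ℝ G z) (hH : DifferentiableAt ℝ H z) :
    F.ethb (k + l) (fun w => G w * H w) z = F.ethb k G z * H z + G z * F.ethb l H z := by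
  simp only [ethb, F.Db_mul hG hH]
  push_cast
  ring

lemma eth_add (k : ℝ) (hG : DifferentiableAt ℝ G z) (hH : DifferentiableAt ℝ H z) :
    F.eth k (fun w => G w + H w) z = F.eth k G z + F.eth k H z := by
  simp only [eth, F.D_add hG hH]
  ring

lemma ethb_add (k : ℝ) (hG : DifferentiableAt ℝ G z) (hH : DifferentiableAt ℝ H z) :
    F.ethb k (fun w => G w + H w) z = F.ethb k G z + F.ethb k H z := by
  simp only [ethb, F.Db_add hG hH]
  ring

lemma eth_conj (k : ℝ) (hG : DifferentiableAt ℝ G z) :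
    F.eth k (fun w => conj (G w)) z = conj (F.ethb (-k) G z) := by
  simp [eth, ethb, F.D_conj hG, sub_eq_add_neg]

lemma ethb_conj (k : ℝ) (hG : DifferentiableAt ℝ G z) :
    F.ethb k (fun w => conj (G w)) z = conj (F.eth (-k) G z) := by
  simp [eth, ethb, F.Db_conj hG]

lemma eth_zero (G : Pl → ℂ) (z : Pl) : F.eth 0 G z = F.D G z := by simp [eth]

lemma ethb_zero (G : Pl → ℂ) (z : Pl) : F.ethb 0 G z = F.Db G z := by simp [ethb]


lemma calc_coef (z : Pl) :
    conj (F.Db F.a z) - F.Db F.a z = conj (F.tau z) * F.a z - F.tau z * conj (F.a z) ∧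
      conj (F.Db F.b z) - F.Db F.b z = conj (F.tau z) * F.b z - F.tau z * conj (F.b z) := by
  have d := fun {X : Pl → ℂ} (h : ContDiff ℝ ∞ X) => h.differentiable (by simp) z
  have ha := d F.sa
  have hb := d F.sb
  have hr := d (sm_cx F.srho)
  have hr' := F.srho.differentiable (by simp) z
  have e0 : (fun w => cx F.rho w * (conj (F.a w) * F.b w - F.a w * conj (F.b w))) =
      fun _ => -Complex.I / 2 := by
    funext w
    have := F.det w
    apply Complex.ext
    · simp [cx]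
    · simp [cx] at this ⊢
      linarith
  have e1 : ∀ s : Pl, fderiv ℝ (cx F.rho) z s * (conj (F.a z) * F.b z - F.a z * conj (F.b z)) +
      cx F.rho z * (conj (fderiv ℝ F.a z s) * F.b z + conj (F.a z) * fderiv ℝ F.b z s -
        (fderiv ℝ F.a z s * conj (F.b z) + F.a z * conj (fderiv ℝ F.b z s))) = 0 := fun s => by
    have h := calc_mul hr (((diffAt_conj ha).mul hb).sub (ha.mul (diffAt_conj hb))) s
    have h2 := fderiv_fun_sub ((diffAt_conj ha).mul hb) (ha.mul (diffAt_conj hb))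
    simp only [Pi.mul_def, Pi.sub_def] at h h2
    rw [e0, h2, sub_apply, calc_mul (diffAt_conj ha) hb,
      calc_mul ha (diffAt_conj hb), calc_conj ha, calc_conj hb] at h
    simpa using h.symm
  have e2 : (F.rho z : ℂ) * F.tau z = px (cx F.rho) z * F.a z + F.rho z * px F.a z +
      (py (cx F.rho) z * F.b z + F.rho z * py F.b z) := by
    have h0 : (F.rho z : ℂ) ≠ 0 := by exact_mod_cast (F.rho_pos z).ne'
    rw [tau, mul_div_cancel₀ _ h0]
    exact congrArg₂ (· + ·) (calc_mul hr ha _) (calc_mul hr hb _)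
  have e3 := congrArg conj e2
  have ex := e1 (1, 0)
  have ey := e1 (0, 1)
  rw [px_cx hr', py_cx hr'] at e2 e3
  change px (cx F.rho) z * _ + (F.rho z : ℂ) * (conj (px F.a z) * _ + _ * px F.b z -
    (px F.a z * _ + _ * conj (px F.b z))) = 0 at ex
  change py (cx F.rho) z * _ + (F.rho z : ℂ) * (conj (py F.a z) * _ + _ * py F.b z -
    (py F.a z * _ + _ * conj (py F.b z))) = 0 at ey
  rw [px_cx hr'] at ex
  rw [py_cx hr'] at ey
  simp only [map_mul, map_add, Complex.conj_ofReal] at e3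
  have h0 : (F.rho z : ℂ) ≠ 0 := by exact_mod_cast (F.rho_pos z).ne'
  constructor
  · apply mul_left_cancel₀ h0
    simp only [Db, map_add, map_mul, Complex.conj_conj]
    linear_combination ey - F.a z * e3 + conj (F.a z) * e2
  · apply mul_left_cancel₀ h0
    simp only [Db, map_add, map_mul, Complex.conj_conj]
    linear_combination -ex - F.b z * e3 + conj (F.b z) * e2

/-- the commutator of the two first order operators -/
lemma comm_D (hG : ContDiffAt ℝ ∞ G z) :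
    F.D (F.Db G) z - F.Db (F.D G) z = conj (F.tau z) * F.D G z - F.tau z * F.Db G z := by
  have d := fun {X : Pl → ℂ} (h : ContDiffAt ℝ ∞ X z) => h.differentiableAt (by simp)
  have ha := d F.sa.contDiffAt
  have hb := d F.sb.contDiffAt
  have hx := d (smAt_px hG)
  have hy := d (smAt_py hG)
  have e1 : F.D (F.Db G) z = _ :=
    F.D_add ((diffAt_conj ha).mul hx) ((diffAt_conj hb).mul hy)
  have e2 : F.Db (F.D G) z = _ := F.Db_add (ha.mul hx) (hb.mul hy)
  rw [F.D_mul (diffAt_conj ha) hx, F.D_mul (diffAt_conj hb) hy, F.D_conj ha, F.D_conj hb] at e1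
  rw [F.Db_mul ha hx, F.Db_mul hb hy] at e2
  obtain ⟨ka, kb⟩ := F.calc_coef z
  rw [e1, e2]
  have hc := px_py_comm hG
  simp only [D, Db] at ka kb ⊢
  rw [hc]
  linear_combination px G z * ka + py G z * kb

/-- the commutation rule on weight `k` -/
lemma comm_eth (k : ℝ) (hG : ContDiffAt ℝ ∞ G z) :
    F.ethb (k + 1) (F.eth k G) z = F.eth (k - 1) (F.ethb k G) z + (k : ℂ) * (F.kap z : ℂ) * G z := by
  have d := fun {X : Pl → ℂ} (h : ContDiffAt ℝ ∞ X z) => h.differentiableAt (by simp)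
  have ht := d F.sm_tau.contDiffAt
  have e1 : F.Db (F.eth k G) z = _ :=
    F.Db_sub (d (F.smAt_D hG)) (((differentiableAt_const (k : ℂ)).mul ht).mul (d hG))
  have e2 : F.D (F.ethb k G) z = _ :=
    F.D_add (d (F.smAt_Db hG))
      (((differentiableAt_const (k : ℂ)).mul (diffAt_conj ht)).mul (d hG))
  rw [F.Db_mul ((differentiableAt_const (k : ℂ)).fun_mul ht) (d hG), F.Db_const_mul _ ht] at e1
  rw [F.D_mul ((differentiableAt_const (k : ℂ)).fun_mul (diffAt_conj ht)) (d hG),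
    F.D_const_mul _ (diffAt_conj ht), F.D_conj ht] at e2
  have e3 : (F.kap z : ℂ) =
      -(F.Db F.tau z + conj (F.Db F.tau z)) - 2 * (F.tau z * conj (F.tau z)) := by
    rw [Complex.add_conj, Complex.mul_conj, Complex.normSq_eq_norm_sq, kap]
    push_cast
    ring
  have e4 := F.comm_D hG
  rw [ethb, e1, eth, eth, e2, ethb, e3]
  push_cast
  linear_combination -e4

lemma ethb_D_cx (hu : ContDiffAt ℝ ∞ u z) :
    F.ethb 1 (F.D (cx u)) z = ((F.lap u z / 4 : ℝ) : ℂ) := by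
  have h1 : F.Db (cx u) =ᶠ[𝓝 z] fun w => conj (F.D (cx u) w) :=
    (calc_ev_diff hu).mono fun w hw => F.Db_cx hw
  have h2 := F.comm_D (smAt_cx hu)
  rw [(F.D_evEq h1).eq_of_nhds, F.D_conj ((F.smAt_D (smAt_cx hu)).differentiableAt (by simp)),
    h1.eq_of_nhds] at h2
  have h3 : conj (F.ethb 1 (F.D (cx u)) z) = F.ethb 1 (F.D (cx u)) z := by
    simp only [ethb, map_add, map_mul, Complex.conj_conj, Complex.ofReal_one, one_mul]
    linear_combination h2
  rw [← Complex.conj_eq_iff_re.1 h3, lap]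
  congr 1
  ring

lemma eth_Db_cx (hu : ContDiffAt ℝ ∞ u z) :
    F.eth (-1) (F.Db (cx u)) z = ((F.lap u z / 4 : ℝ) : ℂ) := by
  have h1 : F.Db (cx u) =ᶠ[𝓝 z] fun w => conj (F.D (cx u) w) :=
    (calc_ev_diff hu).mono fun w hw => F.Db_cx hw
  rw [(F.eth_evEq (-1) h1).eq_of_nhds,
    F.eth_conj _ ((F.smAt_D (smAt_cx hu)).differentiableAt (by simp)), neg_neg, F.ethb_D_cx hu,
    Complex.conj_ofReal]


lemma lap_const (c : ℝ) : F.lap (fun _ => c) z = 0 := by
  have h : F.D (cx fun _ => c) = fun _ => 0 := funext fun _ => F.D_const (c : ℂ)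
  simp [lap, h, ethb, F.Db_const]

lemma lap_add (hu : ContDiffAt ℝ ∞ u z) (hv : ContDiffAt ℝ ∞ v z) :
    F.lap (fun w => u w + v w) z = F.lap u z + F.lap v z := by
  have h1 : F.D (cx fun w => u w + v w) =ᶠ[𝓝 z] fun w => F.D (cx u) w + F.D (cx v) w := by
    filter_upwards [calc_ev_diff hu, calc_ev_diff hv] with w h1 h2
    rw [← F.D_add (diffAt_cx h1) (diffAt_cx h2)]
    congr 1
    funext y
    simp [cx]
  simp only [lap, (F.ethb_evEq 1 h1).eq_of_nhds]
  rw [F.ethb_add 1 ((F.smAt_D (smAt_cx hu)).differentiableAt (by simp))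
    ((F.smAt_D (smAt_cx hv)).differentiableAt (by simp)), Complex.add_re]
  ring

lemma lap_sub (hu : ContDiffAt ℝ ∞ u z) (hv : ContDiffAt ℝ ∞ v z) :
    F.lap (fun w => u w - v w) z = F.lap u z - F.lap v z := by
  have h := F.lap_add (hu.sub hv) hv
  simp only [sub_add_cancel] at h
  linarith

lemma lap_const_mul (c : ℝ) (hu : ContDiffAt ℝ ∞ u z) :
    F.lap (fun w => c * u w) z = c * F.lap u z := by
  have h1 : F.D (cx fun w => c * u w) =ᶠ[𝓝 z] fun w => (c : ℂ) * F.D (cx u) w := by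
    filter_upwards [calc_ev_diff hu] with w h1
    rw [← F.D_const_mul _ (diffAt_cx h1)]
    congr 1
    funext y
    simp [cx]
  have h2 := F.ethb_mul 0 1 (differentiableAt_const (c : ℂ))
    ((F.smAt_D (smAt_cx hu)).differentiableAt (by simp))
  rw [zero_add, ethb_zero, Db_const] at h2
  simp only [lap, (F.ethb_evEq 1 h1).eq_of_nhds, h2, zero_mul, zero_add, Complex.re_ofReal_mul]
  ring

lemma lap_sum {ι : Type*} (t : Finset ι) {U : ι → Pl → ℝ}
    (hU : ∀ i ∈ t, ContDiffAt ℝ ∞ (U i) z) :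
    F.lap (fun w => ∑ i ∈ t, U i w) z = ∑ i ∈ t, F.lap (U i) z := by
  classical
  induction t using Finset.induction_on with
  | empty => simpa using F.lap_const 0
  | insert i t hi ih =>
    simp only [Finset.sum_insert hi]
    rw [F.lap_add (hU i (Finset.mem_insert_self _ _))
      (ContDiffAt.sum fun j hj => hU j (Finset.mem_insert_of_mem hj)),
      ih fun j hj => hU j (Finset.mem_insert_of_mem hj)]

lemma lap_mul (hu : ContDiffAt ℝ ∞ u z) (hv : ContDiffAt ℝ ∞ v z) :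
    F.lap (fun w => u w * v w) z = u z * F.lap v z + v z * F.lap u z +
      8 * (F.D (cx u) z * conj (F.D (cx v) z)).re := by
  have d := fun {X : Pl → ℂ} (h : ContDiffAt ℝ ∞ X z) => h.differentiableAt (by simp)
  have h1 : F.D (cx fun w => u w * v w) =ᶠ[𝓝 z]
      fun w => F.D (cx u) w * cx v w + cx u w * F.D (cx v) w := by
    filter_upwards [calc_ev_diff hu, calc_ev_diff hv] with w h1 h2
    rw [← F.D_mul (diffAt_cx h1) (diffAt_cx h2)]
    congr 1
    funext y
    simp [cx]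
  have cu := smAt_cx hu
  have cv := smAt_cx hv
  have h2 := F.ethb_mul 1 0 (d (F.smAt_D cu)) (d cv)
  have h3 := F.ethb_mul 0 1 (d cu) (d (F.smAt_D cv))
  rw [add_zero, ethb_zero, F.Db_cx (hv.differentiableAt (by simp)), F.ethb_D_cx hu] at h2
  rw [zero_add, ethb_zero, F.Db_cx (hu.differentiableAt (by simp)), F.ethb_D_cx hv] at h3
  rw [lap, (F.ethb_evEq 1 h1).eq_of_nhds,
    F.ethb_add 1 ((d (F.smAt_D cu)).fun_mul (d cv)) ((d cu).fun_mul (d (F.smAt_D cv))), h2, h3]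
  simp only [cx, Complex.add_re, Complex.mul_re, Complex.ofReal_re, Complex.ofReal_im,
    Complex.conj_re, Complex.conj_im]
  ring

/-- chain rule; `h'` is the derivative of `h` near `u z` -/
lemma lap_comp {h h' : ℝ → ℝ} {h'' : ℝ} (hu : ContDiffAt ℝ ∞ u z)
    (h1 : ∀ᶠ t in 𝓝 (u z), HasDerivAt h (h' t) t) (h2 : HasDerivAt h' h'' (u z)) :
    F.lap (fun w => h (u w)) z = h'' * (4 * ‖F.D (cx u) z‖ ^ 2) + h' (u z) * F.lap u z := by
  have hd := hu.differentiableAt (by simp)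
  have e1 : F.D (cx fun w => h (u w)) =ᶠ[𝓝 z] fun w => cx (fun y => h' (u y)) w * F.D (cx u) w := by
    filter_upwards [calc_ev_diff hu, hu.continuousAt.eventually h1] with w h3 h4
    exact F.D_cx_comp h4 h3
  have hd' : DifferentiableAt ℝ (fun y => h' (u y)) z := h2.differentiableAt.comp z hd
  have e2 := F.ethb_mul 0 1 (diffAt_cx hd') ((F.smAt_D (smAt_cx hu)).differentiableAt (by simp))
  rw [zero_add, ethb_zero, F.Db_cx hd', F.D_cx_comp h2 hd, F.ethb_D_cx hu, map_mul,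
    Complex.conj_ofReal, mul_assoc, ← Complex.normSq_eq_conj_mul_self,
    Complex.normSq_eq_norm_sq] at e2
  rw [lap, (F.ethb_evEq 1 e1).eq_of_nhds, e2]
  simp only [cx, ← Complex.ofReal_mul, ← Complex.ofReal_add, Complex.ofReal_re]
  ring

lemma lap_log (hu : ContDiffAt ℝ ∞ u z) (h0 : 0 < u z) :
    F.lap (fun w => Real.log (u w)) z = F.lap u z / u z - 4 * ‖F.D (cx u) z‖ ^ 2 / u z ^ 2 := by
  rw [F.lap_comp (h := Real.log) (h' := fun t => t⁻¹) (h'' := -(u z ^ 2)⁻¹) hu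
    ((eventually_ne_nhds h0.ne').mono fun t ht => Real.hasDerivAt_log ht) (hasDerivAt_inv h0.ne')]
  field_simp
  ring


end Frame

end Pool.Agent.P.MP_177f55_an
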