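import Pool.Agent.P.MP_177f55_an.Ident

/-! The second level inequality and the energy of the frequency function. -/

open MeasureTheory Set Filter Topology
open scoped ContDiff ComplexConjugate NNReal ENNReal

noncomputable section

namespace Pool.Agent.P.MP_177f55_an

lemma second_lagrange (r p f : ℂ) (l : ℝ) :
    (‖r‖ ^ 2 + l * ‖p‖ ^ 2) * (‖p‖ ^ 2 + l * ‖f‖ ^ 2) - ‖r * conj p + (l : ℂ) * (p * conj f)‖ ^ 2 =
      l * ‖r * f - p ^ 2‖ ^ 2 := by
  rw [pow_two p]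
  simp only [Complex.sq_norm, Complex.normSq_apply, Complex.add_re, Complex.add_im,
    Complex.mul_re, Complex.mul_im, Complex.sub_re, Complex.sub_im, Complex.conj_re,
    Complex.conj_im, Complex.ofReal_re, Complex.ofReal_im]
  ring

lemma second_re_bound (d f p : ℂ) (C : ℝ) (hd : ‖d‖ ≤ C) :
    -(C * (‖f‖ ^ 2 + ‖p‖ ^ 2)) ≤ 2 * (d * f * conj p).re := by
  have h1 : |(d * f * conj p).re| ≤ ‖d * f * conj p‖ := Complex.abs_re_le_norm _
  have h2 : ‖d * f * conj p‖ = ‖d‖ * ‖f‖ * ‖p‖ := by simp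
  have h3 := (abs_le.mp h1).1
  have hf := norm_nonneg f
  have hp := norm_nonneg p
  have h4 : ‖d‖ * ‖f‖ * ‖p‖ ≤ C * (‖f‖ * ‖p‖) := by
    rw [mul_assoc]; exact mul_le_mul_of_nonneg_right hd (mul_nonneg hf hp)
  have hC : 0 ≤ C := (norm_nonneg d).trans hd
  have h5 : C * (2 * (‖f‖ * ‖p‖)) ≤ C * (‖f‖ ^ 2 + ‖p‖ ^ 2) :=
    mul_le_mul_of_nonneg_left (by nlinarith [sq_nonneg (‖f‖ - ‖p‖)]) hC
  rw [h2] at h3
  linarith

lemma second_three (a b c : ℂ) : ‖a + b + c‖ ^ 2 ≤ 3 * (‖a‖ ^ 2 + ‖b‖ ^ 2 + ‖c‖ ^ 2) := by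
  have h : ‖a + b + c‖ ≤ ‖a‖ + ‖b‖ + ‖c‖ := norm_add₃_le
  have h2 : ‖a + b + c‖ ^ 2 ≤ (‖a‖ + ‖b‖ + ‖c‖) ^ 2 := pow_le_pow_left₀ (norm_nonneg _) h 2
  nlinarith [sq_nonneg (‖a‖ - ‖b‖), sq_nonneg (‖a‖ - ‖c‖), sq_nonneg (‖b‖ - ‖c‖)]

namespace Eig

variable {F : Frame} {V K : Set Pl} {lam eps L C : ℝ} {φ : Pl → ℝ} {z : Pl}

lemma second_dAt {G : Pl → ℂ} (hG : ContDiff ℝ ∞ G) (z : Pl) : DifferentiableAt ℝ G z :=
  (hG.differentiable (by simp)).differentiableAt

lemma second_D_normSq_p (h : Eig F V lam φ) (hz : z ∈ V) :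
    F.D (fun w => F.p φ w * conj (F.p φ w)) z =
      F.r φ z * conj (F.p φ z) + ((F.kap z - lam / 4 : ℝ) : ℂ) * (F.p φ z * conj (F.f φ z)) := by
  have dp := second_dAt (F.sm_p h.sm) z
  have h1 := F.eth_mul 2 (-2) dp (diffAt_conj dp)
  rw [F.eth_conj (-2) dp, neg_neg, h.ethb_p hz] at h1
  rw [← F.eth_zero, show (0 : ℝ) = 2 + -2 by norm_num, h1]
  simp only [Frame.r, map_mul, Complex.conj_ofReal]
  ring

lemma second_cx_Q (F : Frame) (lam eps L : ℝ) (φ : Pl → ℝ) :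
    cx (F.Q lam eps L φ) = fun w => F.p φ w * conj (F.p φ w) +
      ((L ^ 2 * lam : ℝ) : ℂ) * cx (F.q lam eps φ) w := by
  funext w
  simp only [cx, Frame.Q, Complex.mul_conj, Complex.normSq_eq_norm_sq]
  push_cast
  ring

lemma second_D_Q (h : Eig F V lam φ) (hz : z ∈ V) :
    F.D (cx (F.Q lam eps L φ)) z = F.r φ z * conj (F.p φ z) +
      cx (fun w => L ^ 2 * lam - lam / 4 + F.kap w) z * (F.p φ z * conj (F.f φ z)) := by
  have dp := second_dAt (F.sm_p h.sm) z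
  have dq := second_dAt (sm_cx (F.sm_q (lam := lam) (eps := eps) h.sm)) z
  rw [second_cx_Q, F.D_add (dp.fun_mul (diffAt_conj dp)) (dq.const_mul _), h.second_D_normSq_p hz,
    F.D_const_mul _ dq, h.D_q hz]
  simp only [cx]
  push_cast
  ring

lemma second_lap_Q (h : Eig F V lam φ) (hz : z ∈ V) :
    F.lap (F.Q lam eps L φ) z = 4 * (‖F.r φ z‖ ^ 2 + (3 * F.kap z - lam / 4) * ‖F.p φ z‖ ^ 2 +
      (L ^ 2 * lam - lam / 4 + F.kap z) *
        ((F.kap z - lam / 4) * ‖F.f φ z‖ ^ 2 + ‖F.p φ z‖ ^ 2) +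
      2 * (F.D (cx F.kap) z * F.f φ z * conj (F.p φ z)).re) := by
  have df := second_dAt (F.sm_f h.sm) z
  have dp := second_dAt (F.sm_p h.sm) z
  have dr := second_dAt (F.sm_r h.sm) z
  have dk0 : DifferentiableAt ℝ F.kap z := (F.sm_kap.differentiable (by simp)).differentiableAt
  have dk : DifferentiableAt ℝ (cx F.kap) z := diffAt_cx dk0
  have dl0 : DifferentiableAt ℝ (fun w => L ^ 2 * lam - lam / 4 + F.kap w) z :=
    dk0.const_add _
  have dl := diffAt_cx dl0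
  have hev : F.D (cx (F.Q lam eps L φ)) =ᶠ[𝓝 z] fun w => F.r φ w * conj (F.p φ w) +
      cx (fun w => L ^ 2 * lam - lam / 4 + F.kap w) w * (F.p φ w * conj (F.f φ w)) := by
    filter_upwards [h.oV.mem_nhds hz] with w hw using h.second_D_Q hw
  have e1 := (F.ethb_evEq 1 hev).eq_of_nhds
  have e2 := F.ethb_mul 3 (-2) dr (diffAt_conj dp)
  rw [F.ethb_conj (-2) dp, neg_neg, h.ethb_r hz, show (3 : ℝ) + -2 = 1 by norm_num] at e2
  have e3 := F.ethb_mul 2 (-1) dp (diffAt_conj df)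
  rw [F.ethb_conj (-1) df, neg_neg, h.ethb_p hz, show (2 : ℝ) + -1 = 1 by norm_num] at e3
  have e4 := F.ethb_mul 0 1 dl (dp.fun_mul (diffAt_conj df))
  have e5 : F.Db (cx fun w => L ^ 2 * lam - lam / 4 + F.kap w) z = conj (F.D (cx F.kap) z) := by
    have : (cx fun w => L ^ 2 * lam - lam / 4 + F.kap w) =
        fun w => ((L ^ 2 * lam - lam / 4 : ℝ) : ℂ) + cx F.kap w := by
      funext w; simp only [cx]; push_cast; ring
    rw [this, F.Db_add (differentiableAt_const _) dk, F.Db_const, zero_add, F.Db_cx dk0]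
  rw [zero_add, F.ethb_zero, e5] at e4
  rw [F.ethb_add 1 (dr.fun_mul (diffAt_conj dp)) (dl.fun_mul (dp.fun_mul (diffAt_conj df))), e2] at e1
  rw [e4, e3] at e1
  unfold Frame.lap
  rw [e1]
  congr 1
  change (((((3 * F.kap z - lam / 4 : ℝ) : ℂ) * F.p φ z + F.D (cx F.kap) z * F.f φ z) *
      conj (F.p φ z) + F.r φ z * conj (F.r φ z)) +
    (conj (F.D (cx F.kap) z) * (F.p φ z * conj (F.f φ z)) +
      ((L ^ 2 * lam - lam / 4 + F.kap z : ℝ) : ℂ) *
        (((F.kap z - lam / 4 : ℝ) : ℂ) * F.f φ z * conj (F.f φ z) +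
          F.p φ z * conj (F.p φ z)))).re = _
  generalize F.D (cx F.kap) z = d
  generalize F.f φ z = f
  generalize F.p φ z = p
  generalize F.r φ z = r
  generalize (3 * F.kap z - lam / 4 : ℝ) = a
  generalize (L ^ 2 * lam - lam / 4 + F.kap z : ℝ) = b
  generalize (F.kap z - lam / 4 : ℝ) = c
  simp only [Complex.sq_norm, Complex.normSq_apply, Complex.add_re, Complex.add_im,
    Complex.mul_re, Complex.mul_im, Complex.conj_re,
    Complex.conj_im, Complex.ofReal_re, Complex.ofReal_im]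
  ring

/-- the second level inequality -/
lemma lap_log_Q_ge (h : Eig F V lam φ) (hz : z ∈ V) (hB : F.Bd K C) (hzK : z ∈ K)
    (hl : 16 * C ≤ lam) (he : 0 < eps) (hL : 1 ≤ L) :
    2 * F.g2 lam eps L φ z - 2 * lam * (F.S φ).indicator 1 z ≤
      F.lap (fun w => Real.log (F.Q lam eps L φ w)) z := by
  have hC := hB.one_le
  have hl0 : 0 < lam := by linarith
  have hQ := F.Q_pos (φ := φ) hl0 he hL z
  have hs := sig_pos (φ := φ) hl0 he z
  have hk := abs_le.mp (hB.kap_le z hzK)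
  have hre := second_re_bound (F.D (cx F.kap) z) (F.f φ z) (F.p φ z) C (hB.Dkap_le z hzK)
  rw [F.lap_log (F.sm_Q h.sm).contDiffAt hQ, h.second_lap_Q hz, h.second_D_Q hz]
  have hlag := second_lagrange (F.r φ z) (F.p φ z) (F.f φ z) (L ^ 2 * lam - lam / 4 + F.kap z)
  have hQe : F.Q lam eps L φ z =
      ‖F.p φ z‖ ^ 2 + L ^ 2 * lam * (‖F.f φ z‖ ^ 2 + sig lam eps φ z) := rfl
  have hM : lam ≤ L ^ 2 * lam := le_mul_of_one_le_left hl0.le (one_le_pow₀ hL)
  have hN : -(lam / 2) * (F.S φ).indicator 1 z * F.Q lam eps L φ z ≤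
      (3 * F.kap z - lam / 4) * ‖F.p φ z‖ ^ 2 + (L ^ 2 * lam - lam / 4 + F.kap z) *
        ((F.kap z - lam / 4) * ‖F.f φ z‖ ^ 2) +
      2 * (F.D (cx F.kap) z * F.f φ z * conj (F.p φ z)).re := by
    by_cases hS : z ∈ F.S φ
    · rw [indicator_of_mem hS, hQe, Pi.one_apply]
      generalize L ^ 2 * lam = M at *
      generalize F.kap z = k at *
      generalize (F.D (cx F.kap) z * F.f φ z * conj (F.p φ z)).re = R at *
      have hf : 0 ≤ ‖F.f φ z‖ ^ 2 := by positivity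
      have hp : 0 ≤ ‖F.p φ z‖ ^ 2 := by positivity
      generalize ‖F.f φ z‖ ^ 2 = x at *
      generalize ‖F.p φ z‖ ^ 2 = y at *
      generalize sig lam eps φ z = s at *
      have h1 : 0 ≤ (3 * k - lam / 4 - C + lam / 2) * y := mul_nonneg (by linarith) hp
      have h2 : (M - lam / 4 + k) * (lam / 4 - k) ≤ M * (5 * lam / 16) :=
        mul_le_mul (by linarith) (by linarith) (by linarith) (by linarith)
      have h3 : C ≤ M * (lam / 16) := by nlinarith
      have h4 : 0 ≤ (lam / 2 * M - (M - lam / 4 + k) * (lam / 4 - k) - C) * x :=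
        mul_nonneg (by nlinarith) hf
      have h5 : 0 ≤ lam / 2 * (M * s) := by
        have : 0 < M := by linarith
        positivity
      nlinarith
    · have hS' := hS
      simp only [Frame.S, mem_ofPred_eq, not_or, not_not] at hS'
      rw [indicator_of_notMem hS, hS'.2.1, hS'.2.2]
      simp
  unfold Frame.g2
  change _ ≤ _ - 4 * ‖F.r φ z * conj (F.p φ z) +
    ((L ^ 2 * lam - lam / 4 + F.kap z : ℝ) : ℂ) * (F.p φ z * conj (F.f φ z))‖ ^ 2 / _
  generalize ‖F.r φ z * conj (F.p φ z) +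
    ((L ^ 2 * lam - lam / 4 + F.kap z : ℝ) : ℂ) * (F.p φ z * conj (F.f φ z))‖ ^ 2 = E at *
  have hw : 0 ≤ ‖F.r φ z * F.f φ z - F.p φ z ^ 2‖ ^ 2 := by positivity
  have hf : 0 ≤ ‖F.f φ z‖ ^ 2 := by positivity
  have hp : 0 ≤ ‖F.p φ z‖ ^ 2 := by positivity
  have hr : 0 ≤ ‖F.r φ z‖ ^ 2 := by positivity
  generalize ‖F.r φ z * F.f φ z - F.p φ z ^ 2‖ ^ 2 = W at *
  generalize ‖F.f φ z‖ ^ 2 = x at *
  generalize ‖F.p φ z‖ ^ 2 = y at *
  generalize ‖F.r φ z‖ ^ 2 = t at *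
  generalize (F.D (cx F.kap) z * F.f φ z * conj (F.p φ z)).re = R at *
  generalize (F.S φ).indicator (1 : Pl → ℝ) z = I at *
  generalize sig lam eps φ z = s at *
  generalize F.Q lam eps L φ z = Q at *
  generalize L ^ 2 * lam = M at *
  generalize F.kap z = k at *
  set l2 := M - lam / 4 + k with hl2
  set N := (3 * k - lam / 4) * y + l2 * ((k - lam / 4) * x) + 2 * R with hNd
  have hM0 : 0 < M := by linarith
  have hl2a : M / 2 ≤ l2 := by linarith
  have key : M / 2 * (W + t * s) ≤ (t + l2 * y) * Q - E := by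
    have e : (t + l2 * y) * Q - E = l2 * W + (t + l2 * y) * ((lam / 4 - k) * x) +
        t * (M * s) + l2 * y * (M * s) := by
      rw [← hlag, hQe, hl2]; ring
    have a1 : M / 2 * W ≤ l2 * W := mul_le_mul_of_nonneg_right hl2a hw
    have hl20 : 0 ≤ l2 := by linarith
    have a2 : 0 ≤ (t + l2 * y) * ((lam / 4 - k) * x) :=
      mul_nonneg (by positivity) (mul_nonneg (by linarith) hf)
    have a3 : 0 ≤ l2 * y * (M * s) := by positivity
    have a4 : 0 ≤ t * (M * s) := by positivity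
    rw [e]
    nlinarith
  have e2 : 4 * (t + (3 * k - lam / 4) * y + l2 * ((k - lam / 4) * x + y) + 2 * R) / Q -
      4 * E / Q ^ 2 = 4 * ((t + l2 * y) * Q - E) / Q ^ 2 + 4 * N / Q := by
    rw [hNd]; field_simp; ring
  rw [e2]
  have b1 : 2 * (M * (W + t * s) / Q ^ 2) ≤ 4 * ((t + l2 * y) * Q - E) / Q ^ 2 := by
    rw [← mul_div_assoc]
    exact div_le_div_of_nonneg_right (by linarith) (by positivity)
  have b2 : -(2 * lam * I) ≤ 4 * N / Q := by
    rw [le_div_iff₀ hQ]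
    linarith
  linarith

lemma second_D_tt (h : Eig F V lam φ) (hz : z ∈ V) (hl : 0 < lam) (he : 0 < eps) (hL : 1 ≤ L) :
    F.D (cx (F.tt lam eps L φ)) z =
      conj (F.p φ z) * conj (F.f φ z) * (F.r φ z * F.f φ z - F.p φ z ^ 2) /
          ((L ^ 2 * lam * F.q lam eps φ z ^ 2 : ℝ) : ℂ) +
        conj (F.p φ z) * F.r φ z * (sig lam eps φ z : ℂ) /
          ((L ^ 2 * lam * F.q lam eps φ z ^ 2 : ℝ) : ℂ) +
        ((F.kap z - lam / 4 : ℝ) : ℂ) * (F.p φ z * conj (F.f φ z)) /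
          ((L ^ 2 * lam * F.q lam eps φ z : ℝ) : ℂ) := by
  have dp := second_dAt (F.sm_p h.sm) z
  have dq := second_dAt (sm_cx (F.sm_q (lam := lam) (eps := eps) h.sm)) z
  have hq := F.q_pos (φ := φ) hl he z
  have hL0 : 0 < L := by linarith
  have hM : ((L ^ 2 * lam : ℝ) : ℂ) ≠ 0 := by
    exact_mod_cast (by positivity : L ^ 2 * lam ≠ 0)
  have hq' : cx (F.q lam eps φ) z ≠ 0 := by
    simp only [cx]; exact_mod_cast hq.ne'
  have e : cx (F.tt lam eps L φ) = fun w => (F.p φ w * conj (F.p φ w)) /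
      (((L ^ 2 * lam : ℝ) : ℂ) * cx (F.q lam eps φ) w) := by
    funext w
    simp only [cx, Frame.tt, Complex.mul_conj, Complex.normSq_eq_norm_sq]
    push_cast
    ring
  rw [e, F.D_div (dp.fun_mul (diffAt_conj dp)) (dq.const_mul _) (mul_ne_zero hM hq'),
    h.second_D_normSq_p hz, F.D_const_mul _ dq, h.D_q hz]
  have hqe : (F.q lam eps φ z : ℂ) = F.f φ z * conj (F.f φ z) + (sig lam eps φ z : ℂ) := by
    simp only [Frame.q, Complex.mul_conj, Complex.normSq_eq_norm_sq]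
    push_cast
    ring
  simp only [cx] at hq' ⊢
  rw [Complex.ofReal_mul (L ^ 2 * lam), Complex.ofReal_mul (L ^ 2 * lam), Complex.ofReal_pow]
  generalize ((L ^ 2 * lam : ℝ) : ℂ) = M at *
  generalize ((F.kap z - lam / 4 : ℝ) : ℂ) = c
  have hs : (sig lam eps φ z : ℂ) = (F.q lam eps φ z : ℂ) - F.f φ z * conj (F.f φ z) := by
    rw [hqe]; ring
  rw [hs]
  generalize (F.q lam eps φ z : ℂ) = q at *
  field_simp
  ring

lemma norm_D_tt (h : Eig F V lam φ) (hz : z ∈ V) (hB : F.Bd K C) (hzK : z ∈ K)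
    (hl : 16 * C ≤ lam) (he : 0 < eps) (hL : 1 ≤ L) (ht : F.tt lam eps L φ z ≤ 4) :
    ‖F.D (cx (F.tt lam eps L φ)) z‖ ^ 2 ≤ 300 * (F.g2 lam eps L φ z + lam) := by
  have hC := hB.one_le
  have hl0 : 0 < lam := by linarith
  have hq := F.q_pos (φ := φ) hl0 he z
  have hQ := F.Q_pos (φ := φ) hl0 he hL z
  have hs := sig_pos (φ := φ) hl0 he z
  have hk := abs_le.mp (hB.kap_le z hzK)
  have hM : lam ≤ L ^ 2 * lam := le_mul_of_one_le_left hl0.le (one_le_pow₀ hL)
  have hM0 : 0 < L ^ 2 * lam := by linarith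
  rw [h.second_D_tt hz hl0 he hL]
  refine (second_three _ _ _).trans ?_
  have hp4 : ‖F.p φ z‖ ^ 2 ≤ 4 * (L ^ 2 * lam * F.q lam eps φ z) := by
    unfold Frame.tt at ht
    rwa [div_le_iff₀ (by positivity)] at ht
  have hqe : F.q lam eps φ z = ‖F.f φ z‖ ^ 2 + sig lam eps φ z := rfl
  have hQe : F.Q lam eps L φ z = ‖F.p φ z‖ ^ 2 + L ^ 2 * lam * F.q lam eps φ z := rfl
  unfold Frame.g2
  simp only [norm_div, norm_mul, Complex.norm_conj, Complex.norm_real, Real.norm_eq_abs, div_pow,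
    mul_pow, sq_abs]
  have hw : 0 ≤ ‖F.r φ z * F.f φ z - F.p φ z ^ 2‖ ^ 2 := by positivity
  have hf : 0 ≤ ‖F.f φ z‖ ^ 2 := by positivity
  have hp : 0 ≤ ‖F.p φ z‖ ^ 2 := by positivity
  have hr : 0 ≤ ‖F.r φ z‖ ^ 2 := by positivity
  rw [← mul_pow (L ^ 2) lam 2]
  generalize ‖F.r φ z * F.f φ z - F.p φ z ^ 2‖ ^ 2 = W at *
  generalize ‖F.f φ z‖ ^ 2 = x at *
  generalize ‖F.p φ z‖ ^ 2 = y at *
  generalize ‖F.r φ z‖ ^ 2 = t at *
  generalize sig lam eps φ z = s at *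
  generalize F.Q lam eps L φ z = Q at *
  generalize F.q lam eps φ z = q at *
  generalize L ^ 2 * lam = M at *
  generalize F.kap z = k at *
  have hxq : x ≤ q := by linarith
  have hsq : s ≤ q := by linarith
  have hyx : y * x ≤ 4 * (M * q) * q := mul_le_mul hp4 hxq hf (by positivity)
  have hys : y * s ≤ 4 * (M * q) * q := mul_le_mul hp4 hsq hs.le (by positivity)
  have a1 : y * x * W / (M ^ 2 * (q ^ 2) ^ 2) ≤ 4 * W / (M * q ^ 2) := by
    rw [div_le_div_iff₀ (by positivity) (by positivity)]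
    have := mul_le_mul_of_nonneg_right hyx (by positivity : 0 ≤ W * (M * q ^ 2))
    nlinarith
  have a2 : y * t * s ^ 2 / (M ^ 2 * (q ^ 2) ^ 2) ≤ 4 * (t * s) / (M * q ^ 2) := by
    rw [div_le_div_iff₀ (by positivity) (by positivity)]
    have := mul_le_mul_of_nonneg_right hys (by positivity : 0 ≤ t * s * (M * q ^ 2))
    nlinarith
  have a3 : (k - lam / 4) ^ 2 * (y * x) / (M ^ 2 * q ^ 2) ≤ lam := by
    rw [div_le_iff₀ (by positivity)]
    have b1 : (k - lam / 4) ^ 2 ≤ (lam / 2) ^ 2 := by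
      apply sq_le_sq'
      · linarith
      · linarith
    have b2 : (k - lam / 4) ^ 2 * (y * x) ≤ (lam / 2) ^ 2 * (4 * (M * q) * q) :=
      mul_le_mul b1 hyx (by positivity) (by positivity)
    have b3 := mul_le_mul_of_nonneg_right hM (by positivity : 0 ≤ lam * M * q ^ 2)
    nlinarith
  have a4 : 4 * W / (M * q ^ 2) + 4 * (t * s) / (M * q ^ 2) ≤ 100 * (M * (W + t * s) / Q ^ 2) := by
    rw [← add_div, ← mul_div_assoc, div_le_div_iff₀ (by positivity) (by positivity)]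
    have b1 : Q ^ 2 ≤ (5 * (M * q)) ^ 2 := pow_le_pow_left₀ hQ.le (by linarith) 2
    have b2 := mul_le_mul_of_nonneg_left b1 (by positivity : 0 ≤ 4 * (W + t * s))
    nlinarith
  linarith

end Eig

/-- the derivative of the smooth step is bounded and vanishes off the unit interval -/
lemma exists_step_bound : ∃ Cs : ℝ, 1 ≤ Cs ∧ ∀ t : ℝ, |deriv Real.smoothTransition t| ≤ Cs ∧
    ((t < 0 ∨ 1 < t) → deriv Real.smoothTransition t = 0) := by
  have hz : ∀ t : ℝ, (t < 0 ∨ 1 < t) → deriv Real.smoothTransition t = 0 := by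
    rintro t (ht | ht)
    · have : Real.smoothTransition =ᶠ[𝓝 t] fun _ => 0 := by
        filter_upwards [Iio_mem_nhds ht] with s hs using
          Real.smoothTransition.zero_of_nonpos (le_of_lt hs)
      rw [this.deriv_eq, deriv_const]
    · have : Real.smoothTransition =ᶠ[𝓝 t] fun _ => 1 := by
        filter_upwards [Ioi_mem_nhds ht] with s hs using
          Real.smoothTransition.one_of_one_le (le_of_lt hs)
      rw [this.deriv_eq, deriv_const]
  have hc : Continuous (deriv Real.smoothTransition) :=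
    (Real.smoothTransition.contDiff (n := 1)).continuous_deriv le_rfl
  obtain ⟨B, hB⟩ := isCompact_Icc.exists_bound_of_continuousOn
    (hc.continuousOn (s := Icc (0 : ℝ) 1))
  refine ⟨max B 1, le_max_right _ _, fun t => ⟨?_, hz t⟩⟩
  by_cases ht : t ∈ Icc (0 : ℝ) 1
  · exact (hB t ht).trans (le_max_left _ _)
  · have : t < 0 ∨ 1 < t := by
      simp only [mem_Icc, not_and_or, not_le] at ht
      exact ht
    rw [hz t this, abs_zero]
    exact zero_le_one.trans (le_max_right _ _)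

end Pool.Agent.P.MP_177f55_an
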