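import Pool.Agent.P.MP_177f55_an.Calc

/-! Pointwise identities and inequalities for an eigenfunction. -/

open MeasureTheory Set Filter Topology
open scoped ContDiff ComplexConjugate NNReal ENNReal

noncomputable section

namespace Pool.Agent.P.MP_177f55_an

namespace Frame

variable (F : Frame) {φ : Pl → ℝ} {lam eps L : ℝ}

lemma ident_eth_const_mul (k : ℝ) (c : ℂ) {G : Pl → ℂ} {z : Pl} (hG : DifferentiableAt ℝ G z) :
    F.eth k (fun w => c * G w) z = c * F.eth k G z := by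
  unfold eth
  rw [F.D_const_mul c hG]; ring
lemma ident_ethb_const_mul (k : ℝ) (c : ℂ) {G : Pl → ℂ} {z : Pl} (hG : DifferentiableAt ℝ G z) :
    F.ethb k (fun w => c * G w) z = c * F.ethb k G z := by
  unfold ethb
  rw [F.Db_const_mul c hG]; ring

lemma sm_f (h : ContDiff ℝ ∞ φ) : ContDiff ℝ ∞ (F.f φ) :=
  contDiff_const.mul (F.sm_D (sm_cx h))
lemma sm_p (h : ContDiff ℝ ∞ φ) : ContDiff ℝ ∞ (F.p φ) := F.sm_eth 1 (F.sm_f h)
lemma sm_r (h : ContDiff ℝ ∞ φ) : ContDiff ℝ ∞ (F.r φ) := F.sm_eth 2 (F.sm_p h)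
lemma _root_.Pool.Agent.P.MP_177f55_an.sm_sig (h : ContDiff ℝ ∞ φ) :
    ContDiff ℝ ∞ (sig lam eps φ) :=
  (contDiff_const.mul ((h.pow 2).add contDiff_const)).div_const 2
lemma _root_.Pool.Agent.P.MP_177f55_an.sig_pos (hl : 0 < lam) (he : 0 < eps) (z : Pl) :
    0 < sig lam eps φ z := by
  unfold sig; positivity
lemma sm_q (h : ContDiff ℝ ∞ φ) : ContDiff ℝ ∞ (F.q lam eps φ) :=
  (sm_normSq (F.sm_f h)).add (sm_sig h)
lemma sm_Q (h : ContDiff ℝ ∞ φ) : ContDiff ℝ ∞ (F.Q lam eps L φ) :=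
  (sm_normSq (F.sm_p h)).add (contDiff_const.mul (F.sm_q h))
lemma q_pos (hl : 0 < lam) (he : 0 < eps) (z : Pl) : 0 < F.q lam eps φ z :=
  add_pos_of_nonneg_of_pos (sq_nonneg _) (sig_pos hl he z)
lemma Q_pos (hl : 0 < lam) (he : 0 < eps) (hL : 1 ≤ L) (z : Pl) : 0 < F.Q lam eps L φ z :=
  add_pos_of_nonneg_of_pos (sq_nonneg _)
    (mul_pos (mul_pos (pow_pos (by linarith) 2) hl) (F.q_pos hl he z))
lemma sm_g1 (h : ContDiff ℝ ∞ φ) (hl : 0 < lam) (he : 0 < eps) :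
    ContDiff ℝ ∞ (F.g1 lam eps φ) :=
  ((sm_normSq (F.sm_p h)).mul (sm_sig h)).div ((F.sm_q h).pow 2)
    fun z => (pow_pos (F.q_pos hl he z) 2).ne'
lemma sm_g2 (h : ContDiff ℝ ∞ φ) (hl : 0 < lam) (he : 0 < eps) (hL : 1 ≤ L) :
    ContDiff ℝ ∞ (F.g2 lam eps L φ) :=
  (contDiff_const.mul ((sm_normSq (((F.sm_r h).mul (F.sm_f h)).sub ((F.sm_p h).pow 2))).add
    ((sm_normSq (F.sm_r h)).mul (sm_sig h)))).div ((F.sm_Q h).pow 2)
    fun z => (pow_pos (F.Q_pos hl he hL z) 2).ne'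
lemma sm_tt (h : ContDiff ℝ ∞ φ) (hl : 0 < lam) (he : 0 < eps) (hL : 1 ≤ L) :
    ContDiff ℝ ∞ (F.tt lam eps L φ) :=
  (sm_normSq (F.sm_p h)).div (contDiff_const.mul (F.sm_q h))
    fun z => (mul_pos (mul_pos (pow_pos (by linarith) 2) hl) (F.q_pos hl he z)).ne'
lemma sm_om (h : ContDiff ℝ ∞ φ) (hl : 0 < lam) (he : 0 < eps) (hL : 1 ≤ L) :
    ContDiff ℝ ∞ (F.om lam eps L φ) :=
  Real.smoothTransition.contDiff.comp (((F.sm_tt h hl he hL).sub contDiff_const).div_const 2)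
lemma g1_nonneg (hl : 0 < lam) (z : Pl) : 0 ≤ F.g1 lam eps φ z := by
  unfold g1 sig; positivity
lemma g2_nonneg (hl : 0 < lam) (z : Pl) : 0 ≤ F.g2 lam eps L φ z := by
  unfold g2 sig; positivity
lemma isOpen_S (h : ContDiff ℝ ∞ φ) : IsOpen (F.S φ) :=
  (isOpen_ne_fun h.continuous continuous_const).union
    ((isOpen_ne_fun (F.sm_f h).continuous continuous_const).union
      (isOpen_ne_fun (F.sm_p h).continuous continuous_const))
lemma isClosed_A (h : ContDiff ℝ ∞ φ) (hl : 0 < lam) (he : 0 < eps) (hL : 1 ≤ L) :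
    IsClosed (F.A lam eps L φ) :=
  isClosed_le continuous_const (F.sm_tt h hl he hL).continuous

end Frame

namespace Eig

variable {F : Frame} {V K : Set Pl} {lam eps L C : ℝ} {φ : Pl → ℝ} {z : Pl}

lemma ident_dx (h : Eig F V lam φ) (z : Pl) : DifferentiableAt ℝ (cx φ) z :=
  (sm_cx h.sm).differentiable (by simp) z
lemma ident_df (h : Eig F V lam φ) (z : Pl) : DifferentiableAt ℝ (F.f φ) z :=
  (F.sm_f h.sm).differentiable (by simp) z
lemma ident_dp (h : Eig F V lam φ) (z : Pl) : DifferentiableAt ℝ (F.p φ) z :=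
  (F.sm_p h.sm).differentiable (by simp) z
lemma ident_Dx (F : Frame) (φ : Pl → ℝ) (z : Pl) : F.D (cx φ) z = F.f φ z / 2 := by
  unfold Frame.f; ring

lemma ethb_f (h : Eig F V lam φ) (hz : z ∈ V) :
    F.ethb 1 (F.f φ) z = -((lam * φ z / 2 : ℝ) : ℂ) := by
  have e : F.f φ = fun w => 2 * F.D (cx φ) w := rfl
  rw [e, F.ident_ethb_const_mul 1 2 ((F.sm_D (sm_cx h.sm)).differentiable (by simp) z),
    F.ethb_D_cx h.sm.contDiffAt, h.eq z hz]
  push_cast; ring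
lemma ethb_p (h : Eig F V lam φ) (hz : z ∈ V) :
    F.ethb 2 (F.p φ) z = ((F.kap z - lam / 4 : ℝ) : ℂ) * F.f φ z := by
  have h1 := F.comm_eth 1 (F.sm_f h.sm).contDiffAt (z := z)
  have h2 : F.ethb 1 (F.f φ) =ᶠ[𝓝 z] fun w => (-(lam : ℂ) / 2) * cx φ w := by
    filter_upwards [h.oV.mem_nhds hz] with w hw
    rw [h.ethb_f hw]; unfold cx; push_cast; ring
  rw [one_add_one_eq_two, sub_self, F.eth_zero, (F.D_evEq h2).eq_of_nhds,
    F.D_const_mul _ (h.ident_dx z), ident_Dx] at h1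
  unfold Frame.p
  rw [h1]; push_cast; ring
lemma ethb_r (h : Eig F V lam φ) (hz : z ∈ V) :
    F.ethb 3 (F.r φ) z = ((3 * F.kap z - lam / 4 : ℝ) : ℂ) * F.p φ z +
      F.D (cx F.kap) z * F.f φ z := by
  have h1 := F.comm_eth 2 (F.sm_p h.sm).contDiffAt (z := z)
  have h2 : F.ethb 2 (F.p φ) =ᶠ[𝓝 z] fun w => (cx F.kap w - (lam : ℂ) / 4) * F.f φ w := by
    filter_upwards [h.oV.mem_nhds hz] with w hw
    rw [h.ethb_p hw]; unfold cx; push_cast; ring
  have hk : DifferentiableAt ℝ (cx F.kap) z := (sm_cx F.sm_kap).differentiable (by simp) z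
  have h3 := F.eth_mul 0 1 (G := fun w => cx F.kap w - (lam : ℂ) / 4)
    (hk.sub (differentiableAt_const _)) (h.ident_df z)
  rw [zero_add, F.eth_zero, F.D_sub hk (differentiableAt_const _), F.D_const] at h3
  rw [show (2 : ℝ) + 1 = 3 by norm_num, show (2 : ℝ) - 1 = 1 by norm_num,
    (F.eth_evEq 1 h2).eq_of_nhds, h3] at h1
  unfold Frame.r
  rw [h1]
  unfold Frame.p cx
  push_cast; ring
lemma D_q (h : Eig F V lam φ) (hz : z ∈ V) :
    F.D (cx (F.q lam eps φ)) z = F.p φ z * conj (F.f φ z) := by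
  have e : cx (F.q lam eps φ) = fun w => F.f φ w * conj (F.f φ w) +
      ((lam : ℂ) / 2 * (cx φ w * cx φ w) + (lam : ℂ) * (eps : ℂ) ^ 2 / 2) := by
    funext w
    rw [Complex.mul_conj, Complex.normSq_eq_norm_sq]
    unfold cx Frame.q sig
    push_cast; ring
  have hf := h.ident_df z
  have hx := h.ident_dx z
  have h1 := F.eth_mul 1 (-1) hf (diffAt_conj hf)
  rw [add_neg_cancel, F.eth_zero, F.eth_conj _ hf, neg_neg, h.ethb_f hz] at h1
  rw [e, F.D_add (hf.fun_mul (diffAt_conj hf))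
    (((hx.fun_mul hx).const_mul _).fun_add (differentiableAt_const _)), h1,
    F.D_add ((hx.fun_mul hx).const_mul _) (differentiableAt_const _), F.D_const,
    F.D_const_mul _ (hx.fun_mul hx), F.D_mul hx hx, ident_Dx, map_neg, Complex.conj_ofReal]
  unfold Frame.p cx
  push_cast; ring
lemma lap_sq (h : Eig F V lam φ) (hz : z ∈ V) :
    F.lap (fun w => φ w ^ 2) z = 2 * ‖F.f φ z‖ ^ 2 - 2 * lam * φ z ^ 2 := by
  have e : (fun w => φ w ^ 2) = fun w => φ w * φ w := funext fun w => sq _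
  rw [e, F.lap_mul h.sm.contDiffAt h.sm.contDiffAt, h.eq z hz, Complex.mul_conj,
    Complex.normSq_eq_norm_sq, Complex.ofReal_re, ident_Dx, norm_div, Complex.norm_two]
  ring
lemma ident_lap_q (h : Eig F V lam φ) (hz : z ∈ V) (eps : ℝ) :
    F.lap (F.q lam eps φ) z = 4 * ‖F.p φ z‖ ^ 2 + (4 * F.kap z - lam) * ‖F.f φ z‖ ^ 2 := by
  have hf := h.ident_df z
  have h1 := F.ethb_mul 2 (-1) (h.ident_dp z) (diffAt_conj hf)
  rw [show (2 : ℝ) + -1 = 1 by norm_num, F.ethb_conj _ hf, neg_neg, h.ethb_p hz] at h1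
  have h2 : F.D (cx (F.q lam eps φ)) =ᶠ[𝓝 z] fun w => F.p φ w * conj (F.f φ w) := by
    filter_upwards [h.oV.mem_nhds hz] with w hw
    exact h.D_q hw
  have h3 : F.eth 1 (F.f φ) z = F.p φ z := rfl
  unfold Frame.lap
  rw [(F.ethb_evEq 1 h2).eq_of_nhds, h1, h3, mul_assoc, Complex.mul_conj, Complex.mul_conj,
    Complex.normSq_eq_norm_sq, Complex.normSq_eq_norm_sq, ← Complex.ofReal_mul,
    ← Complex.ofReal_add, Complex.ofReal_re]
  ring
lemma lap_normSq_f (h : Eig F V lam φ) (hz : z ∈ V) :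
    F.lap (fun w => ‖F.f φ w‖ ^ 2) z = 4 * ‖F.p φ z‖ ^ 2 + lam ^ 2 * φ z ^ 2 +
      (4 * F.kap z - 2 * lam) * ‖F.f φ z‖ ^ 2 := by
  have h1 := h.ident_lap_q hz 0
  have e : F.q lam 0 φ = fun w => ‖F.f φ w‖ ^ 2 + lam / 2 * φ w ^ 2 := by
    funext w
    unfold Frame.q sig
    ring
  rw [e, F.lap_add (sm_normSq (F.sm_f h.sm)).contDiffAt
    (contDiff_const.mul (h.sm.pow 2)).contDiffAt, F.lap_const_mul _ (h.sm.pow 2).contDiffAt,
    h.lap_sq hz] at h1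
  linarith
/-- Dong's identity -/
lemma lap_log_q (h : Eig F V lam φ) (hz : z ∈ V) (hl : 0 < lam) (he : 0 < eps) :
    F.lap (fun w => Real.log (F.q lam eps φ w)) z = 4 * F.g1 lam eps φ z +
      (4 * F.kap z - lam) * ‖F.f φ z‖ ^ 2 / F.q lam eps φ z := by
  have hq := F.q_pos (φ := φ) hl he z
  rw [F.lap_log (F.sm_q h.sm).contDiffAt hq, h.ident_lap_q hz, h.D_q hz, norm_mul,
    Complex.norm_conj]
  have e : sig lam eps φ z = F.q lam eps φ z - ‖F.f φ z‖ ^ 2 := by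
    unfold Frame.q; ring
  unfold Frame.g1
  rw [e]
  field_simp
  ring
lemma lap_log_q_ge (h : Eig F V lam φ) (hz : z ∈ V) (hB : F.Bd K C) (hzK : z ∈ K)
    (hl : 16 * C ≤ lam) (he : 0 < eps) :
    4 * F.g1 lam eps φ z - 2 * lam * (F.S φ).indicator 1 z ≤
      F.lap (fun w => Real.log (F.q lam eps φ w)) z := by
  have hC := hB.one_le
  have hl0 : 0 < lam := by linarith
  have hq := F.q_pos (φ := φ) hl0 he z
  rw [h.lap_log_q hz hl0 he, sub_eq_add_neg]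
  refine add_le_add le_rfl ?_
  by_cases hS : z ∈ F.S φ
  · rw [indicator_of_mem hS, Pi.one_apply, mul_one, le_div_iff₀ hq]
    have h1 : ‖F.f φ z‖ ^ 2 ≤ F.q lam eps φ z :=
      le_add_of_nonneg_right (sig_pos hl0 he z).le
    have h2 := (abs_le.1 (hB.kap_le z hzK)).1
    have h3 : 0 ≤ 4 * F.kap z + lam := by linarith
    nlinarith [mul_nonneg h3 (sq_nonneg ‖F.f φ z‖), mul_le_mul_of_nonneg_left h1 hl0.le]
  · have h1 : F.f φ z = 0 := by
      by_contra h2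
      exact hS (Or.inr (Or.inl h2))
    rw [indicator_of_notMem hS, h1]
    simp
lemma norm_D_log_q (h : Eig F V lam φ) (hz : z ∈ V) (hl : 0 < lam) (he : 0 < eps) (hL : 1 ≤ L) :
    ‖F.D (cx fun w => Real.log (F.q lam eps φ w)) z‖ ^ 2 ≤
      L ^ 2 * lam * F.tt lam eps L φ z := by
  have hq := F.q_pos (φ := φ) hl he z
  have hL0 : 0 < L := by linarith
  rw [F.D_cx_comp (Real.hasDerivAt_log hq.ne') ((F.sm_q h.sm).differentiable (by simp) z),
    h.D_q hz, norm_mul, norm_mul, Complex.norm_conj, Complex.norm_real, Real.norm_eq_abs,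
    abs_of_pos (inv_pos.2 hq)]
  have h1 : ‖F.f φ z‖ ^ 2 ≤ F.q lam eps φ z := le_add_of_nonneg_right (sig_pos hl he z).le
  have e : L ^ 2 * lam * F.tt lam eps L φ z =
      (F.q lam eps φ z)⁻¹ ^ 2 * (‖F.p φ z‖ ^ 2 * F.q lam eps φ z) := by
    unfold Frame.tt
    field_simp
  rw [e, mul_pow, mul_pow]
  gcongr
lemma eth_eta (h : Eig F V lam φ) (hp : F.p φ z ≠ 0) :
    F.eth (-1) (F.eta φ) z = (F.p φ z ^ 2 - F.r φ z * F.f φ z) / F.p φ z ^ 2 := by
  have e : F.eta φ = fun w => F.f φ w / F.p φ w := rfl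
  have h1 : F.D (F.f φ) z = F.p φ z + F.tau z * F.f φ z := by
    unfold Frame.p Frame.eth; push_cast; ring
  have h2 : F.D (F.p φ) z = F.r φ z + 2 * F.tau z * F.p φ z := by
    unfold Frame.r Frame.eth; push_cast; ring
  rw [e]
  unfold Frame.eth
  rw [F.D_div (h.ident_df z) (h.ident_dp z) hp, h1, h2]
  push_cast
  field_simp
  ring
lemma ethb_eta (h : Eig F V lam φ) (hz : z ∈ V) (hp : F.p φ z ≠ 0) :
    F.ethb (-1) (F.eta φ) z = -((lam * φ z / 2 : ℝ) : ℂ) / F.p φ z -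
      ((F.kap z - lam / 4 : ℝ) : ℂ) * F.eta φ z ^ 2 := by
  have e : F.eta φ = fun w => F.f φ w / F.p φ w := rfl
  have h1 : F.Db (F.f φ) z = -((lam * φ z / 2 : ℝ) : ℂ) - conj (F.tau z) * F.f φ z := by
    rw [← h.ethb_f hz]; unfold Frame.ethb; push_cast; ring
  have h2 : F.Db (F.p φ) z =
      ((F.kap z - lam / 4 : ℝ) : ℂ) * F.f φ z - 2 * conj (F.tau z) * F.p φ z := by
    rw [← h.ethb_p hz]; unfold Frame.ethb; push_cast; ring
  rw [e]
  unfold Frame.ethb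
  rw [F.Db_div (h.ident_df z) (h.ident_dp z) hp, h1, h2]
  push_cast
  field_simp
  ring

end Eig

end Pool.Agent.P.MP_177f55_an
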