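import Pool.Agent.P.MP_177f55_an.Green
import Pool.Agent.P.MP_177f55_an.Ident

/-! An eigenfunction with bounded doubling on a large square is positive on a definite area. -/

open MeasureTheory Set Filter Topology
open scoped ContDiff ComplexConjugate NNReal ENNReal

noncomputable section

namespace Pool.Agent.P.MP_177f55_an

lemma sign_hd1 (t : ℝ) : HasDerivAt expNegInvGlue (t⁻¹ ^ 2 * expNegInvGlue t) t := by
  have h := expNegInvGlue.hasDerivAt_polynomial_eval_inv_mul 1 t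
  simpa using h

lemma sign_hd2 (t : ℝ) : HasDerivAt (fun t : ℝ => t⁻¹ ^ 2 * expNegInvGlue t)
    ((t⁻¹ ^ 4 - 2 * t⁻¹ ^ 3) * expNegInvGlue t) t := by
  have h := expNegInvGlue.hasDerivAt_polynomial_eval_inv_mul (Polynomial.X ^ 2) t
  have e1 : (fun x : ℝ => Polynomial.eval x⁻¹ (Polynomial.X ^ 2 : Polynomial ℝ) * expNegInvGlue x)
      = fun t : ℝ => t⁻¹ ^ 2 * expNegInvGlue t := by
    funext x; simp
  rw [e1] at h
  convert h using 2
  simp only [Polynomial.eval_mul, Polynomial.eval_pow, Polynomial.eval_X, Polynomial.eval_sub,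
    Polynomial.derivative_X_pow, Polynomial.eval_C]
  push_cast
  ring

lemma sign_val {t : ℝ} (ht : 0 < t) : expNegInvGlue t = Real.exp (-t⁻¹) := by
  simp [expNegInvGlue, not_le.2 ht]

lemma sign_pow_le (k : ℕ) {t : ℝ} (ht : 0 < t) :
    t⁻¹ ^ k * expNegInvGlue t ≤ k.factorial := by
  rw [sign_val ht, Real.exp_neg]
  have h := Real.pow_div_factorial_le_exp t⁻¹ (inv_pos.2 ht).le k
  have hk : (0 : ℝ) < k.factorial := by exact_mod_cast k.factorial_pos
  rw [div_le_iff₀ hk] at h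
  rw [← div_eq_mul_inv, div_le_iff₀ (Real.exp_pos _)]
  linarith

lemma sign_le_one (t : ℝ) : expNegInvGlue t ≤ 1 := by
  rcases le_or_gt t 0 with h | h
  · rw [expNegInvGlue.zero_of_nonpos h]; exact zero_le_one
  · simpa using sign_pow_le 0 h

/-- the scalar inequalities behind the choice of the cutoff -/
lemma sign_scalar {C u H γ μ N : ℝ} (hC : 1 ≤ C) (hu : 1 ≤ u) (hH : 0 ≤ H)
    (h2 : u ^ 2 * H ≤ 2) (h4 : u ^ 4 * H ≤ 24) (hγ0 : 0 ≤ γ)
    (hγ1 : 2 ≤ u → 1 ≤ C ^ 4 * γ) (hγ2 : γ ≤ 128 * C ^ 2) (hμ : |μ| ≤ 128 * C ^ 2)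
    (hN : 768 * C ^ 2 * (16 * C ^ 3) ^ 3 ≤ N) :
    -(N * H / 2) ≤ (u ^ 4 - 2 * u ^ 3) * H * γ + u ^ 2 * H * μ ∧
      (u ^ 4 - 2 * u ^ 3) * H * γ + u ^ 2 * H * μ ≤ N ∧ (u ^ 2 * H) ^ 2 * γ ≤ N * H := by
  have hμ1 := (abs_le.1 hμ).1
  have hμ2 := (abs_le.1 hμ).2
  have hC2 : 1 ≤ C ^ 2 := one_le_pow₀ hC
  have hC3 : 1 ≤ C ^ 3 := one_le_pow₀ hC
  have hu0 : (16 : ℝ) ≤ 16 * C ^ 3 := by linarith
  have hcube : (4096 : ℝ) ≤ (16 * C ^ 3) ^ 3 := by
    calc (4096 : ℝ) = 16 ^ 3 := by norm_num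
      _ ≤ _ := pow_le_pow_left₀ (by norm_num) hu0 3
  have hN' : 768 * 4096 * C ^ 2 ≤ N := by nlinarith
  have hupos : 0 < u := by linarith
  refine ⟨?_, ?_, ?_⟩
  · have key : -(N / 2) ≤ (u ^ 4 - 2 * u ^ 3) * γ + u ^ 2 * μ := by
      rcases le_total (16 * C ^ 3) u with hc | hc
      · have hu4 : 4 ≤ u := by linarith
        have a1 : u ^ 4 / 2 ≤ u ^ 4 - 2 * u ^ 3 := by
          have : 0 ≤ u ^ 3 * (u - 4) := mul_nonneg (by positivity) (by linarith)
          nlinarith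
        have a2 : 1 ≤ C ^ 4 * γ := hγ1 (by linarith)
        have a3 : (16 * C ^ 3) ^ 2 ≤ u ^ 2 := pow_le_pow_left₀ (by positivity) hc 2
        have a4 : 128 * C ^ 2 ≤ u ^ 2 / 2 * γ := by
          have b1 : (16 * C ^ 3) ^ 2 / 2 * γ ≤ u ^ 2 / 2 * γ :=
            mul_le_mul_of_nonneg_right (by linarith) hγ0
          have b2 : (16 * C ^ 3) ^ 2 / 2 * γ = 128 * C ^ 2 * (C ^ 4 * γ) := by ring
          have b3 : 128 * C ^ 2 * 1 ≤ 128 * C ^ 2 * (C ^ 4 * γ) :=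
            mul_le_mul_of_nonneg_left a2 (by positivity)
          linarith
        have a5 : u ^ 4 / 2 * γ ≤ (u ^ 4 - 2 * u ^ 3) * γ := mul_le_mul_of_nonneg_right a1 hγ0
        have a6 : 0 ≤ u ^ 2 * (u ^ 2 / 2 * γ + μ) := mul_nonneg (by positivity) (by linarith)
        have a7 : u ^ 2 * (u ^ 2 / 2 * γ + μ) = u ^ 4 / 2 * γ + u ^ 2 * μ := by ring
        nlinarith
      · have a1 : u ^ 3 ≤ (16 * C ^ 3) ^ 3 := pow_le_pow_left₀ hupos.le hc 3
        have a2 : u ^ 2 ≤ u ^ 3 := pow_le_pow_right₀ hu (by norm_num)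
        have a3 : u ^ 3 * γ ≤ u ^ 3 * (128 * C ^ 2) :=
          mul_le_mul_of_nonneg_left hγ2 (by positivity)
        have a4 : 0 ≤ u ^ 4 * γ := by positivity
        have a5 : u ^ 2 * (-(128 * C ^ 2)) ≤ u ^ 2 * μ :=
          mul_le_mul_of_nonneg_left hμ1 (by positivity)
        have a6 : u ^ 2 * (128 * C ^ 2) ≤ u ^ 3 * (128 * C ^ 2) :=
          mul_le_mul_of_nonneg_right a2 (by positivity)
        have a7 : u ^ 3 * (128 * C ^ 2) ≤ (16 * C ^ 3) ^ 3 * (128 * C ^ 2) :=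
          mul_le_mul_of_nonneg_right a1 (by positivity)
        nlinarith
    have := mul_le_mul_of_nonneg_right key hH
    nlinarith
  · have a1 : u ^ 4 * H * γ ≤ 24 * (128 * C ^ 2) :=
      mul_le_mul h4 hγ2 hγ0 (by norm_num)
    have a2 : 0 ≤ u ^ 3 * H * γ := by positivity
    have a3 : u ^ 2 * H * μ ≤ u ^ 2 * H * (128 * C ^ 2) :=
      mul_le_mul_of_nonneg_left hμ2 (by positivity)
    have a4 : u ^ 2 * H * (128 * C ^ 2) ≤ 2 * (128 * C ^ 2) :=
      mul_le_mul_of_nonneg_right h2 (by positivity)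
    nlinarith
  · have a1 : u ^ 4 * H * γ ≤ 24 * (128 * C ^ 2) :=
      mul_le_mul h4 hγ2 hγ0 (by norm_num)
    have a2 : u ^ 4 * H * γ ≤ N := by nlinarith
    have a3 := mul_le_mul_of_nonneg_right a2 hH
    calc (u ^ 2 * H) ^ 2 * γ = u ^ 4 * H * γ * H := by ring
      _ ≤ _ := a3

def signEta (z0 : Pl) (l : ℝ) (z : Pl) : ℝ := 1 - 4 / l ^ 2 * sq2 z0 z

def signPsi (z0 : Pl) (l : ℝ) (z : Pl) : ℝ := expNegInvGlue (signEta z0 l z)

lemma sign_sm_eta (z0 : Pl) (l : ℝ) : ContDiff ℝ ∞ (signEta z0 l) :=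
  contDiff_const.sub (contDiff_const.mul (sm_sq2 z0))

lemma sign_sm_psi (z0 : Pl) (l : ℝ) : ContDiff ℝ ∞ (signPsi z0 l) :=
  expNegInvGlue.contDiff.comp (sign_sm_eta z0 l)

lemma sign_D_eta (F : Frame) (z0 : Pl) (l : ℝ) (z : Pl) : F.D (cx (signEta z0 l)) z =
    ((-(8 / l ^ 2) : ℝ) : ℂ) *
      (F.a z * ((z.1 - z0.1 : ℝ) : ℂ) + F.b z * ((z.2 - z0.2 : ℝ) : ℂ)) := by
  have hd : DifferentiableAt ℝ (sq2 z0) z :=
    ((sm_sq2 z0).differentiable (by simp)).differentiableAt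
  have hh : HasDerivAt (fun t : ℝ => 1 - 4 / l ^ 2 * t) (-(4 / l ^ 2)) (sq2 z0 z) := by
    simpa using ((hasDerivAt_id (sq2 z0 z)).const_mul (4 / l ^ 2)).const_sub 1
  have := F.D_cx_comp hh hd
  change F.D (cx (signEta z0 l)) z = _ at this
  rw [this, F.D_sq2]
  push_cast
  ring

lemma sign_lap_eta (F : Frame) (z0 : Pl) (l : ℝ) (z : Pl) :
    F.lap (signEta z0 l) z = -(4 / l ^ 2) * F.lap (sq2 z0) z := by
  have hs : ContDiffAt ℝ ∞ (sq2 z0) z := (sm_sq2 z0).contDiffAt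
  have h1 := F.lap_sub (u := fun _ => (1 : ℝ)) (v := fun w => 4 / l ^ 2 * sq2 z0 w) (z := z)
    contDiffAt_const (contDiffAt_const.mul hs)
  change F.lap (signEta z0 l) z = _ at h1
  rw [h1, F.lap_const, F.lap_const_mul _ hs]
  ring

lemma sign_lap_psi (F : Frame) (z0 : Pl) (l : ℝ) (z : Pl) :
    F.lap (signPsi z0 l) z =
      ((signEta z0 l z)⁻¹ ^ 4 - 2 * (signEta z0 l z)⁻¹ ^ 3) * signPsi z0 l z *
          (4 * ‖F.D (cx (signEta z0 l)) z‖ ^ 2) +
        (signEta z0 l z)⁻¹ ^ 2 * signPsi z0 l z * F.lap (signEta z0 l) z :=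
  F.lap_comp (h := expNegInvGlue) (h' := fun t => t⁻¹ ^ 2 * expNegInvGlue t)
    (sign_sm_eta z0 l).contDiffAt (Eventually.of_forall sign_hd1) (sign_hd2 _)

lemma sign_lap_psi_sq (F : Frame) (z0 : Pl) (l : ℝ) (z : Pl) :
    F.lap (fun w => signPsi z0 l w ^ 2) z = 2 * signPsi z0 l z * F.lap (signPsi z0 l) z +
      2 * (((signEta z0 l z)⁻¹ ^ 2 * signPsi z0 l z) ^ 2 *
        (4 * ‖F.D (cx (signEta z0 l)) z‖ ^ 2)) := by
  have hs : ContDiffAt ℝ ∞ (signPsi z0 l) z := (sign_sm_psi z0 l).contDiffAt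
  have h1 := F.lap_mul hs hs
  have e : (fun w => signPsi z0 l w ^ 2) = fun w => signPsi z0 l w * signPsi z0 l w := by
    funext w; ring
  have hd : DifferentiableAt ℝ (signEta z0 l) z :=
    ((sign_sm_eta z0 l).differentiable (by simp)).differentiableAt
  have h2 := F.D_cx_comp (sign_hd1 (signEta z0 l z)) hd
  change F.D (cx (signPsi z0 l)) z = _ at h2
  rw [e, h1, Complex.mul_conj, Complex.ofReal_re, Complex.normSq_eq_norm_sq, h2, norm_mul,
    Complex.norm_real, mul_pow, Real.norm_eq_abs, sq_abs]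
  simp only [signPsi]
  ring

lemma sign_mem {z0 z : Pl} {l : ℝ} (hl : 0 < l) (h : 0 < signEta z0 l z) :
    |z.1 - z0.1| ≤ l / 2 ∧ |z.2 - z0.2| ≤ l / 2 := by
  have hl2 : 0 < l ^ 2 := by positivity
  have h1 : 4 * sq2 z0 z < l ^ 2 := by
    unfold signEta at h
    have : 4 / l ^ 2 * sq2 z0 z < 1 := by linarith
    rw [div_mul_eq_mul_div, div_lt_one hl2] at this
    exact this
  unfold sq2 at h1
  constructor
  · apply abs_le_of_sq_le_sq' _ (by linarith) |> fun h => abs_le.2 h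
    nlinarith [sq_nonneg (z.2 - z0.2)]
  · apply abs_le_of_sq_le_sq' _ (by linarith) |> fun h => abs_le.2 h
    nlinarith [sq_nonneg (z.1 - z0.1)]

lemma sign_mem_ball {z0 z : Pl} {r : ℝ} (h : |z.1 - z0.1| ≤ r ∧ |z.2 - z0.2| ≤ r) :
    z ∈ Metric.closedBall z0 r := by
  rw [Metric.mem_closedBall, Prod.dist_eq, max_le_iff, Real.dist_eq, Real.dist_eq]
  exact h

lemma sign_psi_zero {z0 z : Pl} {l : ℝ} (hl : 0 < l) (hz : z ∉ Metric.closedBall z0 (l / 2)) :
    signPsi z0 l z = 0 := by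
  apply expNegInvGlue.zero_of_nonpos
  by_contra h
  exact hz (sign_mem_ball (sign_mem hl (not_le.1 h)))

/-- the properties of the cutoff -/
lemma sign_cut {F : Frame} {K : Set Pl} {C : ℝ} (hB : F.Bd K C) {z0 : Pl} {l lam : ℝ}
    (hl : 0 < l) (hl1 : l ≤ 1) (hK : Metric.closedBall z0 l ⊆ K)
    (hN : 768 * C ^ 2 * (16 * C ^ 3) ^ 3 ≤ lam * l ^ 2) (hlam : 0 < lam) (z : Pl) :
    -(lam * signPsi z0 l z / 2) ≤ F.lap (signPsi z0 l) z ∧ F.lap (signPsi z0 l) z ≤ lam ∧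
      F.lap (fun w => signPsi z0 l w ^ 2) z ≤ 4 * lam * signPsi z0 l z := by
  have hC := hB.one_le
  have hl2 : 0 < l ^ 2 := by positivity
  rcases le_or_gt (signEta z0 l z) 0 with h | h
  · have h0 : signPsi z0 l z = 0 := expNegInvGlue.zero_of_nonpos h
    rw [sign_lap_psi_sq, sign_lap_psi, h0]
    simp [hlam.le]
  · obtain ⟨hs, ht⟩ := sign_mem hl h
    have hzK : z ∈ K := hK (sign_mem_ball ⟨by linarith, by linarith⟩)
    set s := z.1 - z0.1 with hsdef
    set t := z.2 - z0.2 with htdef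
    set w : ℂ := F.a z * (s : ℂ) + F.b z * (t : ℂ) with hw
    have hsq : sq2 z0 z = s ^ 2 + t ^ 2 := rfl
    have heta : signEta z0 l z = 1 - 4 / l ^ 2 * (s ^ 2 + t ^ 2) := rfl
    have heta1 : signEta z0 l z ≤ 1 := by
      rw [heta]
      have : 0 ≤ 4 / l ^ 2 * (s ^ 2 + t ^ 2) := by positivity
      linarith
    have hG : l ^ 2 * (4 * ‖F.D (cx (signEta z0 l)) z‖ ^ 2) = 256 / l ^ 2 * ‖w‖ ^ 2 := by
      rw [sign_D_eta, norm_mul, Complex.norm_real, mul_pow, Real.norm_eq_abs, sq_abs]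
      field_simp
      ring
    have hwle : ‖w‖ ≤ C * l := by
      have a1 : ‖w‖ ≤ ‖F.a z‖ * |s| + ‖F.b z‖ * |t| := by
        refine (norm_add_le _ _).trans ?_
        rw [norm_mul, norm_mul, Complex.norm_real, Complex.norm_real, Real.norm_eq_abs,
          Real.norm_eq_abs]
      have a2 : ‖F.a z‖ * |s| ≤ C * (l / 2) :=
        mul_le_mul (hB.a_le z hzK) hs (abs_nonneg _) (by linarith)
      have a3 : ‖F.b z‖ * |t| ≤ C * (l / 2) :=
        mul_le_mul (hB.b_le z hzK) ht (abs_nonneg _) (by linarith)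
      linarith
    have hwsq : ‖w‖ ^ 2 ≤ C ^ 2 * l ^ 2 / 2 := by
      have a1 : ‖w‖ ≤ ‖F.a z‖ * |s| + ‖F.b z‖ * |t| := by
        refine (norm_add_le _ _).trans ?_
        rw [norm_mul, norm_mul, Complex.norm_real, Complex.norm_real, Real.norm_eq_abs,
          Real.norm_eq_abs]
      have a2 : ‖F.a z‖ * |s| ≤ C * |s| :=
        mul_le_mul_of_nonneg_right (hB.a_le z hzK) (abs_nonneg _)
      have a3 : ‖F.b z‖ * |t| ≤ C * |t| :=
        mul_le_mul_of_nonneg_right (hB.b_le z hzK) (abs_nonneg _)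
      have a4 : ‖w‖ ^ 2 ≤ (C * |s| + C * |t|) ^ 2 :=
        pow_le_pow_left₀ (norm_nonneg _) (by linarith) 2
      have a5 : 4 * (s ^ 2 + t ^ 2) ≤ l ^ 2 := by
        rw [heta] at h
        have : 4 / l ^ 2 * (s ^ 2 + t ^ 2) < 1 := by linarith
        rw [div_mul_eq_mul_div, div_lt_one hl2] at this
        exact this.le
      have a6 : (|s| + |t|) ^ 2 ≤ l ^ 2 / 2 := by
        nlinarith [sq_abs s, sq_abs t, sq_nonneg (|s| - |t|)]
      have a7 : C ^ 2 * (|s| + |t|) ^ 2 ≤ C ^ 2 * (l ^ 2 / 2) :=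
        mul_le_mul_of_nonneg_left a6 (by positivity)
      nlinarith
    have hγ2 : l ^ 2 * (4 * ‖F.D (cx (signEta z0 l)) z‖ ^ 2) ≤ 128 * C ^ 2 := by
      rw [hG, div_mul_eq_mul_div, div_le_iff₀ hl2]
      nlinarith
    have hγ1 : 2 ≤ (signEta z0 l z)⁻¹ →
        1 ≤ C ^ 4 * (l ^ 2 * (4 * ‖F.D (cx (signEta z0 l)) z‖ ^ 2)) := by
      intro h2
      have a0 : signEta z0 l z ≤ 1 / 2 := by
        rw [le_inv_comm₀ (by norm_num) h] at h2
        linarith
      have a1 : l ^ 2 ≤ 8 * (s ^ 2 + t ^ 2) := by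
        rw [heta] at a0
        have : 1 / 2 ≤ 4 / l ^ 2 * (s ^ 2 + t ^ 2) := by linarith
        rw [div_mul_eq_mul_div, le_div_iff₀ hl2] at this
        linarith
      obtain ⟨b1, b2⟩ := hB.coord_le hzK s t
      have b3 : s ^ 2 ≤ (4 * C ^ 2 * ‖w‖) ^ 2 := by
        rw [← sq_abs s]; exact pow_le_pow_left₀ (abs_nonneg _) b1 2
      have b4 : t ^ 2 ≤ (4 * C ^ 2 * ‖w‖) ^ 2 := by
        rw [← sq_abs t]; exact pow_le_pow_left₀ (abs_nonneg _) b2 2
      rw [hG, div_mul_eq_mul_div, ← mul_div_assoc, le_div_iff₀ hl2]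
      nlinarith
    have hμ : |l ^ 2 * F.lap (signEta z0 l) z| ≤ 128 * C ^ 2 := by
      have e : l ^ 2 * F.lap (signEta z0 l) z = -4 * F.lap (sq2 z0) z := by
        rw [sign_lap_eta]; field_simp
      rw [e, F.lap_sq2]
      have a1 : ‖F.a z‖ ^ 2 ≤ C ^ 2 := pow_le_pow_left₀ (norm_nonneg _) (hB.a_le z hzK) 2
      have a2 : ‖F.b z‖ ^ 2 ≤ C ^ 2 := pow_le_pow_left₀ (norm_nonneg _) (hB.b_le z hzK) 2
      have a3 : |s * (F.ethb 1 F.a z).re| ≤ 1 * C := by
        rw [abs_mul]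
        exact mul_le_mul (by linarith) ((Complex.abs_re_le_norm _).trans (hB.ea_le z hzK))
          (abs_nonneg _) zero_le_one
      have a4 : |t * (F.ethb 1 F.b z).re| ≤ 1 * C := by
        rw [abs_mul]
        exact mul_le_mul (by linarith) ((Complex.abs_re_le_norm _).trans (hB.eb_le z hzK))
          (abs_nonneg _) zero_le_one
      have a5 : C ≤ C ^ 2 := by nlinarith
      have a6 := abs_le.1 a3
      have a7 := abs_le.1 a4
      have a8 : 0 ≤ ‖F.a z‖ ^ 2 := by positivity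
      have a9 : 0 ≤ ‖F.b z‖ ^ 2 := by positivity
      rw [abs_le]
      constructor <;> linarith [a6.1, a6.2, a7.1, a7.2]
    have hψ0 : 0 ≤ signPsi z0 l z := expNegInvGlue.nonneg _
    have k2 : (signEta z0 l z)⁻¹ ^ 2 * signPsi z0 l z ≤ 2 := by
      simpa [Nat.factorial, signPsi] using sign_pow_le 2 h
    have k4 : (signEta z0 l z)⁻¹ ^ 4 * signPsi z0 l z ≤ 24 := by
      have := sign_pow_le 4 h
      norm_num [Nat.factorial] at this
      simpa [signPsi] using this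
    obtain ⟨r1, r2, r3⟩ := sign_scalar hC ((one_le_inv₀ h).2 heta1) hψ0 k2 k4 (by positivity)
      hγ1 hγ2 hμ hN
    have e1 : l ^ 2 * F.lap (signPsi z0 l) z =
        ((signEta z0 l z)⁻¹ ^ 4 - 2 * (signEta z0 l z)⁻¹ ^ 3) * signPsi z0 l z *
          (l ^ 2 * (4 * ‖F.D (cx (signEta z0 l)) z‖ ^ 2)) +
        (signEta z0 l z)⁻¹ ^ 2 * signPsi z0 l z * (l ^ 2 * F.lap (signEta z0 l) z) := by
      rw [sign_lap_psi]; ring
    rw [← e1] at r1 r2
    have s1 : -(lam * signPsi z0 l z / 2) ≤ F.lap (signPsi z0 l) z := by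
      apply le_of_mul_le_mul_left _ hl2
      linarith
    have s2 : F.lap (signPsi z0 l) z ≤ lam := by
      apply le_of_mul_le_mul_left _ hl2
      linarith
    have s3 : ((signEta z0 l z)⁻¹ ^ 2 * signPsi z0 l z) ^ 2 *
        (4 * ‖F.D (cx (signEta z0 l)) z‖ ^ 2) ≤ lam * signPsi z0 l z := by
      apply le_of_mul_le_mul_left _ hl2
      linarith
    refine ⟨s1, s2, ?_⟩
    rw [sign_lap_psi_sq]
    have := mul_le_mul_of_nonneg_left s2 hψ0
    linarith

lemma sign_psi_ge {z0 z : Pl} {l : ℝ} (hl : 0 < l) (hz : z ∈ Metric.closedBall z0 (l / 8)) :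
    expNegInvGlue (1 / 2) ≤ signPsi z0 l z := by
  apply expNegInvGlue.monotone
  rw [Metric.mem_closedBall, Prod.dist_eq, max_le_iff, Real.dist_eq, Real.dist_eq] at hz
  have hl2 : 0 < l ^ 2 := by positivity
  have a1 : (z.1 - z0.1) ^ 2 ≤ (l / 8) ^ 2 := by
    rw [← sq_abs]; exact pow_le_pow_left₀ (abs_nonneg _) hz.1 2
  have a2 : (z.2 - z0.2) ^ 2 ≤ (l / 8) ^ 2 := by
    rw [← sq_abs]; exact pow_le_pow_left₀ (abs_nonneg _) hz.2 2
  have a3 : 4 / l ^ 2 * sq2 z0 z ≤ 1 / 2 := by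
    rw [div_mul_eq_mul_div, div_le_iff₀ hl2]
    unfold sq2
    nlinarith
  unfold signEta
  linarith

lemma sign_vol_ball (z0 : Pl) {r : ℝ} (hr : 0 ≤ r) :
    volume.real (Metric.closedBall z0 r) = (2 * r) ^ 2 := by
  have e : Metric.closedBall z0 r = Metric.closedBall z0.1 r ×ˢ Metric.closedBall z0.2 r := by
    rw [closedBall_prod_same]
  rw [e, Measure.volume_eq_prod, measureReal_prod_prod, Real.volume_real_closedBall hr,
    Real.volume_real_closedBall hr]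
  ring

/-- the pointwise inequality that is integrated -/
lemma sign_point {C lam eps M0 M1 ψ φ ρ L1 L2 f2 P B : ℝ} (hlam : 0 < lam) (hψ0 : 0 ≤ ψ)
    (hψ1 : ψ ≤ 1) (hρ : 0 < ρ) (hρC : ρ ≤ C) (h1 : -(lam * ψ / 2) ≤ L1) (h2 : L1 ≤ lam)
    (h3 : L2 ≤ 4 * lam * ψ) (hM0 : 0 ≤ M0) (hM : lam * M0 ^ 2 = 2 * M1) (hφ : |φ| ≤ M0)
    (hP0 : 0 ≤ P) (hP : 0 < φ → P = 1) (hB : B = 1) :
    ψ ^ 2 * (f2 + lam * (φ ^ 2 + eps ^ 2) / 2) * ρ ≤
      (ψ ^ 2 * (2 * f2 - 2 * lam * φ ^ 2) * ρ - φ ^ 2 * L2 * ρ) / 2 -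
        7 * M0 * (φ * L1 * ρ - ψ * (-lam * φ) * ρ) + 56 * C * M1 * P +
          C * lam * eps ^ 2 / 2 * B := by
  set W := (L1 + lam * ψ) * ρ with hW
  have hW1 : lam * ψ / 2 * ρ ≤ W := mul_le_mul_of_nonneg_right (by linarith) hρ.le
  have hlψ : lam * ψ ≤ lam := by nlinarith
  have hW2 : W ≤ 2 * lam * C :=
    mul_le_mul (by linarith) hρC hρ.le (by positivity)
  have hW0 : 0 ≤ W := le_trans (by positivity) hW1
  have hφ2 : φ ^ 2 ≤ 2 * M0 ^ 2 * P - M0 * φ := by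
    have a := abs_le.1 hφ
    rcases lt_or_ge 0 φ with h | h
    · rw [hP h]; nlinarith [a.2]
    · have : 0 ≤ 2 * M0 ^ 2 * P := by positivity
      nlinarith [a.1]
  have b1 : φ ^ 2 * (lam * ψ / 2 * ρ) ≤ φ ^ 2 * W := mul_le_mul_of_nonneg_left hW1 (sq_nonneg _)
  have b2 : φ ^ 2 * W ≤ (2 * M0 ^ 2 * P - M0 * φ) * W := mul_le_mul_of_nonneg_right hφ2 hW0
  have b3 : 2 * M0 ^ 2 * P * W ≤ 2 * M0 ^ 2 * P * (2 * lam * C) :=
    mul_le_mul_of_nonneg_left hW2 (by positivity)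
  have b4 : 2 * M0 ^ 2 * P * (2 * lam * C) = 8 * C * M1 * P := by
    have : 2 * M0 ^ 2 * P * (2 * lam * C) = 4 * C * P * (lam * M0 ^ 2) := by ring
    rw [this, hM]; ring
  have c1 : ψ ^ 2 ≤ ψ := by nlinarith
  have c2 : ψ ^ 2 * (lam * φ ^ 2 * ρ) ≤ ψ * (lam * φ ^ 2 * ρ) :=
    mul_le_mul_of_nonneg_right c1 (by positivity)
  have c3 : L2 * (φ ^ 2 * ρ) ≤ 4 * lam * ψ * (φ ^ 2 * ρ) :=
    mul_le_mul_of_nonneg_right h3 (by positivity)
  have c4 : ψ ^ 2 * ρ ≤ 1 * C := mul_le_mul (by linarith) hρC hρ.le zero_le_one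
  have c5 : ψ ^ 2 * ρ * (lam * eps ^ 2 / 2) ≤ 1 * C * (lam * eps ^ 2 / 2) :=
    mul_le_mul_of_nonneg_right c4 (by positivity)
  have e : φ * L1 * ρ - ψ * (-lam * φ) * ρ = φ * W := by rw [hW]; ring
  rw [e, hB]
  nlinarith

theorem sign {C : ℝ} (hC : 1 ≤ C) : ∃ K0 : ℝ, 1 ≤ K0 ∧ ∃ c : ℝ, 0 < c ∧
    ∀ (F : Frame) (K V : Set Pl), F.Bd K C → K ⊆ V → ∀ (lam : ℝ) (φ : Pl → ℝ), Eig F V lam φ →
      ∀ (z0 : Pl) (l eps M1 m1 : ℝ) (Y : Set ℝ), 0 < l → l ≤ 1 → lam * l ^ 2 = K0 ^ 2 →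
        Metric.closedBall z0 l ⊆ K → MeasurableSet Y →
        Y ⊆ Icc (z0.2 - l / 8) (z0.2 + l / 8) → l / 8 ≤ volume.real Y → 0 ≤ m1 →
        (∀ z ∈ Metric.closedBall z0 (l / 2), F.q lam eps φ z ≤ M1) →
        (∀ z ∈ Metric.closedBall z0 (l / 8), z.2 ∈ Y → m1 ≤ F.q lam eps φ z) →
        c * m1 * l ^ 2 ≤ M1 * volume.real ({z | 0 < φ z} ∩ Metric.closedBall z0 l) +
          lam * eps ^ 2 * l ^ 2 := by
  have hC2 : 1 ≤ C ^ 2 := one_le_pow₀ hC
  have hC3 : 1 ≤ C ^ 3 := one_le_pow₀ hC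
  have hcube : (1 : ℝ) ≤ (16 * C ^ 3) ^ 3 := one_le_pow₀ (by linarith)
  have hK0 : 1 ≤ 768 * C ^ 2 * (16 * C ^ 3) ^ 3 := by nlinarith
  have hh0 : 0 < expNegInvGlue (1 / 2) := expNegInvGlue.pos_of_pos (by norm_num)
  refine ⟨768 * C ^ 2 * (16 * C ^ 3) ^ 3, hK0, expNegInvGlue (1 / 2) ^ 2 / (1792 * C ^ 2),
    by positivity, ?_⟩
  intro F K V hB hKV lam φ hE z0 l eps M1 m1 Y hl hl1 hlam hK hY hYs hYv hm1 hM1 hq
  have hl2 : 0 < l ^ 2 := by positivity
  have hN : 768 * C ^ 2 * (16 * C ^ 3) ^ 3 ≤ lam * l ^ 2 := by rw [hlam]; nlinarith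
  have hlam0 : 0 < lam := by
    have : 0 < lam * l ^ 2 := by linarith
    exact (mul_pos_iff_of_pos_right hl2).1 this
  set ψ := signPsi z0 l with hψ
  set Bh := Metric.closedBall z0 (l / 2) with hBh
  set P := {z | 0 < φ z} ∩ Metric.closedBall z0 l with hPdef
  set St := Metric.closedBall z0.1 (l / 8) ×ˢ Y with hSt
  have hBl : Bh ⊆ Metric.closedBall z0 l := Metric.closedBall_subset_closedBall (by linarith)
  have hBhV : Bh ⊆ V := hBl.trans (hK.trans hKV)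
  have hqge : ∀ z, lam * φ z ^ 2 / 2 ≤ F.q lam eps φ z := by
    intro z
    unfold Frame.q sig
    have : 0 ≤ lam * eps ^ 2 := by positivity
    nlinarith [sq_nonneg ‖F.f φ z‖]
  have hM1p : 0 ≤ M1 := by
    have a := hM1 z0 (Metric.mem_closedBall_self (by linarith))
    have b := hqge z0
    have : 0 ≤ lam * φ z0 ^ 2 / 2 := by positivity
    linarith
  set M0 := √(2 * M1 / lam) with hM0def
  have hM0 : 0 ≤ M0 := Real.sqrt_nonneg _
  have hM0sq : lam * M0 ^ 2 = 2 * M1 := by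
    rw [hM0def, Real.sq_sqrt (by positivity)]; field_simp
  have hφM : ∀ z ∈ Bh, |φ z| ≤ M0 := by
    intro z hz
    apply Real.abs_le_sqrt
    rw [le_div_iff₀ hlam0]
    have a := hM1 z hz
    have b := hqge z
    linarith
  have hψs : ContDiff ℝ ∞ ψ := sign_sm_psi z0 l
  have hψ2s : ContDiff ℝ ∞ fun w => ψ w ^ 2 := hψs.pow 2
  have hφs : ContDiff ℝ ∞ φ := hE.sm
  have hφ2s : ContDiff ℝ ∞ fun w => φ w ^ 2 := hφs.pow 2
  have hψz : ∀ z ∉ Bh, ψ z = 0 := fun z hz => sign_psi_zero hl hz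
  have hBc : IsCompact Bh := isCompact_closedBall _ _
  have hts : tsupport ψ ⊆ Bh :=
    closure_minimal (fun z hz => by_contra fun h => hz (hψz z h)) hBc.isClosed
  have hts2 : tsupport (fun w => ψ w ^ 2) ⊆ Bh :=
    closure_minimal (fun z hz => by_contra fun h => hz (by simp [hψz z h])) hBc.isClosed
  have hlz : ∀ z ∉ Bh, F.lap ψ z = 0 := fun z hz =>
    F.lap_eq_zero_of_notMem_tsupport fun h => hz (hts h)
  have hlz2 : ∀ z ∉ Bh, F.lap (fun w => ψ w ^ 2) z = 0 := fun z hz =>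
    F.lap_eq_zero_of_notMem_tsupport fun h => hz (hts2 h)
  have g1 := F.green hE.oV hψs (HasCompactSupport.intro hBc hψz) (hts.trans hBhV)
    hφs.contDiffOn
  have g2 := F.green hE.oV hψ2s
    (HasCompactSupport.intro hBc fun z hz => by simp [hψz z hz]) (hts2.trans hBhV)
    hφ2s.contDiffOn
  have hρc : Continuous F.rho := F.srho.continuous
  have int : ∀ g : Pl → ℝ, Continuous g → (∀ z ∉ Bh, g z = 0) → Integrable g := fun g hg h0 =>
    (integrable_of_contOn isOpen_univ hBc (subset_univ _) hg.continuousOn h0).2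
  have i1 : Integrable fun z => ψ z * F.lap φ z * F.rho z :=
    int _ ((hψs.continuous.mul (F.sm_lap hφs).continuous).mul hρc) fun z hz => by simp [hψz z hz]
  have i2 : Integrable fun z => φ z * F.lap ψ z * F.rho z :=
    int _ ((hφs.continuous.mul (F.sm_lap hψs).continuous).mul hρc) fun z hz => by simp [hlz z hz]
  have i3 : Integrable fun z => ψ z ^ 2 * F.lap (fun w => φ w ^ 2) z * F.rho z :=
    int _ ((hψ2s.continuous.mul (F.sm_lap hφ2s).continuous).mul hρc) fun z hz => by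
      simp [hψz z hz]
  have i4 : Integrable fun z => φ z ^ 2 * F.lap (fun w => ψ w ^ 2) z * F.rho z :=
    int _ ((hφ2s.continuous.mul (F.sm_lap hψ2s).continuous).mul hρc) fun z hz => by
      simp [hlz2 z hz]
  have mP : MeasurableSet P :=
    (isOpen_lt continuous_const hφs.continuous).measurableSet.inter
      Metric.isClosed_closedBall.measurableSet
  have mB : MeasurableSet Bh := Metric.isClosed_closedBall.measurableSet
  have mS : MeasurableSet St := Metric.isClosed_closedBall.measurableSet.prod hY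
  have hStB : St ⊆ Metric.closedBall z0 (l / 8) := by
    intro z hz
    apply sign_mem_ball
    have a := hz.1
    have b := hYs hz.2
    rw [Metric.mem_closedBall, Real.dist_eq] at a
    exact ⟨a, abs_le.2 ⟨by linarith [b.1], by linarith [b.2]⟩⟩
  have fin : ∀ T : Set Pl, T ⊆ Metric.closedBall z0 l → volume T ≠ ⊤ := fun T hT =>
    ((measure_mono hT).trans_lt (isCompact_closedBall z0 l).measure_lt_top).ne
  have ind : ∀ T : Set Pl, MeasurableSet T → T ⊆ Metric.closedBall z0 l →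
      Integrable (T.indicator (1 : Pl → ℝ)) := fun T mT hT =>
    (integrable_indicator_iff mT).2 (integrableOn_const (fin T hT))
  have iP := ind P mP inter_subset_right
  have iB := ind Bh mB hBl
  have iS := ind St mS (hStB.trans (Metric.closedBall_subset_closedBall (by linarith)))
  have point : ∀ z, expNegInvGlue (1 / 2) ^ 2 * m1 / C * St.indicator (1 : Pl → ℝ) z ≤
      (ψ z ^ 2 * F.lap (fun w => φ w ^ 2) z * F.rho z -
          φ z ^ 2 * F.lap (fun w => ψ w ^ 2) z * F.rho z) / 2 -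
        7 * M0 * (φ z * F.lap ψ z * F.rho z - ψ z * F.lap φ z * F.rho z) +
        56 * C * M1 * P.indicator (1 : Pl → ℝ) z +
          C * lam * eps ^ 2 / 2 * Bh.indicator (1 : Pl → ℝ) z := by
    intro z
    have hP0 : 0 ≤ P.indicator (1 : Pl → ℝ) z := indicator_nonneg (fun _ _ => zero_le_one) z
    by_cases hz : z ∈ Bh
    · have hzV := hBhV hz
      have hzK := hK (hBl hz)
      obtain ⟨c1, c2, c3⟩ := sign_cut hB hl hl1 hK hN hlam0 z
      have hp := sign_point (C := C) (eps := eps) (f2 := ‖F.f φ z‖ ^ 2)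
        (B := Bh.indicator (1 : Pl → ℝ) z) hlam0
        (expNegInvGlue.nonneg (signEta z0 l z)) (sign_le_one (signEta z0 l z)) (F.rho_pos z)
        (hB.rho_le z hzK) c1 c2 c3 hM0 hM0sq (hφM z hz) hP0
        (fun h => indicator_of_mem (show z ∈ P from ⟨h, hBl hz⟩) _) (indicator_of_mem hz _)
      rw [hE.lap_sq hzV, hE.eq z hzV]
      refine le_trans ?_ hp
      change _ ≤ ψ z ^ 2 * F.q lam eps φ z * F.rho z
      have hq0 : 0 ≤ F.q lam eps φ z := le_trans (by positivity) (hqge z)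
      by_cases hs : z ∈ St
      · rw [indicator_of_mem hs, Pi.one_apply, mul_one, div_le_iff₀ (by linarith)]
        have a1 : expNegInvGlue (1 / 2) ^ 2 ≤ ψ z ^ 2 :=
          pow_le_pow_left₀ hh0.le (sign_psi_ge hl (hStB hs)) 2
        have a2 : expNegInvGlue (1 / 2) ^ 2 * m1 ≤ ψ z ^ 2 * F.q lam eps φ z :=
          mul_le_mul a1 (hq z (hStB hs) hs.2) hm1 (sq_nonneg _)
        have a3 : ψ z ^ 2 * F.q lam eps φ z * 1 ≤ ψ z ^ 2 * F.q lam eps φ z * (C * F.rho z) :=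
          mul_le_mul_of_nonneg_left (hB.le_rho z hzK) (by positivity)
        linarith
      · rw [indicator_of_notMem hs, mul_zero]
        have := (F.rho_pos z).le
        positivity
    · have hs : z ∉ St := fun h =>
        hz (Metric.closedBall_subset_closedBall (by linarith) (hStB h))
      rw [indicator_of_notMem hs, indicator_of_notMem hz, hψz z hz, hlz z hz, hlz2 z hz]
      have : 0 ≤ 56 * C * M1 * P.indicator (1 : Pl → ℝ) z := by positivity
      simpa using this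
  have j1 : Integrable fun z => (ψ z ^ 2 * F.lap (fun w => φ w ^ 2) z * F.rho z -
      φ z ^ 2 * F.lap (fun w => ψ w ^ 2) z * F.rho z) / 2 := (i3.sub i4).div_const 2
  have j2 : Integrable fun z =>
      7 * M0 * (φ z * F.lap ψ z * F.rho z - ψ z * F.lap φ z * F.rho z) := (i2.sub i1).const_mul _
  have j3 : Integrable fun z => 56 * C * M1 * P.indicator (1 : Pl → ℝ) z := iP.const_mul _
  have j4 : Integrable fun z => C * lam * eps ^ 2 / 2 * Bh.indicator (1 : Pl → ℝ) z :=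
    iB.const_mul _
  have e1 := integral_sub j1 j2
  have e2 := integral_add (j1.sub j2) j3
  have e3 := integral_add ((j1.sub j2).add j3) j4
  have main := integral_mono (iS.const_mul (expNegInvGlue (1 / 2) ^ 2 * m1 / C))
    (((j1.sub j2).add j3).add j4) point
  simp only [Pi.add_apply, Pi.sub_apply] at main e2 e3
  rw [e3, e2, e1, integral_div, integral_sub i3 i4, integral_const_mul, integral_const_mul,
    integral_const_mul, integral_const_mul, integral_sub i2 i1, g1, g2, sub_self, sub_self,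
    integral_indicator_one mS, integral_indicator_one mP, integral_indicator_one mB,
    sign_vol_ball z0 (by linarith)] at main
  have vS : l ^ 2 / 32 ≤ volume.real St := by
    rw [hSt, Measure.volume_eq_prod, measureReal_prod_prod,
      Real.volume_real_closedBall (by linarith)]
    nlinarith
  have hC0 : 0 < C := by linarith
  have a1 : expNegInvGlue (1 / 2) ^ 2 * m1 / C * (l ^ 2 / 32) ≤
      expNegInvGlue (1 / 2) ^ 2 * m1 / C * volume.real St :=
    mul_le_mul_of_nonneg_left vS (by positivity)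
  have a2 : expNegInvGlue (1 / 2) ^ 2 * m1 / C * (l ^ 2 / 32) =
      56 * C * (expNegInvGlue (1 / 2) ^ 2 / (1792 * C ^ 2) * m1 * l ^ 2) := by
    field_simp
    ring
  have a3 : 0 ≤ C * (lam * eps ^ 2 * l ^ 2) := by positivity
  apply le_of_mul_le_mul_left _ (show 0 < 56 * C by positivity)
  nlinarith

end Pool.Agent.P.MP_177f55_an
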