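import Pool.Agent.P.MP_177f55_an.Lines
import Pool.Agent.P.MP_177f55_an.Second
import Pool.Agent.P.MP_177f55_an.Sign

/-! The case where the high frequency region is small. -/

open MeasureTheory Set Filter Topology
open scoped ContDiff ComplexConjugate NNReal ENNReal

noncomputable section

namespace Pool.Agent.P.MP_177f55_an

lemma casei_mem_ball {z0 z : Pl} {r : ℝ} : z ∈ Metric.closedBall z0 r ↔
    (z0.1 - r ≤ z.1 ∧ z.1 ≤ z0.1 + r) ∧ (z0.2 - r ≤ z.2 ∧ z.2 ≤ z0.2 + r) := by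
  rw [Metric.mem_closedBall, Prod.dist_eq, max_le_iff, Real.dist_eq, Real.dist_eq, abs_le, abs_le]
  constructor
  · rintro ⟨⟨h1, h2⟩, h3, h4⟩
    exact ⟨⟨by linarith, by linarith⟩, by linarith, by linarith⟩
  · rintro ⟨⟨h1, h2⟩, h3, h4⟩
    exact ⟨⟨by linarith, by linarith⟩, by linarith, by linarith⟩

theorem localI {C : ℝ} (hC : 1 ≤ C) : ∃ K0 : ℝ, 1 ≤ K0 ∧ ∀ L : ℝ, 1 ≤ L → ∃ c : ℝ, 0 < c ∧
    ∀ (F : Frame) (K V : Set Pl), F.Bd K C → K ⊆ V → ∀ (lam : ℝ) (φ : Pl → ℝ), Eig F V lam φ →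
      ∀ (z0 : Pl) (l eps : ℝ), 0 < l → 8 * C ^ 2 * l ≤ 1 → lam * l ^ 2 = K0 ^ 2 → 16 * C ≤ lam →
        0 < eps → Metric.closedBall z0 l ⊆ K → lam * eps ^ 2 ≤ c * F.q lam eps φ z0 →
        ∫ z in Metric.closedBall z0 l, (|rx (F.om lam eps L φ) z| + |ry (F.om lam eps L φ) z| +
          F.om lam eps L φ z / l) ≤ l / 16 →
        c * l ^ 2 ≤ volume.real ({z | 0 < φ z} ∩ Metric.closedBall z0 l) := by
  obtain ⟨K0, hK0, c0, hc0, hsign⟩ := sign hC
  refine ⟨K0, hK0, fun L hL => ?_⟩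
  refine ⟨c0 / 2 * Real.exp (-(32 * C ^ 2 * L * K0) - (32 * C ^ 2 * L * K0 + 4 * C * K0 ^ 2)),
    by positivity, ?_⟩
  intro F K V hB hKV lam φ hE z0 l eps hl hl8 hlam h16 heps hball hsmall hint
  have hlam0 : 0 < lam := by linarith
  have hC2 : 1 ≤ C ^ 2 := one_le_pow₀ hC
  have hl1 : l ≤ 1 := by
    have : 1 * l ≤ C ^ 2 * l := by gcongr
    linarith
  have hqpos : ∀ z, 0 < F.q lam eps φ z := F.q_pos hlam0 heps
  have hu : ContDiff ℝ ∞ (fun w => Real.log (F.q lam eps φ w)) :=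
    (F.sm_q hE.sm).log fun z => (hqpos z).ne'
  have hsq : √lam * l = K0 := by
    have h1 : (√lam * l) ^ 2 = K0 ^ 2 := by
      rw [mul_pow, Real.sq_sqrt hlam0.le]; exact hlam
    exact (pow_left_inj₀ (by positivity) (by linarith) two_ne_zero).1 h1
  have hgrad : ∀ z ∈ Metric.closedBall z0 l, F.om lam eps L φ z < 1 →
      |rx (fun w => Real.log (F.q lam eps φ w)) z| ≤ 8 * C ^ 2 * L * √lam ∧
        |ry (fun w => Real.log (F.q lam eps φ w)) z| ≤ 8 * C ^ 2 * L * √lam := by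
    intro z hz ho
    have ht : F.tt lam eps L φ z ≤ 4 := by
      by_contra hcon
      push Not at hcon
      have : F.om lam eps L φ z = 1 := by
        unfold Frame.om
        exact Real.smoothTransition.one_of_one_le (by linarith)
      linarith
    have h1 := hE.norm_D_log_q (L := L) (hKV (hball hz)) hlam0 heps hL
    have h2 : ‖F.D (cx fun w => Real.log (F.q lam eps φ w)) z‖ ≤ 2 * L * √lam := by
      refine (pow_le_pow_iff_left₀ (norm_nonneg _) (by positivity) two_ne_zero).1 ?_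
      rw [mul_pow, mul_pow, Real.sq_sqrt hlam0.le]
      have : L ^ 2 * lam * F.tt lam eps L φ z ≤ L ^ 2 * lam * 4 := by gcongr
      linarith
    obtain ⟨h3, h4⟩ := hB.rx_le (hball hz) (hu.differentiable (by simp) z)
    have h5 : 4 * C ^ 2 * ‖F.D (cx fun w => Real.log (F.q lam eps φ w)) z‖ ≤
        4 * C ^ 2 * (2 * L * √lam) := by gcongr
    constructor <;> linarith
  obtain ⟨m, x1, x2, y1, y2, Y, hx1, hx2, hy1, hy2, hYm, hYs, hYv, hbd⟩ :=
    lines hu (F.sm_om hE.sm hlam0 heps hL) (fun z => Real.smoothTransition.nonneg _) z0 hl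
      (B := 8 * C ^ 2 * L * √lam) (by positivity) hgrad hint
  have hBl : 4 * (8 * C ^ 2 * L * √lam) * l = 32 * C ^ 2 * L * K0 := by
    rw [← hsq]; ring
  rw [hBl] at hbd
  have hR : Icc x1 x2 ×ˢ Icc y1 y2 ⊆ Metric.closedBall z0 l := by
    rintro z ⟨⟨h1, h2⟩, h3, h4⟩
    rw [casei_mem_ball]
    exact ⟨⟨by linarith [hx1.1], by linarith [hx2.2]⟩, by linarith [hy1.1], by linarith [hy2.2]⟩
  have hR2 : Metric.closedBall z0 (l / 2) ⊆ Icc x1 x2 ×ˢ Icc y1 y2 := by
    intro z hz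
    rw [casei_mem_ball] at hz
    obtain ⟨⟨h1, h2⟩, h3, h4⟩ := hz
    exact ⟨⟨by linarith [hx1.2], by linarith [hx2.1]⟩, by linarith [hy1.2], by linarith [hy2.1]⟩
  have hmax := maxp hB hu z0 (Λ := 2 * lam) (Mx := m + 32 * C ^ 2 * L * K0) hl hl8 hball
    (by positivity) hR
    (fun z hz => by
      have h1 := hE.lap_log_q_ge (hKV (hball (hR hz))) hB (hball (hR hz)) h16 heps
      have h2 := F.g1_nonneg (eps := eps) (φ := φ) hlam0 z
      have h3 : (F.S φ).indicator (1 : Pl → ℝ) z ≤ 1 := by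
        by_cases hzS : z ∈ F.S φ
        · simp [hzS]
        · simp [hzS]
      have h4 : 2 * lam * (F.S φ).indicator (1 : Pl → ℝ) z ≤ 2 * lam * 1 := by gcongr
      linarith)
    (fun z hz hz' => by
      have := hbd z hz (by tauto)
      linarith [(abs_le.1 this).2])
  have hM : ∀ z ∈ Metric.closedBall z0 (l / 2),
      F.q lam eps φ z ≤ Real.exp (m + (32 * C ^ 2 * L * K0 + 4 * C * K0 ^ 2)) := by
    intro z hz
    have h1 := hmax z (hR2 hz)
    rw [← Real.exp_log (hqpos z)]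
    refine Real.exp_le_exp.2 ?_
    have : 2 * C * (2 * lam) * l ^ 2 = 4 * C * K0 ^ 2 := by rw [← hlam]; ring
    linarith
  have hm : ∀ z ∈ Metric.closedBall z0 (l / 8), z.2 ∈ Y →
      Real.exp (m - 32 * C ^ 2 * L * K0) ≤ F.q lam eps φ z := by
    intro z hz hzY
    have hz' : z ∈ Metric.closedBall z0 (l / 2) :=
      Metric.closedBall_subset_closedBall (by linarith) hz
    have h1 := hbd z (hR2 hz') (by tauto)
    rw [← Real.exp_log (hqpos z)]
    refine Real.exp_le_exp.2 ?_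
    linarith [(abs_le.1 h1).1]
  have key := hsign F K V hB hKV lam φ hE z0 l eps _ _ Y hl hl1 hlam hball hYm hYs hYv
    (Real.exp_pos _).le hM hm
  have hz0 := hM z0 (Metric.mem_closedBall_self (by linarith))
  set M1 := Real.exp (m + (32 * C ^ 2 * L * K0 + 4 * C * K0 ^ 2)) with hM1
  set e := Real.exp (-(32 * C ^ 2 * L * K0) - (32 * C ^ 2 * L * K0 + 4 * C * K0 ^ 2)) with he
  have hM1pos : 0 < M1 := Real.exp_pos _
  have hepos : 0 < e := Real.exp_pos _
  have hprod : Real.exp (m - 32 * C ^ 2 * L * K0) = e * M1 := by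
    rw [he, hM1, ← Real.exp_add]; congr 1; ring
  rw [hprod] at key
  have h1 : lam * eps ^ 2 ≤ c0 / 2 * e * M1 := hsmall.trans (by gcongr)
  have h2 : lam * eps ^ 2 * l ^ 2 ≤ c0 / 2 * e * M1 * l ^ 2 := by gcongr
  have h3 : M1 * (c0 / 2 * e * l ^ 2) ≤
      M1 * volume.real ({z | 0 < φ z} ∩ Metric.closedBall z0 l) := by linarith
  exact le_of_mul_le_mul_left h3 hM1pos

lemma casei_om_le {F : Frame} {V K : Set Pl} {lam eps L C Cs K0 l β : ℝ} {φ : Pl → ℝ} {z : Pl}
    (hE : Eig F V lam φ) (hz : z ∈ V) (hB : F.Bd K C) (hzK : z ∈ K) (h16 : 16 * C ≤ lam)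
    (he : 0 < eps) (hL : 1 ≤ L) (hCs : 1 ≤ Cs)
    (hstep : ∀ t : ℝ, |deriv Real.smoothTransition t| ≤ Cs ∧
      ((t < 0 ∨ 1 < t) → deriv Real.smoothTransition t = 0))
    (hK0 : 1 ≤ K0) (hl : 0 < l) (hlam : lam * l ^ 2 = K0 ^ 2) (hβ : 0 < β) :
    l * (|rx (F.om lam eps L φ) z| + |ry (F.om lam eps L φ) z| + F.om lam eps L φ z / l) ≤
      600 * C ^ 2 * Cs * K0 * β * (F.g2 lam eps L φ z / lam) +
        (2 * C ^ 2 * Cs * K0 * (300 * β + 1 / β) + 1) * (F.A lam eps L φ).indicator 1 z := by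
  have hC := hB.one_le
  have hlam0 : 0 < lam := by linarith
  have hg2 := F.g2_nonneg (eps := eps) (L := L) (φ := φ) hlam0 z
  have htt : DifferentiableAt ℝ (F.tt lam eps L φ) z :=
    (F.sm_tt hE.sm hlam0 he hL).differentiable (by simp) z
  have hom : DifferentiableAt ℝ (F.om lam eps L φ) z :=
    (F.sm_om hE.sm hlam0 he hL).differentiable (by simp) z
  have hd : HasDerivAt (fun t : ℝ => Real.smoothTransition ((t - 2) / 2))
      (deriv Real.smoothTransition ((F.tt lam eps L φ z - 2) / 2) * (1 / 2))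
      (F.tt lam eps L φ z) := by
    have h1 : HasDerivAt (fun t : ℝ => (t - 2) / 2) (1 / 2) (F.tt lam eps L φ z) :=
      ((hasDerivAt_id _).sub_const 2).div_const 2
    have h2 : DifferentiableAt ℝ Real.smoothTransition ((F.tt lam eps L φ z - 2) / 2) :=
      (Real.smoothTransition.contDiff (n := 1)).differentiable (by simp) _
    exact HasDerivAt.comp (h₂ := Real.smoothTransition) (h := fun t : ℝ => (t - 2) / 2)
      (F.tt lam eps L φ z) h2.hasDerivAt h1
  have hD : F.D (cx (F.om lam eps L φ)) z =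
      ((deriv Real.smoothTransition ((F.tt lam eps L φ z - 2) / 2) * (1 / 2) : ℝ) : ℂ) *
        F.D (cx (F.tt lam eps L φ)) z := F.D_cx_comp hd htt
  obtain ⟨hx, hy⟩ := hB.rx_le hzK hom
  have hom1 : F.om lam eps L φ z ≤ 1 := Real.smoothTransition.le_one _
  have hexp : l * (|rx (F.om lam eps L φ) z| + |ry (F.om lam eps L φ) z| +
      F.om lam eps L φ z / l) = l * (|rx (F.om lam eps L φ) z| + |ry (F.om lam eps L φ) z|) +
        F.om lam eps L φ z := by field_simp
  rw [hexp]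
  have hfirst : 0 ≤ 600 * C ^ 2 * Cs * K0 * β * (F.g2 lam eps L φ z / lam) := by positivity
  have hsec : 0 ≤ 2 * C ^ 2 * Cs * K0 * (300 * β + 1 / β) := by positivity
  by_cases hA : z ∈ F.A lam eps L φ
  · rw [indicator_of_mem hA, Pi.one_apply, mul_one]
    by_cases h4 : F.tt lam eps L φ z ≤ 4
    · have hN := hE.norm_D_tt hz hB hzK h16 he hL h4
      set N := ‖F.D (cx (F.tt lam eps L φ)) z‖ with hNdef
      have hN0 : 0 ≤ N := norm_nonneg _
      have hDn : ‖F.D (cx (F.om lam eps L φ)) z‖ ≤ Cs / 2 * N := by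
        rw [hD, norm_mul, Complex.norm_real, Real.norm_eq_abs, abs_mul]
        have h1 := (hstep ((F.tt lam eps L φ z - 2) / 2)).1
        have h2 : |(1 / 2 : ℝ)| = 1 / 2 := abs_of_pos (by norm_num)
        rw [h2]
        refine mul_le_mul_of_nonneg_right ?_ hN0
        linarith
      set n := l * N / K0 with hn
      have hlN : l * N = K0 * n := by rw [hn]; field_simp
      have hn2 : n ^ 2 ≤ 300 * (F.g2 lam eps L φ z / lam + 1) := by
        have h1 : n ^ 2 = N ^ 2 / lam := by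
          rw [hn, div_pow, mul_pow, ← hlam]; field_simp
        rw [h1, div_le_iff₀ hlam0]
        have h2 : 300 * (F.g2 lam eps L φ z / lam + 1) * lam =
            300 * (F.g2 lam eps L φ z + lam) := by field_simp
        rw [h2]; exact hN
      have hn3 : 2 * n ≤ β * n ^ 2 + 1 / β := by
        have h1 : β * n ^ 2 + 1 / β - 2 * n = (β * n - 1) ^ 2 / β := by field_simp; ring
        have h2 : 0 ≤ (β * n - 1) ^ 2 / β := by positivity
        linarith
      have hn4 : 2 * n ≤ β * (300 * (F.g2 lam eps L φ z / lam + 1)) + 1 / β := by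
        have : β * n ^ 2 ≤ β * (300 * (F.g2 lam eps L φ z / lam + 1)) := by gcongr
        linarith
      have h5 : |rx (F.om lam eps L φ) z| + |ry (F.om lam eps L φ) z| ≤
          8 * C ^ 2 * (Cs / 2 * N) := by
        have : 4 * C ^ 2 * ‖F.D (cx (F.om lam eps L φ)) z‖ ≤ 4 * C ^ 2 * (Cs / 2 * N) := by gcongr
        linarith
      have h6 : l * (|rx (F.om lam eps L φ) z| + |ry (F.om lam eps L φ) z|) ≤
          2 * C ^ 2 * Cs * K0 * (2 * n) := by
        calc _ ≤ l * (8 * C ^ 2 * (Cs / 2 * N)) := by gcongr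
          _ = 4 * C ^ 2 * Cs * (l * N) := by ring
          _ = _ := by rw [hlN]; ring
      have h7 : 2 * C ^ 2 * Cs * K0 * (2 * n) ≤
          2 * C ^ 2 * Cs * K0 * (β * (300 * (F.g2 lam eps L φ z / lam + 1)) + 1 / β) := by gcongr
      linarith
    · push Not at h4
      have h0 := (hstep ((F.tt lam eps L φ z - 2) / 2)).2 (Or.inr (by linarith))
      rw [hD, h0] at hx hy
      simp only [zero_mul, Complex.ofReal_zero, norm_zero, mul_zero] at hx hy
      have h1 : l * (|rx (F.om lam eps L φ) z| + |ry (F.om lam eps L φ) z|) ≤ 0 :=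
        mul_nonpos_of_nonneg_of_nonpos hl.le (by linarith)
      linarith
  · rw [indicator_of_notMem hA, mul_zero, add_zero]
    have h2 : F.tt lam eps L φ z < 2 := not_le.1 hA
    have h0 := (hstep ((F.tt lam eps L φ z - 2) / 2)).2 (Or.inl (by linarith))
    rw [hD, h0] at hx hy
    simp only [zero_mul, Complex.ofReal_zero, norm_zero, mul_zero] at hx hy
    have h1 : l * (|rx (F.om lam eps L φ) z| + |ry (F.om lam eps L φ) z|) ≤ 0 :=
      mul_nonpos_of_nonneg_of_nonpos hl.le (by linarith)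
    have h3 : F.om lam eps L φ z = 0 := Real.smoothTransition.zero_of_nonpos (by linarith)
    linarith

/-- most of the set where a function is positive is in a superlevel set -/
lemma casei_exhaust {T : Set Pl} (hT : volume T ≠ ⊤) {g : Pl → ℝ} (hg : ∀ z ∈ T, 0 < g z)
    {a : ℝ} (ha : a < volume.real T) : ∃ t : ℝ, 0 < t ∧ a ≤ volume.real (T ∩ {z | t ≤ g z}) := by
  have hmono : Monotone fun n : ℕ => T ∩ {z | 1 / ((n : ℝ) + 1) ≤ g z} := by
    intro n m hnm z hz
    have h1 : 1 / ((n : ℝ) + 1) ≤ g z := hz.2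
    have h2 : 1 / ((m : ℝ) + 1) ≤ g z := (Nat.one_div_le_one_div hnm).trans h1
    exact ⟨hz.1, h2⟩
  have hU : ⋃ n : ℕ, T ∩ {z | 1 / ((n : ℝ) + 1) ≤ g z} = T := by
    refine Subset.antisymm (iUnion_subset fun n => inter_subset_left) fun z hz => ?_
    obtain ⟨n, hn⟩ := exists_nat_one_div_lt (hg z hz)
    exact mem_iUnion.2 ⟨n, hz, hn.le⟩
  have h1 := tendsto_measure_iUnion_atTop (μ := (volume : Measure Pl)) hmono
  rw [hU] at h1
  have h2 := (ENNReal.tendsto_toReal hT).comp h1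
  obtain ⟨n, hn⟩ := (h2.eventually (lt_mem_nhds ha)).exists
  exact ⟨1 / ((n : ℝ) + 1), by positivity, hn.le⟩

theorem caseI (F : Frame) {V : Set Pl} {χ : Pl → ℝ} (hχ : Cut V χ) {C0 η0 : ℝ} (hC0 : 0 < C0)
    (hη0 : 0 < η0) : ∃ c1 : ℝ, 0 < c1 ∧ ∀ L : ℝ, 1 ≤ L → ∃ c : ℝ, 0 < c ∧ ∃ lam0 : ℝ,
      ∀ lam, lam0 ≤ lam → ∀ φ, Eig F V lam φ → ∀ s : ℝ, 0 < s →
        η0 * s ≤ volume.real (F.S φ ∩ {z | η0 ≤ χ z}) → ∃ eps : ℝ, 0 < eps ∧
          (∫ z, χ z * F.g2 lam eps L φ z * F.rho z ≤ C0 * lam * s →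
            ∫ z in F.A lam eps L φ, χ z * F.rho z ≤ c1 * s →
            c * s ≤ volume.real ({z | 0 < φ z} ∩ tsupport χ)) := by
  have hK : IsCompact (tsupport χ) := hχ.cpt
  obtain ⟨C, hB⟩ := F.exists_bd hK
  have hC := hB.one_le
  obtain ⟨K0, hK0, hloc⟩ := localI hC
  obtain ⟨Cs, hCs, hstep⟩ := exists_step_bound
  have hχc : Continuous χ := hχ.sm.continuous
  obtain ⟨δ, hδ, hunif⟩ := Metric.uniformContinuous_iff.1
    (hχ.cpt.uniformContinuous_of_continuous hχc) (η0 / 2) (by positivity)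
  -- constants
  obtain ⟨β, hβ, hβe⟩ : ∃ β : ℝ, 0 < β ∧
      64 * (2 * C / η0) * (600 * C ^ 2 * Cs * K0 * β * C0) = η0 / 8 :=
    ⟨η0 / 8 / (64 * (2 * C / η0) * (600 * C ^ 2 * Cs * K0 * C0)), by positivity, by field_simp⟩
  obtain ⟨Γ, hΓ⟩ : ∃ Γ : ℝ, Γ = 2 * C ^ 2 * Cs * K0 * (300 * β + 1 / β) + 1 := ⟨_, rfl⟩
  have hΓ1 : 1 ≤ Γ := by
    have : 0 ≤ 2 * C ^ 2 * Cs * K0 * (300 * β + 1 / β) := by positivity
    linarith
  obtain ⟨c1, hc1, hc1e⟩ : ∃ c1 : ℝ, 0 < c1 ∧ 64 * (2 * C / η0) * (Γ * c1) = η0 / 8 :=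
    ⟨η0 / 8 / (64 * (2 * C / η0) * Γ), by positivity, by field_simp⟩
  refine ⟨c1, hc1, fun L hL => ?_⟩
  obtain ⟨c, hc, hloc⟩ := hloc L hL
  refine ⟨c * η0 / 16, by positivity,
    max (16 * C) (max ((8 * C ^ 2 * K0) ^ 2) ((2 * K0 / δ) ^ 2)), ?_⟩
  intro lam hlam φ hE s hs hS
  have h16 : 16 * C ≤ lam := (le_max_left _ _).trans hlam
  have hl2 : (8 * C ^ 2 * K0) ^ 2 ≤ lam := ((le_max_left _ _).trans (le_max_right _ _)).trans hlam
  have hl3 : (2 * K0 / δ) ^ 2 ≤ lam := ((le_max_right _ _).trans (le_max_right _ _)).trans hlam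
  have hlam0 : 0 < lam := by linarith
  have hsq : 0 < √lam := Real.sqrt_pos.2 hlam0
  obtain ⟨l, hl, hll, hl8, hlδ⟩ : ∃ l : ℝ, 0 < l ∧ lam * l ^ 2 = K0 ^ 2 ∧ 8 * C ^ 2 * l ≤ 1 ∧
      l < δ := by
    refine ⟨K0 / √lam, by positivity, ?_, ?_, ?_⟩
    · rw [div_pow, Real.sq_sqrt hlam0.le]; field_simp
    · have h1 : 8 * C ^ 2 * K0 ≤ √lam := Real.le_sqrt_of_sq_le hl2
      rw [← mul_div_assoc, div_le_one hsq]; exact h1
    · have h1 : 2 * K0 / δ ≤ √lam := Real.le_sqrt_of_sq_le hl3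
      rw [div_le_iff₀ hδ] at h1
      rw [div_lt_iff₀ hsq]; linarith
  -- the compact set where the cutoff is large
  set W : Set Pl := {z | η0 / 2 ≤ χ z} with hW
  have hWK : W ⊆ tsupport χ := fun z hz => subset_tsupport _ (by
    have : η0 / 2 ≤ χ z := hz
    exact ne_of_gt (by linarith))
  have hWcl : IsClosed W := isClosed_le continuous_const hχc
  have hWc : IsCompact W := hK.of_isClosed_subset hWcl hWK
  have hball : ∀ z0, η0 ≤ χ z0 → Metric.closedBall z0 l ⊆ W := by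
    intro z0 hz0 z hz
    have h1 := hunif (lt_of_le_of_lt (Metric.mem_closedBall.1 hz) hlδ)
    rw [Real.dist_eq] at h1
    have := (abs_lt.1 h1).1
    show η0 / 2 ≤ χ z
    linarith
  have hTW : F.S φ ∩ {z | η0 ≤ χ z} ⊆ W := fun z hz => by
    have : η0 ≤ χ z := hz.2
    show η0 / 2 ≤ χ z
    linarith
  have hWfin : volume W ≠ ⊤ := hWc.measure_lt_top.ne
  have hTfin : volume (F.S φ ∩ {z | η0 ≤ χ z}) ≠ ⊤ := measure_ne_top_of_subset hTW hWfin
  obtain ⟨t, ht, hZt⟩ := casei_exhaust hTfin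
    (g := fun z => ‖F.f φ z‖ ^ 2 + lam * φ z ^ 2 / 2 + ‖F.p φ z‖ ^ 2)
    (fun z hz => by
      rcases hz.1 with h | h | h
      · positivity
      · positivity
      · positivity)
    (a := 3 / 4 * (η0 * s)) (by linarith [mul_pos hη0 hs])
  obtain ⟨eps, heps, hepse⟩ : ∃ eps : ℝ, 0 < eps ∧ lam * eps ^ 2 * (1 + 2 * L ^ 2 * lam) = c * t :=
    ⟨√(c * t / (lam * (1 + 2 * L ^ 2 * lam))), by positivity, by
      rw [Real.sq_sqrt (by positivity)]; field_simp⟩
  refine ⟨eps, heps, fun hg2 hA => ?_⟩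
  have hAm : MeasurableSet (F.A lam eps L φ) := (F.isClosed_A hE.sm hlam0 heps hL).measurableSet
  have homs := F.sm_om hE.sm hlam0 heps hL
  -- the weight dominates the indicator of `W`
  have hρc : Continuous F.rho := F.srho.continuous
  have hw0 : ∀ z, 0 ≤ χ z * F.rho z := fun z => mul_nonneg (hχ.nonneg z) (F.rho_pos z).le
  have hw1 : ∀ z ∈ W, 1 ≤ 2 * C / η0 * (χ z * F.rho z) := by
    intro z hz
    have h1 : η0 / 2 ≤ χ z := hz
    have h2 := hB.le_rho z (hWK hz)
    have h3 : 1 ≤ 2 / η0 * χ z := by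
      rw [div_mul_eq_mul_div, le_div_iff₀ hη0]; linarith
    calc (1 : ℝ) = 1 * 1 := by ring
      _ ≤ (2 / η0 * χ z) * (C * F.rho z) := by gcongr
      _ = _ := by ring
  have hwi : Integrable (fun z => χ z * F.rho z) :=
    (hχc.mul hρc).integrable_of_hasCompactSupport hχ.cpt.mul_right
  have hg2i : Integrable (fun z => χ z * F.g2 lam eps L φ z * F.rho z) :=
    ((hχc.mul (F.sm_g2 hE.sm hlam0 heps hL).continuous).mul hρc).integrable_of_hasCompactSupport
      hχ.cpt.mul_right.mul_right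
  have hAi : Integrable ((F.A lam eps L φ).indicator fun z => χ z * F.rho z) := hwi.indicator hAm
  rw [← integral_indicator hAm] at hA
  -- the energy density
  set e : Pl → ℝ := fun z => |rx (F.om lam eps L φ) z| + |ry (F.om lam eps L φ) z| +
    F.om lam eps L φ z / l with he
  have hec : Continuous e := by
    have h1 : Continuous (rx (F.om lam eps L φ)) :=
      continuous_iff_continuousAt.2 fun z => (smAt_rx homs.contDiffAt).continuousAt
    have h2 : Continuous (ry (F.om lam eps L φ)) :=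
      continuous_iff_continuousAt.2 fun z => (smAt_ry homs.contDiffAt).continuousAt
    exact (h1.abs.add h2.abs).add (homs.continuous.div_const _)
  have he0 : ∀ z, 0 ≤ e z := fun z => by
    have : 0 ≤ F.om lam eps L φ z := Real.smoothTransition.nonneg _
    simp only [he]; positivity
  have hgi : Integrable (W.indicator e) :=
    (hec.continuousOn.integrableOn_compact hWc).integrable_indicator hWcl.measurableSet
  have hgle : l * ∫ z, W.indicator e z ≤ η0 * s / 256 := by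
    have h1 : ∀ z, l * W.indicator e z ≤ 2 * C / η0 * (600 * C ^ 2 * Cs * K0 * β / lam *
        (χ z * F.g2 lam eps L φ z * F.rho z) +
          Γ * (F.A lam eps L φ).indicator (fun z => χ z * F.rho z) z) := by
      intro z
      have hg0 := F.g2_nonneg (eps := eps) (L := L) (φ := φ) hlam0 z
      have hi0 : (0 : ℝ) ≤ (F.A lam eps L φ).indicator 1 z :=
        indicator_nonneg (fun _ _ => zero_le_one) z
      have hrw : 2 * C / η0 * (600 * C ^ 2 * Cs * K0 * β / lam *
          (χ z * F.g2 lam eps L φ z * F.rho z) +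
            Γ * (F.A lam eps L φ).indicator (fun z => χ z * F.rho z) z) =
          2 * C / η0 * (χ z * F.rho z) * (600 * C ^ 2 * Cs * K0 * β * (F.g2 lam eps L φ z / lam) +
            Γ * (F.A lam eps L φ).indicator 1 z) := by
        by_cases hz : z ∈ F.A lam eps L φ
        · simp only [indicator_of_mem hz, Pi.one_apply]; ring
        · simp only [indicator_of_notMem hz]; ring
      rw [hrw]
      have hR : 0 ≤ 600 * C ^ 2 * Cs * K0 * β * (F.g2 lam eps L φ z / lam) +
          Γ * (F.A lam eps L φ).indicator 1 z := by positivity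
      by_cases hz : z ∈ W
      · rw [indicator_of_mem hz]
        have h2 := casei_om_le (L := L) hE (hχ.sub (hWK hz)) hB (hWK hz) h16 heps hL hCs hstep hK0
          hl hll hβ
        rw [← hΓ] at h2
        exact h2.trans (le_mul_of_one_le_left hR (hw1 z hz))
      · rw [indicator_of_notMem hz, mul_zero]
        have := hw0 z
        positivity
    have hsum : Integrable (fun z => 600 * C ^ 2 * Cs * K0 * β / lam *
        (χ z * F.g2 lam eps L φ z * F.rho z) +
          Γ * (F.A lam eps L φ).indicator (fun z => χ z * F.rho z) z) :=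
      (hg2i.const_mul _).add (hAi.const_mul Γ)
    have h2 := integral_mono (hgi.const_mul l) (hsum.const_mul (2 * C / η0)) h1
    rw [integral_const_mul, integral_const_mul, integral_add (hg2i.const_mul _) (hAi.const_mul Γ),
      integral_const_mul, integral_const_mul] at h2
    have h3 : 600 * C ^ 2 * Cs * K0 * β / lam * ∫ z, χ z * F.g2 lam eps L φ z * F.rho z ≤
        600 * C ^ 2 * Cs * K0 * β * C0 * s := by
      calc _ ≤ 600 * C ^ 2 * Cs * K0 * β / lam * (C0 * lam * s) := by gcongr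
        _ = _ := by field_simp
    have h4 : Γ * ∫ z, (F.A lam eps L φ).indicator (fun z => χ z * F.rho z) z ≤ Γ * c1 * s := by
      calc _ ≤ Γ * (c1 * s) := by gcongr
        _ = _ := by ring
    have h5 : 2 * C / η0 * (600 * C ^ 2 * Cs * K0 * β * C0 * s + Γ * c1 * s) = η0 * s / 256 := by
      linear_combination s / 64 * hβe + s / 64 * hc1e
    rw [← h5]
    exact h2.trans (by gcongr)
  -- bad centres
  set Zb : Set Pl := {z0 | l / 16 ≤ ∫ z in Metric.closedBall z0 l, W.indicator e z} with hZb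
  obtain ⟨hZbfin, hZble⟩ := avg_le_real (hec.measurable.indicator hWcl.measurableSet)
    (fun z => indicator_nonneg (fun z _ => he0 z) z) hgi hl.le (τ := l / 16) (by positivity)
    (Z := Zb) (fun z0 hz0 => hz0)
  have hZb4 : volume.real Zb ≤ η0 * s / 4 := by
    have h1 : l / 16 * volume.real Zb ≤ l / 16 * (η0 * s / 4) := by
      calc _ ≤ (2 * l) ^ 2 * ∫ z, W.indicator e z := hZble
        _ = 4 * l * (l * ∫ z, W.indicator e z) := by ring
        _ ≤ 4 * l * (η0 * s / 256) := by gcongr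
        _ = _ := by ring
    exact le_of_mul_le_mul_left h1 (by positivity)
  have hAW : volume.real (F.A lam eps L φ ∩ W) ≤ η0 * s / 4 := by
    have hm : MeasurableSet (F.A lam eps L φ ∩ W) := hAm.inter hWcl.measurableSet
    have hfin : volume (F.A lam eps L φ ∩ W) ≠ ⊤ :=
      measure_ne_top_of_subset inter_subset_right hWfin
    have h1 : ∫ z, (F.A lam eps L φ ∩ W).indicator (1 : Pl → ℝ) z ≤
        ∫ z, 2 * C / η0 * (F.A lam eps L φ).indicator (fun z => χ z * F.rho z) z := by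
      refine integral_mono ((integrableOn_const hfin).integrable_indicator hm)
        (hAi.const_mul _) fun z => ?_
      by_cases hz : z ∈ F.A lam eps L φ ∩ W
      · simp only [indicator_of_mem hz, indicator_of_mem hz.1, Pi.one_apply]
        exact hw1 z hz.2
      · simp only [indicator_of_notMem hz]
        have : 0 ≤ (F.A lam eps L φ).indicator (fun z => χ z * F.rho z) z :=
          indicator_nonneg (fun z _ => hw0 z) z
        positivity
    rw [integral_indicator_one hm, integral_const_mul] at h1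
    have h2 : 2 * C / η0 * ∫ z, (F.A lam eps L φ).indicator (fun z => χ z * F.rho z) z ≤
        2 * C / η0 * (Γ * c1 * s) := by
      have : c1 * s ≤ Γ * c1 * s := by
        rw [mul_assoc]; exact le_mul_of_one_le_left (mul_pos hc1 hs).le hΓ1
      gcongr
      linarith
    have h3 : 2 * C / η0 * (Γ * c1 * s) = η0 * s / 512 := by
      linear_combination s / 64 * hc1e
    linarith [mul_pos hη0 hs]
  -- good centres
  set Zt : Set Pl := F.S φ ∩ {z | η0 ≤ χ z} ∩
    {z | t ≤ ‖F.f φ z‖ ^ 2 + lam * φ z ^ 2 / 2 + ‖F.p φ z‖ ^ 2} with hZtdef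
  set Z : Set Pl := (Zt \ F.A lam eps L φ) \ Zb with hZ
  have hZW : Z ⊆ W := fun z hz => hTW hz.1.1.1
  have hZ4 : η0 * s / 4 ≤ volume.real Z := by
    have h1 : Zt ⊆ (Z ∪ (F.A lam eps L φ ∩ W)) ∪ Zb := by
      intro z hz
      by_cases hb : z ∈ Zb
      · exact Or.inr hb
      · by_cases ha : z ∈ F.A lam eps L φ
        · exact Or.inl (Or.inr ⟨ha, hTW hz.1⟩)
        · exact Or.inl (Or.inl ⟨⟨hz, ha⟩, hb⟩)
    have hfin : volume ((Z ∪ (F.A lam eps L φ ∩ W)) ∪ Zb) ≠ ⊤ :=
      measure_union_ne_top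
        (measure_ne_top_of_subset (union_subset hZW inter_subset_right) hWfin) hZbfin
    have h2 := measureReal_mono h1 hfin
    have h3 := measureReal_union_le (μ := (volume : Measure Pl)) (Z ∪ (F.A lam eps L φ ∩ W)) Zb
    have h4 := measureReal_union_le (μ := (volume : Measure Pl)) Z (F.A lam eps L φ ∩ W)
    linarith
  have hPm : MeasurableSet ({z | 0 < φ z} ∩ tsupport χ) :=
    (isOpen_lt continuous_const hE.sm.continuous).measurableSet.inter hK.measurableSet
  have hPfin : volume ({z | 0 < φ z} ∩ tsupport χ) ≠ ⊤ :=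
    measure_ne_top_of_subset inter_subset_right hK.measure_lt_top.ne
  have hgood : ∀ z0 ∈ Z, c * l ^ 2 ≤ ∫ z in Metric.closedBall z0 l,
      ({z | 0 < φ z} ∩ tsupport χ).indicator (1 : Pl → ℝ) z := by
    rintro z0 ⟨⟨⟨⟨-, hz1⟩, hz2⟩, hz3⟩, hz4⟩
    have hb := hball z0 hz1
    have hq := F.q_pos (φ := φ) hlam0 heps z0
    have h1 : lam * eps ^ 2 ≤ c * F.q lam eps φ z0 := by
      have h2 : F.tt lam eps L φ z0 < 2 := not_le.1 hz3
      unfold Frame.tt at h2
      rw [div_lt_iff₀ (by positivity)] at h2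
      have h3 : ‖F.f φ z0‖ ^ 2 + lam * φ z0 ^ 2 / 2 ≤ F.q lam eps φ z0 := by
        unfold Frame.q sig
        linarith [mul_pos hlam0 (pow_pos heps 2)]
      have h4 : t ≤ ‖F.f φ z0‖ ^ 2 + lam * φ z0 ^ 2 / 2 + ‖F.p φ z0‖ ^ 2 := hz2
      have h5 : t ≤ F.q lam eps φ z0 * (1 + 2 * L ^ 2 * lam) := by linarith
      have h6 : lam * eps ^ 2 * (1 + 2 * L ^ 2 * lam) ≤
          c * F.q lam eps φ z0 * (1 + 2 * L ^ 2 * lam) := by
        rw [hepse, mul_assoc]; gcongr
      exact le_of_mul_le_mul_right h6 (by positivity)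
    have h2 : ∫ z in Metric.closedBall z0 l, e z ≤ l / 16 := by
      have h3 : ∫ z in Metric.closedBall z0 l, W.indicator e z < l / 16 := not_le.1 hz4
      rw [setIntegral_congr_fun measurableSet_closedBall
        (fun z hz => indicator_of_mem (hb hz) e)] at h3
      exact h3.le
    have h3 := hloc F (tsupport χ) V hB hχ.sub lam φ hE z0 l eps hl hl8 hll h16 heps
      (hb.trans hWK) h1 h2
    rw [integral_indicator_one hPm, measureReal_restrict_apply hPm]
    refine h3.trans (le_of_eq ?_)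
    congr 1
    ext z
    exact ⟨fun hz => ⟨⟨hz.1, hWK (hb hz.2)⟩, hz.2⟩, fun hz => ⟨hz.1.1, hz.2⟩⟩
  obtain ⟨-, hfin⟩ := avg_le_real (measurable_one.indicator hPm)
    (fun z => indicator_nonneg (fun _ _ => zero_le_one) z)
    ((integrableOn_const hPfin).integrable_indicator hPm) hl.le (τ := c * l ^ 2) (by positivity)
    hgood
  rw [integral_indicator_one hPm] at hfin
  have h1 : (2 * l) ^ 2 * (c * η0 / 16 * s) ≤
      (2 * l) ^ 2 * volume.real ({z | 0 < φ z} ∩ tsupport χ) := by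
    calc _ = c * l ^ 2 * (η0 * s / 4) := by ring
      _ ≤ c * l ^ 2 * volume.real Z := by gcongr
      _ ≤ _ := hfin
  exact le_of_mul_le_mul_left h1 (by positivity)

end Pool.Agent.P.MP_177f55_an
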