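import Pool.Agent.P.MP_177f55_an.Ident

/-! Pointwise estimates in the high frequency region. -/

open MeasureTheory Set Filter Topology
open scoped ContDiff ComplexConjugate NNReal ENNReal

noncomputable section

namespace Pool.Agent.P.MP_177f55_an

lemma wave_le {a b : ℝ} (hb : 0 ≤ b) (h : a ^ 2 ≤ b ^ 2) : a ≤ b :=
  le_of_sq_le_sq h hb

lemma wave_main {r2 x θ : ℝ} (hθ : 0 < θ) (h1 : r2 ≤ 1) (h2 : x ^ 2 ≤ r2) :
    (r2 - 9 - 8 * θ ≤ 4 / θ * (r2 * (1 - r2)) - (2 - r2) * (2 * x ^ 2 + 2 * x - r2)) ∧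
    ((0 < x → x ^ 2 ≤ 1 - r2) →
      r2 - 8 * θ ≤ 4 / θ * (r2 * (1 - r2)) - (2 - r2) * (2 * x ^ 2 + 2 * x - r2)) := by
  have h0 : 0 ≤ r2 := (sq_nonneg x).trans h2
  have h3 : 0 ≤ r2 * (1 - r2) := mul_nonneg h0 (by linarith)
  have h4 : 0 ≤ 4 / θ * (r2 * (1 - r2)) := by positivity
  have h5 : x ≤ 1 := by nlinarith
  have h6 : -1 ≤ x := by nlinarith
  refine ⟨?_, fun h7 => ?_⟩
  · have : (2 - r2) * (2 * x ^ 2 + 2 * x) ≤ (2 - r2) * 4 :=
      mul_le_mul_of_nonneg_left (by nlinarith) (by linarith)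
    nlinarith
  · rcases le_or_gt x 0 with hx | hx
    · have : (2 - r2) * (2 * x ^ 2 + 2 * x) ≤ 0 :=
        mul_nonpos_of_nonneg_of_nonpos (by linarith) (by nlinarith)
      nlinarith
    · have h8 := h7 hx
      have h9 : x ^ 2 ≤ 2 * (r2 * (1 - r2)) := by
        rcases le_total r2 (1 / 2) with h | h <;> nlinarith
      have k1 : (2 - r2) * (2 * x ^ 2 + 2 * x) ≤ 2 * (4 * x) :=
        mul_le_mul (by linarith) (by nlinarith) (by positivity) (by norm_num)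
      have k2 : 8 * x ≤ 8 * θ + 2 / θ * x ^ 2 := by
        have : 8 * θ + 2 / θ * x ^ 2 - 8 * x = 2 / θ * (x - 2 * θ) ^ 2 := by
          field_simp
          ring
        have : 0 ≤ 2 / θ * (x - 2 * θ) ^ 2 := by positivity
        linarith
      have k3 : 2 / θ * x ^ 2 ≤ 4 / θ * (r2 * (1 - r2)) :=
        (mul_le_mul_of_nonneg_left h9 (by positivity)).trans_eq (by ring)
      nlinarith

lemma wave_alg {m k a b : ℂ} {E T : ℝ} (hT : 0 ≤ T) (hm : ‖m‖ ≤ 1) (hk : ‖k‖ ≤ 1)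
    (hab : ‖a‖ + ‖b‖ ≤ E) {n A B : ℂ} (hn : 2 * n = (m + a) * conj m + m * b - k * (a + b))
    (hA : A = m + a - m * n) (hB : B = b - conj m * n) :
    T * (‖m‖ ^ 2 * (1 - ‖m‖ ^ 2)) - (2 - ‖m‖ ^ 2) * (2 * m.re ^ 2 + 2 * m.re - ‖m‖ ^ 2) -
      4 * E * (T + 3) ≤ (T * (A * conj m + m * B) - (A * m + m * A) - 4 * A).re := by
  have ha := norm_nonneg a
  have hb := norm_nonneg b
  have hm0 := norm_nonneg m
  set d := (a * conj m + m * b - k * (a + b)) / 2 with hd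
  have h1 : ‖d‖ ≤ E := by
    rw [hd, norm_div, Complex.norm_two, div_le_iff₀ two_pos]
    refine (norm_sub_le _ _).trans ((add_le_add (norm_add_le _ _) le_rfl).trans ?_)
    simp only [norm_mul, Complex.norm_conj]
    have := norm_add_le a b
    have := norm_nonneg (a + b)
    have := norm_nonneg k
    nlinarith
  have hmd : ‖m‖ * ‖d‖ ≤ E := by nlinarith [norm_nonneg d]
  have h2 : ‖a - m * d‖ ≤ 2 * E := (norm_sub_le _ _).trans (by rw [norm_mul]; linarith)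
  have h3 : ‖b - conj m * d‖ ≤ 2 * E :=
    (norm_sub_le _ _).trans (by rw [norm_mul, Complex.norm_conj]; linarith)
  have h4 : n = m * conj m / 2 + d := by rw [hd]; linear_combination hn / 2
  generalize ha' : a - m * d = e1 at h2
  generalize hb' : b - conj m * d = e2 at h3
  have h5 : T * (A * conj m + m * B) - (A * m + m * A) - 4 * A =
      (T * (m * conj m * (1 - m * conj m)) - (2 - m * conj m) * (m * m + 2 * m)) +
        (T * (e1 * conj m + m * e2) - (2 * m + 4) * e1) := by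
    rw [hA, hB, h4, ← ha', ← hb']
    ring
  have h6 : ‖T * (e1 * conj m + m * e2) - (2 * m + 4) * e1‖ ≤ 4 * E * (T + 3) := by
    refine (norm_sub_le _ _).trans ?_
    have k1 : ‖e1 * conj m + m * e2‖ ≤ 4 * E := (norm_add_le _ _).trans (by
      rw [norm_mul, norm_mul, Complex.norm_conj]
      nlinarith [norm_nonneg e1, norm_nonneg e2])
    have k2 : ‖2 * m + 4‖ ≤ 6 := (norm_add_le _ _).trans (by
      rw [norm_mul, Complex.norm_two, Complex.norm_ofNat]
      linarith)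
    rw [norm_mul, norm_mul, Complex.norm_real, Real.norm_of_nonneg hT]
    nlinarith [mul_le_mul_of_nonneg_left k1 hT, mul_le_mul k2 h2 (norm_nonneg _) (by norm_num)]
  have h7 := (abs_le.1 ((Complex.abs_re_le_norm _).trans h6)).1
  have h8 : (T * (m * conj m * (1 - m * conj m)) - (2 - m * conj m) * (m * m + 2 * m)).re =
      T * (‖m‖ ^ 2 * (1 - ‖m‖ ^ 2)) - (2 - ‖m‖ ^ 2) * (2 * m.re ^ 2 + 2 * m.re - ‖m‖ ^ 2) := by
    rw [Complex.mul_conj, Complex.sq_norm, Complex.normSq_apply]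
    simp only [Complex.sub_re, Complex.mul_re, Complex.add_re, Complex.sub_im, Complex.mul_im,
      Complex.add_im, Complex.ofReal_re, Complex.ofReal_im, Complex.one_re, Complex.one_im,
      Complex.re_ofNat, Complex.im_ofNat]
    ring
  rw [h5, Complex.add_re, h8]
  linarith

namespace Eig

variable {F : Frame} {V K : Set Pl} {lam eps L C : ℝ} {φ : Pl → ℝ} {z : Pl}

lemma p_ne_zero (hl : 0 < lam) (he : 0 < eps) (hL : 1 ≤ L) (ht : 0 < F.tt lam eps L φ z) :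
    F.p φ z ≠ 0 := by
  intro h
  simp [Frame.tt, h] at ht

lemma wave_q_le (hl : 0 < lam) (he : 0 < eps) (hL : 1 ≤ L) (ht : 1 ≤ F.tt lam eps L φ z) :
    L ^ 2 * lam * F.q lam eps φ z ≤ ‖F.p φ z‖ ^ 2 := by
  have := F.q_pos (φ := φ) hl he z
  rwa [Frame.tt, one_le_div (by positivity)] at ht

lemma smAt_eta (h : Eig F V lam φ) (hp : F.p φ z ≠ 0) : ContDiffAt ℝ ∞ (F.eta φ) z :=
  ((F.sm_f h.sm).contDiffAt.mul ((F.sm_p h.sm).contDiffAt.inv hp)).congr_of_eventuallyEq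
    (.of_forall fun _ => div_eq_mul_inv _ _)

lemma wave_Psi_eq (F : Frame) (φ : Pl → ℝ) : F.Psi φ = fun w => F.f φ w * F.eta φ w := by
  funext w
  rw [Frame.Psi, Frame.eta, sq, mul_div_assoc]

lemma wave_smAt_Psi (h : Eig F V lam φ) (hp : F.p φ z ≠ 0) : ContDiffAt ℝ ∞ (F.Psi φ) z := by
  rw [wave_Psi_eq]
  exact (F.sm_f h.sm).contDiffAt.mul (h.smAt_eta hp)

lemma wave_NN_pos (he : 0 < eps) (z : Pl) : 0 < F.NN eps φ z := Real.sqrt_pos.2 (by positivity)

lemma wave_NN_sq (z : Pl) : F.NN eps φ z ^ 2 =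
    ‖F.Psi φ z‖ ^ 2 + (φ z - (F.Psi φ z).re) ^ 2 + eps ^ 2 := Real.sq_sqrt (by positivity)

lemma wave_smAt_NN (h : Eig F V lam φ) (he : 0 < eps) (hp : F.p φ z ≠ 0) :
    ContDiffAt ℝ ∞ (F.NN eps φ) z := by
  have h1 := h.wave_smAt_Psi hp
  refine ContDiffAt.sqrt (((smAt_normSq h1).add ((h.sm.contDiffAt.sub
    (Complex.reCLM.contDiff.contDiffAt.comp z h1)).pow 2)).add contDiffAt_const) ?_
  positivity

lemma wave_smAt_mm (h : Eig F V lam φ) (he : 0 < eps) (hp : F.p φ z ≠ 0) :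
    ContDiffAt ℝ ∞ (F.mm eps φ) z :=
  ((h.wave_smAt_Psi hp).mul ((smAt_cx (h.wave_smAt_NN he hp)).inv
    (Complex.ofReal_ne_zero.2 (wave_NN_pos he z).ne'))).congr_of_eventuallyEq
    (.of_forall fun _ => div_eq_mul_inv _ _)

lemma smAt_GG (h : Eig F V lam φ) (he : 0 < eps) (T : ℝ) (hp : F.p φ z ≠ 0) :
    ContDiffAt ℝ ∞ (F.GG T eps φ) z := by
  have h1 := h.wave_smAt_mm he hp
  exact ((contDiffAt_const.mul (h1.mul (smAt_conj h1))).sub (h1.pow 2)).sub
    (contDiffAt_const.mul h1)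

lemma wave_norm_mm (he : 0 < eps) (z : Pl) : ‖F.mm eps φ z‖ = ‖F.Psi φ z‖ / F.NN eps φ z := by
  rw [Frame.mm, norm_div, Complex.norm_real, Real.norm_of_nonneg (wave_NN_pos he z).le]

lemma wave_Psi_le (he : 0 < eps) (z : Pl) : ‖F.Psi φ z‖ ≤ F.NN eps φ z :=
  wave_le (wave_NN_pos he z).le (by rw [wave_NN_sq]; nlinarith)

lemma wave_mm_le (he : 0 < eps) (z : Pl) : ‖F.mm eps φ z‖ ≤ 1 := by
  rw [wave_norm_mm he, div_le_one (wave_NN_pos he z)]
  exact wave_Psi_le he z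

lemma norm_GG_le (he : 0 < eps) {T : ℝ} (hT : 0 ≤ T) : ‖F.GG T eps φ z‖ ≤ T + 5 := by
  have h1 := wave_mm_le (F := F) (φ := φ) he z
  have h2 := norm_nonneg (F.mm eps φ z)
  refine (norm_sub_le _ _).trans ((add_le_add (norm_sub_le _ _) le_rfl).trans ?_)
  simp only [norm_mul, norm_pow, Complex.norm_conj, Complex.norm_real, Real.norm_of_nonneg hT,
    Complex.norm_ofNat]
  have h3 : ‖F.mm eps φ z‖ * ‖F.mm eps φ z‖ ≤ 1 := by nlinarith
  nlinarith

lemma norm_eta_le (hl : 0 < lam) (he : 0 < eps) (hL : 1 ≤ L) (ht : 1 ≤ F.tt lam eps L φ z) :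
    L ^ 2 * lam * ‖F.eta φ z‖ ^ 2 ≤ 1 := by
  have h1 := norm_pos_iff.2 (p_ne_zero hl he hL (one_pos.trans_le ht))
  have h2 := wave_q_le hl he hL ht
  have h3 := sig_pos (φ := φ) hl he z
  rw [Frame.eta, norm_div, div_pow, ← mul_div_assoc, div_le_one (by positivity)]
  refine le_trans (mul_le_mul_of_nonneg_left ?_ (by positivity)) h2
  rw [Frame.q]
  linarith

lemma norm_eth_eta_le (h : Eig F V lam φ) (hl : 0 < lam) (he : 0 < eps) (hL : 1 ≤ L)
    (ht : 1 ≤ F.tt lam eps L φ z) :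
    ‖F.eth (-1) (F.eta φ) z‖ ≤ (1 + F.g2 lam eps L φ z / lam) / L := by
  have hp := p_ne_zero hl he hL (one_pos.trans_le ht)
  have h1 := norm_pos_iff.2 hp
  have h2 := wave_q_le hl he hL ht
  have h3 := sig_pos (φ := φ) hl he z
  have h4 := F.Q_pos (φ := φ) hl he hL z
  have h5 : F.Q lam eps L φ z ≤ 2 * ‖F.p φ z‖ ^ 2 := by rw [Frame.Q]; linarith
  have h6 := F.g2_nonneg (φ := φ) (eps := eps) (L := L) hl z
  have h7 : (‖F.eth (-1) (F.eta φ) z‖ * L) ^ 2 ≤ 4 * (F.g2 lam eps L φ z / lam) := by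
    rw [h.eth_eta hp, norm_div, norm_pow, norm_sub_rev, Frame.g2]
    have h8 : F.Q lam eps L φ z ^ 2 ≤ (2 * ‖F.p φ z‖ ^ 2) ^ 2 := by gcongr
    calc _ = 4 * (L ^ 2 * lam * (‖F.r φ z * F.f φ z - F.p φ z ^ 2‖ ^ 2 + 0) /
          (2 * ‖F.p φ z‖ ^ 2) ^ 2 / lam) := by field_simp; ring
      _ ≤ _ := by gcongr; positivity
  rw [le_div_iff₀ (by linarith)]
  refine wave_le (by positivity) (h7.trans ?_)
  nlinarith [sq_nonneg (1 - F.g2 lam eps L φ z / lam)]

lemma mm_lower (hl : 0 < lam) (he : 0 < eps) (hL : 1 ≤ L) (ht : 1 ≤ F.tt lam eps L φ z)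
    {T1 : ℝ} (hT1 : 2 * T1 < L ^ 2) (hg : F.g1 lam eps φ z ≤ T1 * lam) :
    1 ≤ (3 + 16 * T1) * ‖F.mm eps φ z‖ ^ 2 := by
  have h1 := norm_pos_iff.2 (p_ne_zero hl he hL (one_pos.trans_le ht))
  have h2 := wave_q_le hl he hL ht
  have h3 := sig_pos (φ := φ) hl he z
  have h4 := F.q_pos (φ := φ) hl he z
  have h5 := wave_NN_pos (F := F) (φ := φ) he z
  have hq : F.q lam eps φ z = ‖F.f φ z‖ ^ 2 + sig lam eps φ z := rfl
  have hT : 0 ≤ T1 := by
    have := F.g1_nonneg (φ := φ) (eps := eps) hl z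
    nlinarith
  rw [Frame.g1, div_le_iff₀ (by positivity)] at hg
  have h6 : sig lam eps φ z ≤ ‖F.f φ z‖ ^ 2 := by
    by_contra h6
    have k1 : F.q lam eps φ z ≤ 2 * sig lam eps φ z := by linarith
    have k2 := mul_le_mul h2 k1 h4.le (by positivity)
    have k3 : 2 * T1 * (lam * F.q lam eps φ z ^ 2) < L ^ 2 * (lam * F.q lam eps φ z ^ 2) := by
      gcongr
    nlinarith
  have h7 : φ z ^ 2 + eps ^ 2 ≤ 8 * T1 * ‖F.Psi φ z‖ ^ 2 := by
    rw [Frame.Psi, norm_div, div_pow, ← mul_div_assoc, le_div_iff₀ (by positivity), norm_pow]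
    have k1 : F.q lam eps φ z ^ 2 ≤ (2 * ‖F.f φ z‖ ^ 2) ^ 2 := by gcongr; linarith
    have k2 := hg.trans (mul_le_mul_of_nonneg_left k1 (by positivity))
    rw [sig] at k2
    refine le_of_mul_le_mul_left ?_ hl
    linarith
  have h8 : (F.Psi φ z).re ^ 2 ≤ ‖F.Psi φ z‖ ^ 2 := by
    rw [← sq_abs]
    gcongr
    exact Complex.abs_re_le_norm _
  rw [wave_norm_mm he, div_pow, ← mul_div_assoc, one_le_div (by positivity), wave_NN_sq]
  nlinarith [sq_nonneg (φ z + (F.Psi φ z).re), sq_nonneg eps]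

lemma wave_ethb_le (h : Eig F V lam φ) (hz : z ∈ V) (hB : F.Bd K C) (hzK : z ∈ K)
    (hl : 16 * C ≤ lam) (he : 0 < eps) (hL : 1 ≤ L) (ht : 1 ≤ F.tt lam eps L φ z) :
    lam * ‖F.eta φ z‖ ^ 2 ≤ 1 / L ∧ ‖F.ethb (-1) (F.eta φ) z‖ ≤ 2 / L := by
  have hC := hB.one_le
  have hl0 : 0 < lam := by linarith
  have hp := p_ne_zero hl0 he hL (one_pos.trans_le ht)
  have h1 := norm_pos_iff.2 hp
  have h2 := wave_q_le hl0 he hL ht
  have h3 := norm_eta_le hl0 he hL ht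
  have h4 : lam * ‖F.eta φ z‖ ^ 2 ≤ 1 / L := by
    rw [le_div_iff₀ (by linarith)]
    have : 0 ≤ lam * ‖F.eta φ z‖ ^ 2 * L := by positivity
    nlinarith
  refine ⟨h4, ?_⟩
  rw [h.ethb_eta hz hp]
  refine (norm_sub_le _ _).trans ?_
  rw [norm_div, norm_neg, norm_mul, norm_pow, Complex.norm_real, Complex.norm_real,
    Real.norm_eq_abs, Real.norm_eq_abs]
  have h5 : |F.kap z - lam / 4| ≤ lam := by
    have := abs_le.1 (hB.kap_le z hzK)
    rw [abs_le]
    constructor <;> linarith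
  have h6 : |lam * φ z / 2| / ‖F.p φ z‖ ≤ 1 / L := by
    rw [div_le_div_iff₀ h1 (by linarith), one_mul]
    refine wave_le h1.le (le_trans ?_ h2)
    rw [mul_pow, sq_abs, Frame.q, sig]
    have : 0 ≤ L ^ 2 * lam * (‖F.f φ z‖ ^ 2 + lam * (φ z ^ 2 / 4 + eps ^ 2 / 2)) := by positivity
    nlinarith
  have h7 := mul_le_mul_of_nonneg_right h5 (sq_nonneg ‖F.eta φ z‖)
  have : 2 / L = 1 / L + 1 / L := by ring
  linarith

/-- the main pointwise inequality -/
lemma wave (h : Eig F V lam φ) (hz : z ∈ V) (hB : F.Bd K C) (hzK : z ∈ K)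
    (hl : 16 * C ≤ lam) (he : 0 < eps) (hL : 1 ≤ L) (ht : 1 ≤ F.tt lam eps L φ z)
    {θ : ℝ} (hθ : 0 < θ) :
    ‖F.mm eps φ z‖ ^ 2 - 9 * {w | 0 < φ w}.indicator 1 z - 8 * θ -
        30 * (4 / θ + 3) / L * (1 + F.g2 lam eps L φ z / lam) ≤
      (F.eta φ z * F.D (F.GG (4 / θ) eps φ) z).re := by
  have hC := hB.one_le
  have hl0 : 0 < lam := by linarith
  have hp := p_ne_zero hl0 he hL (one_pos.trans_le ht)
  have hN := wave_NN_pos (F := F) (φ := φ) he z
  have hN' : (F.NN eps φ z : ℂ) ≠ 0 := Complex.ofReal_ne_zero.2 hN.ne'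
  have hN2 := wave_NN_sq (F := F) (φ := φ) (eps := eps) z
  have hP := wave_Psi_le (F := F) (φ := φ) he z
  have hm := wave_mm_le (F := F) (φ := φ) he z
  have df := (F.sm_f h.sm).differentiable (by simp) z
  have dη := (h.smAt_eta hp).differentiableAt (by simp)
  have dΨ := (h.wave_smAt_Psi hp).differentiableAt (by simp)
  have dΨ' := diffAt_conj dΨ
  have dN := diffAt_cx ((h.wave_smAt_NN he hp).differentiableAt (by simp))
  have dm := (h.wave_smAt_mm he hp).differentiableAt (by simp)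
  have dm' := diffAt_conj dm
  have dφ := diffAt_cx (h.sm.differentiable (by simp) z)
  have eΨ : F.Psi φ z = F.f φ z * F.eta φ z := congrFun (wave_Psi_eq F φ) z
  have e1 : F.eta φ z * F.D (F.Psi φ) z = F.Psi φ z + F.Psi φ z * F.eth (-1) (F.eta φ) z := by
    have := F.eth_mul 1 (-1) df dη
    rw [add_neg_cancel, F.eth_zero, ← wave_Psi_eq] at this
    have k : F.p φ z * F.eta φ z = F.f φ z := mul_div_cancel₀ _ hp
    rw [this, eΨ]
    change F.eta φ z * (F.p φ z * _ + _) = _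
    rw [k]
    ring
  have e2 : F.D (fun w => conj (F.Psi φ w)) z = conj (-((lam * φ z / 2 : ℝ) : ℂ) * F.eta φ z +
      F.f φ z * F.ethb (-1) (F.eta φ) z) := by
    have := F.ethb_mul 1 (-1) df dη
    rw [add_neg_cancel, F.ethb_zero, ← wave_Psi_eq] at this
    rw [F.D_conj dΨ, this, h.ethb_f hz]
  have e3 : F.eta φ z * F.D (cx φ) z = F.Psi φ z / 2 := by
    rw [eΨ, Frame.f]
    ring
  set k : Pl → ℂ := fun w => cx φ w - 1 / 2 * (F.Psi φ w + conj (F.Psi φ w)) with hk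
  have ek : ∀ w, k w = ((φ w - (F.Psi φ w).re : ℝ) : ℂ) := fun w => by
    simp only [hk, cx, Complex.add_conj]
    push_cast
    ring
  have dk : DifferentiableAt ℝ k z := dφ.fun_sub ((dΨ.fun_add dΨ').const_mul _)
  have e4 : F.D k z = F.D (cx φ) z -
      1 / 2 * (F.D (F.Psi φ) z + F.D (fun w => conj (F.Psi φ w)) z) := by
    rw [hk, F.D_sub dφ ((dΨ.fun_add dΨ').const_mul _), F.D_const_mul _ (dΨ.fun_add dΨ'),
      F.D_add dΨ dΨ']
  have e5 : (fun w => cx (F.NN eps φ) w * cx (F.NN eps φ) w) =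
      fun w => (F.Psi φ w * conj (F.Psi φ w) + k w * k w) + (eps : ℂ) ^ 2 := by
    funext w
    rw [ek, Complex.mul_conj, Complex.normSq_eq_norm_sq, cx, ← sq, ← sq]
    exact_mod_cast wave_NN_sq w
  have e6 := F.D_mul dN dN
  rw [e5, F.D_add ((dΨ.fun_mul dΨ').fun_add (dk.fun_mul dk)) (differentiableAt_const _), F.D_const,
    F.D_add (dΨ.fun_mul dΨ') (dk.fun_mul dk), F.D_mul dΨ dΨ', F.D_mul dk dk, e4] at e6
  have e7 : F.D (F.mm eps φ) z = (F.D (F.Psi φ) z * F.NN eps φ z -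
      F.Psi φ z * F.D (cx (F.NN eps φ)) z) / (F.NN eps φ z : ℂ) ^ 2 := F.D_div dΨ dN hN'
  have e8 : F.D (fun w => conj (F.mm eps φ w)) z =
      (F.D (fun w => conj (F.Psi φ w)) z * F.NN eps φ z -
        conj (F.Psi φ z) * F.D (cx (F.NN eps φ)) z) / (F.NN eps φ z : ℂ) ^ 2 := by
    have : (fun w => conj (F.mm eps φ w)) = fun w => conj (F.Psi φ w) / cx (F.NN eps φ) w := by
      funext w
      rw [Frame.mm, map_div₀, Complex.conj_ofReal, cx]
    rw [this]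
    exact F.D_div dΨ' dN hN'
  have e9 : F.D (F.GG (4 / θ) eps φ) z = ((4 / θ : ℝ) : ℂ) * (F.D (F.mm eps φ) z *
      conj (F.mm eps φ z) + F.mm eps φ z * F.D (fun w => conj (F.mm eps φ w)) z) -
      (F.D (F.mm eps φ) z * F.mm eps φ z + F.mm eps φ z * F.D (F.mm eps φ) z) -
      4 * F.D (F.mm eps φ) z := by
    have : F.GG (4 / θ) eps φ = fun w => (((4 / θ : ℝ) : ℂ) * (F.mm eps φ w * conj (F.mm eps φ w)) -
        F.mm eps φ w * F.mm eps φ w) - 4 * F.mm eps φ w := by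
      funext w
      rw [Frame.GG, sq]
    rw [this, F.D_sub (((dm.fun_mul dm').const_mul _).fun_sub (dm.fun_mul dm)) (dm.const_mul _),
      F.D_sub ((dm.fun_mul dm').const_mul _) (dm.fun_mul dm), F.D_const_mul _ (dm.fun_mul dm'),
      F.D_const_mul _ dm, F.D_mul dm dm', F.D_mul dm dm]
  have hre := Complex.abs_re_le_norm (F.Psi φ z)
  have hkN : |φ z - (F.Psi φ z).re| ≤ F.NN eps φ z :=
    wave_le hN.le (by rw [sq_abs, hN2]; nlinarith)
  obtain ⟨b1, b2⟩ := h.wave_ethb_le hz hB hzK hl he hL ht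
  have b3 := h.norm_eth_eta_le hl0 he hL ht
  have b4 : 0 ≤ F.g2 lam eps L φ z / lam := div_nonneg (F.g2_nonneg hl0 z) hl0.le
  have b5 : ‖F.eta φ z * F.D (fun w => conj (F.Psi φ w)) z / F.NN eps φ z‖ ≤ 3 / L := by
    rw [norm_div, Complex.norm_real, Real.norm_of_nonneg hN.le, div_le_iff₀ hN, e2, norm_mul,
      Complex.norm_conj, ← norm_mul, mul_add, ← mul_assoc (F.eta φ z) (F.f φ z),
      mul_comm (F.eta φ z) (F.f φ z), ← eΨ]
    refine (norm_add_le _ _).trans ?_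
    rw [norm_mul, norm_mul, norm_mul, norm_neg, Complex.norm_real, Real.norm_eq_abs, abs_div,
      abs_mul, abs_of_pos hl0, abs_two]
    have k1 : |φ z| / 2 ≤ F.NN eps φ z := by
      have := abs_sub_abs_le_abs_sub (φ z) (F.Psi φ z).re
      linarith
    have k2 := mul_le_mul b1 k1 (by positivity) (by positivity)
    have k3 := mul_le_mul hP b2 (norm_nonneg _) hN.le
    have : 3 / L * F.NN eps φ z = 1 / L * F.NN eps φ z + F.NN eps φ z * (2 / L) := by ring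
    linarith
  have b6 : ‖F.mm eps φ z * F.eth (-1) (F.eta φ) z‖ ≤ (1 + F.g2 lam eps L φ z / lam) / L := by
    rw [norm_mul]
    exact (mul_le_of_le_one_left (norm_nonneg _) hm).trans b3
  have key := wave_alg (T := 4 / θ) (k := k z / F.NN eps φ z) (by positivity) hm
    (by rw [ek, norm_div, Complex.norm_real, Complex.norm_real, Real.norm_of_nonneg hN.le,
      div_le_one hN]; exact hkN) (add_le_add b6 b5)
    (n := F.eta φ z * F.D (cx (F.NN eps φ)) z / F.NN eps φ z)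
    (A := F.eta φ z * F.D (F.mm eps φ) z) (B := F.eta φ z * F.D (fun w => conj (F.mm eps φ w)) z)
    (by
      simp only [cx] at e6
      rw [Frame.mm, map_div₀, Complex.conj_ofReal]
      field_simp
      linear_combination (-F.eta φ z) * e6 + (conj (F.Psi φ z) - k z) * e1 + 2 * k z * e3)
    (by
      rw [e7, Frame.mm]
      field_simp
      linear_combination (F.NN eps φ z : ℂ) * e1)
    (by
      rw [e8, Frame.mm, map_div₀, Complex.conj_ofReal]
      field_simp)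
  have e10 : F.eta φ z * F.D (F.GG (4 / θ) eps φ) z = ((4 / θ : ℝ) : ℂ) *
      (F.eta φ z * F.D (F.mm eps φ) z * conj (F.mm eps φ z) +
        F.mm eps φ z * (F.eta φ z * F.D (fun w => conj (F.mm eps φ w)) z)) -
      (F.eta φ z * F.D (F.mm eps φ) z * F.mm eps φ z +
        F.mm eps φ z * (F.eta φ z * F.D (F.mm eps φ) z)) - 4 * (F.eta φ z * F.D (F.mm eps φ) z) := by
    rw [e9]
    ring
  rw [e10]
  refine le_trans ?_ key
  have b7 : 4 * ((1 + F.g2 lam eps L φ z / lam) / L + 3 / L) * (4 / θ + 3) ≤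
      30 * (4 / θ + 3) / L * (1 + F.g2 lam eps L φ z / lam) := by
    have k1 : 0 ≤ (4 / θ + 3) / L := by positivity
    have k2 := mul_nonneg k1 b4
    have k3 : 30 * (4 / θ + 3) / L * (1 + F.g2 lam eps L φ z / lam) -
        4 * ((1 + F.g2 lam eps L φ z / lam) / L + 3 / L) * (4 / θ + 3) =
        14 * ((4 / θ + 3) / L) + 26 * ((4 / θ + 3) / L * (F.g2 lam eps L φ z / lam)) := by ring
    linarith
  obtain ⟨m1, m2⟩ := wave_main (r2 := ‖F.mm eps φ z‖ ^ 2) (x := (F.mm eps φ z).re) hθ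
    (by nlinarith [norm_nonneg (F.mm eps φ z)])
    (by rw [← sq_abs]; gcongr; exact Complex.abs_re_le_norm _)
  by_cases hφ : 0 < φ z
  · rw [indicator_of_mem (s := {w | 0 < φ w}) hφ, Pi.one_apply]
    linarith
  · rw [indicator_of_notMem (s := {w | 0 < φ w}) hφ]
    have := m2 fun hx => by
      rw [Frame.mm, Complex.div_ofReal_re] at hx
      have k1 := (div_pos_iff_of_pos_right hN).1 hx
      rw [wave_norm_mm he, Frame.mm, Complex.div_ofReal_re, div_pow, div_pow, le_sub_iff_add_le,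
        ← add_div, div_le_one (by positivity), hN2]
      nlinarith [sq_nonneg eps, sq_nonneg (φ z)]
    linarith

end Eig

end Pool.Agent.P.MP_177f55_an
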