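import Pool.Agent.P.MP_177f55_an.Green
import Pool.Agent.P.MP_177f55_an.Second
import Pool.Agent.P.MP_177f55_an.Wave

/-! The case where the high frequency region is large. -/

open MeasureTheory Set Filter Topology
open scoped ContDiff ComplexConjugate NNReal ENNReal

noncomputable section

namespace Pool.Agent.P.MP_177f55_an

/-- the cutoff in the frequency variable -/
def caseii_cL (F : Frame) (lam eps L : ℝ) (φ : Pl → ℝ) (z : Pl) : ℝ :=
  Real.smoothTransition (F.tt lam eps L φ z - 1)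

/-- the vector field to which the divergence theorem is applied -/
def caseii_W (F : Frame) (χ : Pl → ℝ) (T lam eps L : ℝ) (φ : Pl → ℝ) (z : Pl) : ℂ :=
  (cx χ z * cx (caseii_cL F lam eps L φ) z) * (F.GG T eps φ z * F.eta φ z)

section

variable {F : Frame} {V : Set Pl} {χ φ : Pl → ℝ} {T lam eps L C : ℝ} {z : Pl}

lemma caseii_sm_cL (h : ContDiff ℝ ∞ φ) (hl : 0 < lam) (he : 0 < eps) (hL : 1 ≤ L) :
    ContDiff ℝ ∞ (caseii_cL F lam eps L φ) :=
  Real.smoothTransition.contDiff.comp ((F.sm_tt h hl he hL).sub contDiff_const)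

lemma caseii_W_ev_of_lt (h : ContDiff ℝ ∞ φ) (hl : 0 < lam) (he : 0 < eps) (hL : 1 ≤ L)
    (ht : F.tt lam eps L φ z < 1) : caseii_W F χ T lam eps L φ =ᶠ[𝓝 z] fun _ => 0 := by
  have hc : Continuous (F.tt lam eps L φ) := (F.sm_tt h hl he hL).continuous
  have : ∀ᶠ w in 𝓝 z, F.tt lam eps L φ w < 1 :=
    hc.continuousAt.eventually (gt_mem_nhds ht)
  filter_upwards [this] with w hw
  have : caseii_cL F lam eps L φ w = 0 := Real.smoothTransition.zero_of_nonpos (by linarith)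
  simp [caseii_W, cx, this]

lemma caseii_W_ev_of_notMem (hz : z ∉ tsupport χ) :
    caseii_W F χ T lam eps L φ =ᶠ[𝓝 z] fun _ => 0 := by
  have : χ =ᶠ[𝓝 z] 0 := notMem_tsupport_iff_eventuallyEq.1 hz
  filter_upwards [this] with w hw
  simp [caseii_W, cx, hw]

lemma caseii_sm_W (hχ : Cut V χ) (h : Eig F V lam φ) (hl : 0 < lam) (he : 0 < eps)
    (hL : 1 ≤ L) : ContDiff ℝ ∞ (caseii_W F χ T lam eps L φ) := by
  rw [contDiff_iff_contDiffAt]
  intro z
  by_cases ht : F.tt lam eps L φ z < 1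
  · exact contDiffAt_const.congr_of_eventuallyEq (caseii_W_ev_of_lt h.sm hl he hL ht)
  · have hp : F.p φ z ≠ 0 := Eig.p_ne_zero hl he hL (by linarith [not_lt.1 ht])
    exact ((sm_cx hχ.sm).contDiffAt.mul (sm_cx (caseii_sm_cL h.sm hl he hL)).contDiffAt).mul
      ((h.smAt_GG he T hp).mul (h.smAt_eta hp))

lemma caseii_cpt_W (hχ : Cut V χ) : HasCompactSupport (caseii_W F χ T lam eps L φ) := by
  refine HasCompactSupport.intro hχ.cpt ?_
  intro z hz
  exact (caseii_W_ev_of_notMem hz).self_of_nhds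

lemma caseii_eth_zero {W : Pl → ℂ} (hW : W =ᶠ[𝓝 z] fun _ => 0) : F.eth (-1) W z = 0 := by
  rw [(F.eth_evEq (-1) hW).self_of_nhds]
  simp [Frame.eth, F.D_const]

lemma caseii_diff {G : Pl → ℂ} (h : ContDiffAt ℝ ∞ G z) : DifferentiableAt ℝ G z :=
  h.differentiableAt (by simp)

lemma caseii_eth_W (hχ : Cut V χ) (h : Eig F V lam φ) (hl : 0 < lam) (he : 0 < eps)
    (hL : 1 ≤ L) (hp : F.p φ z ≠ 0) :
    F.eth (-1) (caseii_W F χ T lam eps L φ) z =
      ((χ z * caseii_cL F lam eps L φ z : ℝ) : ℂ) * (F.eta φ z * F.D (F.GG T eps φ) z) +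
      (F.D (cx χ) z * ((caseii_cL F lam eps L φ z : ℝ) : ℂ) * F.GG T eps φ z * F.eta φ z +
      ((χ z * deriv Real.smoothTransition (F.tt lam eps L φ z - 1) : ℝ) : ℂ) * F.GG T eps φ z *
        (F.D (cx (F.tt lam eps L φ)) z * F.eta φ z) +
      ((χ z * caseii_cL F lam eps L φ z : ℝ) : ℂ) * F.GG T eps φ z * F.eth (-1) (F.eta φ) z) := by
  have d1 : DifferentiableAt ℝ (cx χ) z := caseii_diff (sm_cx hχ.sm).contDiffAt
  have d2 : DifferentiableAt ℝ (cx (caseii_cL F lam eps L φ)) z :=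
    caseii_diff (sm_cx (caseii_sm_cL h.sm hl he hL)).contDiffAt
  have d3 : DifferentiableAt ℝ (F.GG T eps φ) z := caseii_diff (h.smAt_GG he T hp)
  have d4 : DifferentiableAt ℝ (F.eta φ) z := caseii_diff (h.smAt_eta hp)
  have d5 : DifferentiableAt ℝ (F.tt lam eps L φ) z :=
    (F.sm_tt h.sm hl he hL).contDiffAt.differentiableAt (by simp)
  have e1 := F.eth_mul 0 (-1) (d1.mul d2) (d3.mul d4)
  have e2 := F.eth_mul 0 (-1) d3 d4
  have e3 := F.D_mul d1 d2
  have hd : HasDerivAt (fun t : ℝ => Real.smoothTransition (t - 1))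
      (deriv Real.smoothTransition (F.tt lam eps L φ z - 1)) (F.tt lam eps L φ z) := by
    have h1 : HasDerivAt Real.smoothTransition
        (deriv Real.smoothTransition (F.tt lam eps L φ z - 1)) (F.tt lam eps L φ z - 1) :=
      ((Real.smoothTransition.contDiffAt (n := 1)).differentiableAt (by simp)).hasDerivAt
    exact h1.comp_sub_const _ _
  have e4 := F.D_cx_comp hd d5
  rw [zero_add] at e1 e2
  rw [F.eth_zero] at e1 e2
  have e5 : F.D (cx (caseii_cL F lam eps L φ)) z =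
      (deriv Real.smoothTransition (F.tt lam eps L φ z - 1) : ℝ) *
        F.D (cx (F.tt lam eps L φ)) z := e4
  have e6 : F.eth (-1) (caseii_W F χ T lam eps L φ) z =
      F.D (fun w => cx χ w * cx (caseii_cL F lam eps L φ) w) z * (F.GG T eps φ z * F.eta φ z) +
        (cx χ z * cx (caseii_cL F lam eps L φ) z) *
          F.eth (-1) (fun w => F.GG T eps φ w * F.eta φ w) z := e1
  rw [e6, e2, e3, e5]
  simp only [cx]
  push_cast
  ring

end

/-- the pointwise inequality -/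
lemma caseii_point {F : Frame} {V : Set Pl} {χ φ : Pl → ℝ} {lam eps L C Cχ Cs θ T1 : ℝ}
    (hχ : Cut V χ) (h : Eig F V lam φ) (hB : F.Bd (tsupport χ) C)
    (hCχ : ∀ z ∈ tsupport χ, ‖F.D (cx χ) z‖ ≤ Cχ) (hCχ0 : 0 ≤ Cχ) (hCs0 : 1 ≤ Cs)
    (hCs : ∀ t : ℝ, |deriv Real.smoothTransition t| ≤ Cs ∧
      ((t < 0 ∨ 1 < t) → deriv Real.smoothTransition t = 0))
    (hl : 16 * C ≤ lam) (he : 0 < eps) (hL : 1 ≤ L) (hθ : 0 < θ) (hT0 : 0 < T1)
    (hT1 : 2 * T1 < L ^ 2) (z : Pl) :
    (1 / (3 + 16 * T1)) * ((F.A lam eps L φ).indicator 1 z * χ z) -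
      (1 / (3 + 16 * T1)) / (lam * T1) * (χ z * F.g1 lam eps φ z) -
      9 * ({w | 0 < φ w} ∩ tsupport χ).indicator 1 z -
      (8 * θ + ((Cχ + 18 * Cs + 31) * (4 / θ + 5)) / L) * (F.S φ ∩ tsupport χ).indicator 1 z -
      ((Cχ + 18 * Cs + 31) * (4 / θ + 5)) / L / lam * (χ z * F.g2 lam eps L φ z) ≤
      (F.eth (-1) (caseii_W F χ (4 / θ) lam eps L φ) z).re := by
  have hC1 := hB.one_le
  have hl1 : 1 ≤ lam := by linarith
  have hl0 : 0 < lam := by linarith
  have hL0 : 0 < L := by linarith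
  have hu : 0 < 1 / (3 + 16 * T1) := by positivity
  have hT : 0 < 4 / θ := by positivity
  have hg1 := F.g1_nonneg (eps := eps) (φ := φ) hl0 z
  have hg2 := F.g2_nonneg (eps := eps) (L := L) (φ := φ) hl0 z
  have hχ0 := hχ.nonneg z
  have hχ1 := hχ.le_one z
  have hi1 : (0 : ℝ) ≤ ({w | 0 < φ w} ∩ tsupport χ).indicator 1 z :=
    indicator_nonneg (fun _ _ => zero_le_one) z
  have hi2 : (0 : ℝ) ≤ (F.S φ ∩ tsupport χ).indicator 1 z :=
    indicator_nonneg (fun _ _ => zero_le_one) z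
  set C' : ℝ := (Cχ + 18 * Cs + 31) * (4 / θ + 5) with hC'
  have hC'0 : 0 ≤ C' := by positivity
  have n1 : 0 ≤ (1 / (3 + 16 * T1)) / (lam * T1) * (χ z * F.g1 lam eps φ z) := by positivity
  have n2 : 0 ≤ (8 * θ + C' / L) * (F.S φ ∩ tsupport χ).indicator (1 : Pl → ℝ) z := by positivity
  have n3 : 0 ≤ C' / L / lam * (χ z * F.g2 lam eps L φ z) := by positivity
  by_cases hz : z ∈ tsupport χ
  swap
  · rw [caseii_eth_zero (caseii_W_ev_of_notMem hz)]
    have : χ z = 0 := image_eq_zero_of_notMem_tsupport hz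
    have e : (1 / (3 + 16 * T1)) * ((F.A lam eps L φ).indicator 1 z * χ z) = 0 := by
      rw [this]; simp
    rw [e, Complex.zero_re]
    linarith
  by_cases ht : F.tt lam eps L φ z < 1
  · rw [caseii_eth_zero (caseii_W_ev_of_lt h.sm hl0 he hL ht)]
    have : z ∉ F.A lam eps L φ := by
      simp only [Frame.A, mem_ofPred_eq]; linarith
    have e : (1 / (3 + 16 * T1)) * ((F.A lam eps L φ).indicator 1 z * χ z) = 0 := by
      rw [indicator_of_notMem this]; simp
    rw [e, Complex.zero_re]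
    linarith
  replace ht : 1 ≤ F.tt lam eps L φ z := not_lt.1 ht
  have hp : F.p φ z ≠ 0 := Eig.p_ne_zero hl0 he hL (by linarith)
  have hzV : z ∈ V := hχ.sub hz
  have hS : (F.S φ ∩ tsupport χ).indicator (1 : Pl → ℝ) z = 1 := by
    rw [indicator_of_mem (show z ∈ F.S φ ∩ tsupport χ from ⟨Or.inr (Or.inr hp), hz⟩)]; rfl
  rw [caseii_eth_W hχ h hl0 he hL hp, hS]
  set cL := caseii_cL F lam eps L φ z with hcL
  have hc0 : 0 ≤ cL := Real.smoothTransition.nonneg _
  have hc1 : cL ≤ 1 := Real.smoothTransition.le_one _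
  set G := F.GG (4 / θ) eps φ z
  set η := F.eta φ z
  set g := F.g2 lam eps L φ z / lam with hg
  have hg0 : 0 ≤ g := by positivity
  have hG : ‖G‖ ≤ 4 / θ + 5 := Eig.norm_GG_le he hT.le
  have hη2 : L ^ 2 * lam * ‖η‖ ^ 2 ≤ 1 := Eig.norm_eta_le hl0 he hL ht
  have hη : ‖η‖ ≤ 1 / L := by
    rw [le_div_iff₀ hL0]
    have h1 : (‖η‖ * L) ^ 2 ≤ 1 ^ 2 := by
      have : (‖η‖ * L) ^ 2 * 1 ≤ (‖η‖ * L) ^ 2 * lam := by gcongr
      linarith
    exact le_of_sq_le_sq h1 zero_le_one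
  have hE : ‖F.eth (-1) (F.eta φ) z‖ ≤ (1 + g) / L := h.norm_eth_eta_le hl0 he hL ht
  -- the three error terms
  have b1 : ‖F.D (cx χ) z * (cL : ℂ) * G * η‖ ≤ Cχ * (4 / θ + 5) / L := by
    rw [norm_mul, norm_mul, norm_mul, Complex.norm_real, Real.norm_eq_abs, abs_of_nonneg hc0]
    calc ‖F.D (cx χ) z‖ * cL * ‖G‖ * ‖η‖ ≤ Cχ * 1 * (4 / θ + 5) * (1 / L) := by
          gcongr
          exact hCχ z hz
      _ = Cχ * (4 / θ + 5) / L := by ring
  have b2 : ‖((χ z * deriv Real.smoothTransition (F.tt lam eps L φ z - 1) : ℝ) : ℂ) * G *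
      (F.D (cx (F.tt lam eps L φ)) z * η)‖ ≤ χ z * Cs * (4 / θ + 5) * (18 * (1 + g) / L) := by
    by_cases h2 : 2 < F.tt lam eps L φ z
    · rw [(hCs _).2 (Or.inr (by linarith))]
      simp only [mul_zero, Complex.ofReal_zero, zero_mul, norm_zero]
      positivity
    · have hD := h.norm_D_tt hzV hB hz hl he hL (by linarith [not_lt.1 h2])
      have h3 : ‖F.D (cx (F.tt lam eps L φ)) z * η‖ ≤ 18 * (1 + g) / L := by
        rw [norm_mul, le_div_iff₀ hL0]
        apply le_of_sq_le_sq _ (by positivity)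
        have e1 : F.g2 lam eps L φ z + lam = lam * (1 + g) := by
          rw [hg]; field_simp; ring
        rw [e1] at hD
        calc (‖F.D (cx (F.tt lam eps L φ)) z‖ * ‖η‖ * L) ^ 2
            = ‖F.D (cx (F.tt lam eps L φ)) z‖ ^ 2 * (‖η‖ * L) ^ 2 := by ring
          _ ≤ 300 * (lam * (1 + g)) * (‖η‖ * L) ^ 2 := by gcongr
          _ = 300 * (1 + g) * (L ^ 2 * lam * ‖η‖ ^ 2) := by ring
          _ ≤ 300 * (1 + g) * 1 := by gcongr
          _ ≤ (18 * (1 + g)) ^ 2 := by linarith [sq_nonneg g]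
      rw [norm_mul, norm_mul, Complex.norm_real, Real.norm_eq_abs, abs_mul, abs_of_nonneg hχ0]
      gcongr
      exact (hCs _).1
  have b3 : ‖((χ z * cL : ℝ) : ℂ) * G * F.eth (-1) (F.eta φ) z‖ ≤
      χ z * 1 * (4 / θ + 5) * ((1 + g) / L) := by
    rw [norm_mul, norm_mul, Complex.norm_real, Real.norm_eq_abs,
      abs_of_nonneg (mul_nonneg hχ0 hc0)]
    gcongr
  have hw := h.wave hzV hB hz hl he hL ht hθ
  -- the main term
  have hm : (1 / (3 + 16 * T1)) * ((F.A lam eps L φ).indicator 1 z * χ z) -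
      (1 / (3 + 16 * T1)) / (lam * T1) * (χ z * F.g1 lam eps φ z) ≤
      χ z * cL * ‖F.mm eps φ z‖ ^ 2 := by
    have hA : (F.A lam eps L φ).indicator (1 : Pl → ℝ) z ≤ cL := by
      by_cases hzA : z ∈ F.A lam eps L φ
      · rw [indicator_of_mem hzA]
        have : cL = 1 := Real.smoothTransition.one_of_one_le (by
          have : 2 ≤ F.tt lam eps L φ z := hzA
          linarith)
        rw [this]; rfl
      · rw [indicator_of_notMem hzA]; exact hc0
    by_cases hg1' : F.g1 lam eps φ z ≤ T1 * lam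
    · have h1 := Eig.mm_lower hl0 he hL ht hT1 hg1'
      have h2 : 1 / (3 + 16 * T1) ≤ ‖F.mm eps φ z‖ ^ 2 := by
        rw [div_le_iff₀ (by positivity)]; linarith
      have h3 : (1 / (3 + 16 * T1)) * ((F.A lam eps L φ).indicator 1 z * χ z) ≤
          ‖F.mm eps φ z‖ ^ 2 * (cL * χ z) := by
        have : (0 : ℝ) ≤ (F.A lam eps L φ).indicator 1 z :=
          indicator_nonneg (fun _ _ => zero_le_one) z
        gcongr
      linarith
    · have h1 : T1 * lam ≤ F.g1 lam eps φ z := (not_le.1 hg1').le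
      have h2 : (1 / (3 + 16 * T1)) * (1 * χ z) ≤
          (1 / (3 + 16 * T1)) / (lam * T1) * (χ z * F.g1 lam eps φ z) := by
        calc (1 / (3 + 16 * T1)) * (1 * χ z)
            = (1 / (3 + 16 * T1)) / (lam * T1) * (χ z * (T1 * lam)) := by
              field_simp
          _ ≤ _ := by gcongr
      have h3 : (1 / (3 + 16 * T1)) * ((F.A lam eps L φ).indicator 1 z * χ z) ≤
          (1 / (3 + 16 * T1)) * (1 * χ z) := by
        gcongr
        linarith
      have h4 : 0 ≤ χ z * cL * ‖F.mm eps φ z‖ ^ 2 := by positivity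
      linarith
  have hP : χ z * cL * ({w | 0 < φ w}.indicator (1 : Pl → ℝ) z) ≤
      ({w | 0 < φ w} ∩ tsupport χ).indicator 1 z := by
    by_cases hzP : z ∈ {w | 0 < φ w}
    · rw [indicator_of_mem hzP, indicator_of_mem (show z ∈ _ ∩ _ from ⟨hzP, hz⟩)]
      simp only [Pi.one_apply, mul_one]
      exact mul_le_one₀ hχ1 hc0 hc1
    · rw [indicator_of_notMem hzP, mul_zero]; exact hi1
  have hcc0 : 0 ≤ χ z * cL := mul_nonneg hχ0 hc0
  have hcc1 : χ z * cL ≤ χ z := mul_le_of_le_one_right hχ0 hc1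
  have hmain := mul_le_mul_of_nonneg_left hw hcc0
  rw [Complex.add_re, Complex.re_ofReal_mul]
  have hre : ∀ a b c : ℂ, -(‖a‖ + ‖b‖ + ‖c‖) ≤ (a + b + c).re := by
    intro a b c
    have h1 := (abs_le.1 (Complex.abs_re_le_norm (a + b + c))).1
    have h2 : ‖a + b + c‖ ≤ ‖a‖ + ‖b‖ + ‖c‖ := norm_add₃_le
    linarith
  have hre' := hre (F.D (cx χ) z * (cL : ℂ) * G * η)
    (((χ z * deriv Real.smoothTransition (F.tt lam eps L φ z - 1) : ℝ) : ℂ) * G *
      (F.D (cx (F.tt lam eps L φ)) z * η)) (((χ z * cL : ℝ) : ℂ) * G * F.eth (-1) (F.eta φ) z)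
  -- collect the errors
  set a : ℝ := (4 / θ + 5) / L with ha
  have ha0 : 0 ≤ a := by positivity
  have k1 : Cχ * (4 / θ + 5) / L = Cχ * a := by rw [ha]; ring
  have k2 : χ z * Cs * (4 / θ + 5) * (18 * (1 + g) / L) = 18 * Cs * a * (χ z + χ z * g) := by
    rw [ha]; ring
  have k3 : χ z * 1 * (4 / θ + 5) * ((1 + g) / L) = a * (χ z + χ z * g) := by rw [ha]; ring
  have k4 : C' / L = (Cχ + 18 * Cs + 31) * a := by rw [ha, hC']; ring
  have k5 : C' / L / lam * (χ z * F.g2 lam eps L φ z) = (Cχ + 18 * Cs + 31) * a * (χ z * g) := by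
    rw [k4, hg]; ring
  have k6 : χ z * cL * (30 * (4 / θ + 3) / L * (1 + g)) ≤ 30 * a * (1 + χ z * g) := by
    have h1 : 30 * (4 / θ + 3) / L ≤ 30 * a := by
      rw [ha, mul_div_assoc]; gcongr; norm_num
    have h2 : χ z * cL * (1 + g) ≤ 1 + χ z * g := by
      have := mul_le_mul_of_nonneg_right hcc1 hg0
      linarith
    calc χ z * cL * (30 * (4 / θ + 3) / L * (1 + g))
        = 30 * (4 / θ + 3) / L * (χ z * cL * (1 + g)) := by ring
      _ ≤ 30 * a * (1 + χ z * g) := by gcongr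
  have k7 : χ z * cL * (8 * θ) ≤ 8 * θ :=
    mul_le_of_le_one_left (by positivity) (hcc1.trans hχ1)
  have hxg : 0 ≤ χ z * g := mul_nonneg hχ0 hg0
  have k8 : 18 * Cs * a * (χ z + χ z * g) ≤ 18 * Cs * a * (1 + χ z * g) := by gcongr
  have k9 : a * (χ z + χ z * g) ≤ a * (1 + χ z * g) := by gcongr
  have k10 : 0 ≤ Cχ * a * (χ z * g) := by positivity
  rw [k1] at b1
  rw [k2] at b2
  rw [k3] at b3
  rw [k5, k4]
  linarith

theorem caseII (F : Frame) {V : Set Pl} {χ : Pl → ℝ} (hχ : Cut V χ) {C0 c1 : ℝ} (hC0 : 0 < C0)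
    (hc1 : 0 < c1) : ∃ L : ℝ, 1 ≤ L ∧ ∃ c : ℝ, 0 < c ∧ ∃ lam0 : ℝ, ∀ lam, lam0 ≤ lam →
      ∀ φ, Eig F V lam φ → ∀ s eps : ℝ, 0 < eps →
        volume.real (F.S φ ∩ tsupport χ) ≤ s →
        ∫ z, χ z * F.g1 lam eps φ z * F.rho z ≤ C0 * lam * s →
        ∫ z, χ z * F.g2 lam eps L φ z * F.rho z ≤ C0 * lam * s →
        c1 * s ≤ ∫ z in F.A lam eps L φ, χ z * F.rho z →
        c * s ≤ volume.real ({z | 0 < φ z} ∩ tsupport χ) := by
  have hK : IsCompact (tsupport χ) := hχ.cpt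
  obtain ⟨C, hB⟩ := F.exists_bd hK
  have hC1 := hB.one_le
  obtain ⟨Cχ', hCχ'⟩ := hK.exists_bound_of_continuousOn
    (F.sm_D (sm_cx hχ.sm)).continuous.continuousOn
  set Cχ : ℝ := max Cχ' 0 with hCχdef
  have hCχ : ∀ z ∈ tsupport χ, ‖F.D (cx χ) z‖ ≤ Cχ := fun z hz =>
    (hCχ' z hz).trans (le_max_left _ _)
  have hCχ0 : 0 ≤ Cχ := le_max_right _ _
  obtain ⟨Cs, hCs0, hCs⟩ := exists_step_bound
  set T1 : ℝ := 2 * C0 / c1 with hT1def
  have hT0 : 0 < T1 := by positivity
  set u : ℝ := 1 / (3 + 16 * T1) with hudef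
  have hu : 0 < u := by positivity
  set c2 : ℝ := c1 * u / 2 with hc2def
  have hc2 : 0 < c2 := by positivity
  set θ : ℝ := c2 / (32 * C) with hθdef
  have hθ : 0 < θ := by positivity
  set C' : ℝ := (Cχ + 18 * Cs + 31) * (4 / θ + 5) with hC'
  have hC'0 : 0 ≤ C' := by positivity
  set L : ℝ := 1 + 2 * T1 + 4 * C' * (C + C0) / c2 with hLdef
  have hLa : 0 ≤ 4 * C' * (C + C0) / c2 := by positivity
  have hL : 1 ≤ L := by linarith
  have hL0 : 0 < L := by linarith
  have hT1 : 2 * T1 < L ^ 2 := by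
    have h1 : L * 1 ≤ L * L := by gcongr
    linarith
  have hLb : C' / L * (C + C0) ≤ c2 / 4 := by
    have h1 : 4 * C' * (C + C0) / c2 ≤ L := by linarith
    rw [div_le_iff₀ hc2] at h1
    rw [div_mul_eq_mul_div, div_le_iff₀ hL0]
    linarith
  refine ⟨L, hL, c2 / (18 * C), by positivity, 16 * C, ?_⟩
  intro lam hl φ h s eps he hs hg1 hg2 hA
  have hl0 : 0 < lam := by linarith
  have hs0 : 0 ≤ s := le_trans measureReal_nonneg hs
  set W := caseii_W F χ (4 / θ) lam eps L φ with hW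
  have hWs : ContDiff ℝ ∞ W := caseii_sm_W hχ h hl0 he hL
  have hI := F.integral_eth hWs (caseii_cpt_W hχ)
  have hrc : Continuous F.rho := F.srho.continuous
  -- integrability
  have cpt : ∀ g : Pl → ℝ, Continuous g → (∀ z ∉ tsupport χ, g z = 0) → Integrable g :=
    fun g hg h0 => hg.integrable_of_hasCompactSupport (HasCompactSupport.intro hK h0)
  have hχz : ∀ z ∉ tsupport χ, χ z = 0 := fun z hz => image_eq_zero_of_notMem_tsupport hz
  have iW : Integrable fun z => F.eth (-1) W z * (F.rho z : ℂ) := by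
    refine Continuous.integrable_of_hasCompactSupport
      ((F.sm_eth (-1) hWs).continuous.mul (Complex.continuous_ofReal.comp hrc))
      (HasCompactSupport.intro hK ?_)
    intro z hz
    rw [hW, caseii_eth_zero (caseii_W_ev_of_notMem hz), zero_mul]
  have hre : ∫ z, (F.eth (-1) W z).re * F.rho z = 0 := by
    have h1 := integral_re iW
    rw [hI] at h1
    simpa using h1
  have iR : Integrable fun z => (F.eth (-1) W z).re * F.rho z := by
    have := iW.re
    simpa using this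
  have mA : MeasurableSet (F.A lam eps L φ) := (F.isClosed_A h.sm hl0 he hL).measurableSet
  have mP : MeasurableSet ({w | 0 < φ w} ∩ tsupport χ) :=
    (isOpen_lt continuous_const h.sm.continuous).measurableSet.inter hK.measurableSet
  have mS : MeasurableSet (F.S φ ∩ tsupport χ) :=
    (F.isOpen_S h.sm).measurableSet.inter hK.measurableSet
  have fP : volume ({w | 0 < φ w} ∩ tsupport χ) ≠ ⊤ :=
    ((measure_mono inter_subset_right).trans_lt hK.measure_lt_top).ne
  have fS : volume (F.S φ ∩ tsupport χ) ≠ ⊤ :=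
    ((measure_mono inter_subset_right).trans_lt hK.measure_lt_top).ne
  have i0 : Integrable fun z => χ z * F.rho z :=
    cpt _ (hχ.sm.continuous.mul hrc) (fun z hz => by rw [hχz z hz, zero_mul])
  have i1 : Integrable ((F.A lam eps L φ).indicator fun z => χ z * F.rho z) := i0.indicator mA
  have i2 : Integrable fun z => χ z * F.g1 lam eps φ z * F.rho z :=
    cpt _ ((hχ.sm.continuous.mul (F.sm_g1 h.sm hl0 he).continuous).mul hrc)
      (fun z hz => by rw [hχz z hz, zero_mul, zero_mul])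
  have i5 : Integrable fun z => χ z * F.g2 lam eps L φ z * F.rho z :=
    cpt _ ((hχ.sm.continuous.mul (F.sm_g2 h.sm hl0 he hL).continuous).mul hrc)
      (fun z hz => by rw [hχz z hz, zero_mul, zero_mul])
  have i3 : Integrable (({w | 0 < φ w} ∩ tsupport χ).indicator (1 : Pl → ℝ)) :=
    (integrable_indicator_iff mP).2 (integrableOn_const fP)
  have i4 : Integrable ((F.S φ ∩ tsupport χ).indicator (1 : Pl → ℝ)) :=
    (integrable_indicator_iff mS).2 (integrableOn_const fS)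
  have hind : ∀ (B : Set Pl) (z : Pl),
      (B ∩ tsupport χ).indicator (1 : Pl → ℝ) z * F.rho z ≤
        C * (B ∩ tsupport χ).indicator (1 : Pl → ℝ) z := by
    intro B z
    by_cases hz : z ∈ B ∩ tsupport χ
    · rw [indicator_of_mem hz]
      simpa using hB.rho_le z hz.2
    · rw [indicator_of_notMem hz]; simp
  have hpt : ∀ z, u * (F.A lam eps L φ).indicator (fun z => χ z * F.rho z) z -
      u / (lam * T1) * (χ z * F.g1 lam eps φ z * F.rho z) -
      9 * C * ({w | 0 < φ w} ∩ tsupport χ).indicator (1 : Pl → ℝ) z -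
      (8 * θ + C' / L) * C * (F.S φ ∩ tsupport χ).indicator (1 : Pl → ℝ) z -
      C' / L / lam * (χ z * F.g2 lam eps L φ z * F.rho z) ≤ (F.eth (-1) W z).re * F.rho z := by
    intro z
    have h1 := caseii_point hχ h hB hCχ hCχ0 hCs0 hCs hl he hL hθ hT0 hT1 z
    have h2 := mul_le_mul_of_nonneg_right h1 (F.rho_pos z).le
    have h3 := hind {w | 0 < φ w} z
    have h4 := mul_le_mul_of_nonneg_left (hind (F.S φ) z)
      (show 0 ≤ 8 * θ + C' / L by positivity)
    have h5 : (F.A lam eps L φ).indicator (fun z => χ z * F.rho z) z =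
        (F.A lam eps L φ).indicator (1 : Pl → ℝ) z * χ z * F.rho z := by
      by_cases hz : z ∈ F.A lam eps L φ
      · simp [indicator_of_mem hz]
      · simp [indicator_of_notMem hz]
    rw [h5]
    refine le_trans ?_ h2
    rw [← hudef, ← hC']
    linarith
  have hint := integral_mono (((((i1.const_mul u).sub (i2.const_mul (u / (lam * T1)))).sub
    (i3.const_mul (9 * C))).sub (i4.const_mul ((8 * θ + C' / L) * C))).sub
    (i5.const_mul (C' / L / lam))) iR hpt
  rw [hre, integral_sub' ((((i1.const_mul u).sub (i2.const_mul (u / (lam * T1)))).sub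
      (i3.const_mul (9 * C))).sub (i4.const_mul ((8 * θ + C' / L) * C)))
      (i5.const_mul (C' / L / lam)),
    integral_sub' (((i1.const_mul u).sub (i2.const_mul (u / (lam * T1)))).sub
      (i3.const_mul (9 * C))) (i4.const_mul ((8 * θ + C' / L) * C)),
    integral_sub' ((i1.const_mul u).sub (i2.const_mul (u / (lam * T1)))) (i3.const_mul (9 * C)),
    integral_sub' (i1.const_mul u) (i2.const_mul (u / (lam * T1)))] at hint
  simp only [integral_const_mul] at hint
  rw [integral_indicator mA, integral_indicator_one mP, integral_indicator_one mS] at hint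
  have j1 : u * (c1 * s) ≤ u * ∫ z in F.A lam eps L φ, χ z * F.rho z := by gcongr
  have j2 : u / (lam * T1) * ∫ z, χ z * F.g1 lam eps φ z * F.rho z ≤ c2 * s := by
    calc _ ≤ u / (lam * T1) * (C0 * lam * s) := by gcongr
      _ = c2 * s := by rw [hc2def, hT1def]; field_simp
  have j3 : (8 * θ + C' / L) * C * volume.real (F.S φ ∩ tsupport χ) ≤
      (c2 / 4 + C' / L * C) * s := by
    calc _ ≤ (8 * θ + C' / L) * C * s := by gcongr
      _ = _ := by rw [hθdef]; field_simp; ring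
  have j4 : C' / L / lam * ∫ z, χ z * F.g2 lam eps L φ z * F.rho z ≤ C' / L * C0 * s := by
    calc _ ≤ C' / L / lam * (C0 * lam * s) := by gcongr
      _ = _ := by field_simp
  have j5 : C' / L * (C + C0) * s ≤ c2 / 4 * s := by gcongr
  have j6 : u * (c1 * s) = 2 * c2 * s := by rw [hc2def]; ring
  rw [div_mul_eq_mul_div, div_le_iff₀ (by positivity)]
  linarith

end Pool.Agent.P.MP_177f55_an
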