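import Mathlib

/-! Complex frames in a planar chart and the quantities attached to an eigenfunction. -/

open MeasureTheory Set Filter Topology
open scoped ContDiff ComplexConjugate NNReal

noncomputable section

namespace Pool.Agent.P.MP_177f55_an

abbrev Pl := ℝ × ℝ

def px (G : Pl → ℂ) (z : Pl) : ℂ := fderiv ℝ G z (1, 0)
def py (G : Pl → ℂ) (z : Pl) : ℂ := fderiv ℝ G z (0, 1)
def rx (u : Pl → ℝ) (z : Pl) : ℝ := fderiv ℝ u z (1, 0)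
def ry (u : Pl → ℝ) (z : Pl) : ℝ := fderiv ℝ u z (0, 1)
def cx (u : Pl → ℝ) (z : Pl) : ℂ := (u z : ℂ)

/-- `D = a ∂x + b ∂y = (e₁ - i e₂) / 2` for an orthonormal frame, `rho` the area density -/
structure Frame where
  a : Pl → ℂ
  b : Pl → ℂ
  rho : Pl → ℝ
  sa : ContDiff ℝ ∞ a
  sb : ContDiff ℝ ∞ b
  srho : ContDiff ℝ ∞ rho
  rho_pos : ∀ z, 0 < rho z
  det : ∀ z, 4 * rho z * (conj (a z) * b z).im = -1

namespace Frame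

variable (F : Frame)

def D (G : Pl → ℂ) (z : Pl) : ℂ := F.a z * px G z + F.b z * py G z
def Db (G : Pl → ℂ) (z : Pl) : ℂ := conj (F.a z) * px G z + conj (F.b z) * py G z
def tau (z : Pl) : ℂ :=
  (px (fun w => (F.rho w : ℂ) * F.a w) z + py (fun w => (F.rho w : ℂ) * F.b w) z) / (F.rho z : ℂ)
def eth (k : ℝ) (G : Pl → ℂ) (z : Pl) : ℂ := F.D G z - (k : ℂ) * F.tau z * G z
def ethb (k : ℝ) (G : Pl → ℂ) (z : Pl) : ℂ := F.Db G z + (k : ℂ) * conj (F.tau z) * G z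
def kap (z : Pl) : ℝ := -2 * (F.Db F.tau z).re - 2 * ‖F.tau z‖ ^ 2
def lap (u : Pl → ℝ) (z : Pl) : ℝ := 4 * (F.ethb 1 (F.D (cx u)) z).re

/-- bounds for the frame on a set -/
structure Bd (K : Set Pl) (C : ℝ) : Prop where
  one_le : 1 ≤ C
  a_le : ∀ z ∈ K, ‖F.a z‖ ≤ C
  b_le : ∀ z ∈ K, ‖F.b z‖ ≤ C
  rho_le : ∀ z ∈ K, F.rho z ≤ C
  le_rho : ∀ z ∈ K, 1 ≤ C * F.rho z
  kap_le : ∀ z ∈ K, |F.kap z| ≤ C
  Dkap_le : ∀ z ∈ K, ‖F.D (cx F.kap) z‖ ≤ C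
  ea_le : ∀ z ∈ K, ‖F.ethb 1 F.a z‖ ≤ C
  eb_le : ∀ z ∈ K, ‖F.ethb 1 F.b z‖ ≤ C

def f (φ : Pl → ℝ) (z : Pl) : ℂ := 2 * F.D (cx φ) z
def p (φ : Pl → ℝ) : Pl → ℂ := F.eth 1 (F.f φ)
def r (φ : Pl → ℝ) : Pl → ℂ := F.eth 2 (F.p φ)

end Frame

def sig (lam eps : ℝ) (φ : Pl → ℝ) (z : Pl) : ℝ := lam * (φ z ^ 2 + eps ^ 2) / 2

namespace Frame

variable (F : Frame)

def q (lam eps : ℝ) (φ : Pl → ℝ) (z : Pl) : ℝ := ‖F.f φ z‖ ^ 2 + sig lam eps φ z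
def Q (lam eps L : ℝ) (φ : Pl → ℝ) (z : Pl) : ℝ :=
  ‖F.p φ z‖ ^ 2 + L ^ 2 * lam * F.q lam eps φ z
def g1 (lam eps : ℝ) (φ : Pl → ℝ) (z : Pl) : ℝ :=
  ‖F.p φ z‖ ^ 2 * sig lam eps φ z / F.q lam eps φ z ^ 2
def g2 (lam eps L : ℝ) (φ : Pl → ℝ) (z : Pl) : ℝ :=
  L ^ 2 * lam * (‖F.r φ z * F.f φ z - F.p φ z ^ 2‖ ^ 2 + ‖F.r φ z‖ ^ 2 * sig lam eps φ z) /
    F.Q lam eps L φ z ^ 2
def S (φ : Pl → ℝ) : Set Pl := {z | φ z ≠ 0 ∨ F.f φ z ≠ 0 ∨ F.p φ z ≠ 0}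
def tt (lam eps L : ℝ) (φ : Pl → ℝ) (z : Pl) : ℝ :=
  ‖F.p φ z‖ ^ 2 / (L ^ 2 * lam * F.q lam eps φ z)
def A (lam eps L : ℝ) (φ : Pl → ℝ) : Set Pl := {z | 2 ≤ F.tt lam eps L φ z}
def om (lam eps L : ℝ) (φ : Pl → ℝ) (z : Pl) : ℝ :=
  Real.smoothTransition ((F.tt lam eps L φ z - 2) / 2)

def eta (φ : Pl → ℝ) (z : Pl) : ℂ := F.f φ z / F.p φ z
def Psi (φ : Pl → ℝ) (z : Pl) : ℂ := F.f φ z ^ 2 / F.p φ z
def NN (eps : ℝ) (φ : Pl → ℝ) (z : Pl) : ℝ :=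
  √(‖F.Psi φ z‖ ^ 2 + (φ z - (F.Psi φ z).re) ^ 2 + eps ^ 2)
def mm (eps : ℝ) (φ : Pl → ℝ) (z : Pl) : ℂ := F.Psi φ z / (F.NN eps φ z : ℂ)
def GG (T eps : ℝ) (φ : Pl → ℝ) (z : Pl) : ℂ :=
  (T : ℂ) * (F.mm eps φ z * conj (F.mm eps φ z)) - F.mm eps φ z ^ 2 - 4 * F.mm eps φ z

end Frame

/-- `φ` is smooth on the plane and an eigenfunction on the open set `V` -/
structure Eig (F : Frame) (V : Set Pl) (lam : ℝ) (φ : Pl → ℝ) : Prop where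
  oV : IsOpen V
  sm : ContDiff ℝ ∞ φ
  eq : ∀ z ∈ V, F.lap φ z = -lam * φ z

/-- a cutoff function compactly supported in `V` -/
structure Cut (V : Set Pl) (χ : Pl → ℝ) : Prop where
  sm : ContDiff ℝ ∞ χ
  nonneg : ∀ z, 0 ≤ χ z
  le_one : ∀ z, χ z ≤ 1
  cpt : HasCompactSupport χ
  sub : tsupport χ ⊆ V

/-- the Laplacian of the metric `E dx² + 2 F dx dy + G dy²` in coordinates -/
def lapC (E F G u : Pl → ℝ) (z : Pl) : ℝ :=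
  (rx (fun w => (G w * rx u w - F w * ry u w) / √(E w * G w - F w ^ 2)) z +
    ry (fun w => (E w * ry u w - F w * rx u w) / √(E w * G w - F w ^ 2)) z) /
      √(E z * G z - F z ^ 2)

/-- a finite atlas with frames, a partition of unity and a comparable measure -/
structure Atlas (M : Type*) [MeasurableSpace M] (μ : Measure M) where
  n : ℕ
  V : Fin n → Set Pl
  dom : Fin n → Set M
  e : Fin n → M → Pl
  s : Fin n → Pl → M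
  F : Fin n → Frame
  chi : Fin n → M → ℝ
  chiP : Fin n → Pl → ℝ
  Cm : ℝ≥0
  oV : ∀ i, IsOpen (V i)
  e_mem : ∀ i, ∀ x ∈ dom i, e i x ∈ V i
  s_mem : ∀ i, ∀ z ∈ V i, s i z ∈ dom i
  s_e : ∀ i, ∀ x ∈ dom i, s i (e i x) = x
  e_s : ∀ i, ∀ z ∈ V i, e i (s i z) = z
  cut : ∀ i, Cut (V i) (chiP i)
  chi_s : ∀ i, ∀ z ∈ V i, chi i (s i z) = chiP i z
  chi_zero : ∀ i, ∀ x ∉ dom i, chi i x = 0
  chi_sum : ∀ x, ∑ i, chi i x = 1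
  chi_sm : ∀ i j, ContDiffOn ℝ ∞ (fun z => chi i (s j z)) (V j)
  chi_nhds : ∀ i j, ∀ z ∈ V j, s j z ∉ dom i → (fun w => chi i (s j w)) =ᶠ[𝓝 z] fun _ => 0
  lap_compat : ∀ (i j) (u u' : Pl → ℝ), ContDiffOn ℝ ∞ u (V i) → ContDiffOn ℝ ∞ u' (V j) →
    (∀ x ∈ dom i, x ∈ dom j → u (e i x) = u' (e j x)) →
    ∀ x ∈ dom i, x ∈ dom j → (F i).lap u (e i x) = (F j).lap u' (e j x)
  transfer : ∀ (i j) (H : M → ℝ), (∀ x, H x ≠ 0 → x ∈ dom i ∧ x ∈ dom j) →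
    ∫ z in V i, H (s i z) * (F i).rho z = ∫ z in V j, H (s j z) * (F j).rho z
  vol_le : ∀ i, ∀ B ⊆ tsupport (chiP i), volume B ≤ Cm * μ (s i '' B)
  le_vol : ∀ i, ∀ B ⊆ tsupport (chiP i), μ (s i '' B) ≤ Cm * volume B

namespace Atlas

variable {M : Type*} [MeasurableSpace M] {μ : Measure M} (𝒜 : Atlas M μ)

/-- the functions `G i` are the local expressions of one function on `M` -/
def Compat (G : Fin 𝒜.n → Pl → ℝ) : Prop :=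
  ∀ i j, ∀ x ∈ 𝒜.dom i, x ∈ 𝒜.dom j → G i (𝒜.e i x) = G j (𝒜.e j x)

/-- `φ` is an eigenfunction with local expressions `ψ i` -/
def IsEig (lam : ℝ) (φ : M → ℝ) (ψ : Fin 𝒜.n → Pl → ℝ) : Prop :=
  ∀ i, Eig (𝒜.F i) (𝒜.V i) lam (ψ i) ∧ ∀ z ∈ 𝒜.V i, ψ i z = φ (𝒜.s i z)

end Atlas

end Pool.Agent.P.MP_177f55_an
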