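import Pool.Agent.P.MP_177f55_an.Glob

/-! Bounded eigenvalues. -/

open MeasureTheory Set Filter Topology
open scoped ContDiff ComplexConjugate NNReal ENNReal

noncomputable section

namespace Pool.Agent.P.MP_177f55_an

lemma small_fderiv_le (u : Pl → ℝ) (w : Pl) : ‖fderiv ℝ u w‖ ≤ |rx u w| + |ry u w| := by
  refine ContinuousLinearMap.opNorm_le_bound _ (by positivity) fun v => ?_
  have e : v = v.1 • ((1, 0) : Pl) + v.2 • ((0, 1) : Pl) := by
    ext <;> simp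
  have h : fderiv ℝ u w v = v.1 * rx u w + v.2 * ry u w := by
    conv_lhs => rw [e]
    rw [map_add, map_smul, map_smul, smul_eq_mul, smul_eq_mul, rx, ry]
  have h1 : |v.1| ≤ ‖v‖ := norm_fst_le v
  have h2 : |v.2| ≤ ‖v‖ := norm_snd_le v
  rw [h, Real.norm_eq_abs]
  calc _ ≤ |v.1 * rx u w| + |v.2 * ry u w| := abs_add_le _ _
    _ = |v.1| * |rx u w| + |v.2| * |ry u w| := by rw [abs_mul, abs_mul]
    _ ≤ ‖v‖ * |rx u w| + ‖v‖ * |ry u w| := by gcongr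
    _ = _ := by ring

lemma small_lower {g : Pl → ℝ} (hg : Integrable g) (h0 : ∀ w, 0 ≤ g w) {z : Pl} {r c : ℝ}
    (hc : ∀ w ∈ Metric.closedBall z r, c ≤ g w) :
    volume.real (Metric.closedBall (0 : Pl) r) * c ≤ ∫ w, g w := by
  have hm : MeasurableSet (Metric.closedBall z r) := measurableSet_closedBall
  have e : volume.real (Metric.closedBall (0 : Pl) r) = volume.real (Metric.closedBall z r) := by
    rw [Measure.real, Measure.real, Measure.addHaar_closedBall_center volume z]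
  rw [e, ← smul_eq_mul, ← integral_indicator_const c hm]
  refine integral_mono ?_ hg fun w => ?_
  · exact (integrableOn_const measure_closedBall_lt_top.ne).integrable_indicator hm
  · by_cases hw : w ∈ Metric.closedBall z r
    · rw [indicator_of_mem hw]; exact hc w hw
    · rw [indicator_of_notMem hw]; exact h0 w

lemma small_upper {g : Pl → ℝ} (hg : Integrable g) {S : Set Pl} (hm : MeasurableSet S)
    (hS : volume S ≠ ⊤) {c : ℝ} (h0 : ∀ w ∉ S, g w ≤ 0) (hc : ∀ w ∈ S, g w ≤ c) :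
    ∫ w, g w ≤ volume.real S * c := by
  rw [← smul_eq_mul, ← integral_indicator_const c hm]
  refine integral_mono hg ?_ fun w => ?_
  · exact (integrableOn_const hS).integrable_indicator hm
  · by_cases hw : w ∈ S
    · rw [indicator_of_mem hw]; exact hc w hw
    · rw [indicator_of_notMem hw]; exact h0 w hw

section

variable {M : Type*} [MeasurableSpace M] {μ : Measure M} (𝒜 : Atlas M μ)

lemma small_max {G : Fin 𝒜.n → Pl → ℝ} (hG : ∀ i, ContinuousOn (G i) (𝒜.V i))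
    (hc : 𝒜.Compat G) (x : M) :
    ∃ i z, z ∈ 𝒜.V i ∧ (1 : ℝ) / 𝒜.n ≤ 𝒜.chiP i z ∧ ∀ j, ∀ w ∈ 𝒜.V j, G j w ≤ G i z := by
  have key : ∀ y : M, ∃ k, y ∈ 𝒜.dom k ∧ (1 : ℝ) / 𝒜.n ≤ 𝒜.chiP k (𝒜.e k y) ∧
      𝒜.e k y ∈ tsupport (𝒜.chiP k) := fun y => by
    obtain ⟨k, h1, h2, h3⟩ := 𝒜.exists_chart y
    refine ⟨k, h1, h2, subset_tsupport _ ?_⟩
    have : (0 : ℝ) < 1 / 𝒜.n := by positivity
    exact (this.trans_le h2).ne'
  have hK : IsCompact (⋃ i, G i '' tsupport (𝒜.chiP i)) :=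
    isCompact_iUnion fun i => (𝒜.cut i).cpt.isCompact.image_of_continuousOn
      ((hG i).mono (𝒜.cut i).sub)
  obtain ⟨k0, -, -, h0⟩ := key x
  obtain ⟨a, ha, hmax⟩ := hK.exists_isGreatest ⟨_, mem_iUnion.2 ⟨k0, _, h0, rfl⟩⟩
  obtain ⟨i, z, hz, rfl⟩ := mem_iUnion.1 ha
  have hzV := (𝒜.cut i).sub hz
  obtain ⟨k, h1, h2, -⟩ := key (𝒜.s i z)
  have e : G k (𝒜.e k (𝒜.s i z)) = G i z := by
    rw [hc k i _ h1 (𝒜.s_mem i z hzV), 𝒜.e_s i z hzV]
  refine ⟨k, _, 𝒜.e_mem k _ h1, h2, fun j w hw => ?_⟩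
  obtain ⟨l, l1, -, l3⟩ := key (𝒜.s j w)
  rw [e, ← 𝒜.e_s j w hw, hc j l _ (𝒜.s_mem j w hw) l1]
  exact hmax (mem_iUnion.2 ⟨l, _, l3, rfl⟩)

lemma small_radius (hn : 0 < 𝒜.n) : ∃ r : ℝ, 0 < r ∧ ∀ i z, (1 : ℝ) / 𝒜.n ≤ 𝒜.chiP i z →
    ∀ w ∈ Metric.closedBall z r, (1 : ℝ) / (2 * 𝒜.n) ≤ 𝒜.chiP i w := by
  have hp : (0 : ℝ) < 1 / (2 * 𝒜.n) := by positivity
  have h : ∀ i, ∃ r : ℝ, 0 < r ∧ ∀ {a b : Pl}, dist a b ≤ r →
      dist (𝒜.chiP i a) (𝒜.chiP i b) ≤ 1 / (2 * 𝒜.n) := fun i =>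
    Metric.uniformContinuous_iff_le.1
      ((𝒜.cut i).cpt.uniformContinuous_of_continuous (𝒜.cut i).sm.continuous) _ hp
  choose r hr h using h
  have : Nonempty (Fin 𝒜.n) := ⟨⟨0, hn⟩⟩
  obtain ⟨i0, hi0⟩ := Finite.exists_min r
  refine ⟨r i0, hr i0, fun i z hz w hw => ?_⟩
  have h1 := h i ((Metric.mem_closedBall.1 hw).trans (hi0 i))
  rw [Real.dist_eq] at h1
  have h2 := (abs_le.1 h1).1
  have h3 : (1 : ℝ) / 𝒜.n = 1 / (2 * 𝒜.n) + 1 / (2 * 𝒜.n) := by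
    have : (𝒜.n : ℝ) ≠ 0 := by positivity
    field_simp
    norm_num
  linarith

variable {𝒜}

/-- a point where the eigenfunction controls itself and its gradient everywhere -/
lemma small_point {C lam0 lam : ℝ} (hC : ∀ i, (𝒜.F i).Bd (tsupport (𝒜.chiP i)) C) (hC1 : 1 ≤ C)
    (hl : 0 < lam) (hl0 : lam ≤ lam0) {φ : M → ℝ} {ψ : Fin 𝒜.n → Pl → ℝ}
    (h : 𝒜.IsEig lam φ ψ) (hφ : φ ≠ 0) :
    ∃ i z, (1 : ℝ) / 𝒜.n ≤ 𝒜.chiP i z ∧ 0 < |ψ i z| ∧ ∀ j, ∀ w ∈ 𝒜.V j,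
      ‖(𝒜.F j).f (ψ j) w‖ ≤ (lam0 + 2 * C + 1) * (lam0 + 1) * |ψ i z| ∧
      |ψ j w| ≤ (lam0 + 2 * C + 1) * (lam0 + 1) * |ψ i z| := by
  obtain ⟨x, hx⟩ := Function.ne_iff.1 hφ
  set B := lam0 + 2 * C + 1 with hB
  have hB1 : 1 ≤ B := by linarith
  have s1 : ∀ i, ContDiff ℝ ∞ fun z => ‖(𝒜.F i).f (ψ i) z‖ ^ 2 := fun i =>
    sm_normSq ((𝒜.F i).sm_f (h i).1.sm)
  have s2 : ∀ i, ContDiff ℝ ∞ fun z => ψ i z ^ 2 := fun i => (h i).1.sm.pow 2
  have s3 : ∀ i, ContDiff ℝ ∞ fun z => B * ψ i z ^ 2 := fun i => contDiff_const.mul (s2 i)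
  obtain ⟨i, z, hzV, hz, hmax⟩ := small_max 𝒜
    (G := fun i z => ‖(𝒜.F i).f (ψ i) z‖ ^ 2 + B * ψ i z ^ 2)
    (fun i => ((s1 i).add (s3 i)).continuous.continuousOn)
    (fun i j y hi hj => by
      have a := h.compat_f i j y hi hj
      have b := h.compat i j y hi hj
      dsimp only at a ⊢
      rw [a, b]) x
  obtain ⟨k, hk, -, hn⟩ := 𝒜.exists_chart x
  have hzK : z ∈ tsupport (𝒜.chiP i) := by
    refine subset_tsupport _ ?_
    have : (0 : ℝ) < 1 / 𝒜.n := by positivity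
    exact (this.trans_le hz).ne'
  have hloc : IsLocalMax (fun z => ‖(𝒜.F i).f (ψ i) z‖ ^ 2 + B * ψ i z ^ 2) z :=
    mem_of_superset ((𝒜.oV i).mem_nhds hzV) fun w hw => hmax i w hw
  have hlap := (𝒜.F i).lap_nonpos_of_isLocalMax ((s1 i).add (s3 i)).contDiffAt hloc
  rw [(𝒜.F i).lap_add (s1 i).contDiffAt (s3 i).contDiffAt,
    (𝒜.F i).lap_const_mul B (s2 i).contDiffAt, (h i).1.lap_normSq_f hzV,
    (h i).1.lap_sq hzV] at hlap
  have hk1 := (abs_le.1 ((hC i).kap_le z hzK)).1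
  have hf : ‖(𝒜.F i).f (ψ i) z‖ ^ 2 ≤ B * lam0 * ψ i z ^ 2 := by
    have a1 : 0 ≤ (4 * (𝒜.F i).kap z - 2 * lam + 2 * B - 2) * ‖(𝒜.F i).f (ψ i) z‖ ^ 2 :=
      mul_nonneg (by linarith) (sq_nonneg _)
    have a2 : 0 ≤ B * (lam0 - lam) * ψ i z ^ 2 :=
      mul_nonneg (mul_nonneg (by linarith) (by linarith)) (sq_nonneg _)
    have a3 : 0 ≤ lam ^ 2 * ψ i z ^ 2 := by positivity
    have a4 : 0 ≤ ‖(𝒜.F i).p (ψ i) z‖ ^ 2 := sq_nonneg _
    nlinarith
  set A := B * (lam0 + 1) with hA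
  have hA1 : 1 ≤ A := one_le_mul_of_one_le_of_one_le hB1 (by linarith)
  have hall : ∀ j, ∀ w ∈ 𝒜.V j,
      ‖(𝒜.F j).f (ψ j) w‖ ^ 2 + ψ j w ^ 2 ≤ (A * |ψ i z|) ^ 2 := fun j w hw => by
    have a0 := hmax j w hw
    have a1 : 0 ≤ (B - 1) * ψ j w ^ 2 := mul_nonneg (by linarith) (sq_nonneg _)
    have a2 : 0 ≤ A * (A - 1) * ψ i z ^ 2 :=
      mul_nonneg (mul_nonneg (by linarith) (by linarith)) (sq_nonneg _)
    have a3 : A * ψ i z ^ 2 = B * lam0 * ψ i z ^ 2 + B * ψ i z ^ 2 := by rw [hA]; ring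
    rw [mul_pow, sq_abs]
    nlinarith
  have hA0 : 0 ≤ A * |ψ i z| := by positivity
  have hfin : ∀ j, ∀ w ∈ 𝒜.V j, ‖(𝒜.F j).f (ψ j) w‖ ≤ A * |ψ i z| ∧ |ψ j w| ≤ A * |ψ i z| :=
    fun j w hw => by
      have a := hall j w hw
      refine ⟨abs_le_of_sq_le_sq' ?_ hA0 |>.2, abs_le_of_sq_le_sq ?_ hA0⟩
      · linarith [sq_nonneg (ψ j w)]
      · linarith [sq_nonneg ‖(𝒜.F j).f (ψ j) w‖]
  refine ⟨i, z, hz, ?_, hfin⟩
  have a := (hfin k _ (𝒜.e_mem k x hk)).2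
  rw [(h k).2 _ (𝒜.e_mem k x hk), 𝒜.s_e k x hk] at a
  have b : 0 < |φ x| := abs_pos.2 hx
  exact (mul_pos_iff_of_pos_left (by linarith : 0 < A)).1 (b.trans_le a)

end

theorem Atlas.small {M : Type*} [MeasurableSpace M] {μ : Measure M} (𝒜 : Atlas M μ) (lam0 : ℝ) :
    ∃ c : ℝ, 0 < c ∧ ∀ lam, 0 < lam → lam ≤ lam0 →
      ∀ (φ : M → ℝ) (ψ : Fin 𝒜.n → Pl → ℝ), 𝒜.IsEig lam φ ψ → φ ≠ 0 →
        c ≤ μ.real {x | 0 < φ x} := by
  rcases Nat.eq_zero_or_pos 𝒜.n with hn | hn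
  · refine ⟨1, one_pos, fun lam _ _ φ ψ _ hφ => ?_⟩
    obtain ⟨x, -⟩ := Function.ne_iff.1 hφ
    obtain ⟨-, -, -, h⟩ := 𝒜.exists_chart x
    omega
  rcases le_or_gt lam0 0 with hl0 | hl0
  · exact ⟨1, one_pos, fun lam h1 h2 => absurd (h1.trans_le h2) (not_lt.2 hl0)⟩
  obtain ⟨C, hC⟩ := 𝒜.exists_bd
  have hC1 : 1 ≤ C := (hC ⟨0, hn⟩).one_le
  obtain ⟨r0, hr0, hrad⟩ := small_radius 𝒜 hn
  set A := (lam0 + 2 * C + 1) * (lam0 + 1) with hA
  have hA0 : 0 < A := by positivity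
  set r := min r0 (1 / (8 * C ^ 2 * A)) with hr
  have hrp : 0 < r := lt_min hr0 (by positivity)
  set v := volume.real (Metric.closedBall (0 : Pl) r) with hv
  have hvp : 0 < v := ENNReal.toReal_pos (Metric.measure_closedBall_pos volume _ hrp).ne'
    measure_closedBall_lt_top.ne
  have hnp : (0 : ℝ) < 𝒜.n := by positivity
  refine ⟨v / (4 * 𝒜.n * C) / (2 * 𝒜.n * ((𝒜.Cm + 1) * (A * C))), by positivity,
    fun lam hl hll φ ψ h hφ => ?_⟩
  obtain ⟨i, z, hz, hm, hall⟩ := small_point hC hC1 hl hll h hφ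
  set m := |ψ i z| with hmdef
  have hsub : ∀ w ∈ Metric.closedBall z r, (1 : ℝ) / (2 * 𝒜.n) ≤ 𝒜.chiP i w := fun w hw =>
    hrad i z hz w (Metric.closedBall_subset_closedBall (min_le_left _ _) hw)
  have hK : ∀ w ∈ Metric.closedBall z r, w ∈ tsupport (𝒜.chiP i) := fun w hw => by
    refine subset_tsupport _ ?_
    have : (0 : ℝ) < 1 / (2 * 𝒜.n) := by positivity
    exact (this.trans_le (hsub w hw)).ne'
  have hdiff : ∀ j w, DifferentiableAt ℝ (ψ j) w := fun j w =>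
    (h j).1.sm.differentiable (by simp) w
  have hgrad : ∀ w ∈ Metric.closedBall z r, ‖fderiv ℝ (ψ i) w‖ ≤ 4 * C ^ 2 * A * m :=
    fun w hw => by
      obtain ⟨a1, a2⟩ := (hC i).rx_le (hK w hw) (hdiff i w)
      have a3 := (hall i w ((𝒜.cut i).sub (hK w hw))).1
      rw [Frame.f, norm_mul, Complex.norm_ofNat] at a3
      have a4 : 4 * C ^ 2 * (2 * ‖(𝒜.F i).D (cx (ψ i)) w‖) ≤ 4 * C ^ 2 * (A * m) := by gcongr
      linarith [small_fderiv_le (ψ i) w]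
  have hbig : ∀ w ∈ Metric.closedBall z r, m / 2 ≤ |ψ i w| := fun w hw => by
    have a1 := (convex_closedBall z r).norm_image_sub_le_of_norm_fderiv_le
      (fun w _ => hdiff i w) hgrad (Metric.mem_closedBall_self hrp.le) hw
    have a2 : ‖w - z‖ ≤ 1 / (8 * C ^ 2 * A) :=
      (mem_closedBall_iff_norm.1 hw).trans (min_le_right _ _)
    have a3 : 4 * C ^ 2 * A * m * ‖w - z‖ ≤ 4 * C ^ 2 * A * m * (1 / (8 * C ^ 2 * A)) := by
      gcongr
    have a4 : 4 * C ^ 2 * A * m * (1 / (8 * C ^ 2 * A)) = m / 2 := by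
      field_simp
      norm_num
    have a5 := abs_sub_abs_le_abs_sub (ψ i z) (ψ i w)
    rw [Real.norm_eq_abs, abs_sub_comm] at a1
    linarith
  have hint : ∀ j, ∀ g : Pl → ℝ, Continuous g →
      Integrable fun w => 𝒜.chiP j w * g w * (𝒜.F j).rho w := fun j g hg =>
    (((𝒜.cut j).sm.continuous.mul hg).mul (𝒜.F j).srho.continuous).integrable_of_hasCompactSupport
      (𝒜.cut j).cpt.mul_right.mul_right
  have hcont : ∀ j, Continuous (ψ j) := fun j => (h j).1.sm.continuous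
  have hzero : ∑ j, ∫ w, 𝒜.chiP j w * ψ j w * (𝒜.F j).rho w = 0 := by
    have a := 𝒜.sum_integral_lap (fun j => (h j).1.sm.contDiffOn) h.compat
    have b : ∀ j, ∫ w, 𝒜.chiP j w * (𝒜.F j).lap (ψ j) w * (𝒜.F j).rho w =
        -lam * ∫ w, 𝒜.chiP j w * ψ j w * (𝒜.F j).rho w := fun j => by
      rw [← integral_const_mul]
      refine integral_congr_ae (Eventually.of_forall fun w => ?_)
      dsimp only
      by_cases hw : w ∈ tsupport (𝒜.chiP j)
      · rw [(h j).1.eq w ((𝒜.cut j).sub hw)]; ring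
      · rw [image_eq_zero_of_notMem_tsupport hw]; ring
    simp only [b, ← Finset.mul_sum] at a
    exact (mul_eq_zero.1 a).resolve_left (by linarith)
  have hsplit : ∀ j, ∫ w, 𝒜.chiP j w * |ψ j w| * (𝒜.F j).rho w =
      2 * (∫ w, 𝒜.chiP j w * max (ψ j w) 0 * (𝒜.F j).rho w) -
        ∫ w, 𝒜.chiP j w * ψ j w * (𝒜.F j).rho w := fun j => by
    rw [← integral_const_mul, ← integral_sub
      ((hint j _ ((hcont j).max continuous_const)).const_mul 2) (hint j _ (hcont j))]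
    refine integral_congr_ae (Eventually.of_forall fun w => ?_)
    dsimp only
    rcases le_total (ψ j w) 0 with a | a
    · rw [abs_of_nonpos a, max_eq_right a]; ring
    · rw [abs_of_nonneg a, max_eq_left a]; ring
  have hnn : ∀ j w, 0 ≤ 𝒜.chiP j w * |ψ j w| * (𝒜.F j).rho w := fun j w =>
    mul_nonneg (mul_nonneg ((𝒜.cut j).nonneg w) (abs_nonneg _)) ((𝒜.F j).rho_pos w).le
  have hlow : v * (1 / (2 * 𝒜.n) * (m / 2) * (1 / C)) ≤
      ∫ w, 𝒜.chiP i w * |ψ i w| * (𝒜.F i).rho w := by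
    refine small_lower (hint i _ (hcont i).abs) (hnn i) (z := z) fun w hw => ?_
    have a1 : 1 / C ≤ (𝒜.F i).rho w := by
      rw [div_le_iff₀ (by linarith), mul_comm]
      exact (hC i).le_rho w (hK w hw)
    have a2 := hsub w hw
    have a3 := hbig w hw
    have a4 := (𝒜.cut i).nonneg w
    gcongr
  set t := μ.real {x | 0 < φ x} with ht
  have ht0 : 0 ≤ t := measureReal_nonneg
  have hup : ∀ j, ∫ w, 𝒜.chiP j w * max (ψ j w) 0 * (𝒜.F j).rho w ≤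
      (𝒜.Cm + 1) * t * (A * m * C) := fun j => by
    set S := {w | 0 < ψ j w} ∩ tsupport (𝒜.chiP j) with hS
    have hSm : MeasurableSet S :=
      (isOpen_lt continuous_const (hcont j)).measurableSet.inter (isClosed_tsupport _).measurableSet
    have hSf : volume S ≠ ⊤ :=
      ((measure_mono inter_subset_right).trans_lt (𝒜.cut j).cpt.isCompact.measure_lt_top).ne
    have hvol : volume.real S ≤ (𝒜.Cm + 1) * t := by
      have a1 := 𝒜.vol_le j S inter_subset_right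
      have a2 : μ (𝒜.s j '' S) ≤ μ {x | 0 < φ x} := by
        refine measure_mono ?_
        rintro _ ⟨w, hw, rfl⟩
        have := (h j).2 w ((𝒜.cut j).sub hw.2)
        show 0 < φ (𝒜.s j w)
        rw [← this]
        exact hw.1
      have a3 : μ {x | 0 < φ x} ≠ ⊤ :=
        ne_top_of_le_ne_top 𝒜.finite (measure_mono (subset_univ _))
      have a4 : volume S ≤ 𝒜.Cm * μ {x | 0 < φ x} := a1.trans (by gcongr)
      have a5 := ENNReal.toReal_mono (ENNReal.mul_ne_top ENNReal.coe_ne_top a3) a4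
      rw [ENNReal.toReal_mul, ENNReal.coe_toReal] at a5
      have a6 : volume.real S ≤ 𝒜.Cm * t := a5
      linarith
    refine (small_upper (hint j _ ((hcont j).max continuous_const)) hSm hSf (c := A * m * C)
      (fun w hw => ?_) fun w hw => ?_).trans (by gcongr)
    · by_cases hw' : w ∈ tsupport (𝒜.chiP j)
      · have : ψ j w ≤ 0 := not_lt.1 fun a => hw ⟨a, hw'⟩
        rw [max_eq_right this]; simp
      · rw [image_eq_zero_of_notMem_tsupport hw']; simp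
    · have a1 : max (ψ j w) 0 ≤ A * m :=
        max_le ((le_abs_self _).trans (hall j w ((𝒜.cut j).sub hw.2)).2) (by positivity)
      have a2 := (hC j).rho_le w hw.2
      have a3 := (𝒜.cut j).le_one w
      have a4 := (𝒜.F j).rho_pos w
      have a5 : 0 ≤ max (ψ j w) 0 := le_max_right _ _
      calc _ ≤ 1 * (A * m) * C := by gcongr
        _ = _ := by ring
  have htot : ∫ w, 𝒜.chiP i w * |ψ i w| * (𝒜.F i).rho w ≤
      2 * (𝒜.n * ((𝒜.Cm + 1) * t * (A * m * C))) := by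
    calc _ ≤ ∑ j, ∫ w, 𝒜.chiP j w * |ψ j w| * (𝒜.F j).rho w :=
          Finset.single_le_sum (f := fun j => ∫ w, 𝒜.chiP j w * |ψ j w| * (𝒜.F j).rho w)
            (fun j _ => integral_nonneg (hnn j)) (Finset.mem_univ i)
      _ = 2 * ∑ j, ∫ w, 𝒜.chiP j w * max (ψ j w) 0 * (𝒜.F j).rho w := by
          simp only [hsplit]
          rw [Finset.sum_sub_distrib, hzero, sub_zero, Finset.mul_sum]
      _ ≤ _ := by
          have := Finset.sum_le_card_nsmul Finset.univ _ _ fun j _ => hup j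
          rw [Finset.card_univ, Fintype.card_fin, nsmul_eq_mul] at this
          linarith
  have hfin := hlow.trans htot
  rw [div_le_iff₀ (by positivity)]
  have e1 : v * (1 / (2 * 𝒜.n) * (m / 2) * (1 / C)) = m * (v / (4 * 𝒜.n * C)) := by
    field_simp
    norm_num
  have e2 : 2 * (𝒜.n * ((𝒜.Cm + 1) * t * (A * m * C))) =
      m * (t * (2 * 𝒜.n * ((𝒜.Cm + 1) * (A * C)))) := by ring
  rw [e1, e2] at hfin
  exact le_of_mul_le_mul_left hfin hm

end Pool.Agent.P.MP_177f55_an
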