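import Pool.Agent.P.MP_177f55_an.CaseI
import Pool.Agent.P.MP_177f55_an.CaseII
import Pool.Agent.P.MP_177f55_an.Small

/-! Assembly of the proof on an abstract atlas. -/

open MeasureTheory Set Filter Topology
open scoped ContDiff ComplexConjugate NNReal ENNReal

noncomputable section

namespace Pool.Agent.P.MP_177f55_an

theorem core (F : Frame) {V : Set Pl} {χ : Pl → ℝ} (hχ : Cut V χ) {C0 η0 : ℝ} (hC0 : 0 < C0)
    (hη0 : 0 < η0) : ∃ c : ℝ, 0 < c ∧ ∃ lam0 : ℝ, ∀ lam, lam0 ≤ lam → ∀ φ, Eig F V lam φ →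
      ∀ s : ℝ, 0 < s → volume.real (F.S φ ∩ tsupport χ) ≤ s →
        η0 * s ≤ volume.real (F.S φ ∩ {z | η0 ≤ χ z}) →
        (∀ eps : ℝ, 0 < eps → ∫ z, χ z * F.g1 lam eps φ z * F.rho z ≤ C0 * lam * s ∧
          ∀ L : ℝ, 1 ≤ L → ∫ z, χ z * F.g2 lam eps L φ z * F.rho z ≤ C0 * lam * s) →
        c * s ≤ volume.real ({z | 0 < φ z} ∩ tsupport χ) := by
  obtain ⟨c1, hc1, h1⟩ := caseI F hχ hC0 hη0
  obtain ⟨L, hL, c2, hc2, l2, h2⟩ := caseII F hχ hC0 hc1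
  obtain ⟨c3, hc3, l3, h3⟩ := h1 L hL
  refine ⟨min c2 c3, lt_min hc2 hc3, max l2 l3, fun lam hlam φ hφ s hs hS hS' hen => ?_⟩
  obtain ⟨eps, he, h4⟩ := h3 lam ((le_max_right _ _).trans hlam) φ hφ s hs hS'
  obtain ⟨e1, e2⟩ := hen eps he
  rcases le_total (∫ z in F.A lam eps L φ, χ z * F.rho z) (c1 * s) with h | h
  · exact (mul_le_mul_of_nonneg_right (min_le_right _ _) hs.le).trans (h4 (e2 L hL) h)
  · exact (mul_le_mul_of_nonneg_right (min_le_left _ _) hs.le).trans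
      (h2 lam ((le_max_left _ _).trans hlam) φ hφ s eps he hS e1 (e2 L hL) h)

namespace Atlas

variable {M : Type*} [MeasurableSpace M] {μ : Measure M} (𝒜 : Atlas M μ)

lemma vol_real_le (i : Fin 𝒜.n) {B : Set Pl} (hB : B ⊆ tsupport (𝒜.chiP i)) {T : Set M}
    (hT : 𝒜.s i '' B ⊆ T) : volume.real B ≤ (𝒜.Cm + 1) * μ.real T := by
  have hfin : μ T ≠ ⊤ := ne_top_of_le_ne_top 𝒜.finite (measure_mono (subset_univ _))
  have h1 : volume B ≤ 𝒜.Cm * μ T := (𝒜.vol_le i B hB).trans (by gcongr)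
  have h2 := ENNReal.toReal_mono (ENNReal.mul_ne_top ENNReal.coe_ne_top hfin) h1
  rw [ENNReal.toReal_mul, ENNReal.coe_toReal] at h2
  have h3 : 0 ≤ (μ T).toReal := ENNReal.toReal_nonneg
  simp only [Measure.real]
  nlinarith

lemma real_le_vol (i : Fin 𝒜.n) {B : Set Pl} (hB : B ⊆ tsupport (𝒜.chiP i)) :
    μ.real (𝒜.s i '' B) ≤ (𝒜.Cm + 1) * volume.real B := by
  have hfin : volume B ≠ ⊤ :=
    ne_top_of_le_ne_top (𝒜.cut i).cpt.isCompact.measure_lt_top.ne (measure_mono hB)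
  have h2 := ENNReal.toReal_mono (ENNReal.mul_ne_top ENNReal.coe_ne_top hfin) (𝒜.le_vol i B hB)
  rw [ENNReal.toReal_mul, ENNReal.coe_toReal] at h2
  have h3 : 0 ≤ (volume B).toReal := ENNReal.toReal_nonneg
  simp only [Measure.real]
  nlinarith

theorem large : ∃ c : ℝ, 0 < c ∧ ∃ lam0 : ℝ, ∀ lam, lam0 ≤ lam →
    ∀ (φ : M → ℝ) (ψ : Fin 𝒜.n → Pl → ℝ), 𝒜.IsEig lam φ ψ →
      c * μ.real {x | φ x < 0} ≤ μ.real {x | 0 < φ x} := by
  have : IsFiniteMeasure μ := ⟨𝒜.finite.lt_top⟩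
  obtain ⟨C0, hC0, l0, hen⟩ := 𝒜.energy
  set Cm : ℝ := 𝒜.Cm + 1 with hCm
  have hCm1 : 1 ≤ Cm := by
    have := 𝒜.Cm.coe_nonneg
    linarith
  set η0 : ℝ := 1 / ((𝒜.n + 1) * Cm ^ 2) with hη0
  have hη : 0 < η0 := by positivity
  choose c hc l hcore using fun i => core (𝒜.F i) (𝒜.cut i) hC0 hη
  obtain ⟨c0, hc0, hc0'⟩ : ∃ c0 : ℝ, 0 < c0 ∧ ∀ i, c0 ≤ c i := by
    rcases isEmpty_or_nonempty (Fin 𝒜.n) with h | h
    · exact ⟨1, one_pos, fun i => h.elim i⟩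
    · obtain ⟨i, hi⟩ := Finite.exists_min c
      exact ⟨c i, hc i, hi⟩
  obtain ⟨l1, hl1⟩ : ∃ l1 : ℝ, ∀ i, l i ≤ l1 := (Finite.bddAbove_range l).imp fun x hx i =>
    hx ⟨i, rfl⟩
  refine ⟨c0, hc0, max l0 l1, fun lam hlam φ ψ h => ?_⟩
  set SM : Set M := {x | ∃ i, x ∈ 𝒜.dom i ∧ 𝒜.e i x ∈ (𝒜.F i).S (ψ i)} with hSM
  have hneg : {x | φ x < 0} ⊆ SM := fun x hx => by
    obtain ⟨i, hi, -⟩ := 𝒜.exists_chart x
    refine ⟨i, hi, Or.inl ?_⟩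
    rw [(h i).2 _ (𝒜.e_mem i x hi), 𝒜.s_e i x hi]
    exact ne_of_lt hx
  have hle : μ.real {x | φ x < 0} ≤ μ.real SM := measureReal_mono hneg
  rcases (measureReal_nonneg (μ := μ) (s := SM)).eq_or_lt with h0 | h0
  · have : μ.real {x | φ x < 0} = 0 := le_antisymm (h0 ▸ hle) measureReal_nonneg
    rw [this, mul_zero]
    exact measureReal_nonneg
  set s : ℝ := Cm * μ.real SM with hs
  have hs0 : 0 < s := by positivity
  have hS : ∀ i, volume.real ((𝒜.F i).S (ψ i) ∩ tsupport (𝒜.chiP i)) ≤ s := fun i => by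
    refine 𝒜.vol_real_le i inter_subset_right ?_
    rintro _ ⟨z, ⟨hz, hz'⟩, rfl⟩
    have hV := (𝒜.cut i).sub hz'
    exact ⟨i, 𝒜.s_mem i z hV, by rwa [𝒜.e_s i z hV]⟩
  have hsub : ∀ i, (𝒜.F i).S (ψ i) ∩ {z | η0 ≤ 𝒜.chiP i z} ⊆ tsupport (𝒜.chiP i) :=
    fun i z hz => subset_tsupport _ (ne_of_gt (hη.trans_le hz.2))
  have hcov : SM ⊆ ⋃ i, 𝒜.s i '' ((𝒜.F i).S (ψ i) ∩ {z | η0 ≤ 𝒜.chiP i z}) := by
    rintro x ⟨i, hi, hx⟩
    obtain ⟨j, hj, hj', hn⟩ := 𝒜.exists_chart x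
    refine mem_iUnion.2 ⟨j, 𝒜.e j x, ⟨h.compat_S hi hj hx, le_trans ?_ hj'⟩, 𝒜.s_e j x hj⟩
    have hn' : (0 : ℝ) < 𝒜.n := by exact_mod_cast hn
    refine one_div_le_one_div_of_le hn' ?_
    have : (1 : ℝ) ≤ Cm ^ 2 := one_le_pow₀ hCm1
    nlinarith
  obtain ⟨i, hi⟩ : ∃ i, η0 * s ≤ volume.real ((𝒜.F i).S (ψ i) ∩ {z | η0 ≤ 𝒜.chiP i z}) := by
    by_contra hcon
    push Not at hcon
    have h1 : μ.real SM ≤ ∑ i, μ.real (𝒜.s i '' ((𝒜.F i).S (ψ i) ∩ {z | η0 ≤ 𝒜.chiP i z})) :=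
      (measureReal_mono hcov).trans (measureReal_iUnion_fintype_le _)
    have h2 : ∑ i, μ.real (𝒜.s i '' ((𝒜.F i).S (ψ i) ∩ {z | η0 ≤ 𝒜.chiP i z})) ≤
        ∑ _i : Fin 𝒜.n, Cm * (η0 * s) := Finset.sum_le_sum fun i _ =>
      (𝒜.real_le_vol i (hsub i)).trans (mul_le_mul_of_nonneg_left (hcon i).le (by positivity))
    rw [Finset.sum_const, Finset.card_univ, Fintype.card_fin, nsmul_eq_mul] at h2
    have h3 : (𝒜.n + 1) * (Cm * (η0 * s)) = μ.real SM := by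
      rw [hη0, hs]
      field_simp
    have h4 : 0 < Cm * (η0 * s) := by positivity
    nlinarith
  have h5 := hcore i lam ((hl1 i).trans ((le_max_right _ _).trans hlam)) (ψ i) (h i).1 s hs0
    (hS i) hi fun eps he => hen lam ((le_max_left _ _).trans hlam) φ ψ h s hS eps he i
  have h6 : volume.real ({z | 0 < ψ i z} ∩ tsupport (𝒜.chiP i)) ≤ Cm * μ.real {x | 0 < φ x} := by
    refine 𝒜.vol_real_le i inter_subset_right ?_
    rintro _ ⟨z, ⟨hz, hz'⟩, rfl⟩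
    have := (h i).2 z ((𝒜.cut i).sub hz')
    simpa [← this] using hz
  have h7 : Cm * (c0 * μ.real SM) ≤ Cm * μ.real {x | 0 < φ x} := by
    calc Cm * (c0 * μ.real SM) = c0 * s := by rw [hs]; ring
      _ ≤ c i * s := mul_le_mul_of_nonneg_right (hc0' i) hs0.le
      _ ≤ _ := h5.trans h6
  have h8 := le_of_mul_le_mul_left h7 (by positivity)
  exact (mul_le_mul_of_nonneg_left hle hc0.le).trans h8

theorem all_lam : ∃ c : ℝ, 0 < c ∧ ∀ lam, 0 < lam →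
    ∀ (φ : M → ℝ) (ψ : Fin 𝒜.n → Pl → ℝ), 𝒜.IsEig lam φ ψ → φ ≠ 0 →
      0 < μ.real {x | 0 < φ x} ∧ c * μ.real {x | φ x < 0} ≤ μ.real {x | 0 < φ x} := by
  have : IsFiniteMeasure μ := ⟨𝒜.finite.lt_top⟩
  obtain ⟨c, hc, l0, h1⟩ := 𝒜.large
  obtain ⟨c', hc', h2⟩ := 𝒜.small l0
  have hU : 0 ≤ μ.real univ := measureReal_nonneg
  refine ⟨min c (c' / (μ.real univ + 1)), lt_min hc (by positivity),
    fun lam hl φ ψ h hφ => ⟨?_, ?_⟩⟩
  · obtain ⟨c'', hc'', h3⟩ := 𝒜.small lam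
    exact hc''.trans_le (h3 lam hl le_rfl φ ψ h hφ)
  · rcases le_total lam l0 with hle | hle
    · refine le_trans ?_ (h2 lam hl hle φ ψ h hφ)
      have h4 : μ.real {x | φ x < 0} ≤ μ.real univ + 1 :=
        (measureReal_mono (subset_univ _)).trans (by linarith)
      calc _ ≤ c' / (μ.real univ + 1) * (μ.real univ + 1) :=
            mul_le_mul (min_le_right _ _) h4 measureReal_nonneg (by positivity)
        _ = c' := by field_simp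
    · exact (mul_le_mul_of_nonneg_right (min_le_left _ _) measureReal_nonneg).trans
        (h1 lam hle φ ψ h)

end Atlas

end Pool.Agent.P.MP_177f55_an
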