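import Pool.Agent.P.MP_177f55_an.Build
import Pool.Agent.P.MP_177f55_an.Main

open MeasureTheory Bundle
open scoped ContDiff Manifold

namespace Pool.Agent.P.MP_177f55_an


theorem quasi_symmetry (M : Type*) [EMetricSpace M] [MeasurableSpace M] [BorelSpace M]
    [ChartedSpace E2 M] [IsManifold (𝓡 2) ∞ M] [CompactSpace M]
    [RiemannianBundle fun x : M => TangentSpace (𝓡 2) x]
    [IsContMDiffRiemannianBundle (𝓡 2) ∞ E2 fun x : M => TangentSpace (𝓡 2) x]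
    [IsRiemannianManifold (𝓡 2) M] :
    ∃ c C : ℝ, 0 < c ∧ 0 < C ∧ ∀ (lam : ℝ) (φ : M → ℝ), 0 < lam →
      ContMDiff (𝓡 2) 𝓘(ℝ, ℝ) ∞ φ → φ ≠ 0 → (∀ x, laplaceBeltrami φ x + lam * φ x = 0) →
        c < (μH[2] {x | 0 < φ x}).toReal / (μH[2] {x | φ x < 0}).toReal ∧
          (μH[2] {x | 0 < φ x}).toReal / (μH[2] {x | φ x < 0}).toReal < C := by
  obtain ⟨𝒜, h𝒜⟩ := exists_atlas M
  obtain ⟨c, hc, h⟩ := 𝒜.all_lam
  refine ⟨c / 2, 2 / c, by positivity, by positivity, fun lam φ hl hs h0 he => ?_⟩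
  obtain ⟨ψ, hψ⟩ := h𝒜 lam φ hs he
  have hψ' : 𝒜.IsEig lam (fun x => -φ x) fun i z => -ψ i z := fun i =>
    ⟨⟨(hψ i).1.oV, (hψ i).1.sm.neg, fun z hz => by
      have h1 := (𝒜.F i).lap_const_mul (z := z) (-1) (hψ i).1.sm.contDiffAt
      simp only [neg_mul, one_mul] at h1
      rw [h1, (hψ i).1.eq z hz]
      ring⟩, fun z hz => congrArg Neg.neg ((hψ i).2 z hz)⟩
  obtain ⟨p1, p2⟩ := h lam hl φ ψ hψ h0
  obtain ⟨n1, n2⟩ := h lam hl (fun x => -φ x) _ hψ' fun h1 => h0 (by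
    funext x
    simpa using congrFun h1 x)
  simp only [Left.neg_pos_iff, Left.neg_neg_iff, Measure.real] at p1 p2 n1 n2
  constructor
  · rw [lt_div_iff₀ n1]
    nlinarith
  · rw [div_lt_div_iff₀ n1 hc]
    nlinarith

end Pool.Agent.P.MP_177f55_an
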