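import Pool.Agent.P.MP_177f55_an.Green
import Pool.Agent.P.MP_177f55_an.Second

/-! Global consequences of the atlas structure. -/

open MeasureTheory Set Filter Topology
open scoped ContDiff ComplexConjugate NNReal ENNReal

noncomputable section

namespace Pool.Agent.P.MP_177f55_an

lemma glob_contOn_lap (F : Frame) {V : Set Pl} (hV : IsOpen V) {u : Pl → ℝ}
    (hu : ContDiffOn ℝ ∞ u V) : ContinuousOn (F.lap u) V := fun _ hz =>
  (F.smAt_lap (hu.contDiffAt (hV.mem_nhds hz))).continuousAt.continuousWithinAt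

lemma glob_int_cut (F : Frame) {V : Set Pl} (hV : IsOpen V) {χ : Pl → ℝ} (hχ : Cut V χ)
    {g : Pl → ℝ} (hg : ContinuousOn g V) : Integrable fun z => χ z * g z * F.rho z := by
  refine (integrable_of_contOn hV hχ.cpt.isCompact hχ.sub ?_ fun z hz => ?_).2
  · exact (hχ.sm.continuous.continuousOn.mul hg).mul F.srho.continuous.continuousOn
  · rw [image_eq_zero_of_notMem_tsupport hz, zero_mul, zero_mul]

lemma glob_int_lapcut (F : Frame) {V : Set Pl} (hV : IsOpen V) {χ : Pl → ℝ} (hχ : Cut V χ)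
    {g : Pl → ℝ} (hg : ContinuousOn g V) :
    Integrable fun z => g z * F.lap χ z * F.rho z := by
  refine (integrable_of_contOn hV hχ.cpt.isCompact hχ.sub ?_ fun z hz => ?_).2
  · exact (hg.mul (F.sm_lap hχ.sm).continuous.continuousOn).mul F.srho.continuous.continuousOn
  · rw [F.lap_eq_zero_of_notMem_tsupport hz, mul_zero, zero_mul]

/-- a pointwise lower bound up to an error carried by `S ∩ K`, integrated -/
lemma glob_integral_le {S K : Set Pl} (hS : IsOpen S) (hK : IsCompact K) {a b : Pl → ℝ}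
    (ha : Integrable a) (hb : Integrable b) {B s : ℝ} (hB : 0 ≤ B)
    (hs : volume.real (S ∩ K) ≤ s)
    (hab : ∀ z, a z - B * (S ∩ K).indicator 1 z ≤ b z) :
    (∫ z, a z) - B * s ≤ ∫ z, b z := by
  have hm : MeasurableSet (S ∩ K) := hS.measurableSet.inter hK.measurableSet
  have hfin : volume (S ∩ K) ≠ ⊤ :=
    ne_top_of_le_ne_top hK.measure_lt_top.ne (measure_mono inter_subset_right)
  have hi : Integrable ((S ∩ K).indicator (1 : Pl → ℝ)) :=
    (integrable_indicator_iff hm).2 (integrableOn_const hfin)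
  have h1 := integral_mono (ha.sub (hi.const_mul B)) hb hab
  simp only [Pi.sub_apply] at h1
  rw [integral_sub ha (hi.const_mul B), integral_const_mul, integral_indicator_one hm] at h1
  nlinarith [mul_le_mul_of_nonneg_left hs hB]

lemma glob_sum_bound {n : ℕ} {I a : Fin n → ℝ} {b : ℝ} (hI : ∑ i, I i = 0) (ha : ∀ i, 0 ≤ a i)
    (h : ∀ i, a i - b ≤ I i) (i : Fin n) : a i ≤ n * b := by
  have h1 : ∑ j, (a j - b) ≤ ∑ j, I j := Finset.sum_le_sum fun j _ => h j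
  rw [hI, Finset.sum_sub_distrib, Finset.sum_const, Finset.card_univ, Fintype.card_fin,
    nsmul_eq_mul] at h1
  have h2 : a i ≤ ∑ j, a j := Finset.single_le_sum (fun j _ => ha j) (Finset.mem_univ i)
  linarith

lemma glob_abs_log_le {x y : ℝ} (hy : 0 < y) (h1 : y / 2 ≤ x) (h2 : x ≤ 2 * y) :
    |Real.log x - Real.log y| ≤ 1 := by
  have hx : 0 < x := by linarith
  have hl2 : Real.log 2 ≤ 1 := by
    have := Real.log_le_sub_one_of_pos (show (0 : ℝ) < 2 by norm_num)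
    linarith
  have e1 : Real.log x ≤ Real.log 2 + Real.log y := by
    rw [← Real.log_mul (by norm_num) hy.ne']
    exact Real.log_le_log hx h2
  have e2 : Real.log y ≤ Real.log 2 + Real.log x := by
    rw [← Real.log_mul (by norm_num) hx.ne']
    exact Real.log_le_log hy (by linarith)
  rw [abs_le]
  constructor <;> linarith

namespace Atlas

variable {M : Type*} [MeasurableSpace M] {μ : Measure M} (𝒜 : Atlas M μ)

lemma exists_chart (x : M) :
    ∃ i, x ∈ 𝒜.dom i ∧ (1 : ℝ) / 𝒜.n ≤ 𝒜.chiP i (𝒜.e i x) ∧ 0 < 𝒜.n := by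
  have hs := 𝒜.chi_sum x
  have hn : 0 < 𝒜.n := by
    rcases Nat.eq_zero_or_pos 𝒜.n with h | h
    · have : IsEmpty (Fin 𝒜.n) := by rw [h]; infer_instance
      simp at hs
    · exact h
  have hn' : (0 : ℝ) < 𝒜.n := by exact_mod_cast hn
  obtain ⟨i, hi⟩ : ∃ i, (1 : ℝ) / 𝒜.n ≤ 𝒜.chi i x := by
    by_contra hcon
    push Not at hcon
    have : Nonempty (Fin 𝒜.n) := ⟨⟨0, hn⟩⟩
    have h1 : ∑ i, 𝒜.chi i x < ∑ _i : Fin 𝒜.n, (1 : ℝ) / 𝒜.n :=
      Finset.sum_lt_sum_of_nonempty Finset.univ_nonempty fun i _ => hcon i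
    rw [hs, Finset.sum_const, Finset.card_univ, Fintype.card_fin, nsmul_eq_mul,
      mul_one_div_cancel hn'.ne'] at h1
    exact lt_irrefl _ h1
  have hx : x ∈ 𝒜.dom i := by
    by_contra hx
    rw [𝒜.chi_zero i x hx] at hi
    exact absurd hi (not_le.2 (by positivity))
  refine ⟨i, hx, ?_, hn⟩
  rw [← 𝒜.chi_s i _ (𝒜.e_mem i x hx), 𝒜.s_e i x hx]
  exact hi

lemma glob_exists_chart (x : M) : ∃ i, x ∈ 𝒜.dom i ∧ 𝒜.e i x ∈ tsupport (𝒜.chiP i) := by
  obtain ⟨i, hi, h1, hn⟩ := 𝒜.exists_chart x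
  have hn' : (0 : ℝ) < 𝒜.n := by exact_mod_cast hn
  have : (0 : ℝ) < 1 / 𝒜.n := by positivity
  exact ⟨i, hi, subset_tsupport _ (ne_of_gt (this.trans_le h1))⟩

lemma exists_bd : ∃ C, ∀ i, (𝒜.F i).Bd (tsupport (𝒜.chiP i)) C := by
  choose C hC using fun i => (𝒜.F i).exists_bd (𝒜.cut i).cpt.isCompact
  obtain ⟨C1, h1⟩ := Finite.bddAbove_range C
  exact ⟨C1, fun i => (hC i).mono Subset.rfl (h1 ⟨i, rfl⟩)⟩

lemma finite (𝒜 : Atlas M μ) : μ univ ≠ ⊤ := by
  have hcov : (univ : Set M) ⊆ ⋃ i, 𝒜.s i '' tsupport (𝒜.chiP i) := fun x _ => by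
    obtain ⟨i, hi, h1⟩ := 𝒜.glob_exists_chart x
    exact mem_iUnion.2 ⟨i, 𝒜.e i x, h1, 𝒜.s_e i x hi⟩
  refine ne_top_of_le_ne_top ?_ ((measure_mono hcov).trans (measure_iUnion_fintype_le _ _))
  refine ENNReal.sum_ne_top.2 fun i _ => ?_
  exact ne_top_of_le_ne_top
    (ENNReal.mul_ne_top ENNReal.coe_ne_top (𝒜.cut i).cpt.isCompact.measure_lt_top.ne)
    (𝒜.le_vol i _ Subset.rfl)

lemma glob_transfer {G : Fin 𝒜.n → Pl → ℝ} (hc : 𝒜.Compat G) (i j : Fin 𝒜.n) :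
    ∫ z, 𝒜.chi j (𝒜.s i z) * G i z * (𝒜.F i).lap (𝒜.chiP i) z * (𝒜.F i).rho z =
      ∫ z, 𝒜.chiP j z * (G j z * (𝒜.F j).lap (fun w => 𝒜.chi i (𝒜.s j w)) z) *
        (𝒜.F j).rho z := by
  classical
  set H : M → ℝ := fun x => if x ∈ 𝒜.dom i then
    𝒜.chi j x * G i (𝒜.e i x) * (𝒜.F i).lap (𝒜.chiP i) (𝒜.e i x) else 0 with hH
  have h0 : ∀ x, H x ≠ 0 → x ∈ 𝒜.dom i ∧ x ∈ 𝒜.dom j := fun x hx => by
    by_cases hi : x ∈ 𝒜.dom i
    · refine ⟨hi, ?_⟩
      by_contra hj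
      apply hx
      simp only [hH, if_pos hi, 𝒜.chi_zero j x hj, zero_mul]
    · exact absurd (by simp only [hH, if_neg hi]) hx
  have ht := 𝒜.transfer i j H h0
  refine (setIntegral_eq_integral_of_forall_compl_eq_zero (s := 𝒜.V i) ?_).symm.trans
    (Eq.trans ?_ (setIntegral_eq_integral_of_forall_compl_eq_zero (s := 𝒜.V j) ?_))
  · intro z hz
    rw [(𝒜.F i).lap_eq_zero_of_notMem_tsupport fun h => hz ((𝒜.cut i).sub h), mul_zero,
      zero_mul]
  · refine (setIntegral_congr_fun (𝒜.oV i).measurableSet fun z hz => ?_).trans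
      (ht.trans (setIntegral_congr_fun (𝒜.oV j).measurableSet fun z hz => ?_))
    · simp only [hH, if_pos (𝒜.s_mem i z hz), 𝒜.e_s i z hz]
    · have hj := 𝒜.s_mem j z hz
      by_cases hi : 𝒜.s j z ∈ 𝒜.dom i
      · have e1 := hc i j _ hi hj
        have e2 := 𝒜.lap_compat i j (𝒜.chiP i) (fun w => 𝒜.chi i (𝒜.s j w))
          (𝒜.cut i).sm.contDiffOn (𝒜.chi_sm i j) (fun x hx hx' => by
            rw [← 𝒜.chi_s i _ (𝒜.e_mem i x hx), 𝒜.s_e i x hx, 𝒜.s_e j x hx']) _ hi hj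
        rw [𝒜.e_s j z hz] at e1 e2
        simp only [hH, if_pos hi, e1, e2, 𝒜.chi_s j z hz]
        ring
      · have e1 := ((𝒜.F j).lap_evEq (𝒜.chi_nhds i j z hz hi)).eq_of_nhds
        rw [(𝒜.F j).lap_const] at e1
        simp only [hH, if_neg hi, e1, mul_zero, zero_mul]
  · intro z hz
    rw [image_eq_zero_of_notMem_tsupport fun h => hz ((𝒜.cut j).sub h), zero_mul, zero_mul]

/-- the divergence theorem on `M` -/
theorem sum_integral_lap {G : Fin 𝒜.n → Pl → ℝ} (hG : ∀ i, ContDiffOn ℝ ∞ (G i) (𝒜.V i))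
    (hc : 𝒜.Compat G) :
    ∑ i, ∫ z, 𝒜.chiP i z * (𝒜.F i).lap (G i) z * (𝒜.F i).rho z = 0 := by
  have h1 : ∀ i, ∫ z, 𝒜.chiP i z * (𝒜.F i).lap (G i) z * (𝒜.F i).rho z =
      ∑ j, ∫ z, 𝒜.chiP j z * (G j z * (𝒜.F j).lap (fun w => 𝒜.chi i (𝒜.s j w)) z) *
        (𝒜.F j).rho z := fun i => by
    rw [(𝒜.F i).green (𝒜.oV i) (𝒜.cut i).sm (𝒜.cut i).cpt (𝒜.cut i).sub (hG i)]
    rw [← Finset.sum_congr rfl fun j _ => 𝒜.glob_transfer hc i j, ← integral_finsetSum]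
    · refine integral_congr_ae (Eventually.of_forall fun z => ?_)
      simp only [← Finset.sum_mul, 𝒜.chi_sum, one_mul]
    · intro j _
      exact glob_int_lapcut (𝒜.F i) (𝒜.oV i) (𝒜.cut i)
        ((𝒜.chi_sm j i).continuousOn.mul (hG i).continuousOn)
  rw [Finset.sum_congr rfl fun i _ => h1 i, Finset.sum_comm]
  refine Finset.sum_eq_zero fun j _ => ?_
  rw [← integral_finsetSum]
  · refine integral_eq_zero_of_ae (Eventually.of_forall fun z => ?_)
    simp only [Pi.zero_apply]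
    by_cases hz : z ∈ 𝒜.V j
    · rw [← Finset.sum_mul, ← Finset.mul_sum, ← Finset.mul_sum,
        ← (𝒜.F j).lap_sum Finset.univ (U := fun i w => 𝒜.chi i (𝒜.s j w))
          fun i _ => (𝒜.chi_sm i j).contDiffAt ((𝒜.oV j).mem_nhds hz)]
      simp only [𝒜.chi_sum, Frame.lap_const, mul_zero, zero_mul]
    · simp only [image_eq_zero_of_notMem_tsupport fun h => hz ((𝒜.cut j).sub h), zero_mul,
        Finset.sum_const_zero]
  · intro i _
    exact glob_int_cut (𝒜.F j) (𝒜.oV j) (𝒜.cut j)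
      ((hG j).continuousOn.mul (glob_contOn_lap _ (𝒜.oV j) (𝒜.chi_sm i j)))

variable {𝒜} {lam : ℝ} {φ : M → ℝ} {ψ : Fin 𝒜.n → Pl → ℝ}

lemma IsEig.compat (h : 𝒜.IsEig lam φ ψ) : 𝒜.Compat ψ := fun i j x hi hj => by
  rw [(h i).2 _ (𝒜.e_mem i x hi), (h j).2 _ (𝒜.e_mem j x hj), 𝒜.s_e i x hi, 𝒜.s_e j x hj]

lemma IsEig.compat_f (h : 𝒜.IsEig lam φ ψ) :
    𝒜.Compat fun i z => ‖(𝒜.F i).f (ψ i) z‖ ^ 2 := fun i j x hi hj => by
  have e0 := h.compat i j x hi hj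
  have e1 := 𝒜.lap_compat i j (fun w => ψ i w ^ 2) (fun w => ψ j w ^ 2)
    ((h i).1.sm.pow 2).contDiffOn ((h j).1.sm.pow 2).contDiffOn
    (fun y hy hy' => by rw [h.compat i j y hy hy']) x hi hj
  rw [(h i).1.lap_sq (𝒜.e_mem i x hi), (h j).1.lap_sq (𝒜.e_mem j x hj), e0] at e1
  simp only
  linarith

lemma IsEig.compat_P (h : 𝒜.IsEig lam φ ψ) :
    𝒜.Compat fun i z => ‖(𝒜.F i).p (ψ i) z‖ ^ 2 + (𝒜.F i).kap z * ‖(𝒜.F i).f (ψ i) z‖ ^ 2 :=
  fun i j x hi hj => by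
  have e0 := h.compat i j x hi hj
  have e2 := h.compat_f i j x hi hj
  have e1 := 𝒜.lap_compat i j (fun w => ‖(𝒜.F i).f (ψ i) w‖ ^ 2)
    (fun w => ‖(𝒜.F j).f (ψ j) w‖ ^ 2)
    (sm_normSq ((𝒜.F i).sm_f (h i).1.sm)).contDiffOn
    (sm_normSq ((𝒜.F j).sm_f (h j).1.sm)).contDiffOn
    (fun y hy hy' => h.compat_f i j y hy hy') x hi hj
  rw [(h i).1.lap_normSq_f (𝒜.e_mem i x hi), (h j).1.lap_normSq_f (𝒜.e_mem j x hj), e0] at e1
  simp only at e2 ⊢
  rw [e2] at e1 ⊢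
  linarith

lemma IsEig.compat_S (h : 𝒜.IsEig lam φ ψ) {i j : Fin 𝒜.n} {x : M} (hi : x ∈ 𝒜.dom i)
    (hj : x ∈ 𝒜.dom j) (hx : 𝒜.e i x ∈ (𝒜.F i).S (ψ i)) : 𝒜.e j x ∈ (𝒜.F j).S (ψ j) := by
  by_contra hcon
  simp only [Frame.S, mem_ofPred_eq, not_or, not_not] at hcon
  obtain ⟨h1, h2, h3⟩ := hcon
  have e0 := h.compat i j x hi hj
  have e1 := h.compat_f i j x hi hj
  have e2 := h.compat_P i j x hi hj
  simp only [h2, h3, norm_zero] at e1 e2
  rw [e1] at e2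
  rw [h1] at e0
  have e3 : (𝒜.F i).f (ψ i) (𝒜.e i x) = 0 := by simpa using e1
  have e4 : (𝒜.F i).p (ψ i) (𝒜.e i x) = 0 := by simpa using e2
  rcases hx with hx | hx | hx
  · exact hx e0
  · exact hx e3
  · exact hx e4

lemma IsEig.glob_compat_q (h : 𝒜.IsEig lam φ ψ) (eps : ℝ) :
    𝒜.Compat fun i => (𝒜.F i).q lam eps (ψ i) := fun i j x hi hj => by
  have e0 := h.compat i j x hi hj
  have e1 := h.compat_f i j x hi hj
  simp only at e1
  simp only [Frame.q, sig, e0, e1]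

lemma IsEig.glob_compat_Q (h : 𝒜.IsEig lam φ ψ) (eps L : ℝ) :
    𝒜.Compat fun i z =>
      (𝒜.F i).Q lam eps L (ψ i) z + (𝒜.F i).kap z * ‖(𝒜.F i).f (ψ i) z‖ ^ 2 :=
  fun i j x hi hj => by
  have e0 := h.glob_compat_q eps i j x hi hj
  have e1 := h.compat_P i j x hi hj
  simp only at e0 e1
  simp only [Frame.Q]
  rw [e0]
  linarith

end Atlas

lemma glob_kap_le {F : Frame} {K : Set Pl} {C lam eps L : ℝ} {φ : Pl → ℝ} {z : Pl}
    (hB : F.Bd K C) (hz : z ∈ K) (hl : 16 * C ≤ lam) (he : 0 < eps) (hL : 1 ≤ L) :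
    |F.kap z * ‖F.f φ z‖ ^ 2| ≤ F.Q lam eps L φ z / 2 := by
  have hC := hB.one_le
  have hl0 : 0 < lam := by linarith
  have h1 : ‖F.f φ z‖ ^ 2 ≤ F.q lam eps φ z := by
    have := sig_pos (φ := φ) hl0 he z
    simp only [Frame.q]
    linarith
  have h2 := F.q_pos (φ := φ) hl0 he z
  have h3 : 1 ≤ L ^ 2 := one_le_pow₀ hL
  have h4 : lam * F.q lam eps φ z ≤ F.Q lam eps L φ z := by
    have h5 : 0 ≤ lam * F.q lam eps φ z := by positivity
    simp only [Frame.Q]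
    nlinarith [sq_nonneg ‖F.p φ z‖]
  rw [abs_mul, abs_of_nonneg (sq_nonneg ‖F.f φ z‖)]
  have h6 : |F.kap z| * ‖F.f φ z‖ ^ 2 ≤ C * F.q lam eps φ z :=
    mul_le_mul (hB.kap_le z hz) h1 (sq_nonneg _) (by linarith)
  nlinarith

/-- integrating a pointwise lower bound for a Laplacian against the cutoff -/
lemma glob_local {F : Frame} {V : Set Pl} (hV : IsOpen V) {χ : Pl → ℝ} (hχ : Cut V χ) {C : ℝ}
    (hB : F.Bd (tsupport χ) C) {S : Set Pl} (hS : IsOpen S) {g u : Pl → ℝ}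
    (hg : Continuous g) (hu : ContinuousOn u V) {c lam s : ℝ} (hl : 0 ≤ lam)
    (hs : volume.real (S ∩ tsupport χ) ≤ s)
    (hgu : ∀ z ∈ tsupport χ, c * g z - 2 * lam * S.indicator 1 z ≤ u z) :
    c * (∫ z, χ z * g z * F.rho z) - 2 * lam * C * s ≤ ∫ z, χ z * u z * F.rho z := by
  have hC := hB.one_le
  rw [← integral_const_mul]
  refine glob_integral_le hS hχ.cpt.isCompact
    ((glob_int_cut F hV hχ hg.continuousOn).const_mul c) (glob_int_cut F hV hχ hu)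
    (by positivity) hs fun z => ?_
  by_cases hz : z ∈ tsupport χ
  · have h1 := hgu z hz
    have h2 : 0 ≤ χ z * F.rho z := mul_nonneg (hχ.nonneg z) (F.rho_pos z).le
    have h3 : χ z * F.rho z ≤ C := by
      have := mul_le_mul (hχ.le_one z) (hB.rho_le z hz) (F.rho_pos z).le zero_le_one
      linarith
    have h4 := mul_le_mul_of_nonneg_left h1 h2
    by_cases hzS : z ∈ S
    · rw [indicator_of_mem hzS] at h4
      rw [indicator_of_mem (show z ∈ S ∩ tsupport χ from ⟨hzS, hz⟩)]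
      simp only [Pi.one_apply] at h4 ⊢
      nlinarith [mul_le_mul_of_nonneg_left h3 hl]
    · rw [indicator_of_notMem hzS] at h4
      rw [indicator_of_notMem (show z ∉ S ∩ tsupport χ from fun h => hzS h.1)]
      nlinarith
  · rw [image_eq_zero_of_notMem_tsupport hz,
      indicator_of_notMem (show z ∉ S ∩ tsupport χ from fun h => hz h.2)]
    simp

/-- the correction term, moved onto the cutoff -/
lemma glob_corr {F : Frame} {V : Set Pl} (hV : IsOpen V) {χ : Pl → ℝ} (hχ : Cut V χ) {C B : ℝ}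
    (hB : F.Bd (tsupport χ) C) (hB0 : 0 ≤ B) (hlap : ∀ z, |F.lap χ z| ≤ B) {S : Set Pl}
    (hS : IsOpen S) {h : Pl → ℝ} (hh : ContDiffOn ℝ ∞ h V) {s : ℝ}
    (hs : volume.real (S ∩ tsupport χ) ≤ s) (h1 : ∀ z ∈ tsupport χ, |h z| ≤ 1)
    (h0 : ∀ z ∈ tsupport χ, z ∉ S → h z = 0) :
    -(B * C * s) ≤ ∫ z, χ z * F.lap h z * F.rho z := by
  have hC := hB.one_le
  rw [F.green hV hχ.sm hχ.cpt hχ.sub hh]
  have key := glob_integral_le (a := fun _ => 0) hS hχ.cpt.isCompact (integrable_zero _ _ _)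
    (glob_int_lapcut F hV hχ hh.continuousOn) (B := B * C) (by positivity) hs fun z => ?_
  · simpa using key
  by_cases hz : z ∈ tsupport χ
  · by_cases hzS : z ∈ S
    · rw [indicator_of_mem (show z ∈ S ∩ tsupport χ from ⟨hzS, hz⟩)]
      have h2 : |h z * F.lap χ z * F.rho z| ≤ 1 * B * C := by
        rw [abs_mul, abs_mul, abs_of_pos (F.rho_pos z)]
        exact mul_le_mul (mul_le_mul (h1 z hz) (hlap z) (abs_nonneg _) zero_le_one)
          (hB.rho_le z hz) (F.rho_pos z).le (by positivity)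
      have h3 := neg_abs_le (h z * F.lap χ z * F.rho z)
      simp only [Pi.one_apply]
      linarith
    · rw [indicator_of_notMem (show z ∉ S ∩ tsupport χ from fun h => hzS h.1), h0 z hz hzS]
      simp
  · rw [F.lap_eq_zero_of_notMem_tsupport hz,
      indicator_of_notMem (show z ∉ S ∩ tsupport χ from fun h => hz h.2)]
    simp

lemma glob_lap_bound (F : Frame) {V : Set Pl} {χ : Pl → ℝ} (hχ : Cut V χ) :
    ∃ B, ∀ z, |F.lap χ z| ≤ B := by
  obtain ⟨B, hB⟩ := hχ.cpt.isCompact.exists_bound_of_continuousOn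
    (F.sm_lap hχ.sm).continuous.continuousOn
  refine ⟨max B 0, fun z => ?_⟩
  by_cases hz : z ∈ tsupport χ
  · exact (hB z hz).trans (le_max_left _ _)
  · rw [F.lap_eq_zero_of_notMem_tsupport hz, abs_zero]
    exact le_max_right _ _

namespace Atlas

variable {M : Type*} [MeasurableSpace M] {μ : Measure M} (𝒜 : Atlas M μ)

/-- the two global integral bounds -/
theorem energy : ∃ C0 : ℝ, 0 < C0 ∧ ∃ lam0 : ℝ, ∀ lam, lam0 ≤ lam →
    ∀ (φ : M → ℝ) (ψ : Fin 𝒜.n → Pl → ℝ), 𝒜.IsEig lam φ ψ → ∀ s : ℝ,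
      (∀ i, volume.real ((𝒜.F i).S (ψ i) ∩ tsupport (𝒜.chiP i)) ≤ s) →
      ∀ eps : ℝ, 0 < eps → ∀ i,
        ∫ z, 𝒜.chiP i z * (𝒜.F i).g1 lam eps (ψ i) z * (𝒜.F i).rho z ≤ C0 * lam * s ∧
        ∀ L : ℝ, 1 ≤ L →
          ∫ z, 𝒜.chiP i z * (𝒜.F i).g2 lam eps L (ψ i) z * (𝒜.F i).rho z ≤ C0 * lam * s := by
  obtain ⟨C', hC'⟩ := 𝒜.exists_bd
  set C : ℝ := max C' 1 with hCdef
  have hC1 : 1 ≤ C := le_max_right _ _
  have hC : ∀ i, (𝒜.F i).Bd (tsupport (𝒜.chiP i)) C := fun i =>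
    (hC' i).mono Subset.rfl (le_max_left _ _)
  choose B' hB' using fun i => glob_lap_bound (𝒜.F i) (𝒜.cut i)
  obtain ⟨B'', hB''⟩ := Finite.bddAbove_range B'
  set B : ℝ := max B'' 0 with hBdef
  have hB0 : 0 ≤ B := le_max_right _ _
  have hB : ∀ i z, |(𝒜.F i).lap (𝒜.chiP i) z| ≤ B := fun i z =>
    (hB' i z).trans ((hB'' ⟨i, rfl⟩).trans (le_max_left _ _))
  have hn : (0 : ℝ) ≤ 𝒜.n := Nat.cast_nonneg _
  refine ⟨(𝒜.n + 1) * ((B + 1) * C), by positivity, 16 * C, fun lam hl φ ψ h s hs eps he i => ?_⟩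
  have hl1 : 1 ≤ lam := by linarith
  have hl0 : 0 < lam := by linarith
  have hs0 : 0 ≤ s := measureReal_nonneg.trans (hs i)
  have hS : ∀ j, IsOpen ((𝒜.F j).S (ψ j)) := fun j => (𝒜.F j).isOpen_S (h j).1.sm
  have hX : 0 ≤ C * lam * s := by positivity
  refine ⟨?_, fun L hL => ?_⟩
  · have hsm : ∀ j, ContDiff ℝ ∞ fun w => Real.log ((𝒜.F j).q lam eps (ψ j) w) := fun j =>
      ((𝒜.F j).sm_q (h j).1.sm).log fun w => ((𝒜.F j).q_pos hl0 he w).ne'
    have h0 := 𝒜.sum_integral_lap (G := fun j w => Real.log ((𝒜.F j).q lam eps (ψ j) w))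
      (fun j => (hsm j).contDiffOn) fun j k x hj hk => by
        have := h.glob_compat_q eps j k x hj hk
        simp only at this ⊢
        rw [this]
    have h1 := glob_sum_bound h0
      (a := fun j => 4 * ∫ z, 𝒜.chiP j z * (𝒜.F j).g1 lam eps (ψ j) z * (𝒜.F j).rho z)
      (b := 2 * lam * C * s)
      (fun j => mul_nonneg (by norm_num) (integral_nonneg fun z => mul_nonneg
        (mul_nonneg ((𝒜.cut j).nonneg z) ((𝒜.F j).g1_nonneg hl0 z)) ((𝒜.F j).rho_pos z).le))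
      (fun j => glob_local (𝒜.oV j) (𝒜.cut j) (hC j) (hS j)
        ((𝒜.F j).sm_g1 (h j).1.sm hl0 he).continuous
        ((𝒜.F j).sm_lap (hsm j)).continuous.continuousOn hl0.le (hs j)
        fun z hz => (h j).1.lap_log_q_ge ((𝒜.cut j).sub hz) (hC j) hz hl he) i
    nlinarith [mul_nonneg hn hX, mul_nonneg hB0 hX, mul_nonneg hn (mul_nonneg hB0 hX)]
  · set Qt : Fin 𝒜.n → Pl → ℝ := fun j z =>
      (𝒜.F j).Q lam eps L (ψ j) z + (𝒜.F j).kap z * ‖(𝒜.F j).f (ψ j) z‖ ^ 2 with hQt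
    have hQc : 𝒜.Compat Qt := h.glob_compat_Q eps L
    have hQpos : ∀ j z, 0 < (𝒜.F j).Q lam eps L (ψ j) z := fun j z =>
      (𝒜.F j).Q_pos hl0 he hL z
    have hcmp : ∀ j, ∀ z ∈ tsupport (𝒜.chiP j), (𝒜.F j).Q lam eps L (ψ j) z / 2 ≤ Qt j z ∧
        Qt j z ≤ 2 * (𝒜.F j).Q lam eps L (ψ j) z := fun j z hz => by
      have h1 := abs_le.1 (glob_kap_le (φ := ψ j) (hC j) hz hl he hL)
      have h2 := hQpos j z
      simp only [hQt]
      constructor <;> linarith [h1.1, h1.2]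
    have hQtpos : ∀ j, ∀ z ∈ 𝒜.V j, 0 < Qt j z := fun j z hz => by
      obtain ⟨k, hk, hk'⟩ := 𝒜.glob_exists_chart (𝒜.s j z)
      have h1 := hQc j k _ (𝒜.s_mem j z hz) hk
      rw [𝒜.e_s j z hz] at h1
      rw [h1]
      exact (half_pos (hQpos k _)).trans_le (hcmp k _ hk').1
    have hQtsm : ∀ j, ContDiff ℝ ∞ (Qt j) := fun j =>
      ((𝒜.F j).sm_Q (h j).1.sm).add
        ((𝒜.F j).sm_kap.mul (sm_normSq ((𝒜.F j).sm_f (h j).1.sm)))
    have hsm : ∀ j, ContDiff ℝ ∞ fun w => Real.log ((𝒜.F j).Q lam eps L (ψ j) w) := fun j =>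
      ((𝒜.F j).sm_Q (h j).1.sm).log fun w => (hQpos j w).ne'
    have hsmt : ∀ j, ContDiffOn ℝ ∞ (fun w => Real.log (Qt j w)) (𝒜.V j) := fun j =>
      (hQtsm j).contDiffOn.log fun w hw => (hQtpos j w hw).ne'
    have hsmh : ∀ j, ContDiffOn ℝ ∞
        (fun w => Real.log (Qt j w) - Real.log ((𝒜.F j).Q lam eps L (ψ j) w)) (𝒜.V j) :=
      fun j => (hsmt j).sub (hsm j).contDiffOn
    have h0 := 𝒜.sum_integral_lap (G := fun j w => Real.log (Qt j w)) hsmt
      fun j k x hj hk => by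
        have := hQc j k x hj hk
        simp only
        rw [this]
    have h1 := glob_sum_bound h0
      (a := fun j => 2 * ∫ z, 𝒜.chiP j z * (𝒜.F j).g2 lam eps L (ψ j) z * (𝒜.F j).rho z)
      (b := 2 * lam * C * s + B * C * s)
      (fun j => mul_nonneg (by norm_num) (integral_nonneg fun z => mul_nonneg
        (mul_nonneg ((𝒜.cut j).nonneg z) ((𝒜.F j).g2_nonneg hl0 z)) ((𝒜.F j).rho_pos z).le))
      (fun j => by
        have e1 := glob_local (𝒜.oV j) (𝒜.cut j) (hC j) (hS j)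
          ((𝒜.F j).sm_g2 (h j).1.sm hl0 he hL).continuous
          ((𝒜.F j).sm_lap (hsm j)).continuous.continuousOn hl0.le (hs j)
          fun z hz => (h j).1.lap_log_Q_ge ((𝒜.cut j).sub hz) (hC j) hz hl he hL
        have e2 := glob_corr (𝒜.oV j) (𝒜.cut j) (hC j) hB0 (hB j) (hS j) (hsmh j) (hs j)
          (fun z hz => glob_abs_log_le (hQpos j z) (hcmp j z hz).1 (hcmp j z hz).2)
          (fun z _ hz => by
            simp only [Frame.S, mem_ofPred_eq, not_or, not_not] at hz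
            simp only [hQt, hz.2.1, norm_zero]
            simp)
        have e3 := integral_add
          (glob_int_cut (𝒜.F j) (𝒜.oV j) (𝒜.cut j)
            ((𝒜.F j).sm_lap (hsm j)).continuous.continuousOn)
          (glob_int_cut (𝒜.F j) (𝒜.oV j) (𝒜.cut j) (glob_contOn_lap (𝒜.F j) (𝒜.oV j) (hsmh j)))
        have e4 : ∫ z, 𝒜.chiP j z * (𝒜.F j).lap (fun w => Real.log (Qt j w)) z * (𝒜.F j).rho z =
            ∫ z, (𝒜.chiP j z * (𝒜.F j).lap
              (fun w => Real.log ((𝒜.F j).Q lam eps L (ψ j) w)) z * (𝒜.F j).rho z +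
            𝒜.chiP j z * (𝒜.F j).lap (fun w => Real.log (Qt j w) -
              Real.log ((𝒜.F j).Q lam eps L (ψ j) w)) z * (𝒜.F j).rho z) := by
          refine integral_congr_ae (Eventually.of_forall fun z => ?_)
          simp only
          by_cases hz : z ∈ 𝒜.V j
          · rw [(𝒜.F j).lap_sub ((hsmt j).contDiffAt ((𝒜.oV j).mem_nhds hz))
              (hsm j).contDiffAt]
            ring
          · rw [image_eq_zero_of_notMem_tsupport fun h => hz ((𝒜.cut j).sub h)]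
            simp
        rw [e4, e3]
        linarith) i
    have hY : B * C * s ≤ B * (C * lam * s) := by
      have h2 : 0 ≤ B * C * s := by positivity
      nlinarith
    nlinarith [mul_nonneg hn hX, mul_nonneg hB0 hX, mul_nonneg hn (mul_nonneg hB0 hX),
      mul_le_mul_of_nonneg_left hY hn]

end Atlas

end Pool.Agent.P.MP_177f55_an
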