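import Pool.Agent.P.MP_177f55_an.Calc

/-! Divergence theorem, bounds on compact sets, maximum principle. -/

open MeasureTheory Set Filter Topology
open scoped ContDiff ComplexConjugate NNReal ENNReal

noncomputable section

namespace Pool.Agent.P.MP_177f55_an

lemma green_diffAt {E : Type*} [NormedAddCommGroup E] [NormedSpace ℝ E] {G : Pl → E} {z : Pl}
    (hG : ContDiffAt ℝ ∞ G z) : DifferentiableAt ℝ G z :=
  hG.differentiableAt (by simp)

lemma green_integrable_fderiv {W : Pl → ℂ} (hW : ContDiff ℝ ∞ W) (hc : HasCompactSupport W)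
    (v : Pl) : Integrable (fun z => fderiv ℝ W z v) :=
  ((hW.continuous_fderiv (by simp)).clm_apply continuous_const).integrable_of_hasCompactSupport
    (hc.fderiv_apply ℝ v)

lemma green_integral_fderiv {W : Pl → ℂ} (hW : ContDiff ℝ ∞ W) (hc : HasCompactSupport W)
    (v : Pl) : ∫ z, fderiv ℝ W z v = 0 := by
  have h := integral_mul_fderiv_eq_neg_fderiv_mul_of_integrable (μ := (volume : Measure Pl))
    (f := fun _ : Pl => (1 : ℂ)) (g := W) (v := v) (by simp)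
    (by simpa using green_integrable_fderiv hW hc v)
    (by simpa using hW.continuous.integrable_of_hasCompactSupport hc)
    (fun x _ => differentiableAt_const _) (fun x _ => green_diffAt hW.contDiffAt)
  simpa using h

lemma green_fderiv_mul {G H : Pl → ℂ} {z : Pl} (hG : DifferentiableAt ℝ G z)
    (hH : DifferentiableAt ℝ H z) (v : Pl) :
    fderiv ℝ (fun w => G w * H w) z v = fderiv ℝ G z v * H z + G z * fderiv ℝ H z v := by
  rw [fderiv_fun_mul hG hH]
  simp only [add_apply, smul_apply, smul_eq_mul]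
  ring

/-- smooth on `V` and zero off a closed subset of `V` gives smooth everywhere -/
lemma green_smooth_of_local {V K : Set Pl} (hK : IsClosed K) (hKV : K ⊆ V) {W : Pl → ℂ}
    (hW : ∀ z ∈ V, ContDiffAt ℝ ∞ W z) (h0 : ∀ z ∉ K, W z = 0) : ContDiff ℝ ∞ W := by
  refine contDiff_iff_contDiffAt.2 fun z => ?_
  by_cases hz : z ∈ K
  · exact hW z (hKV hz)
  · have : W =ᶠ[𝓝 z] fun _ => 0 := by
      filter_upwards [hK.isOpen_compl.mem_nhds hz] with w hw using h0 w hw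
    exact contDiffAt_const.congr_of_eventuallyEq this

lemma green_fderiv_apply {u : Pl → ℝ} (z : Pl) (s t : ℝ) :
    fderiv ℝ u z (s, t) = s * rx u z + t * ry u z := by
  have : ((s, t) : Pl) = s • ((1, 0) : Pl) + t • ((0, 1) : Pl) := by simp
  rw [this, map_add, map_smul, map_smul]
  simp [rx, ry]

lemma green_line {u : Pl → ℝ} (z : Pl) (s t τ : ℝ)
    (hu : DifferentiableAt ℝ u (z + τ • ((s, t) : Pl))) :
    HasDerivAt (fun τ : ℝ => u (z + τ • ((s, t) : Pl)))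
      (s * rx u (z + τ • ((s, t) : Pl)) + t * ry u (z + τ • ((s, t) : Pl))) τ := by
  have h1 : HasDerivAt (fun τ : ℝ => z + τ • ((s, t) : Pl)) ((s, t) : Pl) τ := by
    simpa using ((hasDerivAt_id τ).smul_const ((s, t) : Pl)).const_add z
  have h2 := hu.hasFDerivAt.comp_hasDerivAt τ h1
  rw [green_fderiv_apply] at h2
  exact h2

lemma green_deriv2_nonpos {g : ℝ → ℝ} (hc : ContinuousAt g 0) (hm : IsLocalMax g 0) :
    deriv (deriv g) 0 ≤ 0 := by
  by_contra hpos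
  push Not at hpos
  have hmin := isLocalMin_of_deriv_deriv_pos hpos hm.deriv_eq_zero hc
  have h1 : g =ᶠ[𝓝 0] fun _ => g 0 := by
    filter_upwards [hm, hmin] with x h1 h2 using le_antisymm h1 h2
  have h2 := h1.deriv.deriv_eq
  have h3 : deriv (fun _ : ℝ => g 0) = fun _ => 0 := by
    funext x
    simp
  rw [h3] at h2
  simp at h2
  exact hpos.ne' h2

lemma green_hess_nonpos {u : Pl → ℝ} {z : Pl} (hu : ContDiffAt ℝ ∞ u z) (hm : IsLocalMax u z)
    (s t : ℝ) : s * (s * rx (rx u) z + t * ry (rx u) z) +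
      t * (s * rx (ry u) z + t * ry (ry u) z) ≤ 0 := by
  set γ : ℝ → Pl := fun τ => z + τ • ((s, t) : Pl) with hγ
  have hγ0 : γ 0 = z := by simp [hγ]
  have hγc : Continuous γ := by fun_prop
  have hγt : Tendsto γ (𝓝 0) (𝓝 z) := hγ0 ▸ hγc.continuousAt.tendsto
  have hev : ∀ᶠ w in 𝓝 z, DifferentiableAt ℝ u w := by
    have h1 : ContDiffAt ℝ 1 u z := hu.of_le (by simp)
    exact (h1.eventually (by simp)).mono fun w hw => hw.differentiableAt (by simp)
  have hd1 : deriv (fun τ => u (γ τ)) =ᶠ[𝓝 0] fun τ => s * rx u (γ τ) + t * ry u (γ τ) := by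
    filter_upwards [hγt.eventually hev] with τ hτ using (green_line z s t τ hτ).deriv
  have hx : HasDerivAt (fun τ => rx u (γ τ)) (s * rx (rx u) z + t * ry (rx u) z) 0 := by
    have := green_line (u := rx u) z s t 0 (by simpa using green_diffAt (smAt_rx hu))
    simpa only [zero_smul, add_zero] using this
  have hy : HasDerivAt (fun τ => ry u (γ τ)) (s * rx (ry u) z + t * ry (ry u) z) 0 := by
    have := green_line (u := ry u) z s t 0 (by simpa using green_diffAt (smAt_ry hu))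
    simpa only [zero_smul, add_zero] using this
  have hd2 := ((hx.const_mul s).add (hy.const_mul t)).deriv
  have hc : ContinuousAt (fun τ => u (γ τ)) 0 :=
    ContinuousAt.comp (f := γ) (by rw [hγ0]; exact hu.continuousAt) hγc.continuousAt
  have hm' : IsLocalMax (fun τ => u (γ τ)) 0 := by
    have : IsLocalMax u (γ 0) := by rw [hγ0]; exact hm
    exact this.comp_continuous hγc.continuousAt
  have h := green_deriv2_nonpos hc hm'
  rw [hd1.deriv_eq] at h
  exact hd2 ▸ h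

namespace Frame

variable (F : Frame) {u v : Pl → ℝ} {z : Pl}

lemma integral_eth {W : Pl → ℂ} (hW : ContDiff ℝ ∞ W) (hc : HasCompactSupport W) :
    ∫ z, F.eth (-1) W z * (F.rho z : ℂ) = 0 := by
  have hr : ContDiff ℝ ∞ (fun w => (F.rho w : ℂ)) := sm_cx F.srho
  have ha : ContDiff ℝ ∞ (fun w => (F.rho w : ℂ) * F.a w) := hr.mul F.sa
  have hb : ContDiff ℝ ∞ (fun w => (F.rho w : ℂ) * F.b w) := hr.mul F.sb
  have hA : ContDiff ℝ ∞ (fun w => ((F.rho w : ℂ) * F.a w) * W w) := ha.mul hW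
  have hB : ContDiff ℝ ∞ (fun w => ((F.rho w : ℂ) * F.b w) * W w) := hb.mul hW
  have cA : HasCompactSupport (fun w => ((F.rho w : ℂ) * F.a w) * W w) := hc.mul_left
  have cB : HasCompactSupport (fun w => ((F.rho w : ℂ) * F.b w) * W w) := hc.mul_left
  have key : ∀ z, F.eth (-1) W z * (F.rho z : ℂ) =
      fderiv ℝ (fun w => ((F.rho w : ℂ) * F.a w) * W w) z (1, 0) +
        fderiv ℝ (fun w => ((F.rho w : ℂ) * F.b w) * W w) z (0, 1) := by
    intro z
    rw [green_fderiv_mul (green_diffAt ha.contDiffAt) (green_diffAt hW.contDiffAt),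
      green_fderiv_mul (green_diffAt hb.contDiffAt) (green_diffAt hW.contDiffAt)]
    have h0 : (F.rho z : ℂ) ≠ 0 := by exact_mod_cast (F.rho_pos z).ne'
    simp only [eth, D, tau, px, py]
    push_cast
    field_simp
    ring
  simp_rw [key]
  rw [integral_add (green_integrable_fderiv hA cA _) (green_integrable_fderiv hB cB _),
    green_integral_fderiv hA cA, green_integral_fderiv hB cB, add_zero]

lemma integral_ethb {W : Pl → ℂ} (hW : ContDiff ℝ ∞ W) (hc : HasCompactSupport W) :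
    ∫ z, F.ethb 1 W z * (F.rho z : ℂ) = 0 := by
  have hW' : ContDiff ℝ ∞ (fun w => conj (W w)) :=
    contDiff_iff_contDiffAt.2 fun z => smAt_conj hW.contDiffAt
  have hc' : HasCompactSupport (fun w => conj (W w)) :=
    hc.comp_left (g := fun c : ℂ => conj c) (by simp)
  have h := F.integral_eth hW' hc'
  have key : ∀ z, F.eth (-1) (fun w => conj (W w)) z * (F.rho z : ℂ) =
      conj (F.ethb 1 W z * (F.rho z : ℂ)) := by
    intro z
    rw [F.eth_conj (-1) (green_diffAt hW.contDiffAt)]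
    simp
  simp_rw [key] at h
  rw [integral_conj] at h
  simpa using h

/-- a function that is continuous on `V` and vanishes off a compact subset of `V` -/
lemma _root_.Pool.Agent.P.MP_177f55_an.integrable_of_contOn {V K : Set Pl} (hV : IsOpen V)
    (hK : IsCompact K) (hKV : K ⊆ V) {g : Pl → ℝ} (hg : ContinuousOn g V)
    (h0 : ∀ z ∉ K, g z = 0) : Continuous g ∧ Integrable g := by
  have hcont : Continuous g := by
    refine continuous_iff_continuousAt.2 fun z => ?_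
    by_cases hz : z ∈ K
    · exact hg.continuousAt (hV.mem_nhds (hKV hz))
    · have : g =ᶠ[𝓝 z] fun _ => 0 := by
        filter_upwards [hK.isClosed.isOpen_compl.mem_nhds hz] with w hw using h0 w hw
      exact continuousAt_const.congr_of_eventuallyEq this
  exact ⟨hcont, hcont.integrable_of_hasCompactSupport (HasCompactSupport.intro hK h0)⟩

lemma lap_eq_zero_of_notMem_tsupport (hz : z ∉ tsupport u) : F.lap u z = 0 := by
  have h : u =ᶠ[𝓝 z] fun _ => 0 := notMem_tsupport_iff_eventuallyEq.1 hz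
  rw [(F.lap_evEq h).eq_of_nhds, F.lap_const]

lemma green_cx_evEq (hz : z ∉ tsupport u) : cx u =ᶠ[𝓝 z] fun _ => 0 := by
  have h : u =ᶠ[𝓝 z] fun _ => 0 := notMem_tsupport_iff_eventuallyEq.1 hz
  filter_upwards [h] with w hw
  simp [cx, hw]

lemma D_eq_zero_of_notMem_tsupport (hz : z ∉ tsupport u) : F.D (cx u) z = 0 := by
  rw [(F.D_evEq (green_cx_evEq hz)).eq_of_nhds, F.D_const]

lemma green_Db_eq_zero (hz : z ∉ tsupport u) : F.Db (cx u) z = 0 := by
  rw [(F.Db_evEq (green_cx_evEq hz)).eq_of_nhds, F.Db_const]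

lemma green_eth_zero {W : Pl → ℂ} (k : ℝ) (h : W =ᶠ[𝓝 z] fun _ => 0) : F.eth k W z = 0 := by
  rw [(F.eth_evEq k h).eq_of_nhds]
  simp [eth, F.D_const]

lemma green_ethb_zero {W : Pl → ℂ} (k : ℝ) (h : W =ᶠ[𝓝 z] fun _ => 0) : F.ethb k W z = 0 := by
  rw [(F.ethb_evEq k h).eq_of_nhds]
  simp [ethb, F.Db_const]

/-- Green's second identity; `χ` need not be nonnegative -/
lemma green {V : Set Pl} (hV : IsOpen V) {χ h : Pl → ℝ} (hχ : ContDiff ℝ ∞ χ)
    (hc : HasCompactSupport χ) (hs : tsupport χ ⊆ V) (hh : ContDiffOn ℝ ∞ h V) :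
    ∫ z, χ z * F.lap h z * F.rho z = ∫ z, h z * F.lap χ z * F.rho z := by
  have hK : IsCompact (tsupport χ) := hc
  have hhA : ∀ z ∈ V, ContDiffAt ℝ ∞ h z := fun z hz => hh.contDiffAt (hV.mem_nhds hz)
  set W1 : Pl → ℂ := fun w => cx χ w * F.D (cx h) w with hW1
  set W2 : Pl → ℂ := fun w => cx h w * F.Db (cx χ) w with hW2
  have z1 : ∀ z ∉ tsupport χ, W1 z = 0 := by
    intro z hz
    simp [hW1, cx, image_eq_zero_of_notMem_tsupport hz]
  have z2 : ∀ z ∉ tsupport χ, W2 z = 0 := by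
    intro z hz
    simp [hW2, F.green_Db_eq_zero hz]
  have s1 : ContDiff ℝ ∞ W1 := green_smooth_of_local (isClosed_tsupport χ) hs
    (fun z hz => (smAt_cx hχ.contDiffAt).mul (F.smAt_D (smAt_cx (hhA z hz)))) z1
  have s2 : ContDiff ℝ ∞ W2 := green_smooth_of_local (isClosed_tsupport χ) hs
    (fun z hz => (smAt_cx (hhA z hz)).mul (F.smAt_Db (smAt_cx hχ.contDiffAt))) z2
  have c1 : HasCompactSupport W1 := HasCompactSupport.intro hK z1
  have c2 : HasCompactSupport W2 := HasCompactSupport.intro hK z2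
  have e1 : ∀ z ∉ tsupport χ, W1 =ᶠ[𝓝 z] fun _ => 0 := by
    intro z hz
    filter_upwards [(isClosed_tsupport χ).isOpen_compl.mem_nhds hz] with w hw using z1 w hw
  have e2 : ∀ z ∉ tsupport χ, W2 =ᶠ[𝓝 z] fun _ => 0 := by
    intro z hz
    filter_upwards [(isClosed_tsupport χ).isOpen_compl.mem_nhds hz] with w hw using z2 w hw
  have hr : Continuous (fun w => (F.rho w : ℂ)) := (sm_cx F.srho).continuous
  have i1 : Integrable (fun z => F.ethb 1 W1 z * (F.rho z : ℂ)) :=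
    ((F.sm_ethb 1 s1).continuous.mul hr).integrable_of_hasCompactSupport
      (HasCompactSupport.intro hK fun z hz => by simp [F.green_ethb_zero 1 (e1 z hz)])
  have i2 : Integrable (fun z => F.eth (-1) W2 z * (F.rho z : ℂ)) :=
    ((F.sm_eth (-1) s2).continuous.mul hr).integrable_of_hasCompactSupport
      (HasCompactSupport.intro hK fun z hz => by simp [F.green_eth_zero (-1) (e2 z hz)])
  have key : ∀ z, F.ethb 1 W1 z * (F.rho z : ℂ) - F.eth (-1) W2 z * (F.rho z : ℂ) =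
      (((χ z * F.lap h z * F.rho z - h z * F.lap χ z * F.rho z) / 4 : ℝ) : ℂ) := by
    intro z
    by_cases hz : z ∈ tsupport χ
    · have hzV := hs hz
      have a1 := F.ethb_mul 0 1 (green_diffAt (smAt_cx (hχ.contDiffAt (x := z))))
        (green_diffAt (F.smAt_D (smAt_cx (hhA z hzV))))
      have a2 := F.eth_mul 0 (-1) (green_diffAt (smAt_cx (hhA z hzV)))
        (green_diffAt (F.smAt_Db (smAt_cx (hχ.contDiffAt (x := z)))))
      rw [zero_add] at a1 a2
      rw [hW1, hW2, a1, a2, F.ethb_zero, F.eth_zero, F.ethb_D_cx (hhA z hzV),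
        F.eth_Db_cx hχ.contDiffAt]
      simp only [cx]
      push_cast
      ring
    · rw [F.green_ethb_zero 1 (e1 z hz), F.green_eth_zero (-1) (e2 z hz),
        image_eq_zero_of_notMem_tsupport hz, F.lap_eq_zero_of_notMem_tsupport hz]
      simp
  have h0 : ∫ z, (F.ethb 1 W1 z * (F.rho z : ℂ) - F.eth (-1) W2 z * (F.rho z : ℂ)) = 0 := by
    rw [integral_sub i1 i2, F.integral_ethb s1 c1, F.integral_eth s2 c2, sub_zero]
  simp_rw [key] at h0
  rw [integral_complex_ofReal, integral_div] at h0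
  have j1 : Integrable (fun z => χ z * F.lap h z * F.rho z) :=
    (integrable_of_contOn hV hK hs
      ((hχ.continuous.continuousOn.mul
        (fun z hz => (F.smAt_lap (hhA z hz)).continuousAt.continuousWithinAt)).mul
        F.srho.continuous.continuousOn)
      (fun z hz => by simp [image_eq_zero_of_notMem_tsupport hz])).2
  have j2 : Integrable (fun z => h z * F.lap χ z * F.rho z) :=
    (integrable_of_contOn hV hK hs
      ((hh.continuousOn.mul (F.sm_lap hχ).continuous.continuousOn).mul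
        F.srho.continuous.continuousOn)
      (fun z hz => by simp [F.lap_eq_zero_of_notMem_tsupport hz])).2
  rw [integral_sub j1 j2] at h0
  have h1 : ((∫ z, χ z * F.lap h z * F.rho z) - ∫ z, h z * F.lap χ z * F.rho z) / 4 = 0 := by
    exact_mod_cast h0
  linarith

lemma exists_bd {K : Set Pl} (hK : IsCompact K) : ∃ C, F.Bd K C := by
  set g : Pl → ℝ := fun z => ‖F.a z‖ + ‖F.b z‖ + F.rho z + (F.rho z)⁻¹ + |F.kap z| +
    ‖F.D (cx F.kap) z‖ + ‖F.ethb 1 F.a z‖ + ‖F.ethb 1 F.b z‖ with hg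
  have hgc : Continuous g :=
    ((((((F.sa.continuous.norm.add F.sb.continuous.norm).add F.srho.continuous).add
      (F.srho.continuous.inv₀ fun z => (F.rho_pos z).ne')).add F.sm_kap.continuous.abs).add
      (F.sm_D (sm_cx F.sm_kap)).continuous.norm).add (F.sm_ethb 1 F.sa).continuous.norm).add
      (F.sm_ethb 1 F.sb).continuous.norm
  obtain ⟨C, hC⟩ := hK.bddAbove_image hgc.continuousOn
  have hb : ∀ z ∈ K, ‖F.a z‖ + ‖F.b z‖ + F.rho z + (F.rho z)⁻¹ + |F.kap z| +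
      ‖F.D (cx F.kap) z‖ + ‖F.ethb 1 F.a z‖ + ‖F.ethb 1 F.b z‖ ≤ max C 1 :=
    fun z hz => (hC (mem_image_of_mem g hz)).trans (le_max_left _ _)
  have hall : ∀ z ∈ K, ‖F.a z‖ ≤ max C 1 ∧ ‖F.b z‖ ≤ max C 1 ∧ F.rho z ≤ max C 1 ∧
      (F.rho z)⁻¹ ≤ max C 1 ∧ |F.kap z| ≤ max C 1 ∧ ‖F.D (cx F.kap) z‖ ≤ max C 1 ∧
      ‖F.ethb 1 F.a z‖ ≤ max C 1 ∧ ‖F.ethb 1 F.b z‖ ≤ max C 1 := by
    intro z hz
    have h := hb z hz
    have p1 := norm_nonneg (F.a z)
    have p2 := norm_nonneg (F.b z)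
    have p3 := F.rho_pos z
    have p4 := inv_pos.2 (F.rho_pos z)
    have p5 := abs_nonneg (F.kap z)
    have p6 := norm_nonneg (F.D (cx F.kap) z)
    have p7 := norm_nonneg (F.ethb 1 F.a z)
    have p8 := norm_nonneg (F.ethb 1 F.b z)
    refine ⟨?_, ?_, ?_, ?_, ?_, ?_, ?_, ?_⟩ <;> linarith
  refine ⟨max C 1, le_max_right _ _, fun z hz => (hall z hz).1, fun z hz => (hall z hz).2.1,
    fun z hz => (hall z hz).2.2.1, fun z hz => ?_, fun z hz => (hall z hz).2.2.2.2.1,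
    fun z hz => (hall z hz).2.2.2.2.2.1, fun z hz => (hall z hz).2.2.2.2.2.2.1,
    fun z hz => (hall z hz).2.2.2.2.2.2.2⟩
  have h := mul_le_mul_of_nonneg_right (hall z hz).2.2.2.1 (F.rho_pos z).le
  rwa [inv_mul_cancel₀ (F.rho_pos z).ne'] at h

variable {F}

lemma Bd.mono {K K' : Set Pl} {C C' : ℝ} (h : F.Bd K C) (hK : K' ⊆ K) (hC : C ≤ C') :
    F.Bd K' C' :=
  ⟨h.one_le.trans hC, fun z hz => (h.a_le z (hK hz)).trans hC,
    fun z hz => (h.b_le z (hK hz)).trans hC, fun z hz => (h.rho_le z (hK hz)).trans hC,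
    fun z hz => (h.le_rho z (hK hz)).trans (mul_le_mul_of_nonneg_right hC (F.rho_pos z).le),
    fun z hz => (h.kap_le z (hK hz)).trans hC, fun z hz => (h.Dkap_le z (hK hz)).trans hC,
    fun z hz => (h.ea_le z (hK hz)).trans hC, fun z hz => (h.eb_le z (hK hz)).trans hC⟩

lemma green_coord_aux {ρ C t : ℝ} {c w : ℂ} (hρ : 0 < ρ) (hρC : ρ ≤ C) (hc : ‖c‖ ≤ C)
    (ht : |t| = 4 * ρ * |(conj c * w).im|) : |t| ≤ 4 * C ^ 2 * ‖w‖ := by
  have h1 : |(conj c * w).im| ≤ ‖c‖ * ‖w‖ := by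
    have := Complex.abs_im_le_norm (conj c * w)
    rwa [norm_mul, Complex.norm_conj] at this
  have h2 : ‖c‖ * ‖w‖ ≤ C * ‖w‖ := mul_le_mul_of_nonneg_right hc (norm_nonneg _)
  have h3 : 0 ≤ C * ‖w‖ := mul_nonneg (hρ.le.trans hρC) (norm_nonneg _)
  calc |t| = 4 * ρ * |(conj c * w).im| := ht
    _ ≤ 4 * ρ * (C * ‖w‖) := mul_le_mul_of_nonneg_left (h1.trans h2) (by positivity)
    _ ≤ 4 * C * (C * ‖w‖) := mul_le_mul_of_nonneg_right (by linarith) h3
    _ = 4 * C ^ 2 * ‖w‖ := by ring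

lemma Bd.coord_le {K : Set Pl} {C : ℝ} (h : F.Bd K C) (hz : z ∈ K) (s t : ℝ) :
    |s| ≤ 4 * C ^ 2 * ‖F.a z * (s : ℂ) + F.b z * (t : ℂ)‖ ∧
      |t| ≤ 4 * C ^ 2 * ‖F.a z * (s : ℂ) + F.b z * (t : ℂ)‖ := by
  have hd := F.det z
  have hρ := F.rho_pos z
  have h4 : (0 : ℝ) < 4 * F.rho z := by positivity
  simp only [Complex.mul_im, Complex.conj_re, Complex.conj_im] at hd
  constructor
  · refine green_coord_aux (c := F.b z) hρ (h.rho_le z hz) (h.b_le z hz) ?_
    rw [← abs_of_pos h4, ← abs_mul]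
    congr 1
    simp only [Complex.mul_im, Complex.conj_re, Complex.conj_im, Complex.add_re, Complex.add_im,
      Complex.mul_re, Complex.ofReal_re, Complex.ofReal_im]
    linear_combination s * hd
  · refine green_coord_aux (c := F.a z) hρ (h.rho_le z hz) (h.a_le z hz) ?_
    rw [← abs_of_pos h4, ← abs_mul, ← abs_neg t]
    congr 1
    simp only [Complex.mul_im, Complex.conj_re, Complex.conj_im, Complex.add_re, Complex.add_im,
      Complex.mul_re, Complex.ofReal_re, Complex.ofReal_im]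
    linear_combination (-t) * hd

lemma Bd.rx_le {K : Set Pl} {C : ℝ} (h : F.Bd K C) (hz : z ∈ K) (hu : DifferentiableAt ℝ u z) :
    |rx u z| ≤ 4 * C ^ 2 * ‖F.D (cx u) z‖ ∧ |ry u z| ≤ 4 * C ^ 2 * ‖F.D (cx u) z‖ := by
  rw [F.D_cx hu]
  exact h.coord_le hz _ _

variable (F)

lemma lap_nonpos_of_isLocalMax (hu : ContDiffAt ℝ ∞ u z) (hm : IsLocalMax u z) :
    F.lap u z ≤ 0 := by
  have hx0 : rx u z = 0 := by simp [rx, hm.fderiv_eq_zero]
  have hy0 : ry u z = 0 := by simp [ry, hm.fderiv_eq_zero]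
  have hev : ∀ᶠ w in 𝓝 z, DifferentiableAt ℝ u w := by
    have h1 : ContDiffAt ℝ 1 u z := hu.of_le (by simp)
    exact (h1.eventually (by simp)).mono fun w hw => hw.differentiableAt (by simp)
  have hD : F.D (cx u) =ᶠ[𝓝 z] fun w => F.a w * cx (rx u) w + F.b w * cx (ry u) w := by
    filter_upwards [hev] with w hw using F.D_cx hw
  have da : DifferentiableAt ℝ F.a z := green_diffAt F.sa.contDiffAt
  have db : DifferentiableAt ℝ F.b z := green_diffAt F.sb.contDiffAt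
  have dx : DifferentiableAt ℝ (rx u) z := green_diffAt (smAt_rx hu)
  have dy : DifferentiableAt ℝ (ry u) z := green_diffAt (smAt_ry hu)
  have a1 := F.ethb_mul 1 0 da (diffAt_cx dx)
  have a2 := F.ethb_mul 1 0 db (diffAt_cx dy)
  rw [add_zero] at a1 a2
  have hval : F.ethb 1 (F.D (cx u)) z =
      F.a z * conj (F.a z * (rx (rx u) z : ℂ) + F.b z * (ry (rx u) z : ℂ)) +
      F.b z * conj (F.a z * (rx (ry u) z : ℂ) + F.b z * (ry (ry u) z : ℂ)) := by
    rw [(F.ethb_evEq 1 hD).eq_of_nhds,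
      F.ethb_add 1 (da.fun_mul (diffAt_cx dx)) (db.fun_mul (diffAt_cx dy)), a1, a2, F.ethb_zero,
      F.ethb_zero, F.Db_cx dx, F.Db_cx dy, F.D_cx dx, F.D_cx dy]
    simp [cx, hx0, hy0]
  have h1 := green_hess_nonpos hu hm (F.a z).re (F.b z).re
  have h2 := green_hess_nonpos hu hm (F.a z).im (F.b z).im
  unfold lap
  rw [hval]
  simp only [Complex.add_re, Complex.mul_re, Complex.conj_re, Complex.conj_im, Complex.add_im,
    Complex.mul_im, Complex.ofReal_re, Complex.ofReal_im]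
  linarith

end Frame

/-- the squared Euclidean distance to `z0` -/
def sq2 (z0 z : Pl) : ℝ := (z.1 - z0.1) ^ 2 + (z.2 - z0.2) ^ 2

lemma sm_sq2 (z0 : Pl) : ContDiff ℝ ∞ (sq2 z0) := by
  unfold sq2
  fun_prop

lemma green_fderiv_fst (c : ℝ) (z v : Pl) : fderiv ℝ (fun w : Pl => w.1 - c) z v = v.1 := by
  rw [((hasFDerivAt_fst (𝕜 := ℝ) (p := z)).sub_const c).fderiv]
  rfl

lemma green_fderiv_snd (c : ℝ) (z v : Pl) : fderiv ℝ (fun w : Pl => w.2 - c) z v = v.2 := by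
  rw [((hasFDerivAt_snd (𝕜 := ℝ) (p := z)).sub_const c).fderiv]
  rfl

lemma green_fderiv_sq2 (z0 z v : Pl) :
    fderiv ℝ (sq2 z0) z v = 2 * (z.1 - z0.1) * v.1 + 2 * (z.2 - z0.2) * v.2 := by
  have h := (((hasFDerivAt_fst (𝕜 := ℝ) (p := z)).sub_const z0.1).pow 2).add
    (((hasFDerivAt_snd (𝕜 := ℝ) (p := z)).sub_const z0.2).pow 2)
  have h' : fderiv ℝ (sq2 z0) z = _ := h.fderiv
  rw [h']
  simp

lemma Frame.D_sq2 (F : Frame) (z0 z : Pl) : F.D (cx (sq2 z0)) z =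
    2 * (F.a z * ((z.1 - z0.1 : ℝ) : ℂ) + F.b z * ((z.2 - z0.2 : ℝ) : ℂ)) := by
  rw [F.D_cx (green_diffAt (sm_sq2 z0).contDiffAt)]
  simp only [rx, ry, green_fderiv_sq2]
  push_cast
  ring

lemma Frame.lap_sq2 (F : Frame) (z0 z : Pl) : F.lap (sq2 z0) z =
    8 * (‖F.a z‖ ^ 2 + ‖F.b z‖ ^ 2 + (z.1 - z0.1) * (F.ethb 1 F.a z).re +
      (z.2 - z0.2) * (F.ethb 1 F.b z).re) := by
  have hD : F.D (cx (sq2 z0)) = fun w => F.a w * cx (fun w : Pl => 2 * (w.1 - z0.1)) w +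
      F.b w * cx (fun w : Pl => 2 * (w.2 - z0.2)) w := by
    funext w
    rw [F.D_sq2]
    simp only [cx]
    push_cast
    ring
  have da : DifferentiableAt ℝ F.a z := green_diffAt F.sa.contDiffAt
  have db : DifferentiableAt ℝ F.b z := green_diffAt F.sb.contDiffAt
  have dx0 : DifferentiableAt ℝ (fun w : Pl => w.1 - z0.1) z := by fun_prop
  have dy0 : DifferentiableAt ℝ (fun w : Pl => w.2 - z0.2) z := by fun_prop
  have dx : DifferentiableAt ℝ (fun w : Pl => 2 * (w.1 - z0.1)) z := dx0.const_mul 2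
  have dy : DifferentiableAt ℝ (fun w : Pl => 2 * (w.2 - z0.2)) z := dy0.const_mul 2
  have a1 := F.ethb_mul 1 0 da (diffAt_cx dx)
  have a2 := F.ethb_mul 1 0 db (diffAt_cx dy)
  rw [add_zero] at a1 a2
  have b1 : F.D (cx fun w : Pl => 2 * (w.1 - z0.1)) z = 2 * F.a z := by
    rw [F.D_cx dx]
    simp only [rx, ry, fderiv_const_mul dx0, smul_apply, green_fderiv_fst]
    simp
    ring
  have b2 : F.D (cx fun w : Pl => 2 * (w.2 - z0.2)) z = 2 * F.b z := by
    rw [F.D_cx dy]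
    simp only [rx, ry, fderiv_const_mul dy0, smul_apply, green_fderiv_snd]
    simp
    ring
  unfold Frame.lap
  rw [hD, F.ethb_add 1 (da.fun_mul (diffAt_cx dx)) (db.fun_mul (diffAt_cx dy)), a1, a2, F.ethb_zero,
    F.ethb_zero, F.Db_cx dx, F.Db_cx dy, b1, b2, Complex.sq_norm, Complex.sq_norm,
    Complex.normSq_apply, Complex.normSq_apply]
  simp only [cx, Complex.add_re, Complex.mul_re, Complex.conj_re, Complex.conj_im,
    Complex.mul_im, Complex.ofReal_re, Complex.ofReal_im, Complex.re_ofNat, Complex.im_ofNat]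
  ring

lemma green_lap_sq2_ge {F : Frame} {K : Set Pl} {C : ℝ} (hB : F.Bd K C) {z0 w : Pl} {l : ℝ}
    (hl' : 8 * C ^ 2 * l ≤ 1) (hw : w ∈ K) (h1 : |w.1 - z0.1| ≤ l) (h2 : |w.2 - z0.2| ≤ l) :
    2 ≤ C * F.lap (sq2 z0) w := by
  have hC : 0 < C := lt_of_lt_of_le one_pos hB.one_le
  have hl : 0 ≤ l := (abs_nonneg _).trans h1
  have hρ := F.rho_pos w
  have hd := F.det w
  have e1 : |(conj (F.a w) * F.b w).im| ≤ ‖F.a w‖ * ‖F.b w‖ := by
    have := Complex.abs_im_le_norm (conj (F.a w) * F.b w)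
    rwa [norm_mul, Complex.norm_conj] at this
  have e2 : 1 ≤ 4 * F.rho w * (‖F.a w‖ * ‖F.b w‖) := by
    have := mul_le_mul_of_nonneg_left ((neg_le_abs _).trans e1) (by positivity : 0 ≤ 4 * F.rho w)
    linarith
  have e3 : 4 * F.rho w * (‖F.a w‖ * ‖F.b w‖) ≤ 4 * C * (‖F.a w‖ * ‖F.b w‖) :=
    mul_le_mul_of_nonneg_right (by linarith [hB.rho_le w hw]) (by positivity)
  have e4 : 4 * C * (‖F.a w‖ * ‖F.b w‖) ≤ 2 * C * (‖F.a w‖ ^ 2 + ‖F.b w‖ ^ 2) := by
    nlinarith [mul_nonneg hC.le (sq_nonneg (‖F.a w‖ - ‖F.b w‖))]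
  have e5 : |(w.1 - z0.1) * (F.ethb 1 F.a w).re| ≤ l * C := by
    rw [abs_mul]
    exact mul_le_mul h1 ((Complex.abs_re_le_norm _).trans (hB.ea_le w hw)) (abs_nonneg _) hl
  have e6 : |(w.2 - z0.2) * (F.ethb 1 F.b w).re| ≤ l * C := by
    rw [abs_mul]
    exact mul_le_mul h2 ((Complex.abs_re_le_norm _).trans (hB.eb_le w hw)) (abs_nonneg _) hl
  have e7 := mul_le_mul_of_nonneg_left (abs_le.1 e5).1 hC.le
  have e8 := mul_le_mul_of_nonneg_left (abs_le.1 e6).1 hC.le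
  rw [F.lap_sq2]
  nlinarith

/-- weak maximum principle on a small rectangle -/
theorem maxp {F : Frame} {K : Set Pl} {C : ℝ} (hB : F.Bd K C) {u : Pl → ℝ}
    (hu : ContDiff ℝ ∞ u) (z0 : Pl) {l Λ Mx x1 x2 y1 y2 : ℝ} (hl : 0 < l)
    (hl' : 8 * C ^ 2 * l ≤ 1) (hK : Metric.closedBall z0 l ⊆ K) (hΛ : 0 < Λ)
    (hR : Icc x1 x2 ×ˢ Icc y1 y2 ⊆ Metric.closedBall z0 l)
    (hlap : ∀ z ∈ Icc x1 x2 ×ˢ Icc y1 y2, -Λ ≤ F.lap u z)
    (hbd : ∀ z ∈ Icc x1 x2 ×ˢ Icc y1 y2,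
      (z.1 = x1 ∨ z.1 = x2 ∨ z.2 = y1 ∨ z.2 = y2) → u z ≤ Mx) :
    ∀ z ∈ Icc x1 x2 ×ˢ Icc y1 y2, u z ≤ Mx + 2 * C * Λ * l ^ 2 := by
  intro z hz
  have hC : 0 < C := lt_of_lt_of_le one_pos hB.one_le
  have hsq : ContDiff ℝ ∞ (fun w => C * Λ * sq2 z0 w) := contDiff_const.mul (sm_sq2 z0)
  have hv : ContDiff ℝ ∞ (fun w => u w + C * Λ * sq2 z0 w) := hu.add hsq
  obtain ⟨w, hw, hmax⟩ := (isCompact_Icc.prod isCompact_Icc).exists_isMaxOn ⟨z, hz⟩
    (hv.continuous.continuousOn (s := Icc x1 x2 ×ˢ Icc y1 y2))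
  have hwb := hR hw
  have hw12 : |w.1 - z0.1| ≤ l ∧ |w.2 - z0.2| ≤ l := by
    rw [Metric.mem_closedBall, Prod.dist_eq, max_le_iff, Real.dist_eq, Real.dist_eq] at hwb
    exact hwb
  by_cases hb : w.1 = x1 ∨ w.1 = x2 ∨ w.2 = y1 ∨ w.2 = y2
  · have h1 := hbd w hw hb
    have h2 : u z + C * Λ * sq2 z0 z ≤ u w + C * Λ * sq2 z0 w := hmax hz
    have h3 : 0 ≤ sq2 z0 z := by unfold sq2; positivity
    have h4 : sq2 z0 w ≤ 2 * l ^ 2 := by
      unfold sq2
      have := sq_le_sq' (abs_le.1 hw12.1).1 (abs_le.1 hw12.1).2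
      have := sq_le_sq' (abs_le.1 hw12.2).1 (abs_le.1 hw12.2).2
      linarith
    have h5 : 0 ≤ C * Λ := by positivity
    nlinarith [mul_nonneg h5 h3, mul_le_mul_of_nonneg_left h4 h5]
  · exfalso
    push Not at hb
    obtain ⟨⟨p1, p2⟩, p3, p4⟩ := hw
    have hn : Icc x1 x2 ×ˢ Icc y1 y2 ∈ 𝓝 w :=
      prod_mem_nhds (Icc_mem_nhds (lt_of_le_of_ne p1 hb.1.symm) (lt_of_le_of_ne p2 hb.2.1))
        (Icc_mem_nhds (lt_of_le_of_ne p3 hb.2.2.1.symm) (lt_of_le_of_ne p4 hb.2.2.2))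
    have h1 := F.lap_nonpos_of_isLocalMax hv.contDiffAt (hmax.isLocalMax hn)
    rw [F.lap_add hu.contDiffAt hsq.contDiffAt, F.lap_const_mul _ (sm_sq2 z0).contDiffAt] at h1
    have h2 := hlap w ⟨⟨p1, p2⟩, p3, p4⟩
    have h3 := green_lap_sq2_ge hB hl' (hK (hR ⟨⟨p1, p2⟩, p3, p4⟩)) hw12.1 hw12.2
    nlinarith [mul_le_mul_of_nonneg_left h3 hΛ.le]

end Pool.Agent.P.MP_177f55_an
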