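import Pool.Agent.P.MP_177f55_an.Defs

/-! Good lines in a square, and an averaging inequality. -/

open MeasureTheory Set Filter Topology
open scoped ContDiff ComplexConjugate NNReal ENNReal

noncomputable section

namespace Pool.Agent.P.MP_177f55_an

theorem lines_hasDerivAt_x {u : Pl → ℝ} (hu : ContDiff ℝ ∞ u) (x y : ℝ) :
    HasDerivAt (fun t : ℝ => u (t, y)) (rx u (x, y)) x := by
  have h1 : HasFDerivAt u (fderiv ℝ u (x, y)) (x, y) :=
    (hu.differentiable (by simp) (x, y)).hasFDerivAt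
  have h2 : HasDerivAt (fun t : ℝ => ((t, y) : Pl)) (1, 0) x :=
    (hasDerivAt_id x).prodMk (hasDerivAt_const x y)
  exact h1.comp_hasDerivAt x h2

theorem lines_hasDerivAt_y {u : Pl → ℝ} (hu : ContDiff ℝ ∞ u) (x y : ℝ) :
    HasDerivAt (fun t : ℝ => u (x, t)) (ry u (x, y)) y := by
  have h1 : HasFDerivAt u (fderiv ℝ u (x, y)) (x, y) :=
    (hu.differentiable (by simp) (x, y)).hasFDerivAt
  have h2 : HasDerivAt (fun t : ℝ => ((x, t) : Pl)) (0, 1) y :=
    (hasDerivAt_const y x).prodMk (hasDerivAt_id y)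
  exact h1.comp_hasDerivAt y h2

theorem lines_cont_rx {u : Pl → ℝ} (hu : ContDiff ℝ ∞ u) : Continuous (rx u) := by
  have h : Continuous (fderiv ℝ u) := hu.continuous_fderiv (by simp)
  exact h.clm_apply continuous_const

theorem lines_cont_ry {u : Pl → ℝ} (hu : ContDiff ℝ ∞ u) : Continuous (ry u) := by
  have h : Continuous (fderiv ℝ u) := hu.continuous_fderiv (by simp)
  exact h.clm_apply continuous_const

/-- supremum is at most average plus variation -/
theorem lines_sup_le {φ φ' : ℝ → ℝ} (hd : ∀ t, HasDerivAt φ (φ' t) t) (hc : Continuous φ')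
    (h0 : ∀ t, 0 ≤ φ t) {c l : ℝ} (hl : 0 < l) {x : ℝ} (hx : x ∈ Icc (c - l) (c + l)) :
    φ x ≤ ∫ t in Icc (c - l) (c + l), (|φ' t| + φ t / l) := by
  have hφ : Continuous φ := continuous_iff_continuousAt.2 fun t => (hd t).continuousAt
  obtain ⟨t0, ht0, hmin⟩ := (isCompact_Icc (a := c - l) (b := c + l)).exists_isMinOn
    ⟨x, hx⟩ hφ.continuousOn
  have i1 : IntegrableOn (fun t => |φ' t|) (Icc (c - l) (c + l)) :=
    hc.abs.continuousOn.integrableOn_Icc
  have i2 : IntegrableOn (fun t => φ t / l) (Icc (c - l) (c + l)) :=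
    (hφ.div_const l).continuousOn.integrableOn_Icc
  rw [integral_add i1 i2]
  have a1 : φ x - φ t0 ≤ ∫ t in Icc (c - l) (c + l), |φ' t| := by
    have e : ∫ t in t0..x, φ' t = φ x - φ t0 :=
      intervalIntegral.integral_eq_sub_of_hasDerivAt (fun t _ => hd t) (hc.intervalIntegrable _ _)
    rw [← e]
    calc ∫ t in t0..x, φ' t ≤ |∫ t in t0..x, φ' t| := le_abs_self _
      _ ≤ ∫ t in Set.uIoc t0 x, |φ' t| := by
          simpa [Real.norm_eq_abs] using
            intervalIntegral.norm_integral_le_integral_norm_uIoc (f := φ') (a := t0) (b := x)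
              (μ := volume)
      _ ≤ ∫ t in Icc (c - l) (c + l), |φ' t| := by
          refine setIntegral_mono_set i1 (Eventually.of_forall fun t => abs_nonneg _) ?_
          refine LE.le.eventuallyLE ?_
          exact uIoc_subset_uIcc.trans (uIcc_subset_Icc ht0 hx)
  have a2 : φ t0 ≤ ∫ t in Icc (c - l) (c + l), φ t / l := by
    have b1 : ∫ _t in Icc (c - l) (c + l), φ t0 / l ≤ ∫ t in Icc (c - l) (c + l), φ t / l := by
      refine setIntegral_mono_on continuous_const.continuousOn.integrableOn_Icc i2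
        measurableSet_Icc fun t ht => ?_
      exact div_le_div_of_nonneg_right (hmin ht) hl.le
    have b2 : ∫ _t in Icc (c - l) (c + l), φ t0 / l = 2 * φ t0 := by
      rw [setIntegral_const, Real.volume_real_Icc_of_le (by linarith), smul_eq_mul]
      field_simp
      ring
    have := h0 t0
    linarith
  linarith

/-- Markov and Fubini: few bad vertical lines -/
theorem lines_markov {g : Pl → ℝ} (hg : Continuous g) (h0 : ∀ z, 0 ≤ g z) {a1 a2 b1 b2 c : ℝ}
    (h : ∫ z in Icc a1 a2 ×ˢ Icc b1 b2, g z ≤ c) :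
    MeasurableSet {x : ℝ | 1 ≤ ∫ y in Icc b1 b2, g (x, y)} ∧
      volume.real ({x : ℝ | 1 ≤ ∫ y in Icc b1 b2, g (x, y)} ∩ Icc a1 a2) ≤ c := by
  have hH : Continuous fun x : ℝ => ∫ y in Icc b1 b2, g (x, y) :=
    continuous_parametric_integral_of_continuous (f := fun x y => g (x, y)) hg isCompact_Icc
  have hm : MeasurableSet {x : ℝ | 1 ≤ ∫ y in Icc b1 b2, g (x, y)} :=
    (isClosed_le continuous_const hH).measurableSet
  refine ⟨hm, ?_⟩
  have hi : IntegrableOn g (Icc a1 a2 ×ˢ Icc b1 b2) (volume.prod volume) :=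
    hg.continuousOn.integrableOn_compact (isCompact_Icc.prod isCompact_Icc)
  have e := setIntegral_prod g hi
  have k := mul_meas_ge_le_integral_of_nonneg (μ := volume.restrict (Icc a1 a2))
    (f := fun x : ℝ => ∫ y in Icc b1 b2, g (x, y))
    (Eventually.of_forall fun x => integral_nonneg fun y => h0 _)
    hH.continuousOn.integrableOn_Icc 1
  rw [one_mul, measureReal_restrict_apply hm, ← e] at k
  exact k.trans h

/-- a set of small measure does not contain much of a longer interval -/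
theorem lines_diff {Bad : Set ℝ} (hB : MeasurableSet Bad) {a1 a2 s t c : ℝ}
    (h : volume.real (Bad ∩ Icc a1 a2) ≤ c) (hs : a1 ≤ s) (hst : s ≤ t) (ht : t ≤ a2) :
    t - s - c ≤ volume.real (Icc s t \ Bad) := by
  have e := measureReal_inter_add_sdiff (μ := (volume : Measure ℝ)) (s := Icc s t) hB
    (by simp)
  rw [Real.volume_real_Icc_of_le hst] at e
  have k : volume.real (Icc s t ∩ Bad) ≤ volume.real (Bad ∩ Icc a1 a2) := by
    refine measureReal_mono (fun x hx => ⟨hx.2, Icc_subset_Icc hs ht hx.1⟩) ?_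
    exact ((measure_mono inter_subset_right).trans_lt (by simp)).ne
  linarith

theorem lines_exists {Bad : Set ℝ} (hB : MeasurableSet Bad) {a1 a2 s t c : ℝ}
    (h : volume.real (Bad ∩ Icc a1 a2) ≤ c) (hs : a1 ≤ s) (hst : s ≤ t) (ht : t ≤ a2)
    (hc : c < t - s) : ∃ x ∈ Icc s t, x ∉ Bad := by
  have k := lines_diff hB h hs hst ht
  by_contra hne
  have : Icc s t \ Bad = ∅ := by
    refine eq_empty_of_forall_notMem fun x hx => hne ⟨x, hx.1, hx.2⟩
  rw [this, measureReal_empty] at k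
  linarith

theorem lines_mvt {φ φ' : ℝ → ℝ} (hd : ∀ t, HasDerivAt φ (φ' t) t) {c l B : ℝ} (hB : 0 ≤ B)
    (hb : ∀ t ∈ Icc (c - l) (c + l), |φ' t| ≤ B) {s t : ℝ} (hs : s ∈ Icc (c - l) (c + l))
    (ht : t ∈ Icc (c - l) (c + l)) : |φ t - φ s| ≤ 2 * B * l := by
  have k := (convex_Icc (c - l) (c + l)).norm_image_sub_le_of_norm_hasDerivWithin_le
    (f := φ) (f' := φ') (C := B) (fun x _ => (hd x).hasDerivWithinAt)
    (fun x hx => by simpa [Real.norm_eq_abs] using hb x hx) hs ht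
  rw [Real.norm_eq_abs, Real.norm_eq_abs] at k
  have k2 : |t - s| ≤ 2 * l := by
    rw [abs_le]
    constructor <;> linarith [hs.1, hs.2, ht.1, ht.2]
  calc |φ t - φ s| ≤ B * |t - s| := k
    _ ≤ B * (2 * l) := mul_le_mul_of_nonneg_left k2 hB
    _ = 2 * B * l := by ring

theorem lines {u o : Pl → ℝ} (hu : ContDiff ℝ ∞ u) (ho : ContDiff ℝ ∞ o) (ho0 : ∀ z, 0 ≤ o z)
    (z0 : Pl) {l B : ℝ} (hl : 0 < l) (hB : 0 ≤ B)
    (hgrad : ∀ z ∈ Metric.closedBall z0 l, o z < 1 → |rx u z| ≤ B ∧ |ry u z| ≤ B)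
    (hint : ∫ z in Metric.closedBall z0 l, (|rx o z| + |ry o z| + o z / l) ≤ l / 16) :
    ∃ (m x1 x2 y1 y2 : ℝ) (Y : Set ℝ), x1 ∈ Icc (z0.1 - l) (z0.1 - l / 2) ∧
      x2 ∈ Icc (z0.1 + l / 2) (z0.1 + l) ∧ y1 ∈ Icc (z0.2 - l) (z0.2 - l / 2) ∧
      y2 ∈ Icc (z0.2 + l / 2) (z0.2 + l) ∧ MeasurableSet Y ∧
      Y ⊆ Icc (z0.2 - l / 8) (z0.2 + l / 8) ∧ l / 8 ≤ volume.real Y ∧
      ∀ z ∈ Icc x1 x2 ×ˢ Icc y1 y2,
        (z.1 = x1 ∨ z.1 = x2 ∨ z.2 = y1 ∨ z.2 = y2 ∨ z.2 ∈ Y) → |u z - m| ≤ 4 * B * l := by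
  obtain ⟨a, b⟩ := z0
  have hball : Metric.closedBall ((a, b) : Pl) l = Icc (a - l) (a + l) ×ˢ Icc (b - l) (b + l) := by
    rw [← closedBall_prod_same, Real.closedBall_eq_Icc, Real.closedBall_eq_Icc]
  rw [hball] at hgrad hint
  dsimp only
  set g : Pl → ℝ := fun z => |rx o z| + |ry o z| + o z / l with hgdef
  have hoc : Continuous o := ho.continuous
  have hgc : Continuous g :=
    ((lines_cont_rx ho).abs.add (lines_cont_ry ho).abs).add (hoc.div_const l)
  have hg0 : ∀ z, 0 ≤ g z := fun z =>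
    add_nonneg (add_nonneg (abs_nonneg _) (abs_nonneg _)) (div_nonneg (ho0 z) hl.le)
  obtain ⟨mX, hX⟩ := lines_markov hgc hg0 hint
  have hint' : ∫ z in Icc (b - l) (b + l) ×ˢ Icc (a - l) (a + l), g z.swap ≤ l / 16 := by
    have e := setIntegral_prod_swap (μ := (volume : Measure ℝ)) (ν := (volume : Measure ℝ))
      (Icc (a - l) (a + l)) (Icc (b - l) (b + l)) g
    exact (le_of_eq e).trans hint
  obtain ⟨mY, hY⟩ := lines_markov (g := fun z : Pl => g z.swap) (hgc.comp continuous_swap)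
    (fun z => hg0 _) hint'
  set BX : Set ℝ := {x : ℝ | 1 ≤ ∫ y in Icc (b - l) (b + l), g (x, y)} with hBX
  set BY : Set ℝ := {y : ℝ | 1 ≤ ∫ x in Icc (a - l) (a + l), g (Prod.swap (y, x))} with hBY
  -- good vertical lines
  have gx : ∀ x ∈ Icc (a - l) (a + l), x ∉ BX → ∀ s ∈ Icc (b - l) (b + l),
      ∀ t ∈ Icc (b - l) (b + l), |u (x, t) - u (x, s)| ≤ 2 * B * l := by
    intro x hx hgood s hs t ht
    refine lines_mvt (φ := fun t => u (x, t)) (lines_hasDerivAt_y hu x) hB (fun w hw => ?_) hs ht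
    refine (hgrad (x, w) ⟨hx, hw⟩ ?_).2
    have hc : Continuous fun t : ℝ => ry o (x, t) := (lines_cont_ry ho).comp (by fun_prop)
    have k := lines_sup_le (φ := fun t => o (x, t)) (lines_hasDerivAt_y ho x) hc
      (fun t => ho0 _) hl hw
    have k2 : ∫ t in Icc (b - l) (b + l), (|ry o (x, t)| + o (x, t) / l) ≤
        ∫ t in Icc (b - l) (b + l), g (x, t) := by
      refine setIntegral_mono_on ?_ ?_ measurableSet_Icc fun t _ => ?_
      · exact (hc.abs.add ((hoc.comp (by fun_prop)).div_const l)).continuousOn.integrableOn_Icc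
      · exact (hgc.comp (by fun_prop)).continuousOn.integrableOn_Icc
      · have := abs_nonneg (rx o (x, t))
        simp only [hgdef]
        linarith
    have k3 : ∫ t in Icc (b - l) (b + l), g (x, t) < 1 := not_le.1 hgood
    exact (k.trans k2).trans_lt k3
  -- good horizontal lines
  have gy : ∀ y ∈ Icc (b - l) (b + l), y ∉ BY → ∀ s ∈ Icc (a - l) (a + l),
      ∀ t ∈ Icc (a - l) (a + l), |u (t, y) - u (s, y)| ≤ 2 * B * l := by
    intro y hy hgood s hs t ht
    refine lines_mvt (φ := fun t => u (t, y)) (fun t => lines_hasDerivAt_x hu t y) hB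
      (fun w hw => ?_) hs ht
    refine (hgrad (w, y) ⟨hw, hy⟩ ?_).1
    have hc : Continuous fun t : ℝ => rx o (t, y) := (lines_cont_rx ho).comp (by fun_prop)
    have k := lines_sup_le (φ := fun t => o (t, y)) (fun t => lines_hasDerivAt_x ho t y) hc
      (fun t => ho0 _) hl hw
    have k2 : ∫ t in Icc (a - l) (a + l), (|rx o (t, y)| + o (t, y) / l) ≤
        ∫ t in Icc (a - l) (a + l), g (t, y) := by
      refine setIntegral_mono_on ?_ ?_ measurableSet_Icc fun t _ => ?_
      · exact (hc.abs.add ((hoc.comp (by fun_prop)).div_const l)).continuousOn.integrableOn_Icc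
      · exact (hgc.comp (by fun_prop)).continuousOn.integrableOn_Icc
      · have := abs_nonneg (ry o (t, y))
        simp only [hgdef]
        linarith
    have k3 : ∫ t in Icc (a - l) (a + l), g (t, y) < 1 := not_le.1 hgood
    exact (k.trans k2).trans_lt k3
  obtain ⟨x1, hx1, g1⟩ := lines_exists (s := a - l) (t := a - l / 2) mX hX le_rfl
    (by linarith) (by linarith) (by linarith)
  obtain ⟨x2, hx2, g2⟩ := lines_exists (s := a + l / 2) (t := a + l) mX hX (by linarith)
    (by linarith) le_rfl (by linarith)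
  obtain ⟨y1, hy1, g3⟩ := lines_exists (s := b - l) (t := b - l / 2) mY hY le_rfl
    (by linarith) (by linarith) (by linarith)
  obtain ⟨y2, hy2, g4⟩ := lines_exists (s := b + l / 2) (t := b + l) mY hY (by linarith)
    (by linarith) le_rfl (by linarith)
  have hYv := lines_diff (s := b - l / 8) (t := b + l / 8) mY hY (by linarith) (by linarith)
    (by linarith)
  refine ⟨u (x1, y1), x1, x2, y1, y2, Icc (b - l / 8) (b + l / 8) \ BY, hx1, hx2, hy1, hy2,
    measurableSet_Icc.diff mY, sdiff_subset, by linarith, ?_⟩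
  rintro ⟨x, y⟩ ⟨hx, hy⟩ hz
  dsimp only at hx hy hz
  have ix1 : x1 ∈ Icc (a - l) (a + l) := ⟨hx1.1, by linarith [hx1.2]⟩
  have ix2 : x2 ∈ Icc (a - l) (a + l) := ⟨by linarith [hx2.1], hx2.2⟩
  have iy1 : y1 ∈ Icc (b - l) (b + l) := ⟨hy1.1, by linarith [hy1.2]⟩
  have ix : x ∈ Icc (a - l) (a + l) := ⟨ix1.1.trans hx.1, hx.2.trans ix2.2⟩
  have iy : y ∈ Icc (b - l) (b + l) := ⟨hy1.1.trans hy.1, hy.2.trans hy2.2⟩
  have hBl : 0 ≤ B * l := mul_nonneg hB hl.le
  have vert : x ∉ BX → |u (x, y) - u (x1, y1)| ≤ 4 * B * l := by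
    intro h
    have k1 := gx x ix h y1 iy1 y iy
    have k2 := gy y1 iy1 g3 x1 ix1 x ix
    have k3 := abs_sub_le (u (x, y)) (u (x, y1)) (u (x1, y1))
    linarith
  have hori : y ∉ BY → |u (x, y) - u (x1, y1)| ≤ 4 * B * l := by
    intro h
    have k1 := gy y iy h x1 ix1 x ix
    have k2 := gx x1 ix1 g1 y1 iy1 y iy
    have k3 := abs_sub_le (u (x, y)) (u (x1, y)) (u (x1, y1))
    linarith
  rcases hz with h | h | h | h | h
  · exact vert (h ▸ g1)
  · exact vert (h ▸ g2)
  · exact hori (h ▸ g3)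
  · exact hori (h ▸ g4)
  · exact hori h.2

theorem lines_vol_ball (z : Pl) {r : ℝ} (hr : 0 ≤ r) :
    volume (Metric.closedBall z r) = ENNReal.ofReal ((2 * r) ^ 2) := by
  obtain ⟨a, b⟩ := z
  rw [← closedBall_prod_same, Measure.volume_eq_prod, Measure.prod_prod, Real.volume_closedBall,
    Real.volume_closedBall, ← ENNReal.ofReal_mul (by linarith), sq]

theorem avg_le {g : Pl → ℝ≥0∞} (hg : Measurable g) {r : ℝ} (hr : 0 ≤ r) (τ : ℝ≥0∞) :
    τ * volume {z0 : Pl | τ ≤ ∫⁻ z in Metric.closedBall z0 r, g z} ≤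
      ENNReal.ofReal ((2 * r) ^ 2) * ∫⁻ z, g z := by
  set K : Pl → Pl → ℝ≥0∞ := fun z0 z => {p : Pl × Pl | dist p.2 p.1 ≤ r}.indicator
    (fun p => g p.2) (z0, z) with hK
  have hS : MeasurableSet {p : Pl × Pl | dist p.2 p.1 ≤ r} :=
    (isClosed_le (by fun_prop) continuous_const).measurableSet
  have hKm : Measurable (Function.uncurry K) :=
    (hg.comp measurable_snd).indicator hS
  have e1 : ∀ z0 : Pl, ∫⁻ z in Metric.closedBall z0 r, g z = ∫⁻ z, K z0 z := by
    intro z0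
    rw [← lintegral_indicator Metric.isClosed_closedBall.measurableSet]
    refine lintegral_congr fun z => ?_
    simp only [hK, indicator, Metric.mem_closedBall, mem_ofPred_eq]
  have e2 : ∀ z : Pl, ∫⁻ z0, K z0 z = ENNReal.ofReal ((2 * r) ^ 2) * g z := by
    intro z
    have : (fun z0 => K z0 z) = (Metric.closedBall z r).indicator fun _ => g z := by
      funext z0
      simp only [hK, indicator, Metric.mem_closedBall, mem_ofPred_eq, dist_comm z z0]
    rw [this, lintegral_indicator Metric.isClosed_closedBall.measurableSet, setLIntegral_const,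
      lines_vol_ball z hr, mul_comm]
  simp only [e1]
  calc τ * volume {z0 : Pl | τ ≤ ∫⁻ z, K z0 z} ≤ ∫⁻ z0, ∫⁻ z, K z0 z :=
        mul_meas_ge_le_lintegral hKm.lintegral_prod_right τ
    _ = ∫⁻ z, ∫⁻ z0, K z0 z := lintegral_lintegral_swap hKm.aemeasurable
    _ = ∫⁻ z, ENNReal.ofReal ((2 * r) ^ 2) * g z := by simp only [e2]
    _ = ENNReal.ofReal ((2 * r) ^ 2) * ∫⁻ z, g z := lintegral_const_mul _ hg

/-- real valued form for a nonnegative integrable function -/
theorem avg_le_real {g : Pl → ℝ} (hg : Measurable g) (hg0 : ∀ z, 0 ≤ g z) (hi : Integrable g)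
    {r τ : ℝ} (hr : 0 ≤ r) (hτ : 0 < τ) {Z : Set Pl}
    (hZ : ∀ z0 ∈ Z, τ ≤ ∫ z in Metric.closedBall z0 r, g z) :
    volume Z ≠ ⊤ ∧ τ * volume.real Z ≤ (2 * r) ^ 2 * ∫ z, g z := by
  have k := avg_le (g := fun z => ENNReal.ofReal (g z)) hg.ennreal_ofReal hr (ENNReal.ofReal τ)
  have hsub : Z ⊆ {z0 : Pl | ENNReal.ofReal τ ≤
      ∫⁻ z in Metric.closedBall z0 r, ENNReal.ofReal (g z)} := by
    intro z0 hz0
    rw [mem_ofPred_eq, ← ofReal_integral_eq_lintegral_ofReal hi.integrableOn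
      (Eventually.of_forall hg0)]
    exact ENNReal.ofReal_le_ofReal (hZ z0 hz0)
  rw [← ofReal_integral_eq_lintegral_ofReal hi (Eventually.of_forall hg0),
    ← ENNReal.ofReal_mul (sq_nonneg _)] at k
  have k2 : ENNReal.ofReal τ * volume Z ≤ ENNReal.ofReal ((2 * r) ^ 2 * ∫ z, g z) :=
    (mul_le_mul_right (measure_mono hsub) _).trans k
  have hne : volume Z ≠ ⊤ := by
    intro h
    rw [h, ENNReal.mul_top (by simpa using hτ)] at k2
    exact ENNReal.ofReal_ne_top (top_le_iff.1 k2)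
  refine ⟨hne, ?_⟩
  have k3 := ENNReal.toReal_mono ENNReal.ofReal_ne_top k2
  rw [ENNReal.toReal_mul, ENNReal.toReal_ofReal hτ.le,
    ENNReal.toReal_ofReal (mul_nonneg (sq_nonneg _) (integral_nonneg hg0))] at k3
  exact k3

end Pool.Agent.P.MP_177f55_an
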