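import Pool.Agent.P.MP_177f55_an.Calc

/-! The frame of a metric, and invariance of the coordinate Laplacian. -/

open MeasureTheory Set Filter Topology
open scoped ContDiff ComplexConjugate NNReal ENNReal

noncomputable section

namespace Pool.Agent.P.MP_177f55_an

section aux

lemma piola_fderiv_mul {G H : Pl → ℂ} {z : Pl} (hG : DifferentiableAt ℝ G z)
    (hH : DifferentiableAt ℝ H z) (v : Pl) :
    fderiv ℝ (fun w => G w * H w) z v = fderiv ℝ G z v * H z + G z * fderiv ℝ H z v := by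
  rw [fderiv_fun_mul hG hH]
  simp only [add_apply, smul_apply, smul_eq_mul]
  ring

lemma piola_fderiv_conj {G : Pl → ℂ} {z : Pl} (hG : DifferentiableAt ℝ G z) (v : Pl) :
    fderiv ℝ (fun w => conj (G w)) z v = conj (fderiv ℝ G z v) := by
  have h := (Complex.conjCLE.toContinuousLinearMap.hasFDerivAt (x := G z)).comp z hG.hasFDerivAt
  have h2 : HasFDerivAt (fun w => conj (G w))
      (Complex.conjCLE.toContinuousLinearMap.comp (fderiv ℝ G z)) z := h
  rw [h2.fderiv]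
  simp

lemma piola_fderiv_re {G : Pl → ℂ} {z : Pl} (hG : DifferentiableAt ℝ G z) (v : Pl) :
    fderiv ℝ (fun w => (G w).re) z v = (fderiv ℝ G z v).re := by
  have h := (Complex.reCLM.hasFDerivAt (x := G z)).comp z hG.hasFDerivAt
  have h2 : HasFDerivAt (fun w => (G w).re) (Complex.reCLM.comp (fderiv ℝ G z)) z := h
  rw [h2.fderiv]
  simp

lemma piola_rfderiv_mul {u v : Pl → ℝ} {z : Pl} (hu : DifferentiableAt ℝ u z)
    (hv : DifferentiableAt ℝ v z) (t : Pl) :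
    fderiv ℝ (fun w => u w * v w) z t = fderiv ℝ u z t * v z + u z * fderiv ℝ v z t := by
  rw [fderiv_fun_mul hu hv]
  simp only [add_apply, smul_apply, smul_eq_mul]
  ring

lemma piola_rx_evEq {u v : Pl → ℝ} {z : Pl} (h : u =ᶠ[𝓝 z] v) : rx u =ᶠ[𝓝 z] rx v := by
  filter_upwards [h.fderiv (𝕜 := ℝ)] with w hw
  simp only [rx, hw]

lemma piola_ry_evEq {u v : Pl → ℝ} {z : Pl} (h : u =ᶠ[𝓝 z] v) : ry u =ᶠ[𝓝 z] ry v := by
  filter_upwards [h.fderiv (𝕜 := ℝ)] with w hw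
  simp only [ry, hw]

/-- divergence form of `ethb 1` -/
lemma piola_ethb_div (Φ : Frame) {W : Pl → ℂ} {z : Pl} (hW : DifferentiableAt ℝ W z) :
    Φ.ethb 1 W z = (px (fun w => conj ((Φ.rho w : ℂ) * Φ.a w) * W w) z +
      py (fun w => conj ((Φ.rho w : ℂ) * Φ.b w) * W w) z) / (Φ.rho z : ℂ) := by
  have hr : DifferentiableAt ℝ (cx Φ.rho) z :=
    diffAt_cx (Φ.srho.differentiable (by simp) z)
  have ha : DifferentiableAt ℝ (fun w => (Φ.rho w : ℂ) * Φ.a w) z :=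
    hr.mul (Φ.sa.differentiable (by simp) z)
  have hb : DifferentiableAt ℝ (fun w => (Φ.rho w : ℂ) * Φ.b w) z :=
    hr.mul (Φ.sb.differentiable (by simp) z)
  have h0 : (Φ.rho z : ℂ) ≠ 0 := by exact_mod_cast (Φ.rho_pos z).ne'
  unfold Frame.ethb Frame.Db Frame.tau px py
  rw [piola_fderiv_mul (diffAt_conj ha) hW, piola_fderiv_mul (diffAt_conj hb) hW,
    piola_fderiv_conj ha, piola_fderiv_conj hb]
  simp only [map_div₀, map_add, map_mul, Complex.conj_ofReal]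
  field_simp
  push_cast
  ring

/-- divergence form of the Laplacian of a frame -/
lemma piola_lap_div (Φ : Frame) {u : Pl → ℝ} {z : Pl} (hu : ContDiffAt ℝ ∞ u z) :
    Φ.lap u z = (rx (fun w => 4 * (conj ((Φ.rho w : ℂ) * Φ.a w) * Φ.D (cx u) w).re) z +
      ry (fun w => 4 * (conj ((Φ.rho w : ℂ) * Φ.b w) * Φ.D (cx u) w).re) z) / Φ.rho z := by
  have hW : DifferentiableAt ℝ (Φ.D (cx u)) z :=
    (Φ.smAt_D (smAt_cx hu)).differentiableAt (by simp)
  have hr : DifferentiableAt ℝ (cx Φ.rho) z :=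
    diffAt_cx (Φ.srho.differentiable (by simp) z)
  have ha : DifferentiableAt ℝ (fun w => (Φ.rho w : ℂ) * Φ.a w) z :=
    hr.mul (Φ.sa.differentiable (by simp) z)
  have hb : DifferentiableAt ℝ (fun w => (Φ.rho w : ℂ) * Φ.b w) z :=
    hr.mul (Φ.sb.differentiable (by simp) z)
  have hA : DifferentiableAt ℝ (fun w => conj ((Φ.rho w : ℂ) * Φ.a w) * Φ.D (cx u) w) z :=
    (diffAt_conj ha).mul hW
  have hB : DifferentiableAt ℝ (fun w => conj ((Φ.rho w : ℂ) * Φ.b w) * Φ.D (cx u) w) z :=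
    (diffAt_conj hb).mul hW
  have hA' : DifferentiableAt ℝ
      (fun w => (conj ((Φ.rho w : ℂ) * Φ.a w) * Φ.D (cx u) w).re) z :=
    Complex.reCLM.differentiableAt.comp z hA
  have hB' : DifferentiableAt ℝ
      (fun w => (conj ((Φ.rho w : ℂ) * Φ.b w) * Φ.D (cx u) w).re) z :=
    Complex.reCLM.differentiableAt.comp z hB
  unfold Frame.lap
  rw [piola_ethb_div Φ hW, Complex.div_ofReal_re]
  unfold rx ry px py
  rw [fderiv_const_mul hA', fderiv_const_mul hB']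
  simp only [smul_apply, smul_eq_mul, piola_fderiv_re hA, piola_fderiv_re hB,
    Complex.add_re]
  ring

end aux

theorem exists_frame {E F G : Pl → ℝ} (hE : ContDiff ℝ ∞ E) (hF : ContDiff ℝ ∞ F)
    (hG : ContDiff ℝ ∞ G) (hpos : ∀ z, 0 < E z) (hdet : ∀ z, 0 < E z * G z - F z ^ 2) :
    ∃ Φ : Frame, (∀ z, Φ.rho z = √(E z * G z - F z ^ 2)) ∧
      ∀ (u : Pl → ℝ) (z : Pl), ContDiffAt ℝ ∞ u z → Φ.lap u z = lapC E F G u z := by
  obtain ⟨ρ, hρ⟩ : ∃ ρ : Pl → ℝ, ρ = fun z => √(E z * G z - F z ^ 2) := ⟨_, rfl⟩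
  obtain ⟨e, he⟩ : ∃ e : Pl → ℝ, e = fun z => √(E z) := ⟨_, rfl⟩
  have hρs : ContDiff ℝ ∞ ρ := by
    rw [hρ]
    exact ((hE.mul hG).sub (hF.pow 2)).sqrt fun z => (hdet z).ne'
  have hes : ContDiff ℝ ∞ e := by
    rw [he]
    exact hE.sqrt fun z => (hpos z).ne'
  have hρp : ∀ z, 0 < ρ z := fun z => by rw [hρ]; exact Real.sqrt_pos.2 (hdet z)
  have hep : ∀ z, 0 < e z := fun z => by rw [he]; exact Real.sqrt_pos.2 (hpos z)
  have hρ2 : ∀ z, ρ z ^ 2 = E z * G z - F z ^ 2 := fun z => by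
    rw [hρ]; exact Real.sq_sqrt (hdet z).le
  have he2 : ∀ z, e z ^ 2 = E z := fun z => by rw [he]; exact Real.sq_sqrt (hpos z).le
  have h1 : ContDiff ℝ ∞ fun z => 1 / (2 * e z) :=
    contDiff_const.div (contDiff_const.mul hes) fun z => by have := hep z; positivity
  have h2 : ContDiff ℝ ∞ fun z => F z / (2 * e z * ρ z) :=
    hF.div ((contDiff_const.mul hes).mul hρs) fun z => by
      have := hep z; have := hρp z; positivity
  have h3 : ContDiff ℝ ∞ fun z => -e z / (2 * ρ z) :=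
    hes.neg.div (contDiff_const.mul hρs) fun z => by have := hρp z; positivity
  let Φ : Frame :=
    { a := fun z => cx (fun z => 1 / (2 * e z)) z + cx (fun z => F z / (2 * e z * ρ z)) z * Complex.I
      b := fun z => cx (fun z => -e z / (2 * ρ z)) z * Complex.I
      rho := ρ
      sa := (sm_cx h1).add ((sm_cx h2).mul contDiff_const)
      sb := (sm_cx h3).mul contDiff_const
      srho := hρs
      rho_pos := hρp
      det := fun z => by
        have := hep z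
        have := hρp z
        simp only [cx, map_add, map_mul, Complex.conj_ofReal, Complex.conj_I, Complex.mul_im,
          Complex.add_re, Complex.add_im, Complex.mul_re, Complex.ofReal_re, Complex.ofReal_im,
          Complex.I_re, Complex.I_im, Complex.neg_re, Complex.neg_im]
        field_simp
        ring }
  refine ⟨Φ, fun z => by simp only [Φ, hρ], fun u z hu => ?_⟩
  rw [piola_lap_div Φ hu]
  have hev : ∀ᶠ w in 𝓝 z, DifferentiableAt ℝ u w := by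
    have h := (hu.of_le (m := 1) (by simp)).eventually (by simp)
    filter_upwards [h] with w hw using hw.differentiableAt (by simp)
  have hA : (fun w => 4 * (conj ((Φ.rho w : ℂ) * Φ.a w) * Φ.D (cx u) w).re) =ᶠ[𝓝 z]
      fun w => (G w * rx u w - F w * ry u w) / √(E w * G w - F w ^ 2) := by
    filter_upwards [hev] with w hw
    have h4 := hep w
    have h5 := hρp w
    have h6 : √(E w * G w - F w ^ 2) = ρ w := by rw [hρ]
    have h7 : G w = (ρ w ^ 2 + F w ^ 2) / e w ^ 2 := by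
      rw [hρ2, he2]
      have := hpos w
      field_simp
      ring
    rw [Φ.D_cx hw, h6, h7]
    simp only [Φ, cx, map_add, map_mul, Complex.conj_ofReal, Complex.conj_I, Complex.mul_im,
      Complex.add_re, Complex.add_im, Complex.mul_re, Complex.ofReal_re, Complex.ofReal_im,
      Complex.I_re, Complex.I_im, Complex.neg_re, Complex.neg_im]
    field_simp
    ring
  have hB : (fun w => 4 * (conj ((Φ.rho w : ℂ) * Φ.b w) * Φ.D (cx u) w).re) =ᶠ[𝓝 z]
      fun w => (E w * ry u w - F w * rx u w) / √(E w * G w - F w ^ 2) := by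
    filter_upwards [hev] with w hw
    have h4 := hep w
    have h5 := hρp w
    have h6 : √(E w * G w - F w ^ 2) = ρ w := by rw [hρ]
    rw [Φ.D_cx hw, h6, ← he2]
    simp only [Φ, cx, map_mul, Complex.conj_ofReal, Complex.conj_I, Complex.mul_im,
      Complex.add_re, Complex.add_im, Complex.mul_re, Complex.ofReal_re, Complex.ofReal_im,
      Complex.I_re, Complex.I_im, Complex.neg_re, Complex.neg_im]
    field_simp
    ring
  unfold lapC
  rw [(piola_rx_evEq hA).eq_of_nhds, (piola_ry_evEq hB).eq_of_nhds]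
  simp only [Φ, hρ]

theorem lapC_congr {E F G u E' F' G' u' : Pl → ℝ} {z : Pl} (hE : E =ᶠ[𝓝 z] E')
    (hF : F =ᶠ[𝓝 z] F') (hG : G =ᶠ[𝓝 z] G') (hu : u =ᶠ[𝓝 z] u') :
    lapC E F G u z = lapC E' F' G' u' z := by
  have hA : (fun w => (G w * rx u w - F w * ry u w) / √(E w * G w - F w ^ 2)) =ᶠ[𝓝 z]
      fun w => (G' w * rx u' w - F' w * ry u' w) / √(E' w * G' w - F' w ^ 2) := by
    filter_upwards [hE, hF, hG, piola_rx_evEq hu, piola_ry_evEq hu] with w h1 h2 h3 h4 h5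
    rw [h1, h2, h3, h4, h5]
  have hB : (fun w => (E w * ry u w - F w * rx u w) / √(E w * G w - F w ^ 2)) =ᶠ[𝓝 z]
      fun w => (E' w * ry u' w - F' w * rx u' w) / √(E' w * G' w - F' w ^ 2) := by
    filter_upwards [hE, hF, hG, piola_rx_evEq hu, piola_ry_evEq hu] with w h1 h2 h3 h4 h5
    rw [h1, h2, h3, h4, h5]
  unfold lapC
  rw [(piola_rx_evEq hA).eq_of_nhds, (piola_ry_evEq hB).eq_of_nhds, hE.eq_of_nhds, hF.eq_of_nhds,
    hG.eq_of_nhds]

/-- `(E, F, G)` is the pullback of `(E', F', G')` under `Φ` at `w` -/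
def Pullback (Φ : Pl → Pl) (E F G E' F' G' : Pl → ℝ) (w : Pl) : Prop :=
  ∀ a b : Pl, E w * a.1 * b.1 + F w * (a.1 * b.2 + a.2 * b.1) + G w * a.2 * b.2 =
    E' (Φ w) * (fderiv ℝ Φ w a).1 * (fderiv ℝ Φ w b).1 +
      F' (Φ w) * ((fderiv ℝ Φ w a).1 * (fderiv ℝ Φ w b).2 +
        (fderiv ℝ Φ w a).2 * (fderiv ℝ Φ w b).1) +
      G' (Φ w) * (fderiv ℝ Φ w a).2 * (fderiv ℝ Φ w b).2

lemma piola_det (A : Pl →L[ℝ] Pl) :
    A.det = (A (1, 0)).1 * (A (0, 1)).2 - (A (0, 1)).1 * (A (1, 0)).2 := by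
  unfold ContinuousLinearMap.det
  rw [← LinearMap.det_toMatrix (Module.Basis.finTwoProd ℝ), Matrix.det_fin_two]
  simp [LinearMap.toMatrix_apply]

lemma Pullback.coeff {Φ : Pl → Pl} {E F G E' F' G' : Pl → ℝ} {w : Pl}
    (h : Pullback Φ E F G E' F' G' w) {p q r s : ℝ} (hp : (fderiv ℝ Φ w (1, 0)).1 = p)
    (hq : (fderiv ℝ Φ w (0, 1)).1 = q) (hr : (fderiv ℝ Φ w (1, 0)).2 = r)
    (hs : (fderiv ℝ Φ w (0, 1)).2 = s) :
    E w = E' (Φ w) * p * p + F' (Φ w) * (p * r + r * p) + G' (Φ w) * r * r ∧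
    F w = E' (Φ w) * p * q + F' (Φ w) * (p * s + r * q) + G' (Φ w) * r * s ∧
    G w = E' (Φ w) * q * q + F' (Φ w) * (q * s + s * q) + G' (Φ w) * s * s := by
  have h1 := h (1, 0) (1, 0)
  have h2 := h (1, 0) (0, 1)
  have h3 := h (0, 1) (0, 1)
  simp only [hp, hq, hr, hs] at h1 h2 h3
  exact ⟨by linarith, by linarith, by linarith⟩

theorem Pullback.sqrt_det {Φ : Pl → Pl} {E F G E' F' G' : Pl → ℝ} {w : Pl}
    (h : Pullback Φ E F G E' F' G' w) :
    √(E w * G w - F w ^ 2) = |(fderiv ℝ Φ w).det| * √(E' (Φ w) * G' (Φ w) - F' (Φ w) ^ 2) := by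
  obtain ⟨h1, h2, h3⟩ := h.coeff rfl rfl rfl rfl
  rw [← Real.sqrt_sq_eq_abs, ← Real.sqrt_mul (sq_nonneg _), piola_det, h1, h2, h3]
  congr 1
  ring

lemma piola_chain {Φ : Pl → Pl} {X : Pl → ℝ} {w : Pl} (hΦ : DifferentiableAt ℝ Φ w)
    (hX : DifferentiableAt ℝ X (Φ w)) (v : Pl) :
    fderiv ℝ (fun y => X (Φ y)) w v =
      rx X (Φ w) * (fderiv ℝ Φ w v).1 + ry X (Φ w) * (fderiv ℝ Φ w v).2 := by
  have h : HasFDerivAt (fun y => X (Φ y)) ((fderiv ℝ X (Φ w)).comp (fderiv ℝ Φ w)) w :=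
    hX.hasFDerivAt.comp w hΦ.hasFDerivAt
  rw [h.fderiv, ContinuousLinearMap.comp_apply]
  generalize fderiv ℝ Φ w v = t
  have ht : t = t.1 • ((1, 0) : Pl) + t.2 • ((0, 1) : Pl) := by ext <;> simp
  conv_lhs => rw [ht]
  simp only [map_add, map_smul, smul_eq_mul, rx, ry]
  ring

lemma piola_fst {Φ : Pl → Pl} {w : Pl} (hΦ : DifferentiableAt ℝ Φ w) (v : Pl) :
    (fderiv ℝ Φ w v).1 = fderiv ℝ (fun y => (Φ y).1) w v := by
  rw [hΦ.hasFDerivAt.fst.fderiv]
  simp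

lemma piola_snd {Φ : Pl → Pl} {w : Pl} (hΦ : DifferentiableAt ℝ Φ w) (v : Pl) :
    (fderiv ℝ Φ w v).2 = fderiv ℝ (fun y => (Φ y).2) w v := by
  rw [hΦ.hasFDerivAt.snd.fderiv]
  simp

/-- the Piola identity for a vector field `(X, Y)` -/
lemma piola_div {Φ : Pl → Pl} {X Y : Pl → ℝ} {z : Pl} (hΦ : ContDiffAt ℝ ∞ Φ z)
    (hX : DifferentiableAt ℝ X (Φ z)) (hY : DifferentiableAt ℝ Y (Φ z)) (c : ℝ) :
    rx (fun w => c * (ry (fun y => (Φ y).2) w * X (Φ w) - ry (fun y => (Φ y).1) w * Y (Φ w))) z +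
      ry (fun w => c * (rx (fun y => (Φ y).1) w * Y (Φ w) - rx (fun y => (Φ y).2) w * X (Φ w))) z =
      c * (fderiv ℝ Φ z).det * (rx X (Φ z) + ry Y (Φ z)) := by
  have hd : DifferentiableAt ℝ Φ z := hΦ.differentiableAt (by simp)
  have h1 : ContDiffAt ℝ ∞ (fun y => (Φ y).1) z := hΦ.fst
  have h2 : ContDiffAt ℝ ∞ (fun y => (Φ y).2) z := hΦ.snd
  have hp : DifferentiableAt ℝ (rx fun y => (Φ y).1) z := (smAt_rx h1).differentiableAt (by simp)
  have hq : DifferentiableAt ℝ (ry fun y => (Φ y).1) z := (smAt_ry h1).differentiableAt (by simp)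
  have hr : DifferentiableAt ℝ (rx fun y => (Φ y).2) z := (smAt_rx h2).differentiableAt (by simp)
  have hs : DifferentiableAt ℝ (ry fun y => (Φ y).2) z := (smAt_ry h2).differentiableAt (by simp)
  have hXΦ : DifferentiableAt ℝ (fun y => X (Φ y)) z := hX.comp z hd
  have hYΦ : DifferentiableAt ℝ (fun y => Y (Φ y)) z := hY.comp z hd
  have c1 := rx_ry_comm h1
  have c2 := rx_ry_comm h2
  have e1 : ∀ v : Pl, fderiv ℝ (fun w => c * (ry (fun y => (Φ y).2) w * X (Φ w) -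
      ry (fun y => (Φ y).1) w * Y (Φ w))) z v =
      c * ((fderiv ℝ (ry fun y => (Φ y).2) z v * X (Φ z) +
        ry (fun y => (Φ y).2) z * fderiv ℝ (fun y => X (Φ y)) z v) -
        (fderiv ℝ (ry fun y => (Φ y).1) z v * Y (Φ z) +
        ry (fun y => (Φ y).1) z * fderiv ℝ (fun y => Y (Φ y)) z v)) := by
    intro v
    rw [fderiv_const_mul ((hs.fun_mul hXΦ).fun_sub (hq.fun_mul hYΦ)), smul_apply,
      fderiv_fun_sub (hs.fun_mul hXΦ) (hq.fun_mul hYΦ), sub_apply,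
      piola_rfderiv_mul hs hXΦ, piola_rfderiv_mul hq hYΦ, smul_eq_mul]
  have e2 : ∀ v : Pl, fderiv ℝ (fun w => c * (rx (fun y => (Φ y).1) w * Y (Φ w) -
      rx (fun y => (Φ y).2) w * X (Φ w))) z v =
      c * ((fderiv ℝ (rx fun y => (Φ y).1) z v * Y (Φ z) +
        rx (fun y => (Φ y).1) z * fderiv ℝ (fun y => Y (Φ y)) z v) -
        (fderiv ℝ (rx fun y => (Φ y).2) z v * X (Φ z) +
        rx (fun y => (Φ y).2) z * fderiv ℝ (fun y => X (Φ y)) z v)) := by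
    intro v
    rw [fderiv_const_mul ((hp.fun_mul hYΦ).fun_sub (hr.fun_mul hXΦ)), smul_apply,
      fderiv_fun_sub (hp.fun_mul hYΦ) (hr.fun_mul hXΦ), sub_apply,
      piola_rfderiv_mul hp hYΦ, piola_rfderiv_mul hr hXΦ, smul_eq_mul]
  have e1' := e1 (1, 0)
  have e2' := e2 (0, 1)
  rw [piola_chain hd hX, piola_chain hd hY, piola_fst hd, piola_snd hd] at e1' e2'
  rw [piola_det, piola_fst hd, piola_fst hd, piola_snd hd, piola_snd hd]
  unfold rx ry at *
  rw [e1', e2', c1, c2]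
  ring

theorem piola {Φ : Pl → Pl} {E F G u E' F' G' u' : Pl → ℝ} {z : Pl} (hΦ : ContDiffAt ℝ ∞ Φ z)
    (hE' : ContDiffAt ℝ ∞ E' (Φ z)) (hF' : ContDiffAt ℝ ∞ F' (Φ z))
    (hG' : ContDiffAt ℝ ∞ G' (Φ z)) (hu' : ContDiffAt ℝ ∞ u' (Φ z))
    (hdet : 0 < E z * G z - F z ^ 2) (hdet' : 0 < E' (Φ z) * G' (Φ z) - F' (Φ z) ^ 2)
    (hp : ∀ᶠ w in 𝓝 z, Pullback Φ E F G E' F' G' w) (hu : u =ᶠ[𝓝 z] fun w => u' (Φ w)) :
    lapC E F G u z = lapC E' F' G' u' (Φ z) := by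
  have hc : ContinuousAt Φ z := hΦ.continuousAt
  have hΦev : ∀ᶠ w in 𝓝 z, DifferentiableAt ℝ Φ w := by
    have h := (hΦ.of_le (m := 1) (by simp)).eventually (by simp)
    filter_upwards [h] with w hw using hw.differentiableAt (by simp)
  have hu'ev : ∀ᶠ w in 𝓝 z, DifferentiableAt ℝ u' (Φ w) := by
    have h := (hu'.of_le (m := 1) (by simp)).eventually (by simp)
    filter_upwards [hc.eventually h] with w hw using hw.differentiableAt (by simp)
  have hsq := hp.self_of_nhds.sqrt_det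
  have hd0 : (fderiv ℝ Φ z).det ≠ 0 := by
    intro h
    rw [h, abs_zero, zero_mul] at hsq
    exact (Real.sqrt_pos.2 hdet).ne' hsq
  have hdc : ContinuousAt (fun w => (fderiv ℝ Φ w).det) z := by
    have h1 : ContinuousAt (fderiv ℝ Φ) z :=
      (hΦ.fderiv_right (m := 0) (by simp)).continuousAt
    exact ContinuousLinearMap.continuous_det.continuousAt.comp h1
  obtain ⟨c, hc2, hcev⟩ : ∃ c : ℝ, c * c = 1 ∧ ∀ᶠ w in 𝓝 z,
      (fderiv ℝ Φ w).det ≠ 0 ∧ |(fderiv ℝ Φ w).det| = c * (fderiv ℝ Φ w).det := by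
    rcases lt_or_gt_of_ne hd0 with h | h
    · refine ⟨-1, by ring, ?_⟩
      filter_upwards [hdc.eventually (gt_mem_nhds h)] with w hw
      exact ⟨hw.ne, by rw [abs_of_neg hw]; ring⟩
    · refine ⟨1, by ring, ?_⟩
      filter_upwards [hdc.eventually (lt_mem_nhds h)] with w hw
      exact ⟨hw.ne', by rw [abs_of_pos hw]; ring⟩
  have hc0 : c ≠ 0 := by rintro rfl; simp at hc2
  have hρ' : ContDiffAt ℝ ∞ (fun y => √(E' y * G' y - F' y ^ 2)) (Φ z) :=
    ((hE'.mul hG').sub (hF'.pow 2)).sqrt hdet'.ne'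
  have hρ0 : √(E' (Φ z) * G' (Φ z) - F' (Φ z) ^ 2) ≠ 0 := (Real.sqrt_pos.2 hdet').ne'
  have hρev : ∀ᶠ w in 𝓝 z, √(E' (Φ w) * G' (Φ w) - F' (Φ w) ^ 2) ≠ 0 :=
    hc.eventually (hρ'.continuousAt.eventually_ne hρ0)
  obtain ⟨X, hXd⟩ : ∃ X : Pl → ℝ,
      X = fun w => (G' w * rx u' w - F' w * ry u' w) / √(E' w * G' w - F' w ^ 2) := ⟨_, rfl⟩
  obtain ⟨Y, hYd⟩ : ∃ Y : Pl → ℝ,
      Y = fun w => (E' w * ry u' w - F' w * rx u' w) / √(E' w * G' w - F' w ^ 2) := ⟨_, rfl⟩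
  have hX : DifferentiableAt ℝ X (Φ z) := by
    rw [hXd]
    exact (((hG'.mul (smAt_rx hu')).sub (hF'.mul (smAt_ry hu'))).div hρ' hρ0).differentiableAt
      (by simp)
  have hY : DifferentiableAt ℝ Y (Φ z) := by
    rw [hYd]
    exact (((hE'.mul (smAt_ry hu')).sub (hF'.mul (smAt_rx hu'))).div hρ' hρ0).differentiableAt
      (by simp)
  have key : ∀ᶠ w in 𝓝 z,
      (G w * rx u w - F w * ry u w) / √(E w * G w - F w ^ 2) =
        c * (ry (fun y => (Φ y).2) w * X (Φ w) - ry (fun y => (Φ y).1) w * Y (Φ w)) ∧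
      (E w * ry u w - F w * rx u w) / √(E w * G w - F w ^ 2) =
        c * (rx (fun y => (Φ y).1) w * Y (Φ w) - rx (fun y => (Φ y).2) w * X (Φ w)) := by
    filter_upwards [hΦev, hu'ev, hp, hcev, hρev, piola_rx_evEq hu, piola_ry_evEq hu] with
      w h1 h2 h3 h4 h5 h6 h7
    have e1 : rx u w = _ := h6.trans (piola_chain h1 h2 (1, 0))
    have e2 : ry u w = _ := h7.trans (piola_chain h1 h2 (0, 1))
    obtain ⟨h8, h9⟩ := h4
    have e3 := h3.sqrt_det
    rw [h9] at e3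
    rw [piola_det] at e3 h8
    obtain ⟨g1, g2, g3⟩ := h3.coeff rfl rfl rfl rfl
    rw [e3, e1, e2, g1, g2, g3, hXd, hYd]
    unfold rx ry
    simp only [← piola_fst h1, ← piola_snd h1]
    generalize √(E' (Φ w) * G' (Φ w) - F' (Φ w) ^ 2) = ρ at h5 ⊢
    generalize (fderiv ℝ Φ w (1, 0)).1 = p at h8 ⊢
    generalize (fderiv ℝ Φ w (0, 1)).1 = q at h8 ⊢
    generalize (fderiv ℝ Φ w (1, 0)).2 = r at h8 ⊢
    generalize (fderiv ℝ Φ w (0, 1)).2 = s at h8 ⊢
    generalize fderiv ℝ u' (Φ w) (1, 0) = α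
    generalize fderiv ℝ u' (Φ w) (0, 1) = β
    have hD : c * (p * s - q * r) * ρ ≠ 0 := mul_ne_zero (mul_ne_zero hc0 h8) h5
    constructor
    · rw [div_eq_iff hD]
      field_simp
      rw [sq c, hc2]
      ring
    · rw [div_eq_iff hD]
      field_simp
      rw [sq c, hc2]
      ring
  have hA : (fun w => (G w * rx u w - F w * ry u w) / √(E w * G w - F w ^ 2)) =ᶠ[𝓝 z]
      fun w => c * (ry (fun y => (Φ y).2) w * X (Φ w) - ry (fun y => (Φ y).1) w * Y (Φ w)) :=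
    key.mono fun w hw => hw.1
  have hB : (fun w => (E w * ry u w - F w * rx u w) / √(E w * G w - F w ^ 2)) =ᶠ[𝓝 z]
      fun w => c * (rx (fun y => (Φ y).1) w * Y (Φ w) - rx (fun y => (Φ y).2) w * X (Φ w)) :=
    key.mono fun w hw => hw.2
  unfold lapC
  rw [(piola_rx_evEq hA).eq_of_nhds, (piola_ry_evEq hB).eq_of_nhds, piola_div hΦ hX hY c, hsq,
    hcev.self_of_nhds.2, ← hXd, ← hYd]
  field_simp

end Pool.Agent.P.MP_177f55_an
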