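import Mathlib

/-! Riemannian manifolds modelled on a normed space `E` and their Laplace-Beltrami operator in
local coordinates. -/

open Bundle MeasureTheory
open scoped Manifold ContDiff

noncomputable section

namespace Pool.Agent.P.MP_177f55_an.G

variable (E : Type) [NormedAddCommGroup E] [NormedSpace ℝ E]

section

variable (M : Type*) [TopologicalSpace M] [ChartedSpace E M]

/-- the tangent space at `x` of a manifold modelled on `E` -/
abbrev Tan (x : M) : Type := TangentSpace 𝓘(ℝ, E) x

/-- an inner product on every tangent space -/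
abbrev Metr := RiemannianBundle fun x : M => TangentSpace 𝓘(ℝ, E) x

/-- `M` is a smooth manifold without boundary -/
abbrev SmoothMfd : Prop := IsManifold 𝓘(ℝ, E) ∞ M

/-- the inner products depend smoothly on the point -/
abbrev SmoothMetr [SmoothMfd E M] [Metr E M] : Prop :=
  IsContMDiffRiemannianBundle 𝓘(ℝ, E) ∞ E fun x : M => TangentSpace 𝓘(ℝ, E) x

variable {M}

/-- the inner product of two tangent vectors -/
def ip [Metr E M] (x : M) (v w : Tan E M x) : ℝ := inner ℝ v w

/-- the image of the vector `v` under the differential at `y` of a map `σ : E → M` -/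
def push (σ : E → M) (v y : E) : Tan E M (σ y) := mfderiv 𝓘(ℝ, E) 𝓘(ℝ, E) σ y v

/-- the image of the vector `v` under the differential at `y` of the inverse chart at `x₀` -/
def coordVec (x₀ : M) (v y : E) : Tan E M ((chartAt E x₀).symm y) :=
  push E (chartAt E x₀).symm v y

/-- smooth real functions on `M` -/
def Smooth (φ : M → ℝ) : Prop := ContMDiff 𝓘(ℝ, E) 𝓘(ℝ, ℝ) ∞ φ

variable {E}

/-- the derivative of `u` at `y` in the direction `v` -/
def dir (v : E) (u : E → ℝ) (y : E) : ℝ := fderiv ℝ u y v

variable [Metr E M] (b : Fin 2 → E)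

/-- the matrix `g_ij` of the metric in the chart at `x₀`, for the coordinate directions `b i` -/
def gMat (x₀ : M) (y : E) : Matrix (Fin 2) (Fin 2) ℝ :=
  Matrix.of fun i j => ip E _ (coordVec E x₀ (b i) y) (coordVec E x₀ (b j) y)

/-- `√(det g)` in the chart at `x₀` -/
def dens (x₀ : M) (y : E) : ℝ := √(gMat b x₀ y).det

/-- `(det g)^(-1/2) ∑_i ∂_i ((det g)^(1/2) ∑_j g^ij ∂_j φ)` in the chart at `x₀` -/
def lapChart (x₀ : M) (φ : M → ℝ) (y : E) : ℝ :=
  (dens b x₀ y)⁻¹ * ∑ i, dir (b i) (fun w => dens b x₀ w *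
    ∑ j, (gMat b x₀ w)⁻¹ i j * dir (b j) (fun v => φ ((chartAt E x₀).symm v)) w) y

/-- the Laplace-Beltrami operator, evaluated at `x` in the chart at `x` -/
def laplaceBeltrami (φ : M → ℝ) (x : M) : ℝ := lapChart b x φ (chartAt E x x)

/-- `φ` is a Laplace eigenfunction with eigenvalue `lam` -/
def IsEigenfunction (lam : ℝ) (φ : M → ℝ) : Prop :=
  Smooth E φ ∧ φ ≠ 0 ∧ ∀ x, laplaceBeltrami b φ x + lam * φ x = 0

end

/-- the distance of `M` is the Riemannian distance -/
abbrev RiemDist (M : Type*) [EMetricSpace M] [ChartedSpace E M] [Metr E M] : Prop :=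
  IsRiemannianManifold 𝓘(ℝ, E) M

/-- the ratio of the two-dimensional Hausdorff measures of the positivity and negativity sets -/
def signRatio {M : Type*} [EMetricSpace M] [MeasurableSpace M] [BorelSpace M] (φ : M → ℝ) : ℝ :=
  (μH[2] {x | 0 < φ x}).toReal / (μH[2] {x | φ x < 0}).toReal

/-- the coordinate plane -/
abbrev R2 := EuclideanSpace ℝ (Fin 2)

/-- its standard basis -/
def e2 (i : Fin 2) : R2 := EuclideanSpace.single i 1

end Pool.Agent.P.MP_177f55_an.G
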